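import Mathlib
import Pool.Agent.Lib.P23F.TypeBasic

/-!
# Definitions for the one-dependence theorem (MP_23d34e)

`ι` is a finite index set, `a : ι → E n` points of a Euclidean space with exactly one affine
dependence `μ`, whose support has at least four elements.  The type functions `Φ` and `IsType` are
those of `P23F`.
-/

set_option autoImplicit false

namespace P23D

/-- Euclidean space -/
abbrev E (n : ℕ) : Type := EuclideanSpace ℝ (Fin n)

/-- the quadratic form `- ∑ c i c j R i j` is positive definite on `∑ c i = 0` -/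
def Pos {ι : Type} [Fintype ι] (R : ι → ι → ℝ) : Prop :=
  ∀ c : ι → ℝ, ∑ i, c i = 0 → c ≠ 0 → ∑ i, ∑ j, c i * c j * R i j < 0

/-- squared distance matrix of affinely independent points -/
structure Good {ι : Type} [Fintype ι] (R : ι → ι → ℝ) : Prop where
  diag : ∀ i, R i i = 0
  symm : ∀ i j, R i j = R j i
  pos : Pos R

/-- `μ` spans the affine dependences of the points `a i`, and has at least four non-zero entries -/
structure Dep {ι : Type} [Fintype ι] {n : ℕ} (a : ι → E n) (μ : ι → ℝ) : Prop where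
  sum : ∑ i, μ i = 0
  suma : ∑ i, μ i • a i = 0
  ker : ∀ c : ι → ℝ, ∑ i, c i = 0 → ∑ i, c i • a i = 0 → ∃ t : ℝ, ∀ i, c i = t * μ i
  supp : ∃ f : Fin 4 → ι, Function.Injective f ∧ ∀ k, μ (f k) ≠ 0

/-- unit direction of a pair (zero on the diagonal) -/
noncomputable def dir {ι : Type} {n : ℕ} (a : ι → E n) (i j : ι) : E n :=
  ‖a i - a j‖⁻¹ • (a i - a j)

/-- the weight `μ i μ j ‖a i - a j‖²` of an ordered pair -/
noncomputable def wt {ι : Type} {n : ℕ} (a : ι → E n) (μ : ι → ℝ) (p : ι × ι) : ℝ :=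
  μ p.1 * μ p.2 * ‖a p.1 - a p.2‖ ^ 2

/-- the direction of an ordered pair -/
noncomputable def dr {ι : Type} {n : ℕ} (a : ι → E n) (p : ι × ι) : E n := dir a p.1 p.2

/-- the squared distances `d i j ² (1 - k ((s i - s j) / d i j))` -/
noncomputable def Rk {ι : Type} {n : ℕ} (a : ι → E n) (k : ℝ → ℝ) (s : ι → ℝ) (i j : ι) : ℝ :=
  ‖a i - a j‖ ^ 2 * (1 - k ((s i - s j) / ‖a i - a j‖))

/-- `k` is the deficiency function of a two dimensional section, and no choice of `s` gives a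
positive definite form -/
structure Bad {ι : Type} [Fintype ι] {n : ℕ} (a : ι → E n) (k : ℝ → ℝ) : Prop where
  even : ∀ y, k (-y) = k y
  cont : ContinuousOn k (Set.Ioo (-1) 1)
  zero : k 0 = 0
  nonneg : ∀ y, |y| < 1 → 0 ≤ k y
  lt_one : ∀ y, |y| < 1 → k y < 1
  bad : ∀ s : ι → ℝ, (∀ i j, i ≠ j → |s i - s j| < ‖a i - a j‖) → ¬ Pos (Rk a k s)

/-! ### sums of ridge functions -/

/-- `Λ f (w) = ∑ ω p f(⟨w, u p⟩)` -/
noncomputable def Lam {P : Type} [Fintype P] {n : ℕ} (ω : P → ℝ) (u : P → E n) (f : ℝ → ℝ)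
    (w : E n) : ℝ :=
  ∑ p, ω p * f (inner ℝ w (u p))

open Classical in
/-- total weight of the directions `± v` -/
noncomputable def cls {P : Type} [Fintype P] {n : ℕ} (ω : P → ℝ) (u : P → E n) (v : E n) : ℝ :=
  ∑ p, if u p = v ∨ u p = -v then ω p else 0

/-- a weighted family of directions with total weight zero; the total weight of the directions
`± u₀` is not zero -/
structure Fam {P : Type} [Fintype P] {n : ℕ} (ω : P → ℝ) (u : P → E n) (u₀ : E n) : Prop where
  norm : ∀ p, ω p ≠ 0 → ‖u p‖ = 1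
  sum : ∑ p, ω p = 0
  norm0 : ‖u₀‖ = 1
  ne : cls ω u u₀ ≠ 0

/-- the even polynomial `∑ b l t^(2 l)`, `l ≤ D` -/
noncomputable def ev (D : ℕ) (b : ℕ → ℝ) (t : ℝ) : ℝ :=
  ∑ l ∈ Finset.range (D + 1), b l * t ^ (2 * l)

/-- `Λ` kills `t^(2 l)` -/
def Killed {P : Type} [Fintype P] {n : ℕ} (ω : P → ℝ) (u : P → E n) (l : ℕ) : Prop :=
  ∀ w : E n, ∑ p, ω p * (inner ℝ w (u p) : ℝ) ^ (2 * l) = 0

/-- the coefficients `b` belong to killed monomials of degree at most `2 D` -/
def InK {P : Type} [Fintype P] {n : ℕ} (ω : P → ℝ) (u : P → E n) (D : ℕ) (b : ℕ → ℝ) : Prop :=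
  ∀ l, b l ≠ 0 → l ≤ D ∧ Killed ω u l

/-- the closed unit ball -/
abbrev B (n : ℕ) : Set (E n) := Metric.closedBall (0 : E n) 1

/-- squared `L²` norm on the ball of a ridge function -/
noncomputable def NN {n : ℕ} (u₀ : E n) (f : ℝ → ℝ) : ℝ :=
  ∫ w in B n, f (inner ℝ w u₀) ^ 2

/-- squared `L²` norm of `Λ f` on the ball -/
noncomputable def LL {P : Type} [Fintype P] {n : ℕ} (ω : P → ℝ) (u : P → E n) (f : ℝ → ℝ) : ℝ :=
  ∫ w in B n, Lam ω u f w ^ 2

/-- iterated differences with steps from a list -/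
def dl {G : Type} [Add G] : List G → (G → ℝ) → G → ℝ
  | [], F, w => F w
  | z :: L, F, w => dl L F w - dl L F (w + z)

/-- the function `k (ρ t)` for `|t| ≤ 1`, extended by constants -/
noncomputable def hh (k : ℝ → ℝ) (ρ : ℝ) (t : ℝ) : ℝ := k (ρ * max (-1) (min 1 t))

/-! ### displacements -/

/-- the displacement of the pair `p` when the points are moved by `η` -/
noncomputable def ee {ι : Type} {n : ℕ} (a : ι → E n) (η : ι → ℝ) (p : ι × ι) : ℝ :=
  (η p.1 - η p.2) / ‖a p.1 - a p.2‖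

/-- the first order effect of the displacement `η` on the monomial `t^(2 l)` (without the factor
`2 l`) -/
noncomputable def VV {ι : Type} [Fintype ι] {n : ℕ} (a : ι → E n) (μ η : ι → ℝ) (l : ℕ)
    (w : E n) : ℝ :=
  ∑ p : ι × ι, wt a μ p * ee a η p * (inner ℝ w (dr a p)) ^ (2 * l - 1)

end P23D
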