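import Mathlib
import Pool.Agent.Lib.P23D.Defs

/-!
# Module P23D.Box : ridge functions on balls and functions on intervals

PROOF.  Let `u` be a unit vector, `V = (ℝ ∙ u)ᗮ` (any finite dimensional complement with an additive
Haar measure `ν`, for instance the volume of the subspace) and `L : ℝ × V ≃L[ℝ] E n`,
`L (t, y) = t • u + y`, so `⟪L (t, y), u⟫ = t`.  The image of the product measure `volume.prod ν`
under `L` is an additive Haar measure, hence `= c • volume` with `0 < c < ∞`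
(`isAddHaarMeasure_map`, `isAddLeftInvariant_eq_smul`).
(Alternative: an orthonormal basis with first vector `u`, or a rotation to the first coordinate
vector and `EuclideanSpace.volume_preserving_measurableEquiv`, `piFinSucc`.)  So for measurable
`S ⊆ E n` and `f ≥ 0`: `c ∫_S f(⟪w, u⟫) dw = ∫∫_{L (t, y) ∈ S} f(t) dν(y) dt`.
* `slab_le`: `L (t, y) ∈ B n`, `|t| ≤ θ` implies `|t| ≤ θ`, `‖y‖ ≤ 1` (orthogonality), so the right
  side is at most `ν(ball) ∫_{-θ}^{θ} f²`.
* `box_le`: `|t| ≤ θ`, `‖y‖ ≤ r - θ` implies `‖L (t, y)‖ ≤ r`, so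
  `ν(ball (r - θ)) ∫_{-θ}^{θ} f² ≤ c ∫_{closedBall 0 r} f(⟪w, u⟫)²`, and `ν(ball (r - θ)) > 0`.
-/

set_option autoImplicit false

open MeasureTheory

namespace P23D

/-- the decomposition into the direction `u` and its orthogonal complement -/
private noncomputable def Lu {n : ℕ} (u : E n) (hu : ‖u‖ = 1) :
    (ℝ × (Submodule.span ℝ {u})ᗮ) ≃ₗ[ℝ] E n where
  toFun z := z.1 • u + (z.2 : E n)
  map_add' x y := by
    simp only [Prod.fst_add, Prod.snd_add, Submodule.coe_add, add_smul]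
    abel
  map_smul' c x := by
    simp only [Prod.smul_fst, Prod.smul_snd, Submodule.coe_smul, smul_eq_mul, mul_smul, smul_add,
      RingHom.id_apply]
  invFun w := (inner ℝ u w, ⟨w - (inner ℝ u w : ℝ) • u, by
    rw [Submodule.mem_orthogonal_singleton_iff_inner_right, inner_sub_right, inner_smul_right,
      real_inner_self_eq_norm_sq, hu]
    ring⟩)
  left_inv z := by
    have h1 : (inner ℝ u (z.2 : E n) : ℝ) = 0 :=
      (Submodule.mem_orthogonal_singleton_iff_inner_right).1 z.2.2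
    have h2 : (inner ℝ u (z.1 • u + (z.2 : E n)) : ℝ) = z.1 := by
      rw [inner_add_right, inner_smul_right, real_inner_self_eq_norm_sq, hu, h1]
      ring
    refine Prod.ext h2 (Subtype.ext ?_)
    simp only [h2]
    abel
  right_inv w := by
    simp only
    abel

private theorem Lu_apply {n : ℕ} (u : E n) (hu : ‖u‖ = 1)
    (z : ℝ × (Submodule.span ℝ {u})ᗮ) : Lu u hu z = z.1 • u + (z.2 : E n) := rfl

private theorem Lu_inner {n : ℕ} (u : E n) (hu : ‖u‖ = 1)
    (z : ℝ × (Submodule.span ℝ {u})ᗮ) : (inner ℝ (Lu u hu z) u : ℝ) = z.1 := by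
  have h1 : (inner ℝ (z.2 : E n) u : ℝ) = 0 :=
    (Submodule.mem_orthogonal_singleton_iff_inner_left).1 z.2.2
  rw [Lu_apply, inner_add_left, inner_smul_left, real_inner_self_eq_norm_sq, hu, h1]
  simp

private theorem Lu_norm {n : ℕ} (u : E n) (hu : ‖u‖ = 1)
    (z : ℝ × (Submodule.span ℝ {u})ᗮ) : ‖Lu u hu z‖ ^ 2 = z.1 ^ 2 + ‖z.2‖ ^ 2 := by
  have h1 : (inner ℝ u (z.2 : E n) : ℝ) = 0 :=
    (Submodule.mem_orthogonal_singleton_iff_inner_right).1 z.2.2
  rw [Lu_apply, norm_add_sq_real, inner_smul_left, h1, norm_smul, hu]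
  simp

/-- change of variables -/
private theorem exists_cv {n : ℕ} (u : E n) (hu : ‖u‖ = 1) :
    ∃ (ν : Measure (Submodule.span ℝ {u})ᗮ) (c : ℝ), ν.IsAddHaarMeasure ∧ 0 < c ∧
      ∀ (S : Set (E n)), MeasurableSet S → ∀ f : ℝ → ℝ, Continuous f →
        c * ∫ w in S, f (inner ℝ w u) =
          ∫ z in (Lu u hu) ⁻¹' S, f z.1 ∂((volume : Measure ℝ).prod ν) := by
  classical
  refine ⟨Measure.addHaar, ?_⟩
  set ν : Measure (Submodule.span ℝ {u})ᗮ := Measure.addHaar with hν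
  set L : (ℝ × (Submodule.span ℝ {u})ᗮ) ≃L[ℝ] E n := (Lu u hu).toContinuousLinearEquiv with hL
  have hLa : ∀ z, L z = Lu u hu z := fun z => rfl
  have hh : (Measure.map L ((volume : Measure ℝ).prod ν)).IsAddHaarMeasure :=
    L.isAddHaarMeasure_map _
  obtain ⟨c, hc0, hct, hc⟩ : ∃ c : ENNReal, c ≠ 0 ∧ c ≠ ⊤ ∧
      Measure.map L ((volume : Measure ℝ).prod ν) = c • (volume : Measure (E n)) := by
    refine ⟨Measure.addHaarScalarFactor (Measure.map L ((volume : Measure ℝ).prod ν))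
      (volume : Measure (E n)), ?_, ENNReal.coe_ne_top,
      Measure.isAddLeftInvariant_eq_smul _ _⟩
    simpa only [ne_eq, ENNReal.coe_eq_zero] using
      (Measure.addHaarScalarFactor_pos_of_isAddHaarMeasure
        (Measure.map L ((volume : Measure ℝ).prod ν)) (volume : Measure (E n))).ne'
  refine ⟨c.toReal, inferInstance, ENNReal.toReal_pos hc0 hct, fun S hS f hf => ?_⟩
  have e1 : ∫ w in S, f (inner ℝ w u) ∂(Measure.map L ((volume : Measure ℝ).prod ν)) =
      ∫ z in L ⁻¹' S, f (inner ℝ (L z) u) ∂((volume : Measure ℝ).prod ν) :=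
    L.toHomeomorph.measurableEmbedding.setIntegral_map _ _
  rw [hc, Measure.restrict_smul, integral_smul_measure] at e1
  rw [smul_eq_mul] at e1
  rw [e1]
  refine integral_congr_ae (Filter.Eventually.of_forall fun z => ?_)
  simp only [hLa, Lu_inner]

theorem slab_le {n : ℕ} (u : E n) (hu : ‖u‖ = 1) (θ : ℝ) (hθ : 0 ≤ θ) :
    ∃ C > 0, ∀ f : ℝ → ℝ, Continuous f →
      ∫ w in B n ∩ {w | |(inner ℝ w u : ℝ)| ≤ θ}, f (inner ℝ w u) ^ 2 ≤
        C * ∫ t in (-θ)..θ, f t ^ 2 := by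
  obtain ⟨ν, c, hν, hc, hcv⟩ := exists_cv u hu
  have hball : ν (Metric.closedBall 0 1) ≠ ⊤ := measure_closedBall_lt_top.ne
  refine ⟨((ν (Metric.closedBall 0 1)).toReal + 1) / c, by positivity, fun f hf => ?_⟩
  have hS : MeasurableSet (B n ∩ {w | |(inner ℝ w u : ℝ)| ≤ θ}) := by
    refine Metric.isClosed_closedBall.measurableSet.inter ?_
    exact (isClosed_le (by fun_prop) continuous_const).measurableSet
  have h1 := hcv _ hS (fun t => f t ^ 2) (by fun_prop)
  have hsub : (Lu u hu) ⁻¹' (B n ∩ {w | |(inner ℝ w u : ℝ)| ≤ θ}) ⊆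
      Set.Icc (-θ) θ ×ˢ Metric.closedBall 0 1 := by
    rintro z ⟨hz1, hz2⟩
    have h2 := Lu_norm u hu z
    rw [Set.mem_ofPred_eq, Lu_inner] at hz2
    rw [mem_closedBall_zero_iff] at hz1
    refine ⟨⟨(abs_le.1 hz2).1, (abs_le.1 hz2).2⟩, ?_⟩
    rw [mem_closedBall_zero_iff]
    have h3 : ‖Lu u hu z‖ ^ 2 ≤ 1 := pow_le_one₀ (norm_nonneg _) hz1
    exact (sq_le_one_iff₀ (norm_nonneg _)).1 (by nlinarith [sq_nonneg z.1])
  have hint : IntegrableOn (fun z : ℝ × (Submodule.span ℝ {u})ᗮ => f z.1 ^ 2)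
      (Set.Icc (-θ) θ ×ˢ Metric.closedBall 0 1) ((volume : Measure ℝ).prod ν) := by
    refine ContinuousOn.integrableOn_compact ?_ (by fun_prop)
    exact isCompact_Icc.prod (isCompact_closedBall _ _)
  have h4 : ∫ z in (Lu u hu) ⁻¹' (B n ∩ {w | |(inner ℝ w u : ℝ)| ≤ θ}), f z.1 ^ 2
        ∂((volume : Measure ℝ).prod ν) ≤
      ∫ z in Set.Icc (-θ) θ ×ˢ Metric.closedBall (0 : (Submodule.span ℝ {u})ᗮ) 1, f z.1 ^ 2
        ∂((volume : Measure ℝ).prod ν) :=
    setIntegral_mono_set hint (Filter.Eventually.of_forall fun z => sq_nonneg _)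
      (Filter.Eventually.of_forall hsub)
  have h5 : ∫ z in Set.Icc (-θ) θ ×ˢ Metric.closedBall (0 : (Submodule.span ℝ {u})ᗮ) 1, f z.1 ^ 2
        ∂((volume : Measure ℝ).prod ν) =
      (∫ t in (-θ)..θ, f t ^ 2) * (ν (Metric.closedBall 0 1)).toReal := by
    have h6 := setIntegral_prod_mul (μ := (volume : Measure ℝ)) (ν := ν) (fun t => f t ^ 2)
      (fun _ => (1 : ℝ)) (Set.Icc (-θ) θ) (Metric.closedBall 0 1)
    simp only [mul_one] at h6
    rw [h6, intervalIntegral.integral_of_le (by linarith), integral_Icc_eq_integral_Ioc]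
    simp [Measure.real]
  have h7 : 0 ≤ ∫ t in (-θ)..θ, f t ^ 2 :=
    intervalIntegral.integral_nonneg (by linarith) fun t _ => sq_nonneg _
  rw [div_mul_eq_mul_div, le_div_iff₀ hc]
  have h8 : c * ∫ w in B n ∩ {w | |(inner ℝ w u : ℝ)| ≤ θ}, f (inner ℝ w u) ^ 2 ≤
      (∫ t in (-θ)..θ, f t ^ 2) * (ν (Metric.closedBall 0 1)).toReal := by
    rw [h1, ← h5]
    exact h4
  nlinarith

theorem box_le {n : ℕ} (u : E n) (hu : ‖u‖ = 1) (θ r : ℝ) (hθ : 0 ≤ θ) (h : θ < r) :
    ∃ C > 0, ∀ f : ℝ → ℝ, Continuous f →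
      ∫ t in (-θ)..θ, f t ^ 2 ≤
        C * ∫ w in Metric.closedBall (0 : E n) r, f (inner ℝ w u) ^ 2 := by
  obtain ⟨ν, c, hν, hc, hcv⟩ := exists_cv u hu
  have hball : ν (Metric.closedBall 0 (r - θ)) ≠ ⊤ := measure_closedBall_lt_top.ne
  have hball0 : 0 < (ν (Metric.closedBall 0 (r - θ))).toReal := by
    refine ENNReal.toReal_pos ?_ hball
    exact (Metric.measure_closedBall_pos ν 0 (by linarith)).ne'
  refine ⟨c / (ν (Metric.closedBall 0 (r - θ))).toReal, by positivity, fun f hf => ?_⟩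
  have h1 := hcv (Metric.closedBall 0 r) Metric.isClosed_closedBall.measurableSet
    (fun t => f t ^ 2) (by fun_prop)
  have hsub : Set.Icc (-θ) θ ×ˢ Metric.closedBall 0 (r - θ) ⊆
      (Lu u hu) ⁻¹' (Metric.closedBall 0 r) := by
    rintro z ⟨hz1, hz2⟩
    rw [mem_closedBall_zero_iff] at hz2
    rw [Set.mem_preimage, mem_closedBall_zero_iff, Lu_apply]
    refine (norm_add_le _ _).trans ?_
    rw [norm_smul, hu, mul_one, Real.norm_eq_abs]
    have h3 : |z.1| ≤ θ := abs_le.2 ⟨hz1.1, hz1.2⟩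
    have h4 : ‖(z.2 : E n)‖ = ‖z.2‖ := rfl
    linarith
  have hcomp : IsCompact ((Lu u hu) ⁻¹' (Metric.closedBall 0 r)) := by
    have := (Lu u hu).toContinuousLinearEquiv.toHomeomorph.isCompact_preimage.2
      (isCompact_closedBall (0 : E n) r)
    exact this
  have hint : IntegrableOn (fun z : ℝ × (Submodule.span ℝ {u})ᗮ => f z.1 ^ 2)
      ((Lu u hu) ⁻¹' (Metric.closedBall 0 r)) ((volume : Measure ℝ).prod ν) :=
    ContinuousOn.integrableOn_compact hcomp (by fun_prop)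
  have h4 : ∫ z in Set.Icc (-θ) θ ×ˢ Metric.closedBall (0 : (Submodule.span ℝ {u})ᗮ) (r - θ),
        f z.1 ^ 2 ∂((volume : Measure ℝ).prod ν) ≤
      ∫ z in (Lu u hu) ⁻¹' (Metric.closedBall 0 r), f z.1 ^ 2
        ∂((volume : Measure ℝ).prod ν) :=
    setIntegral_mono_set hint (Filter.Eventually.of_forall fun z => sq_nonneg _)
      (Filter.Eventually.of_forall hsub)
  have h5 : ∫ z in Set.Icc (-θ) θ ×ˢ Metric.closedBall (0 : (Submodule.span ℝ {u})ᗮ) (r - θ),
        f z.1 ^ 2 ∂((volume : Measure ℝ).prod ν) =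
      (∫ t in (-θ)..θ, f t ^ 2) * (ν (Metric.closedBall 0 (r - θ))).toReal := by
    have h6 := setIntegral_prod_mul (μ := (volume : Measure ℝ)) (ν := ν) (fun t => f t ^ 2)
      (fun _ => (1 : ℝ)) (Set.Icc (-θ) θ) (Metric.closedBall 0 (r - θ))
    simp only [mul_one] at h6
    rw [h6, intervalIntegral.integral_of_le (by linarith), integral_Icc_eq_integral_Ioc]
    simp [Measure.real]
  rw [div_mul_eq_mul_div, le_div_iff₀ hball0, ← h5, h1]
  exact h4

end P23D
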