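import Mathlib
import Pool.Agent.Lib.P23D.Defs

/-!
# Module P23D.Diff : differences kill all directions but one

PROOF.
* `dl_inner`: `dl L (fun w => g (inner ℝ w v)) w = dl (L.map (inner ℝ · v)) g (inner ℝ w v)`
  (induction on `L`, `⟪w + z, v⟫ = ⟪w, v⟫ + ⟪z, v⟫`).
* `dl_zero_mem`: if `0 ∈ L` then `dl L g t = 0` (induction on `L`).
* `dl_sum`: `dl L` is additive (induction on `L`).
Let `l = Finset.univ.toList : List P` and `z = l.map ζ` where `ζ p` satisfies `⟪ζ p, u₀⟫ = 1` for all
`p` and `⟪ζ p, u p⟫ = 0` if `‖u p‖ = 1` and `u p ≠ ± u₀`: take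
`ζ p = (1 - ⟪u₀, u p⟫²)⁻¹ • (u₀ - ⟪u₀, u p⟫ • u p)` in that case (`⟪u₀, u p⟫² < 1` by strict
Cauchy-Schwarz, e.g. `inner_eq_one_iff_of_norm_one`, `abs_real_inner_le_norm`), and `ζ p = u₀`
otherwise.  Then `(zipWith hs z).map ⟪·, u₀⟫ = hs`, and for non-parallel `p` the list
`(zipWith hs z).map ⟪·, u p⟫` contains `0` (position of `p`), so that term of the sum is killed (it is
also killed if `F p = 0`).  For `u p = u₀` the term is `dl hs (F p) ⟪w, u₀⟫`; for `u p = -u₀` it is
the ridge function `t ↦ F p (-t)` of `⟪w, u₀⟫`.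
`diff_id`: `F p = ω p * f`, `f` even, `c = cls ω u u₀`.
-/

set_option autoImplicit false

namespace P23D

theorem dl_cont {G : Type} [Add G] [TopologicalSpace G] [ContinuousAdd G] (L : List G) :
    ∀ F : G → ℝ, Continuous F → Continuous (dl L F) := by
  induction L with
  | nil => intro F hF; exact hF
  | cons z L ih =>
    intro F hF
    have h1 := ih F hF
    show Continuous fun w => dl L F w - dl L F (w + z)
    have h2 : Continuous fun w : G => w + z := by fun_prop
    exact h1.sub (h1.comp h2)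

theorem dl_add {G : Type} [Add G] (L : List G) : ∀ (F H : G → ℝ) (w : G),
    dl L (fun w => F w + H w) w = dl L F w + dl L H w := by
  induction L with
  | nil => intro F H w; rfl
  | cons z L ih =>
    intro F H w
    show dl L _ w - dl L _ (w + z) = (dl L F w - dl L F (w + z)) + (dl L H w - dl L H (w + z))
    rw [ih, ih]
    ring

theorem dl_const_mul {G : Type} [Add G] (L : List G) (c : ℝ) : ∀ (F : G → ℝ) (w : G),
    dl L (fun w => c * F w) w = c * dl L F w := by
  induction L with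
  | nil => intro F w; rfl
  | cons z L ih =>
    intro F w
    show dl L _ w - dl L _ (w + z) = c * (dl L F w - dl L F (w + z))
    rw [ih, ih]
    ring

theorem dl_zero {G : Type} [Add G] (L : List G) (w : G) : dl L (fun _ => 0) w = 0 := by
  have := dl_const_mul L 0 (fun _ => 0) w
  simpa using this

theorem dl_sum {G : Type} [Add G] {P : Type} (s : Finset P) (L : List G) (F : P → G → ℝ) (w : G) :
    dl L (fun w => ∑ p ∈ s, F p w) w = ∑ p ∈ s, dl L (F p) w := by
  classical
  induction s using Finset.induction_on generalizing w with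
  | empty => simpa using dl_zero L w
  | insert p s hp ih =>
    simp_rw [Finset.sum_insert hp]
    rw [dl_add, ih]

theorem dl_inner {n : ℕ} (v : E n) (L : List (E n)) : ∀ (g : ℝ → ℝ) (w : E n),
    dl L (fun w => g (inner ℝ w v)) w = dl (L.map fun z => (inner ℝ z v : ℝ)) g (inner ℝ w v) := by
  induction L with
  | nil => intro g w; rfl
  | cons z L ih =>
    intro g w
    show dl L _ w - dl L _ (w + z) = dl (L.map fun z => (inner ℝ z v : ℝ)) g (inner ℝ w v) -
      dl (L.map fun z => (inner ℝ z v : ℝ)) g (inner ℝ w v + inner ℝ z v)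
    rw [ih, ih, inner_add_left]

theorem dl_zero_mem (L : List ℝ) (h : (0 : ℝ) ∈ L) : ∀ (g : ℝ → ℝ) (t : ℝ), dl L g t = 0 := by
  induction L with
  | nil => simp at h
  | cons z L ih =>
    intro g t
    show dl L g t - dl L g (t + z) = 0
    rcases List.mem_cons.1 h with h0 | h0
    · rw [← h0, add_zero, sub_self]
    · rw [ih h0, ih h0, sub_self]

namespace DiffAux

theorem inner_sq_lt {n : ℕ} {u v : E n} (hu : ‖u‖ = 1) (hv : ‖v‖ = 1) (h1 : v ≠ u)
    (h2 : v ≠ -u) : (inner ℝ u v : ℝ) ^ 2 < 1 := by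
  have h3 : |(inner ℝ u v : ℝ)| ≤ 1 := by
    have := abs_real_inner_le_norm u v
    rwa [hu, hv, one_mul] at this
  have h4 : (inner ℝ u v : ℝ) ≠ 1 := fun h =>
    h1 ((inner_eq_one_iff_of_norm_eq_one hu hv).1 h).symm
  have h5 : (inner ℝ u v : ℝ) ≠ -1 := by
    intro h
    apply h2
    have h6 : (inner ℝ (-u) v : ℝ) = 1 := by rw [inner_neg_left, h, neg_neg]
    exact ((inner_eq_one_iff_of_norm_eq_one (by rw [norm_neg, hu]) hv).1 h6).symm
  have h7 := abs_le.1 h3
  have h8 : (inner ℝ u v : ℝ) < 1 := lt_of_le_of_ne h7.2 h4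
  have h9 : -1 < (inner ℝ u v : ℝ) := lt_of_le_of_ne h7.1 (Ne.symm h5)
  nlinarith

theorem exists_zeta {n : ℕ} {u₀ : E n} (h0 : ‖u₀‖ = 1) (v : E n) :
    ∃ ζ : E n, inner ℝ ζ u₀ = (1 : ℝ) ∧ (‖v‖ = 1 → v ≠ u₀ → v ≠ -u₀ → inner ℝ ζ v = (0 : ℝ)) := by
  by_cases h : ‖v‖ = 1 ∧ v ≠ u₀ ∧ v ≠ -u₀
  · obtain ⟨hv, h1, h2⟩ := h
    have h3 := inner_sq_lt h0 hv h1 h2
    have h4 : 1 - (inner ℝ u₀ v : ℝ) ^ 2 ≠ 0 := by linarith
    have e0 : (inner ℝ u₀ u₀ : ℝ) = 1 := by rw [real_inner_self_eq_norm_sq, h0, one_pow]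
    have e1 : (inner ℝ v v : ℝ) = 1 := by rw [real_inner_self_eq_norm_sq, hv, one_pow]
    refine ⟨(1 - (inner ℝ u₀ v : ℝ) ^ 2)⁻¹ • (u₀ - (inner ℝ u₀ v : ℝ) • v), ?_, fun _ _ _ => ?_⟩
    · rw [inner_smul_left, inner_sub_left, inner_smul_left, e0, real_inner_comm u₀ v]
      simp only [RCLike.conj_to_real, conj_trivial]
      rw [← sq, inv_mul_cancel₀ h4]
    · rw [inner_smul_left, inner_sub_left, inner_smul_left, e1]
      simp
  · refine ⟨u₀, by rw [real_inner_self_eq_norm_sq, h0, one_pow], fun h1 h2 h3 => ?_⟩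
    exact absurd ⟨h1, h2, h3⟩ h

theorem zip_map_eq {n : ℕ} {u₀ : E n} (hs : List ℝ) : ∀ z : List (E n),
    hs.length = z.length → (∀ v ∈ z, inner ℝ v u₀ = (1 : ℝ)) →
    (List.zipWith (fun (h : ℝ) (v : E n) => h • v) hs z).map (fun v => (inner ℝ v u₀ : ℝ)) =
      hs := by
  induction hs with
  | nil => intro z _ _; simp
  | cons h L ih =>
    intro z hz h1
    cases z with
    | nil => simp at hz
    | cons v z =>
      simp only [List.zipWith_cons_cons, List.map_cons]
      rw [ih z (by simpa using hz) (fun x hx => h1 x (List.mem_cons_of_mem _ hx)),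
        inner_smul_left, h1 v List.mem_cons_self]
      simp

theorem zip_mem {n : ℕ} {u : E n} {v : E n} (hs : List ℝ) : ∀ z : List (E n),
    hs.length = z.length → v ∈ z → inner ℝ v u = (0 : ℝ) →
    (0 : ℝ) ∈ (List.zipWith (fun (h : ℝ) (v : E n) => h • v) hs z).map
      (fun v => (inner ℝ v u : ℝ)) := by
  induction hs with
  | nil =>
    intro z hz hv _
    have : z = [] := List.length_eq_zero_iff.1 (by simpa using hz.symm)
    rw [this] at hv
    simp at hv
  | cons h L ih =>
    intro z hz hv h0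
    cases z with
    | nil => simp at hz
    | cons v' z =>
      simp only [List.zipWith_cons_cons, List.map_cons]
      rcases List.mem_cons.1 hv with h1 | h1
      · rw [← h1, inner_smul_left, h0, mul_zero]
        exact List.mem_cons_self
      · exact List.mem_cons_of_mem _ (ih z (by simpa using hz) h1 h0)

end DiffAux

open DiffAux

open Classical in
theorem diff_gen {P : Type} [Fintype P] {n : ℕ} (u : P → E n) (u₀ : E n) (h0 : ‖u₀‖ = 1) :
    ∃ z : List (E n), ∀ F : P → ℝ → ℝ, (∀ p, F p = 0 ∨ ‖u p‖ = 1) →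
      ∀ hs : List ℝ, hs.length = z.length → ∀ w : E n,
        dl (List.zipWith (fun (h : ℝ) (v : E n) => h • v) hs z)
            (fun w => ∑ p, F p (inner ℝ w (u p))) w =
          dl hs (fun t => ∑ p, if u p = u₀ then F p t else if u p = -u₀ then F p (-t) else 0)
            (inner ℝ w u₀) := by
  have hex := fun p => exists_zeta h0 (u p)
  choose ζ h1 h2 using hex
  refine ⟨(Finset.univ.toList : List P).map ζ, fun F hF hs hlen w => ?_⟩
  have hz1 : ∀ v ∈ (Finset.univ.toList : List P).map ζ, inner ℝ v u₀ = (1 : ℝ) := by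
    intro v hv
    obtain ⟨p, _, rfl⟩ := List.mem_map.1 hv
    exact h1 p
  have hmap := zip_map_eq hs _ hlen hz1
  rw [dl_sum Finset.univ, dl_sum Finset.univ]
  refine Finset.sum_congr rfl fun p _ => ?_
  by_cases hp : u p = u₀
  · simp only [hp, if_true]
    rw [dl_inner, hmap]
  · by_cases hp' : u p = -u₀
    · simp only [if_neg hp, if_pos hp']
      have e : (fun w : E n => F p (inner ℝ w (u p))) =
          fun w => (fun t => F p (-t)) (inner ℝ w u₀) := by
        funext w
        rw [hp', inner_neg_right]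
      rw [e, dl_inner u₀ _ (fun t => F p (-t)), hmap]
    · simp only [if_neg hp, if_neg hp']
      rw [dl_zero]
      rcases hF p with h3 | h3
      · rw [h3]
        exact dl_zero _ _
      · rw [dl_inner]
        refine dl_zero_mem _ (zip_mem hs _ hlen (v := ζ p) ?_ (h2 p h3 hp hp')) _ _
        exact List.mem_map.2 ⟨p, by simp, rfl⟩

theorem diff_id {P : Type} [Fintype P] {n : ℕ} {ω : P → ℝ} {u : P → E n} {u₀ : E n}
    (hF : Fam ω u u₀) :
    ∃ z : List (E n), ∀ hs : List ℝ, hs.length = z.length → ∀ f : ℝ → ℝ, (∀ t, f (-t) = f t) →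
      ∀ w : E n, dl (List.zipWith (fun (h : ℝ) (v : E n) => h • v) hs z) (Lam ω u f) w =
        cls ω u u₀ * dl hs f (inner ℝ w u₀) := by
  classical
  obtain ⟨z, hz⟩ := diff_gen u u₀ hF.norm0
  refine ⟨z, fun hs hlen f hf w => ?_⟩
  have h1 := hz (fun p t => ω p * f t) (fun p => by
    by_cases hp : ω p = 0
    · left
      funext t
      simp [hp]
    · exact Or.inr (hF.norm p hp)) hs hlen w
  have e1 : Lam ω u f = fun w => ∑ p, ω p * f (inner ℝ w (u p)) := rfl
  rw [e1, h1]
  have e2 : (fun t => ∑ p, if u p = u₀ then ω p * f t else if u p = -u₀ then ω p * f (-t) else 0) =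
      fun t => cls ω u u₀ * f t := by
    funext t
    unfold cls
    rw [Finset.sum_mul]
    refine Finset.sum_congr rfl fun p _ => ?_
    by_cases h1 : u p = u₀
    · simp [h1]
    · by_cases h2 : u p = -u₀
      · simp only [if_neg h1, if_pos h2, h1, h2, or_true, if_true, hf]
        split_ifs <;> rfl
      · simp [h1, h2]
  rw [e2, dl_const_mul]

end P23D
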