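import Mathlib
import Pool.Agent.Lib.P23D.Defs

/-!
# Module P23D.Solv : solvability of linear equations

PROOF.  The linear map `T : E m →ₗ (κ → ℝ)`, `T v = fun k => ⟪v, b k⟫`.  If `y` is not in the range of
`T`, there is a linear functional `φ` on `κ → ℝ` with `φ y ≠ 0` and `φ (T v) = 0` for all `v`
(`Submodule.exists_le_ker_of_notMem`).  With `c k = φ (Pi.single k 1)`, `φ x = ∑ c k x k`
(`LinearMap.pi_apply_eq_sum_univ`), so `⟪v, ∑ c k • b k⟫ = 0` for all `v`, hence `∑ c k • b k = 0` and
by hypothesis `φ y = ∑ c k y k = 0`, a contradiction.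
-/

set_option autoImplicit false

namespace P23D

theorem solv {κ : Type} [Fintype κ] {m : ℕ} (b : κ → E m) (y : κ → ℝ)
    (h : ∀ c : κ → ℝ, ∑ k, c k • b k = 0 → ∑ k, c k * y k = 0) :
    ∃ v : E m, ∀ k, inner ℝ v (b k) = y k := by
  classical
  let T : E m →ₗ[ℝ] (κ → ℝ) :=
    { toFun := fun v k => inner ℝ v (b k)
      map_add' := fun v w => by
        funext k
        simp [inner_add_left]
      map_smul' := fun r v => by
        funext k
        simp [real_inner_smul_left] }
  by_contra hno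
  push Not at hno
  have hy : y ∉ LinearMap.range T := by
    rintro ⟨v, hv⟩
    obtain ⟨k, hk⟩ := hno v
    exact hk (congrFun hv k)
  obtain ⟨φ, hφ, hle⟩ := Submodule.exists_le_ker_of_notMem hy
  apply hφ
  set c : κ → ℝ := fun k => φ (Pi.single k 1) with hc
  have hφx : ∀ x : κ → ℝ, φ x = ∑ k, c k * x k := by
    intro x
    have e1 : x = ∑ k, x k • (Pi.single k (1 : ℝ) : κ → ℝ) := by
      funext j
      simp [Finset.sum_apply, Pi.single_apply]
    conv_lhs => rw [e1]
    rw [map_sum]
    refine Finset.sum_congr rfl fun k _ => ?_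
    rw [map_smul, smul_eq_mul, mul_comm]
  rw [hφx]
  apply h
  have h1 : ∀ v : E m, inner ℝ v (∑ k, c k • b k) = (0 : ℝ) := by
    intro v
    have h2 : φ (T v) = 0 := hle ⟨v, rfl⟩
    rw [hφx] at h2
    rw [inner_sum, ← h2]
    exact Finset.sum_congr rfl fun k _ => real_inner_smul_right _ _ _
  exact inner_self_eq_zero.1 (h1 _)

end P23D
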