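import Mathlib
import Pool.Agent.Lib.P23D.PDlem
import Pool.Agent.Lib.P23D.Solv

/-!
# Module P23D.Gram : points with given squared distances

PROOFS.
* `Good.off_pos`: `hR.pos` for `c = e i - e j` gives `-2 R i j < 0`.
* `Good.exists_points`: fix `o : ι` (if `ι` is empty, trivial) and let
  `G i j = (R i o + R j o - R i j) / 2`.  `G` is symmetric and positive semidefinite: for `x : ι → ℝ` let
  `c = x - (∑ x) e_o`, `∑ c = 0`; then `∑ x i x j G i j = ∑ c i c j G i j` (as `G i o = G o j = 0`)
  `= - (1/2) ∑ c i c j R i j ≥ 0` (strictly positive unless `c = 0`).  A positive semidefinite real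
  matrix is `Bᵀ B`: with `q i =` the `i`-th column, `⟪q i, q j⟫ = G i j` and
  `‖q i - q j‖² = G i i + G j j - 2 G i j = R i j` (`G i i = R i o`).
* `Good.dual`: the dual vectors.  `solv` for the vectors `b k = q i - q k` and `y k = if k = j then 1
  else 0`: suppose `∑ c k • (q i - q k) = 0`.  Let `e k = - c k` for `k ≠ i` and
  `e i = ∑_{k ≠ i} c k`; `∑ e = 0` and `∑ e • q = 0`, so by `quad_norm` (for `q`)
  `∑ e e R = -2 ‖∑ e • q‖² = 0`, hence `e = 0` by `Good.pos`, `c j = 0`.
-/

set_option autoImplicit false

namespace P23D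

theorem Good.off_pos {ι : Type} [Fintype ι] {R : ι → ι → ℝ} (hR : Good R) {i j : ι} (h : i ≠ j) :
    0 < R i j := by
  classical
  let c : ι → ℝ := fun k => (if k = i then 1 else 0) - (if k = j then 1 else 0)
  have hsum : ∑ k, c k = 0 := by
    simp [c, Finset.sum_sub_distrib]
  have hne : c ≠ 0 := by
    intro h0
    have := congrFun h0 i
    simp [c, h] at this
  have hp := hR.pos c hsum hne
  have hval : ∑ k, ∑ l, c k * c l * R k l = -2 * R i j := by
    have h1 : ∀ k, ∑ l, c k * c l * R k l = c k * (R k i - R k j) := by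
      intro k
      have : ∀ l, c k * c l * R k l =
          (if l = i then c k * R k l else 0) - (if l = j then c k * R k l else 0) := by
        intro l
        simp only [c]
        split_ifs <;> ring
      simp_rw [this]
      rw [Finset.sum_sub_distrib, Finset.sum_ite_eq', Finset.sum_ite_eq']
      simp
      ring
    simp_rw [h1]
    have h2 : ∀ k, c k * (R k i - R k j) =
        (if k = i then R k i - R k j else 0) - (if k = j then R k i - R k j else 0) := by
      intro k
      simp only [c]
      split_ifs <;> ring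
    simp_rw [h2]
    rw [Finset.sum_sub_distrib, Finset.sum_ite_eq', Finset.sum_ite_eq']
    simp only [Finset.mem_univ, if_true]
    rw [hR.diag i, hR.diag j, hR.symm j i]
    ring
  rw [hval] at hp
  linarith

open scoped MatrixOrder ComplexOrder Matrix.Norms.L2Operator in
/-- a positive semidefinite real matrix is a Gram matrix -/
theorem exists_gram {m : ℕ} (G : Matrix (Fin m) (Fin m) ℝ) (hs : ∀ i j, G i j = G j i)
    (hp : ∀ x : Fin m → ℝ, 0 ≤ ∑ i, ∑ j, x i * x j * G i j) :
    ∃ q : Fin m → E m, ∀ i j, inner ℝ (q i) (q j) = G i j := by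
  classical
  have hG : G.PosSemidef := by
    refine Matrix.PosSemidef.of_dotProduct_mulVec_nonneg ?_ fun x => ?_
    · ext i j
      simp [Matrix.conjTranspose_apply, hs i j]
    · have := hp x
      simp only [dotProduct, Matrix.mulVec, star_trivial]
      have h2 : ∑ i, x i * ∑ j, G i j * x j = ∑ i, ∑ j, x i * x j * G i j := by
        refine Finset.sum_congr rfl fun i _ => ?_
        rw [Finset.mul_sum]
        refine Finset.sum_congr rfl fun j _ => ?_
        ring
      rw [h2]
      exact this
  obtain ⟨B, hB⟩ := CStarAlgebra.nonneg_iff_eq_star_mul_self.mp hG.nonneg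
  refine ⟨fun i => WithLp.toLp 2 (fun k => B k i), fun i j => ?_⟩
  rw [hB]
  simp [PiLp.inner_apply, Matrix.mul_apply, Matrix.star_eq_conjTranspose]
  refine Finset.sum_congr rfl fun k _ => ?_
  ring

theorem Good.exists_points {ι : Type} [Fintype ι] {R : ι → ι → ℝ} (hR : Good R) :
    ∃ (m : ℕ) (q : ι → E m), ∀ i j, ‖q i - q j‖ ^ 2 = R i j := by
  classical
  rcases isEmpty_or_nonempty ι with hι | ⟨⟨o⟩⟩
  · exact ⟨0, fun _ => 0, fun i => hι.elim i⟩
  let e := Fintype.equivFin ι
  let G : ι → ι → ℝ := fun i j => (R i o + R j o - R i j) / 2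
  have hGo : ∀ i, G i o = 0 := by
    intro i
    simp only [G]
    rw [hR.diag o]
    ring
  have hGo' : ∀ i, G o i = 0 := by
    intro i
    simp only [G]
    rw [hR.diag o, hR.symm o i]
    ring
  have hpsd : ∀ x : ι → ℝ, 0 ≤ ∑ i, ∑ j, x i * x j * G i j := by
    intro x
    let c : ι → ℝ := fun k => x k - (if k = o then ∑ l, x l else 0)
    have hc : ∑ k, c k = 0 := by
      simp [c, Finset.sum_sub_distrib]
    have h1 : ∑ i, ∑ j, x i * x j * G i j = ∑ i, ∑ j, c i * c j * G i j := by
      refine Finset.sum_congr rfl fun i _ => Finset.sum_congr rfl fun j _ => ?_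
      by_cases hi : i = o
      · subst hi
        rw [hGo' j]
        ring
      · by_cases hj : j = o
        · subst hj
          rw [hGo i]
          ring
        · simp [c, hi, hj]
    have h2 : ∑ i, ∑ j, c i * c j * G i j = -(1 / 2) * ∑ i, ∑ j, c i * c j * R i j := by
      have h3 : ∀ i j, c i * c j * G i j =
          (c i * R i o / 2) * c j + c i / 2 * (c j * R j o) - 1 / 2 * (c i * c j * R i j) := by
        intro i j
        simp only [G]
        ring
      simp_rw [h3, Finset.sum_sub_distrib, Finset.sum_add_distrib, ← Finset.mul_sum, hc]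
      have h4 : ∑ x, c x / 2 * ∑ i, c i * R i o = 0 := by
        rw [← Finset.sum_mul, ← Finset.sum_div, hc]
        simp
      rw [h4]
      simp only [mul_zero, Finset.sum_const_zero]
      ring
    rw [h1, h2]
    by_cases hc0 : c = 0
    · rw [hc0]
      simp
    · have := hR.pos c hc hc0
      linarith
  obtain ⟨q, hq⟩ := exists_gram (m := Fintype.card ι) (fun i j => G (e.symm i) (e.symm j))
    (fun i j => by
      simp only [G]
      rw [hR.symm (e.symm i) (e.symm j)]
      ring)
    (fun x => by
      have := hpsd (fun i => x (e i))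
      have h1 : ∑ i, ∑ j, x i * x j * G (e.symm i) (e.symm j) =
          ∑ i, ∑ j, x (e i) * x (e j) * G i j := by
        rw [← e.sum_comp]
        refine Finset.sum_congr rfl fun i _ => ?_
        rw [← e.sum_comp]
        refine Finset.sum_congr rfl fun j _ => ?_
        simp
      rw [h1]
      exact this)
  refine ⟨Fintype.card ι, fun i => q (e i), fun i j => ?_⟩
  have h1 : ‖q (e i) - q (e j)‖ ^ 2 = inner ℝ (q (e i)) (q (e i)) - 2 * inner ℝ (q (e i)) (q (e j)) +
      inner ℝ (q (e j)) (q (e j)) := by
    rw [@norm_sub_sq_real, real_inner_self_eq_norm_sq, real_inner_self_eq_norm_sq]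
  rw [h1, hq, hq, hq]
  simp only [Equiv.symm_apply_apply, G]
  rw [hR.diag i, hR.diag j]
  ring

theorem Good.dual {ι : Type} [Fintype ι] {R : ι → ι → ℝ} (hR : Good R) {m : ℕ} (q : ι → E m)
    (hq : ∀ i j, ‖q i - q j‖ ^ 2 = R i j) (i j : ι) (hij : i ≠ j) :
    ∃ v : E m, inner ℝ v (q i - q j) = (1 : ℝ) ∧
      ∀ k, k ≠ j → inner ℝ v (q i - q k) = (0 : ℝ) := by
  classical
  obtain ⟨v, hv⟩ := solv (fun k => q i - q k) (fun k => if k = j then (1 : ℝ) else 0) (by
    intro c hc
    have hcj : c j = 0 := by
      let e : ι → ℝ := fun k => (if k = i then ∑ l, c l else 0) - c k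
      have he : ∑ k, e k = 0 := by
        simp [e, Finset.sum_sub_distrib]
      have heq : ∑ k, e k • q k = 0 := by
        have h1 : ∑ k, e k • q k = ∑ k, c k • (q i - q k) := by
          simp only [e, sub_smul, smul_sub, Finset.sum_sub_distrib, ite_smul, zero_smul,
            Finset.sum_ite_eq', Finset.mem_univ, if_true, Finset.sum_smul]
        rw [h1, hc]
      by_contra hne
      have hene : e ≠ 0 := by
        intro h0
        have := congrFun h0 j
        simp only [e, Pi.zero_apply] at this
        rw [if_neg (Ne.symm hij)] at this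
        apply hne
        linarith
      have h2 := hR.pos e he hene
      have h3 := quad_norm q e he
      rw [heq] at h3
      simp_rw [hq] at h3
      rw [h3] at h2
      simp at h2
    simp [hcj])
  refine ⟨v, ?_, ?_⟩
  · have := hv j
    simpa using this
  · intro k hk
    have := hv k
    simpa [hk] using this

end P23D
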