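import Mathlib
import Pool.Agent.Lib.P23D.Gram

/-!
# Module P23D.Move : moving the distances independently

PROOF.  `Good.exists_points` gives `q₀ : ι → E m`.  For `i ≠ j` let `v i j` be the vector of
`Good.dual`, `v i i = 0`.  For `δ > 0` and `σ : ι → ι → ℝ` let
`q σ i = q₀ i + δ • ∑ j, σ i j • v i j`; it is continuous in `σ`.  Let `K` be a bound of the norms of
all `∑ j, σ i j • v i j` for `|σ| ≤ 1` (e.g. `K = ∑ i, ∑ j, ‖v i j‖`).  For `i ≠ k` and symmetric `σ`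
`‖q σ i - q σ k‖² = R i k + 2 δ ⟪q₀ i - q₀ k, ∑ σ i j v i j - ∑ σ k j v k j⟫ + δ² ‖..‖²`,
where `⟪q₀ i - q₀ k, v i j⟫ = [j = k]` and `⟪q₀ i - q₀ k, v k j⟫ = -⟪q₀ k - q₀ i, v k j⟫ = -[j = i]`, so
`‖q σ i - q σ k‖² = R i k + 4 δ σ i k + O(4 K² δ²)`.
Let `r₀ > 0` be a lower bound and `r₁` an upper bound of all `√(R i j)`, `i ≠ j` (`Good.off_pos`).
With `y = ‖q σ i - q σ k‖`, `r = √(R i k)`: `|y² - r²| ≤ 4 δ + 4 K² δ²`, and
`|y - r| = |y² - r²| / (y + r) ≤ |y² - r²| / r₀ ≤ C δ` for `δ ≤ 1`.  If `σ i k = 1` then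
`y² - r² ≥ 4 δ - 4 K² δ² ≥ 2 δ` for `2 K² δ ≤ 1`, and `y - r = (y² - r²)/(y + r) ≥ 2 δ / (2 r₁ + C)`.
If `σ i k = -1` similarly `r² - y² ≥ 2 δ`, `r - y ≥ 2 δ / (2 r₁)`.
-/

set_option autoImplicit false

namespace P23D

/-- arithmetic of the displacement -/
theorem move_arith {r y δ σ N K r₀ r₁ : ℝ} (hr₀ : 0 < r₀) (hr : r₀ ≤ r) (hr₁ : r ≤ r₁)
    (hy : 0 ≤ y) (hδ : 0 < δ) (hδ1 : δ ≤ 1) (hK : 0 < K) (hδK : 2 * K ^ 2 * δ ≤ 1)
    (hN0 : 0 ≤ N) (hN : N ≤ 2 * K) (hσ : |σ| ≤ 1) (he : y ^ 2 = r ^ 2 + 4 * δ * σ + δ ^ 2 * N ^ 2) :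
    |y - r| ≤ (4 + 4 * K ^ 2) / r₀ * δ ∧
    (σ = 1 → r + 2 / (2 * r₁ + (4 + 4 * K ^ 2) / r₀) * δ ≤ y) ∧
    (σ = -1 → y ≤ r - 2 / (2 * r₁ + (4 + 4 * K ^ 2) / r₀) * δ) := by
  have hr0 : 0 < r := lt_of_lt_of_le hr₀ hr
  have hN2 : N ^ 2 ≤ 4 * K ^ 2 := by nlinarith
  have hδ2 : δ ^ 2 ≤ δ := by nlinarith
  have hσ' := abs_le.mp hσ
  set C : ℝ := (4 + 4 * K ^ 2) / r₀ with hC
  have hCr : C * r₀ = 4 + 4 * K ^ 2 := by
    rw [hC]
    field_simp
  have hCpos : 0 < C := by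
    rw [hC]
    positivity
  have hdN : δ ^ 2 * N ^ 2 ≤ 4 * K ^ 2 * δ := by
    have h1 : δ ^ 2 * N ^ 2 ≤ δ * (4 * K ^ 2) := by
      apply mul_le_mul hδ2 hN2 (sq_nonneg _) hδ.le
    linarith
  have hdN0 : 0 ≤ δ ^ 2 * N ^ 2 := by positivity
  have hup : (y - r) * (y + r) ≤ (4 + 4 * K ^ 2) * δ := by
    have : (y - r) * (y + r) = 4 * δ * σ + δ ^ 2 * N ^ 2 := by nlinarith
    rw [this]
    nlinarith
  have hlo : -((4 + 4 * K ^ 2) * δ) ≤ (y - r) * (y + r) := by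
    have : (y - r) * (y + r) = 4 * δ * σ + δ ^ 2 * N ^ 2 := by nlinarith
    rw [this]
    nlinarith [sq_nonneg K]
  have hyr : r₀ ≤ y + r := by linarith
  have habs : |y - r| ≤ C * δ := by
    rw [abs_le]
    constructor
    · by_contra hcon
      push Not at hcon
      have h1 : (y - r) * (y + r) < -(C * δ) * r₀ := by
        have h2 : (y - r) * (y + r) ≤ (y - r) * r₀ := by
          apply mul_le_mul_of_nonpos_left hyr
          have : 0 < C * δ := by positivity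
          linarith
        have h3 : (y - r) * r₀ < -(C * δ) * r₀ := mul_lt_mul_of_pos_right hcon hr₀
        linarith
      have h4 : -(C * δ) * r₀ = -((4 + 4 * K ^ 2) * δ) := by
        rw [← hCr]
        ring
      linarith
    · by_contra hcon
      push Not at hcon
      have h1 : C * δ * r₀ < (y - r) * (y + r) := by
        have h2 : (y - r) * r₀ ≤ (y - r) * (y + r) := by
          apply mul_le_mul_of_nonneg_left hyr
          have : 0 < C * δ := by positivity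
          linarith
        have h3 : C * δ * r₀ < (y - r) * r₀ := mul_lt_mul_of_pos_right hcon hr₀
        linarith
      have h4 : C * δ * r₀ = (4 + 4 * K ^ 2) * δ := by
        rw [← hCr]
        ring
      linarith
  have hCδ : C * δ ≤ C := by nlinarith
  have hsum : y + r ≤ 2 * r₁ + C := by
    have := (abs_le.mp habs).2
    linarith
  have hden : 0 < 2 * r₁ + C := by linarith
  refine ⟨habs, ?_, ?_⟩
  · intro h1
    have h2 : 2 * δ ≤ (y - r) * (y + r) := by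
      have : (y - r) * (y + r) = 4 * δ * σ + δ ^ 2 * N ^ 2 := by nlinarith
      rw [this, h1]
      linarith
    have hpos : 0 ≤ y - r := by
      by_contra hcon
      push Not at hcon
      have : (y - r) * (y + r) < 0 := mul_neg_of_neg_of_pos hcon (by linarith)
      linarith
    have h3 : 2 * δ ≤ (y - r) * (2 * r₁ + C) := by
      have := mul_le_mul_of_nonneg_left hsum hpos
      linarith
    have h4 : 2 / (2 * r₁ + C) * δ ≤ y - r := by
      rw [div_mul_eq_mul_div, div_le_iff₀ hden]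
      exact h3
    linarith
  · intro h1
    have h2 : 2 * δ ≤ (r - y) * (y + r) := by
      have : (r - y) * (y + r) = -(4 * δ * σ + δ ^ 2 * N ^ 2) := by nlinarith
      rw [this, h1]
      have h5 : δ ^ 2 * N ^ 2 ≤ 2 * δ := by
        have h6 : δ ^ 2 * N ^ 2 ≤ δ ^ 2 * (4 * K ^ 2) :=
          mul_le_mul_of_nonneg_left hN2 (sq_nonneg _)
        nlinarith
      linarith
    have hpos : 0 ≤ r - y := by
      by_contra hcon
      push Not at hcon
      have : (r - y) * (y + r) < 0 := mul_neg_of_neg_of_pos hcon (by linarith)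
      linarith
    have h3 : 2 * δ ≤ (r - y) * (2 * r₁ + C) := by
      have := mul_le_mul_of_nonneg_left hsum hpos
      linarith
    have h4 : 2 / (2 * r₁ + C) * δ ≤ r - y := by
      rw [div_mul_eq_mul_div, div_le_iff₀ hden]
      exact h3
    linarith

theorem exists_move {ι : Type} [Fintype ι] {R : ι → ι → ℝ} (hR : Good R) :
    ∃ (m : ℕ) (c C δ₁ : ℝ), 0 < c ∧ 0 < C ∧ 0 < δ₁ ∧ ∀ δ : ℝ, 0 < δ → δ ≤ δ₁ →
      ∃ q : (ι → ι → ℝ) → ι → E m, Continuous q ∧
        ∀ σ : ι → ι → ℝ, (∀ i j, |σ i j| ≤ 1) → (∀ i j, σ i j = σ j i) → ∀ i j, i ≠ j →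
          |‖q σ i - q σ j‖ - √(R i j)| ≤ C * δ ∧
          (σ i j = 1 → √(R i j) + c * δ ≤ ‖q σ i - q σ j‖) ∧
          (σ i j = -1 → ‖q σ i - q σ j‖ ≤ √(R i j) - c * δ) := by
  classical
  obtain ⟨m, q₀, hq₀⟩ := hR.exists_points
  have hv : ∀ i j, ∃ v : E m, (i ≠ j → inner ℝ v (q₀ i - q₀ j) = (1 : ℝ) ∧
      ∀ k, k ≠ j → inner ℝ v (q₀ i - q₀ k) = (0 : ℝ)) ∧ (i = j → v = 0) := by
    intro i j
    by_cases h : i = j
    · exact ⟨0, fun h' => absurd h h', fun _ => rfl⟩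
    · obtain ⟨v, h1, h2⟩ := hR.dual q₀ hq₀ i j h
      exact ⟨v, fun _ => ⟨h1, h2⟩, fun h' => absurd h' h⟩
  choose v hv1 hv0 using hv
  let K : ℝ := ∑ i, ∑ j, ‖v i j‖ + 1
  have hKsum : ∀ i, ∑ j, ‖v i j‖ ≤ K := by
    intro i
    have h1 : ∑ j, ‖v i j‖ ≤ ∑ i, ∑ j, ‖v i j‖ :=
      Finset.single_le_sum (f := fun i => ∑ j, ‖v i j‖)
        (fun i _ => Finset.sum_nonneg fun j _ => norm_nonneg _) (Finset.mem_univ i)
    simp only [K]
    linarith
  have hK : 0 < K := by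
    have : 0 ≤ ∑ i, ∑ j, ‖v i j‖ :=
      Finset.sum_nonneg fun i _ => Finset.sum_nonneg fun j _ => norm_nonneg _
    simp only [K]
    linarith
  let r₀ : ℝ := (1 + ∑ i, ∑ j, (√(R i j))⁻¹)⁻¹
  let r₁ : ℝ := 1 + ∑ i, ∑ j, √(R i j)
  have hS0 : 0 < 1 + ∑ i, ∑ j, (√(R i j))⁻¹ := by
    have : 0 ≤ ∑ i, ∑ j, (√(R i j))⁻¹ :=
      Finset.sum_nonneg fun i _ => Finset.sum_nonneg fun j _ => inv_nonneg.mpr (Real.sqrt_nonneg _)
    linarith
  have hr₀pos : 0 < r₀ := inv_pos.mpr hS0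
  have hr₀le : ∀ i j, i ≠ j → r₀ ≤ √(R i j) := by
    intro i j hij
    have hpos : 0 < √(R i j) := Real.sqrt_pos.mpr (hR.off_pos hij)
    have h1 : (√(R i j))⁻¹ ≤ 1 + ∑ i, ∑ j, (√(R i j))⁻¹ := by
      have h2 : (√(R i j))⁻¹ ≤ ∑ j, (√(R i j))⁻¹ :=
        Finset.single_le_sum (f := fun j => (√(R i j))⁻¹)
          (fun j _ => inv_nonneg.mpr (Real.sqrt_nonneg _)) (Finset.mem_univ j)
      have h3 : ∑ j, (√(R i j))⁻¹ ≤ ∑ i, ∑ j, (√(R i j))⁻¹ :=
        Finset.single_le_sum (f := fun i => ∑ j, (√(R i j))⁻¹)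
          (fun i _ => Finset.sum_nonneg fun j _ => inv_nonneg.mpr (Real.sqrt_nonneg _))
          (Finset.mem_univ i)
      linarith
    exact inv_le_of_inv_le₀ hpos h1
  have hr₁le : ∀ i j, √(R i j) ≤ r₁ := by
    intro i j
    have h2 : √(R i j) ≤ ∑ j, √(R i j) :=
      Finset.single_le_sum (f := fun j => √(R i j))
        (fun j _ => Real.sqrt_nonneg _) (Finset.mem_univ j)
    have h3 : ∑ j, √(R i j) ≤ ∑ i, ∑ j, √(R i j) :=
      Finset.single_le_sum (f := fun i => ∑ j, √(R i j))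
        (fun i _ => Finset.sum_nonneg fun j _ => Real.sqrt_nonneg _) (Finset.mem_univ i)
    simp only [r₁]
    linarith
  have hr₁pos : 0 < r₁ := by
    have : 0 ≤ ∑ i, ∑ j, √(R i j) :=
      Finset.sum_nonneg fun i _ => Finset.sum_nonneg fun j _ => Real.sqrt_nonneg _
    simp only [r₁]
    linarith
  have hC : 0 < (4 + 4 * K ^ 2) / r₀ := by positivity
  refine ⟨m, 2 / (2 * r₁ + (4 + 4 * K ^ 2) / r₀), (4 + 4 * K ^ 2) / r₀,
    min 1 (1 / (2 * K ^ 2)), by positivity, hC, by positivity, ?_⟩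
  intro δ hδ hδ1
  have hδa : δ ≤ 1 := hδ1.trans (min_le_left _ _)
  have hδb : 2 * K ^ 2 * δ ≤ 1 := by
    have h1 : δ ≤ 1 / (2 * K ^ 2) := hδ1.trans (min_le_right _ _)
    rw [le_div_iff₀ (by positivity)] at h1
    linarith
  refine ⟨fun σ i => q₀ i + δ • ∑ j, σ i j • v i j, ?_, ?_⟩
  · refine continuous_pi fun i => ?_
    refine continuous_const.add (Continuous.const_smul ?_ δ)
    refine continuous_finsetSum _ fun j _ => ?_
    have h1 : Continuous fun σ : ι → ι → ℝ => σ i j :=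
      (continuous_apply j).comp (continuous_apply (A := fun _ : ι => ι → ℝ) i)
    exact h1.smul continuous_const
  · intro σ hσ hsymm i j hij
    let D : ι → E m := fun i => ∑ j, σ i j • v i j
    have hD : ∀ i, ‖D i‖ ≤ K := by
      intro i
      calc ‖D i‖ ≤ ∑ j, ‖σ i j • v i j‖ := norm_sum_le _ _
        _ ≤ ∑ j, ‖v i j‖ := by
            refine Finset.sum_le_sum fun j _ => ?_
            rw [norm_smul, Real.norm_eq_abs]
            have := mul_le_mul_of_nonneg_right (hσ i j) (norm_nonneg (v i j))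
            linarith
        _ ≤ K := hKsum i
    have hin : ∀ a b, a ≠ b → inner ℝ (D a) (q₀ a - q₀ b) = σ a b := by
      intro a b hab
      simp only [D]
      rw [sum_inner, Finset.sum_eq_single b]
      · rw [real_inner_smul_left, (hv1 a b hab).1, mul_one]
      · intro k _ hk
        by_cases hka : a = k
        · rw [hv0 a k hka]
          simp
        · rw [real_inner_smul_left, (hv1 a k hka).2 b (Ne.symm hk), mul_zero]
      · intro h
        exact absurd (Finset.mem_univ _) h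
    have he : ‖(q₀ i + δ • D i) - (q₀ j + δ • D j)‖ ^ 2 =
        √(R i j) ^ 2 + 4 * δ * σ i j + δ ^ 2 * ‖D i - D j‖ ^ 2 := by
      have e1 : (q₀ i + δ • D i) - (q₀ j + δ • D j) = (q₀ i - q₀ j) + δ • (D i - D j) := by
        rw [smul_sub]
        abel
      rw [e1, @norm_add_sq_real, hq₀, Real.sq_sqrt (hR.off_pos hij).le, real_inner_smul_right,
        norm_smul, mul_pow, Real.norm_eq_abs, sq_abs, inner_sub_right,
        real_inner_comm, hin i j hij]
      have e2 : inner ℝ (q₀ i - q₀ j) (D j) = -σ j i := by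
        rw [real_inner_comm, ← neg_sub (q₀ j) (q₀ i), inner_neg_right, hin j i (Ne.symm hij)]
      rw [e2, hsymm j i]
      ring
    exact move_arith hr₀pos (hr₀le i j hij) (hr₁le i j) (norm_nonneg _) hδ hδa hK hδb
      (norm_nonneg _) (by
        calc ‖D i - D j‖ ≤ ‖D i‖ + ‖D j‖ := norm_sub_le _ _
          _ ≤ 2 * K := by
            have := hD i
            have := hD j
            linarith) (hσ i j) he

end P23D
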