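import Mathlib
import Pool.Agent.Lib.P23D.Move
import Pool.Agent.Lib.P23D.Family

/-!
# Module P23D.Emb : exact embeddings, one pair possibly on a flat part

Models: `Pool/Agent/Lib/P23F/VarA.lean` and `VarB.lean` (there the points `q` come from a continuous
Cholesky factorisation; here from `exists_move`).

Index set: `L = {p : Fin N × Fin N // p.1 < p.2}`, `m = card L`, `e : L ≃ Fin m`.  For
`τ : Fin m → ℝ` let `σ i j = τ (e (i, j))` if `i < j`, `τ (e (j, i))` if `j < i`, `0` if `i = j`;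
symmetric, continuous in `τ`, entries in `[-1, 1]` for `τ` in the cube.

PROOF of `embed_A`.  Take `q` from `exists_move hR` for `δ = δ₁`, `p τ = p`, `q τ = q (σ τ)`, and the
pairs `(i, j) ∈ L` with `d i j`; `embed_of_family`.  If `τ l = -1` then
`‖q i - q j‖ ≤ √(R i j) - c δ < √(R i j)` and `Φ (p i - p j) ‖q i - q j‖ < Φ (p i - p j) √(R i j) = d i j`
by `P23F.IsType.strict` (`‖p i - p j‖ < d i j`); if `τ l = 1` then
`√(R i j) < ‖q i - q j‖` and `P23F.IsType.strict'` gives `d i j < Φ ..`.  For `i > j` use symmetry.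

PROOF of `embed_B`.  Let `l₀ = e` of the ordered version of `(i₀, j₀)`.  Let `σ' τ` be `σ τ` with the
entries `(i₀, j₀)`, `(j₀, i₀)` replaced by `0`.  For `0 < δ ≤ δ₁` with `C δ ≤ δ₀` and
`0 < δ' ≤ min δ₀ 1` let `t = δ' τ l₀`, `p τ i = ((1 + t) * s i) • x`, `q τ = q (σ' τ)`.
Pair `l₀`: `|‖q i₀ - q j₀‖ - √(R i₀ j₀)| ≤ C δ ≤ δ₀`, so by `h3`
`Φ (((1+t) (s i₀ - s j₀)) • x) ‖q i₀ - q j₀‖ = (1 + t) d i₀ j₀`, which is `< d` for `t = -δ'` and `> d`
for `t = δ'`.  (If the pair is stored as `(j₀, i₀)` use `P23F.IsType.neg_left`.)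
Other pairs `(i, j)`: `τ l = -1`: we need `Φ (((1+t)(s i - s j)) • x) ‖q i - q j‖ < d i j` for
`|t| ≤ δ'`: with `y = √(R i j) - c δ` (for `δ` small `y ≥ 0`), `‖q i - q j‖ ≤ y` and
`Φ ((s i - s j) • x) y < Φ ((s i - s j) • x) √(R i j) = d i j` (`strict`), and by
`P23F.IsType.mono_right`, `P23F.IsType.lip` the left side is at most
`Φ ((s i - s j) • x) y + δ' ‖(s i - s j) • x‖`; so it holds for `δ'` small (depending on `δ`).
`τ l = 1`: similarly `d i j < Φ ((s i - s j) • x) (√(R i j) + c δ)` by `strict'`.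
First choose `δ`, then `δ'` (finitely many pairs).
-/

set_option autoImplicit false

namespace P23D

namespace EmbAux

/-- ordered pairs of indices -/
abbrev L (N : ℕ) : Type := {p : Fin N × Fin N // p.1 < p.2}

/-- numbering of the pairs -/
noncomputable def e (N : ℕ) : L N ≃ Fin (Fintype.card (L N)) := Fintype.equivFin _

/-- first index of a pair -/
noncomputable def pi {N : ℕ} (l : Fin (Fintype.card (L N))) : Fin N := ((e N).symm l).1.1

/-- second index of a pair -/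
noncomputable def pj {N : ℕ} (l : Fin (Fintype.card (L N))) : Fin N := ((e N).symm l).1.2

/-- the symmetric matrix of a vector -/
noncomputable def sg {N : ℕ} (τ : Fin (Fintype.card (L N)) → ℝ) (i j : Fin N) : ℝ :=
  if h : i < j then τ (e N ⟨(i, j), h⟩) else if h : j < i then τ (e N ⟨(j, i), h⟩) else 0

theorem pi_lt_pj {N : ℕ} (l : Fin (Fintype.card (L N))) : pi l < pj l := ((e N).symm l).2

theorem sg_pair {N : ℕ} (τ : Fin (Fintype.card (L N)) → ℝ) (l : Fin (Fintype.card (L N))) :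
    sg τ (pi l) (pj l) = τ l := by
  have h : pi l < pj l := pi_lt_pj l
  unfold sg
  rw [dif_pos h]
  congr 1
  exact (e N).apply_symm_apply l

theorem sg_symm {N : ℕ} (τ : Fin (Fintype.card (L N)) → ℝ) (i j : Fin N) :
    sg τ i j = sg τ j i := by
  unfold sg
  rcases lt_trichotomy i j with h | h | h
  · rw [dif_pos h, dif_neg h.not_gt, dif_pos h]
  · subst h
    rfl
  · rw [dif_neg h.not_gt, dif_pos h, dif_pos h]

theorem sg_abs {N : ℕ} {τ : Fin (Fintype.card (L N)) → ℝ} (h : ∀ l, |τ l| ≤ 1) (i j : Fin N) :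
    |sg τ i j| ≤ 1 := by
  unfold sg
  split_ifs
  · exact h _
  · exact h _
  · rw [abs_zero]
    exact zero_le_one

theorem sg_cont {N : ℕ} :
    Continuous (sg : (Fin (Fintype.card (L N)) → ℝ) → Fin N → Fin N → ℝ) := by
  refine continuous_pi fun i => continuous_pi fun j => ?_
  unfold sg
  split_ifs
  · exact continuous_apply _
  · exact continuous_apply _
  · exact continuous_const

theorem cover {N : ℕ} {i j : Fin N} (h : i ≠ j) :
    ∃ l : Fin (Fintype.card (L N)), (pi l = i ∧ pj l = j) ∨ (pi l = j ∧ pj l = i) := by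
  rcases lt_or_gt_of_ne h with h1 | h1
  · refine ⟨e N ⟨(i, j), h1⟩, Or.inl ⟨?_, ?_⟩⟩
    · unfold pi
      rw [(e N).symm_apply_apply]
    · unfold pj
      rw [(e N).symm_apply_apply]
  · refine ⟨e N ⟨(j, i), h1⟩, Or.inr ⟨?_, ?_⟩⟩
    · unfold pi
      rw [(e N).symm_apply_apply]
    · unfold pj
      rw [(e N).symm_apply_apply]

theorem cube_abs {m : ℕ} {τ : Fin m → ℝ}
    (hτ : τ ∈ Set.Icc (fun _ => (-1 : ℝ)) (fun _ => (1 : ℝ))) (l : Fin m) : |τ l| ≤ 1 :=
  abs_le.2 ⟨hτ.1 l, hτ.2 l⟩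

theorem ev_lt {a b c : ℝ} (h : a < b) :
    ∀ᶠ δ in nhdsWithin (0 : ℝ) (Set.Ioi 0), a + δ * c < b := by
  have h1 : Filter.Tendsto (fun δ : ℝ => a + δ * c) (nhdsWithin (0 : ℝ) (Set.Ioi 0))
      (nhds (a + 0 * c)) :=
    ((continuous_const.add (continuous_id.mul continuous_const)).tendsto 0).mono_left
      nhdsWithin_le_nhds
  rw [zero_mul, add_zero] at h1
  exact h1.eventually_lt_const h

end EmbAux

open EmbAux in
theorem embed_A {X : Type*} [NormedAddCommGroup X] [NormedSpace ℝ X] {Φ : X → ℝ → ℝ}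
    (hΦ : P23F.IsType Φ) {N : ℕ} (p : Fin N → X) (R : Fin N → Fin N → ℝ) (hR : Good R)
    (d : Fin N → Fin N → ℝ) (hd : ∀ i j, d i j = d j i)
    (h1 : ∀ i j, i ≠ j → Φ (p i - p j) √(R i j) = d i j)
    (h2 : ∀ i j, i ≠ j → ‖p i - p j‖ < d i j) :
    ∃ P : Fin N → X, ∀ i j, i ≠ j → ‖P i - P j‖ = d i j := by
  obtain ⟨k, c, C, δ₁, hc, -, hδ₁, hmove⟩ := exists_move hR
  obtain ⟨q, hqc, hq⟩ := hmove δ₁ hδ₁ le_rfl
  obtain ⟨P, hP⟩ := embed_of_family hΦ (m := Fintype.card (L N)) (k := k) pi pj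
    (fun l => d (pi l) (pj l)) (fun _ => p) (fun τ => q (sg τ)) continuousOn_const
    (hqc.comp sg_cont).continuousOn
    (by
      intro τ hτ l hl
      have hne : pi l ≠ pj l := (pi_lt_pj l).ne
      obtain ⟨-, -, h3⟩ := hq (sg τ) (sg_abs (cube_abs hτ)) (sg_symm τ) _ _ hne
      have h4 := h3 (by rw [sg_pair, hl])
      have h5 : ‖p (pi l) - p (pj l)‖ < Φ (p (pi l) - p (pj l)) √(R (pi l) (pj l)) := by
        rw [h1 _ _ hne]
        exact h2 _ _ hne
      have h6 : 0 < c * δ₁ := by positivity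
      have h7 := hΦ.strict (p (pi l) - p (pj l))
        (norm_nonneg (q (sg τ) (pi l) - q (sg τ) (pj l))) (by linarith) h5
      rw [h1 _ _ hne] at h7
      exact h7)
    (by
      intro τ hτ l hl
      have hne : pi l ≠ pj l := (pi_lt_pj l).ne
      obtain ⟨-, h3, -⟩ := hq (sg τ) (sg_abs (cube_abs hτ)) (sg_symm τ) _ _ hne
      have h4 := h3 (by rw [sg_pair, hl])
      have h5 : ‖p (pi l) - p (pj l)‖ < Φ (p (pi l) - p (pj l)) √(R (pi l) (pj l)) := by
        rw [h1 _ _ hne]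
        exact h2 _ _ hne
      have h6 : 0 < c * δ₁ := by positivity
      have h7 := hΦ.strict' (p (pi l) - p (pj l))
        (r' := ‖q (sg τ) (pi l) - q (sg τ) (pj l)‖) (Real.sqrt_nonneg _) (by linarith) h5
      rw [h1 _ _ hne] at h7
      exact h7)
  refine ⟨P, fun i j hij => ?_⟩
  obtain ⟨l, ⟨ha, hb⟩ | ⟨ha, hb⟩⟩ := cover hij
  · have h3 := hP l
    rw [ha, hb] at h3
    exact h3
  · have h3 := hP l
    rw [ha, hb] at h3
    rw [norm_sub_rev, h3, hd]

open EmbAux in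
theorem embed_B {X : Type*} [NormedAddCommGroup X] [NormedSpace ℝ X] {Φ : X → ℝ → ℝ}
    (hΦ : P23F.IsType Φ) (x : X) {N : ℕ} (s : Fin N → ℝ) (R : Fin N → Fin N → ℝ) (hR : Good R)
    (d : Fin N → Fin N → ℝ) (hd : ∀ i j, d i j = d j i) (i₀ j₀ : Fin N) (hij : i₀ ≠ j₀)
    (hd0 : 0 < d i₀ j₀)
    (h1 : ∀ i j, i ≠ j → ¬((i = i₀ ∧ j = j₀) ∨ (i = j₀ ∧ j = i₀)) →
      Φ ((s i - s j) • x) √(R i j) = d i j ∧ ‖(s i - s j) • x‖ < d i j)
    (h3 : ∃ δ₀ > 0, ∀ t r : ℝ, |t| ≤ δ₀ → |r - √(R i₀ j₀)| ≤ δ₀ →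
      Φ (((1 + t) * (s i₀ - s j₀)) • x) r = (1 + t) * d i₀ j₀) :
    ∃ P : Fin N → X, ∀ i j, i ≠ j → ‖P i - P j‖ = d i j := by
  classical
  obtain ⟨δ₀, hδ₀, h3⟩ := h3
  obtain ⟨k, c, C, δ₁, hc, hC, hδ₁, hmove⟩ := exists_move hR
  obtain ⟨l₀, hl₀⟩ := cover hij
  -- choice of δ
  obtain ⟨δ, hδ, hδa, hδb⟩ : ∃ δ : ℝ, 0 < δ ∧ δ ≤ δ₁ ∧ C * δ ≤ δ₀ := by
    refine ⟨min δ₁ (δ₀ / C), lt_min hδ₁ (div_pos hδ₀ hC), min_le_left _ _, ?_⟩
    have h4 : C * min δ₁ (δ₀ / C) ≤ C * (δ₀ / C) :=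
      mul_le_mul_of_nonneg_left (min_le_right _ _) hC.le
    rwa [mul_div_cancel₀ _ hC.ne'] at h4
  obtain ⟨q, hqc, hq⟩ := hmove δ hδ hδa
  have hcδ : 0 < c * δ := by positivity
  -- the pairs different from the special one
  have hsp : ∀ l, l ≠ l₀ → ¬((pi l = i₀ ∧ pj l = j₀) ∨ (pi l = j₀ ∧ pj l = i₀)) := by
    intro l hl hcon
    apply hl
    have key : ∀ l l' : Fin (Fintype.card (L N)), pi l = pi l' → pj l = pj l' → l = l' := by
      intro l l' ha hb
      have h4 : (e N).symm l = (e N).symm l' := Subtype.ext (Prod.ext ha hb)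
      exact (e N).symm.injective h4
    have hlt := pi_lt_pj l
    have hlt0 := pi_lt_pj l₀
    rcases hcon with ⟨ha, hb⟩ | ⟨ha, hb⟩
    · rcases hl₀ with ⟨hc1, hc2⟩ | ⟨hc1, hc2⟩
      · exact key _ _ (ha.trans hc1.symm) (hb.trans hc2.symm)
      · exfalso
        rw [ha, hb] at hlt
        rw [hc1, hc2] at hlt0
        exact absurd hlt hlt0.not_gt
    · rcases hl₀ with ⟨hc1, hc2⟩ | ⟨hc1, hc2⟩
      · exfalso
        rw [ha, hb] at hlt
        rw [hc1, hc2] at hlt0
        exact absurd hlt hlt0.not_gt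
      · exact key _ _ (ha.trans hc1.symm) (hb.trans hc2.symm)
  -- strict inequalities at t = 0
  have hlow : ∀ l, l ≠ l₀ → Φ ((s (pi l) - s (pj l)) • x) (max 0 (√(R (pi l) (pj l)) - c * δ)) <
      d (pi l) (pj l) := by
    intro l hl
    have hne : pi l ≠ pj l := (pi_lt_pj l).ne
    obtain ⟨h4, h5⟩ := h1 _ _ hne (hsp l hl)
    rw [← h4] at h5 ⊢
    have h6 : 0 < √(R (pi l) (pj l)) := Real.sqrt_pos.2 (hR.off_pos hne)
    exact hΦ.strict _ (le_max_left _ _) (max_lt h6 (by linarith)) h5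
  have hup : ∀ l, l ≠ l₀ → d (pi l) (pj l) <
      Φ ((s (pi l) - s (pj l)) • x) (√(R (pi l) (pj l)) + c * δ) := by
    intro l hl
    have hne : pi l ≠ pj l := (pi_lt_pj l).ne
    obtain ⟨h4, h5⟩ := h1 _ _ hne (hsp l hl)
    rw [← h4] at h5 ⊢
    exact hΦ.strict' _ (Real.sqrt_nonneg _) (by linarith) h5
  -- choice of δ'
  have hev' : ∀ᶠ δ' in nhdsWithin (0 : ℝ) (Set.Ioi 0),
      (∀ l, l ≠ l₀ → Φ ((s (pi l) - s (pj l)) • x) (max 0 (√(R (pi l) (pj l)) - c * δ)) +
        δ' * ‖(s (pi l) - s (pj l)) • x‖ < d (pi l) (pj l)) ∧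
      (∀ l, l ≠ l₀ → d (pi l) (pj l) + δ' * ‖(s (pi l) - s (pj l)) • x‖ <
        Φ ((s (pi l) - s (pj l)) • x) (√(R (pi l) (pj l)) + c * δ)) ∧ δ' < δ₀ := by
    refine Filter.Eventually.and ?_ (Filter.Eventually.and ?_ ?_)
    · refine Filter.eventually_all.2 fun l => ?_
      by_cases hl : l = l₀
      · exact Filter.Eventually.of_forall fun _ h => absurd hl h
      · exact (ev_lt (hlow l hl)).mono fun _ h _ => h
    · refine Filter.eventually_all.2 fun l => ?_
      by_cases hl : l = l₀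
      · exact Filter.Eventually.of_forall fun _ h => absurd hl h
      · exact (ev_lt (hup l hl)).mono fun _ h _ => h
    · filter_upwards [ev_lt (c := 1) hδ₀] with δ h
      linarith
  obtain ⟨δ', ⟨hδ'a, hδ'b, hδ'c⟩, hδ'⟩ := (hev'.and self_mem_nhdsWithin).exists
  have hδ' : 0 < δ' := hδ'
  -- the family
  let τ' : (Fin (Fintype.card (L N)) → ℝ) → Fin (Fintype.card (L N)) → ℝ :=
    fun τ l => if l = l₀ then 0 else τ l
  have hτ'c : Continuous τ' := by
    refine continuous_pi fun l => ?_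
    by_cases hl : l = l₀
    · simp only [τ', hl, if_true]
      exact continuous_const
    · simp only [τ', hl, if_false]
      exact continuous_apply l
  have hτ'b : ∀ τ ∈ Set.Icc (fun _ => (-1 : ℝ)) (fun _ => (1 : ℝ)), ∀ l, |τ' τ l| ≤ 1 := by
    intro τ hτ l
    by_cases hl : l = l₀
    · simp only [τ', hl, if_true, abs_zero]
      norm_num
    · simp only [τ', hl, if_false]
      exact cube_abs hτ l
  have hτ'n : ∀ τ l, l ≠ l₀ → τ' τ l = τ l := by
    intro τ l hl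
    simp only [τ', hl, if_false]
  have habs : ∀ a b : X, ∀ r : ℝ, Φ a r ≤ Φ b r + ‖a - b‖ := by
    intro a b r
    have h4 := (abs_le.1 (hΦ.lip a b r r)).2
    rw [sub_self, abs_zero] at h4
    linarith
  obtain ⟨P, hP⟩ := embed_of_family hΦ (m := Fintype.card (L N)) (k := k) pi pj
    (fun l => d (pi l) (pj l))
    (fun τ i => ((1 + δ' * τ l₀) * s i) • x) (fun τ => q (sg (τ' τ))) (by
      refine Continuous.continuousOn (continuous_pi fun i => ?_)
      exact ((continuous_const.add (continuous_const.mul (continuous_apply l₀))).mul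
        continuous_const).smul continuous_const)
    (hqc.comp (sg_cont.comp hτ'c)).continuousOn (by
      intro τ hτ l hl
      have hne : pi l ≠ pj l := (pi_lt_pj l).ne
      have e1 : ((1 + δ' * τ l₀) * s (pi l)) • x - ((1 + δ' * τ l₀) * s (pj l)) • x =
          ((1 + δ' * τ l₀) * (s (pi l) - s (pj l))) • x := by
        rw [← sub_smul, mul_sub]
      change Φ (((1 + δ' * τ l₀) * s (pi l)) • x - ((1 + δ' * τ l₀) * s (pj l)) • x)
        ‖q (sg (τ' τ)) (pi l) - q (sg (τ' τ)) (pj l)‖ < d (pi l) (pj l)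
      rw [e1]
      obtain ⟨h4, -, h5⟩ := hq (sg (τ' τ)) (sg_abs (hτ'b τ hτ)) (sg_symm _) _ _ hne
      by_cases hll : l = l₀
      · subst hll
        have ht : |δ' * (-1 : ℝ)| ≤ δ₀ := by
          rw [abs_mul, abs_of_pos hδ', abs_neg, abs_one, mul_one]
          exact hδ'c.le
        rw [hl]
        rcases hl₀ with ⟨ha, hb⟩ | ⟨ha, hb⟩
        · rw [ha, hb] at h4 ⊢
          rw [h3 _ _ ht (h4.trans hδb)]
          nlinarith
        · rw [ha, hb] at h4 ⊢
          rw [hR.symm j₀ i₀] at h4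
          have e2 : ((1 + δ' * -1) * (s j₀ - s i₀)) • x =
              -(((1 + δ' * -1) * (s i₀ - s j₀)) • x) := by
            rw [← neg_smul]
            congr 1
            ring
          rw [e2, hΦ.neg_left, h3 _ _ ht (h4.trans hδb), hd j₀ i₀]
          nlinarith
      · have h6 := h5 (by rw [sg_pair, hτ'n τ l hll, hl])
        have h7 := hδ'a l hll
        have h8 := hΦ.mono_right (((1 + δ' * τ l₀) * (s (pi l) - s (pj l))) • x)
          (r := ‖q (sg (τ' τ)) (pi l) - q (sg (τ' τ)) (pj l)‖)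
          (r' := max 0 (√(R (pi l) (pj l)) - c * δ)) (by
            rw [abs_of_nonneg (norm_nonneg _), abs_of_nonneg (le_max_left _ _)]
            exact h6.trans (le_max_right _ _))
        have h9 := habs (((1 + δ' * τ l₀) * (s (pi l) - s (pj l))) • x)
          ((s (pi l) - s (pj l)) • x) (max 0 (√(R (pi l) (pj l)) - c * δ))
        have e3 : ((1 + δ' * τ l₀) * (s (pi l) - s (pj l))) • x -
            (s (pi l) - s (pj l)) • x = (δ' * τ l₀) • ((s (pi l) - s (pj l)) • x) := by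
          rw [← sub_smul, smul_smul]
          congr 1
          ring
        have h10 : |τ l₀| ≤ 1 := cube_abs hτ l₀
        rw [e3, norm_smul, Real.norm_eq_abs, abs_mul, abs_of_pos hδ'] at h9
        have h11 : δ' * |τ l₀| * ‖(s (pi l) - s (pj l)) • x‖ ≤
            δ' * ‖(s (pi l) - s (pj l)) • x‖ := by
          refine mul_le_mul_of_nonneg_right ?_ (norm_nonneg _)
          nlinarith
        linarith) (by
      intro τ hτ l hl
      have hne : pi l ≠ pj l := (pi_lt_pj l).ne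
      have e1 : ((1 + δ' * τ l₀) * s (pi l)) • x - ((1 + δ' * τ l₀) * s (pj l)) • x =
          ((1 + δ' * τ l₀) * (s (pi l) - s (pj l))) • x := by
        rw [← sub_smul, mul_sub]
      change d (pi l) (pj l) < Φ (((1 + δ' * τ l₀) * s (pi l)) • x -
        ((1 + δ' * τ l₀) * s (pj l)) • x) ‖q (sg (τ' τ)) (pi l) - q (sg (τ' τ)) (pj l)‖
      rw [e1]
      obtain ⟨h4, h5, -⟩ := hq (sg (τ' τ)) (sg_abs (hτ'b τ hτ)) (sg_symm _) _ _ hne
      by_cases hll : l = l₀
      · subst hll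
        have ht : |δ' * (1 : ℝ)| ≤ δ₀ := by
          rw [mul_one, abs_of_pos hδ']
          exact hδ'c.le
        rw [hl]
        rcases hl₀ with ⟨ha, hb⟩ | ⟨ha, hb⟩
        · rw [ha, hb] at h4 ⊢
          rw [h3 _ _ ht (h4.trans hδb)]
          nlinarith
        · rw [ha, hb] at h4 ⊢
          rw [hR.symm j₀ i₀] at h4
          have e2 : ((1 + δ' * 1) * (s j₀ - s i₀)) • x =
              -(((1 + δ' * 1) * (s i₀ - s j₀)) • x) := by
            rw [← neg_smul]
            congr 1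
            ring
          rw [e2, hΦ.neg_left, h3 _ _ ht (h4.trans hδb), hd j₀ i₀]
          nlinarith
      · have h6 := h5 (by rw [sg_pair, hτ'n τ l hll, hl])
        have h7 := hδ'b l hll
        have hy0 : 0 ≤ √(R (pi l) (pj l)) + c * δ := by
          have := Real.sqrt_nonneg (R (pi l) (pj l))
          linarith
        have h8 := hΦ.mono_right (((1 + δ' * τ l₀) * (s (pi l) - s (pj l))) • x)
          (r := √(R (pi l) (pj l)) + c * δ)
          (r' := ‖q (sg (τ' τ)) (pi l) - q (sg (τ' τ)) (pj l)‖) (by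
            rw [abs_of_nonneg (norm_nonneg _), abs_of_nonneg hy0]
            exact h6)
        have h9 := habs ((s (pi l) - s (pj l)) • x)
          (((1 + δ' * τ l₀) * (s (pi l) - s (pj l))) • x) (√(R (pi l) (pj l)) + c * δ)
        have e3 : (s (pi l) - s (pj l)) • x - ((1 + δ' * τ l₀) * (s (pi l) - s (pj l))) • x =
            (-(δ' * τ l₀)) • ((s (pi l) - s (pj l)) • x) := by
          rw [← sub_smul, smul_smul]
          congr 1
          ring
        have h10 : |τ l₀| ≤ 1 := cube_abs hτ l₀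
        rw [e3, norm_smul, Real.norm_eq_abs, abs_neg, abs_mul, abs_of_pos hδ'] at h9
        have h11 : δ' * |τ l₀| * ‖(s (pi l) - s (pj l)) • x‖ ≤
            δ' * ‖(s (pi l) - s (pj l)) • x‖ := by
          refine mul_le_mul_of_nonneg_right ?_ (norm_nonneg _)
          nlinarith
        linarith)
  refine ⟨P, fun i j hij' => ?_⟩
  obtain ⟨l, ⟨ha, hb⟩ | ⟨ha, hb⟩⟩ := cover hij'
  · have h4 := hP l
    rw [ha, hb] at h4
    exact h4
  · have h4 := hP l
    rw [ha, hb] at h4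
    rw [norm_sub_rev, h4, hd]

end P23D
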