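import Mathlib
import Pool.Agent.Lib.P23D.Defs
import Pool.Agent.Lib.P23D.Diff
import Pool.Agent.Lib.P23D.PDlem

/-!
# Module P23D.Pairs : pairs of points with one affine dependence

PROOFS (`h : Dep a μ`).
* `inj`: if `a i = a j`, `i ≠ j`, then `c = e i - e j` has `∑ c = 0`, `∑ c • a = 0`, so `c = t μ`,
  `t ≠ 0`, and `μ` has only two non-zero entries, against `supp`.
* `same`: among four non-zero numbers `μ (f k)` two have the same sign.  `opp`: `∑ μ i = 0` and `μ ≠ 0`,
  so there are a positive and a negative entry.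
* `par`: let `a i - a j = c • (a k - a l)` (`c = ± ‖a i - a j‖ / ‖a k - a l‖ ≠ 0`), and
  `v = e i - e j - c (e k - e l)`; `∑ v = 0`, `∑ v • a = 0`, so `v = t μ`.  If `t = 0`, `v = 0`, so
  `{i, j} = {k, l}`.  If `t ≠ 0` the support of `v`, contained in `{i, j, k, l}`, has at least four
  elements, so `i, j, k, l` are distinct, `t μ i = 1`, `t μ j = -1`, `t μ k = -c`, `t μ l = c`.
* `norm_dir`: `a i ≠ a j`.
* `wt_sum`: `∑ μ i μ j ‖a i - a j‖² = 0` (expand: `2 (∑ μ i ‖a i‖²)(∑ μ j) - 2 ‖∑ μ i a i‖²`).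
* `killed_zero`, `killed_one`: `l = 0` is `wt_sum`; `wt p ⟪w, dr p⟫² = μ i μ j ⟪w, a i - a j⟫²` (also
  for `a i = a j`), and `∑ μ i μ j ⟪w, a i - a j⟫² = - 2 ⟪w, ∑ μ i a i⟫² = 0`.
* `cls_pos`: the terms of `cls` with `wt q ≠ 0` have `q.1 ≠ q.2` (else the norm is `0`) and are
  parallel to `(i, j)`; by `par` either `{q.1, q.2} = {i, j}` and `wt q = μ i μ j ‖a i - a j‖² > 0`, or
  `μ i + μ j = 0`, impossible.  So all terms are `≥ 0` and the term of `(i, j)` is positive.
* `cls_neg`: the terms of `cls` with `wt q ≠ 0`: either `{q.1, q.2} = {i, j}`, `wt q < 0`, or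
  `μ q.1 + μ q.2 = 0`, `wt q = -(μ q.1)² ‖..‖² ≤ 0`.  The term of `(i, j)` is negative.
* `fam`: by the above; `norm`: `wt p ≠ 0` implies `p.1 ≠ p.2`.
* `inner_lt`: strict Cauchy-Schwarz for unit vectors, finitely many pairs.
-/

set_option autoImplicit false

namespace P23D

variable {ι : Type} [Fintype ι] {n : ℕ} {a : ι → E n} {μ : ι → ℝ}

namespace PairsAux

/-- the support of `μ` cannot be contained in a set of at most three elements -/
theorem supp_card (h : Dep a μ) (S : Finset ι) (hS : S.card ≤ 3) : ∃ i, i ∉ S ∧ μ i ≠ 0 := by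
  obtain ⟨f, hf, hne⟩ := h.supp
  by_contra hc
  push Not at hc
  have h1 : ∀ k, f k ∈ S := by
    intro k
    by_contra hk
    exact hne k (hc _ hk)
  have h2 : (Finset.univ : Finset (Fin 4)).card ≤ S.card :=
    Finset.card_le_card_of_injOn f (fun k _ => h1 k) (fun x _ y _ hxy => hf hxy)
  simp at h2
  omega

theorem sum_single2 [DecidableEq ι] {M : Type*} [AddCommGroup M] [Module ℝ M] (i j : ι) (x y : ℝ)
    (g : ι → M) :
    ∑ k, ((Pi.single i x + Pi.single j y : ι → ℝ) k) • g k = x • g i + y • g j := by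
  simp only [Pi.add_apply, add_smul, Finset.sum_add_distrib]
  congr 1
  · rw [Finset.sum_eq_single i]
    · simp
    · intro k _ hk
      simp [hk]
    · simp
  · rw [Finset.sum_eq_single j]
    · simp
    · intro k _ hk
      simp [hk]
    · simp

theorem sum_single2' [DecidableEq ι] (i j : ι) (x y : ℝ) :
    ∑ k, (Pi.single i x + Pi.single j y : ι → ℝ) k = x + y := by
  have := sum_single2 (M := ℝ) i j x y (fun _ => 1)
  simpa using this

end PairsAux

open PairsAux

theorem Dep.inj (h : Dep a μ) : Function.Injective a := by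
  classical
  intro i j hij
  by_contra hne
  obtain ⟨t, ht⟩ := h.ker (Pi.single i 1 + Pi.single j (-1)) (by rw [sum_single2']; norm_num)
    (by rw [sum_single2, hij]; simp)
  obtain ⟨k, hk, hμ⟩ := supp_card h {i, j} (Finset.card_le_two.trans (by norm_num))
  simp only [Finset.mem_insert, Finset.mem_singleton, not_or] at hk
  have h1 := ht k
  have h2 := ht i
  simp only [Pi.add_apply, Pi.single_eq_of_ne hk.1, Pi.single_eq_of_ne hk.2, add_zero] at h1
  rcases mul_eq_zero.1 h1.symm with h3 | h3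
  · rw [h3] at h2
    simp [Pi.single_eq_of_ne hne] at h2
  · exact hμ h3

theorem Dep.same (h : Dep a μ) : ∃ i j, i ≠ j ∧ 0 < μ i * μ j := by
  obtain ⟨f, hf, hne⟩ := h.supp
  rcases lt_or_gt_of_ne (hne 0) with h0 | h0 <;> rcases lt_or_gt_of_ne (hne 1) with h1 | h1
  · exact ⟨f 0, f 1, fun e => absurd (hf e) (by decide), mul_pos_of_neg_of_neg h0 h1⟩
  · rcases lt_or_gt_of_ne (hne 2) with h2 | h2
    · exact ⟨f 0, f 2, fun e => absurd (hf e) (by decide), mul_pos_of_neg_of_neg h0 h2⟩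
    · exact ⟨f 1, f 2, fun e => absurd (hf e) (by decide), mul_pos h1 h2⟩
  · rcases lt_or_gt_of_ne (hne 2) with h2 | h2
    · exact ⟨f 1, f 2, fun e => absurd (hf e) (by decide), mul_pos_of_neg_of_neg h1 h2⟩
    · exact ⟨f 0, f 2, fun e => absurd (hf e) (by decide), mul_pos h0 h2⟩
  · exact ⟨f 0, f 1, fun e => absurd (hf e) (by decide), mul_pos h0 h1⟩

theorem Dep.opp (h : Dep a μ) : ∃ i j, i ≠ j ∧ μ i * μ j < 0 := by
  obtain ⟨f, hf, hne⟩ := h.supp
  have h1 : ∃ i, 0 < μ i := by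
    by_contra hc
    push Not at hc
    have h2 := (Finset.sum_eq_zero_iff_of_nonpos (s := Finset.univ) (f := μ)
      (fun i _ => hc i)).1 h.sum
    exact hne 0 (h2 _ (Finset.mem_univ _))
  have h2 : ∃ i, μ i < 0 := by
    by_contra hc
    push Not at hc
    have h2 := (Finset.sum_eq_zero_iff_of_nonneg (s := Finset.univ) (f := μ)
      (fun i _ => hc i)).1 h.sum
    exact hne 0 (h2 _ (Finset.mem_univ _))
  obtain ⟨i, hi⟩ := h1
  obtain ⟨j, hj⟩ := h2
  refine ⟨i, j, ?_, mul_neg_of_pos_of_neg hi hj⟩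
  rintro rfl
  exact lt_asymm hi hj

theorem Dep.npos (h : Dep a μ) {i j : ι} (hij : i ≠ j) : 0 < ‖a i - a j‖ :=
  norm_pos_iff.2 (sub_ne_zero.2 (h.inj.ne hij))

theorem Dep.norm_dir (h : Dep a μ) {i j : ι} (hij : i ≠ j) : ‖dir a i j‖ = 1 := by
  unfold dir
  rw [norm_smul, norm_inv, norm_norm, inv_mul_cancel₀ (h.npos hij).ne']

omit [Fintype ι] in
theorem dir_swap (i j : ι) : dir a j i = -dir a i j := by
  unfold dir
  rw [norm_sub_rev, ← smul_neg, neg_sub]

omit [Fintype ι] in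
theorem norm_smul_dir (i j : ι) : ‖a i - a j‖ • dir a i j = a i - a j := by
  unfold dir
  by_cases h : ‖a i - a j‖ = 0
  · rw [h, norm_eq_zero.1 h]
    simp
  · rw [smul_smul, mul_inv_cancel₀ h, one_smul]

theorem Dep.par (h : Dep a μ) {i j k l : ι} (hij : i ≠ j) (hkl : k ≠ l)
    (hp : dir a k l = dir a i j ∨ dir a k l = -dir a i j) :
    (k = i ∧ l = j) ∨ (k = j ∧ l = i) ∨ (μ i + μ j = 0 ∧ μ k + μ l = 0) := by
  classical
  have hij0 := h.npos hij
  have hkl0 := h.npos hkl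
  obtain ⟨c, hc0, hc⟩ : ∃ c : ℝ, c ≠ 0 ∧ a i - a j = c • (a k - a l) := by
    have e1 : (‖a i - a j‖ / ‖a k - a l‖) • (a k - a l) = ‖a i - a j‖ • dir a k l := by
      unfold dir
      rw [smul_smul, div_eq_mul_inv]
    rcases hp with hp | hp
    · refine ⟨‖a i - a j‖ / ‖a k - a l‖, (div_pos hij0 hkl0).ne', ?_⟩
      rw [e1, hp, norm_smul_dir]
    · refine ⟨-(‖a i - a j‖ / ‖a k - a l‖), neg_ne_zero.2 (div_pos hij0 hkl0).ne', ?_⟩
      rw [neg_smul, e1, hp, smul_neg, neg_neg, norm_smul_dir]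
  set v : ι → ℝ := (Pi.single i 1 + Pi.single j (-1)) + (Pi.single k (-c) + Pi.single l c) with hv
  have hvs : ∀ x, v x = (Pi.single i 1 + Pi.single j (-1) : ι → ℝ) x +
      (Pi.single k (-c) + Pi.single l c : ι → ℝ) x := fun x => rfl
  obtain ⟨t, ht⟩ := h.ker v (by
    simp_rw [hvs]
    rw [Finset.sum_add_distrib, sum_single2', sum_single2']
    ring) (by
    simp_rw [hvs, add_smul]
    rw [Finset.sum_add_distrib]
    have e1 := sum_single2 (M := E n) i j 1 (-1) a
    have e2 := sum_single2 (M := E n) k l (-c) c a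
    rw [e1, e2, one_smul, neg_one_smul, neg_smul, ← sub_eq_add_neg, hc, smul_sub]
    abel)
  have hvx : ∀ x, v x = (if x = i then 1 else 0) - (if x = j then 1 else 0) -
      (if x = k then c else 0) + (if x = l then c else 0) := by
    intro x
    simp only [hv, Pi.add_apply, Pi.single_apply]
    split_ifs <;> ring
  by_cases ht0 : t = 0
  · have hv0 : ∀ x, v x = 0 := fun x => by rw [ht x, ht0, zero_mul]
    have hi := hv0 i
    have hj := hv0 j
    rw [hvx] at hi hj
    simp only [if_true, if_neg hij, if_neg hij.symm] at hi hj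
    by_cases h1 : i = k
    · have h2 : i ≠ l := fun e => hkl (h1.symm.trans e)
      rw [if_pos h1, if_neg h2] at hi
      have hc1 : c = 1 := by linarith
      have h3 : j ≠ k := fun e => hij (h1.trans e.symm)
      rw [if_neg h3] at hj
      by_cases h4 : j = l
      · exact Or.inl ⟨h1.symm, h4.symm⟩
      · rw [if_neg h4] at hj
        norm_num at hj
    · rw [if_neg h1] at hi
      by_cases h2 : i = l
      · have h3 : j ≠ l := fun e => hij (h2.trans e.symm)
        rw [if_neg h3] at hj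
        by_cases h4 : j = k
        · exact Or.inr (Or.inl ⟨h4.symm, h2.symm⟩)
        · rw [if_neg h4] at hj
          norm_num at hj
      · rw [if_neg h2] at hi
        norm_num at hi
  · refine Or.inr (Or.inr ?_)
    -- the four indices are distinct
    have hsupp : ∀ x, x ≠ i → x ≠ j → x ≠ k → x ≠ l → μ x = 0 := by
      intro x h1 h2 h3 h4
      have h5 := ht x
      rw [hvx, if_neg h1, if_neg h2, if_neg h3, if_neg h4] at h5
      have h6 : t * μ x = 0 := by linarith
      exact (mul_eq_zero.1 h6).resolve_left ht0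
    have hdist : ∀ x y z : ι, (∀ w, w ≠ x → w ≠ y → w ≠ z → μ w = 0) → False := by
      intro x y z hw
      obtain ⟨w, hw1, hw2⟩ := supp_card h {x, y, z} Finset.card_le_three
      simp only [Finset.mem_insert, Finset.mem_singleton, not_or] at hw1
      exact hw2 (hw w hw1.1 hw1.2.1 hw1.2.2)
    have hik : i ≠ k := fun e => hdist i j l fun w h1 h2 h3 => hsupp w h1 h2 (e ▸ h1) h3
    have hil : i ≠ l := fun e => hdist i j k fun w h1 h2 h3 => hsupp w h1 h2 h3 (e ▸ h1)
    have hjk : j ≠ k := fun e => hdist i j l fun w h1 h2 h3 => hsupp w h1 h2 (e ▸ h2) h3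
    have hjl : j ≠ l := fun e => hdist i j k fun w h1 h2 h3 => hsupp w h1 h2 h3 (e ▸ h2)
    have hi := ht i
    have hj := ht j
    have hk := ht k
    have hl := ht l
    rw [hvx, if_pos rfl, if_neg hij, if_neg hik, if_neg hil] at hi
    rw [hvx, if_neg hij.symm, if_pos rfl, if_neg hjk, if_neg hjl] at hj
    rw [hvx, if_neg hik.symm, if_neg hjk.symm, if_pos rfl, if_neg hkl] at hk
    rw [hvx, if_neg hil.symm, if_neg hjl.symm, if_neg hkl.symm, if_pos rfl] at hl
    constructor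
    · have h1 : t * (μ i + μ j) = 0 := by linarith
      exact (mul_eq_zero.1 h1).resolve_left ht0
    · have h1 : t * (μ k + μ l) = 0 := by linarith
      exact (mul_eq_zero.1 h1).resolve_left ht0

omit [Fintype ι] in
theorem wt_eq_zero (i : ι) : wt a μ (i, i) = 0 := by simp [wt]

omit [Fintype ι] in
theorem ne_of_wt {p : ι × ι} (hp : wt a μ p ≠ 0) : p.1 ≠ p.2 := by
  intro h
  apply hp
  simp [wt, h]

theorem quad_norm_aux (c : ι → ℝ) (hc : ∑ i, c i = 0) (g : ι → E n) :
    ∑ i, ∑ j, c i * c j * ‖g i - g j‖ ^ 2 = -2 * ‖∑ i, c i • g i‖ ^ 2 := quad_norm g c hc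

theorem Dep.wt_sum (h : Dep a μ) : ∑ p, wt a μ p = 0 := by
  rw [Fintype.sum_prod_type]
  have := quad_norm a μ h.sum
  rw [h.suma, norm_zero] at this
  simpa [wt] using this

theorem Dep.killed_zero (h : Dep a μ) : Killed (wt a μ) (dr a) 0 := by
  intro w
  simpa using h.wt_sum

omit [Fintype ι] in
theorem wt_mul_inner_sq (w : E n) (p : ι × ι) :
    wt a μ p * (inner ℝ w (dr a p) : ℝ) ^ 2 =
      μ p.1 * μ p.2 * (inner ℝ w (a p.1 - a p.2) : ℝ) ^ 2 := by
  have e : (inner ℝ w (a p.1 - a p.2) : ℝ) = ‖a p.1 - a p.2‖ * inner ℝ w (dr a p) := by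
    rw [← real_inner_smul_right]
    unfold dr
    rw [norm_smul_dir]
  unfold wt
  rw [e]
  ring

theorem Dep.killed_one (h : Dep a μ) : Killed (wt a μ) (dr a) 1 := by
  intro w
  simp only [mul_one, wt_mul_inner_sq]
  rw [Fintype.sum_prod_type]
  have := quad_inner a w μ h.sum
  rw [h.suma, inner_zero_right] at this
  simpa using this

theorem Dep.cls_pos (h : Dep a μ) {i j : ι} (hij : i ≠ j) (hs : 0 < μ i * μ j) :
    0 < cls (wt a μ) (dr a) (dir a i j) := by
  classical
  have hμ : μ i + μ j ≠ 0 := by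
    intro e
    have : μ j = -μ i := by linarith
    rw [this] at hs
    nlinarith [sq_nonneg (μ i)]
  unfold cls
  refine Finset.sum_pos' (fun q _ => ?_) ⟨(i, j), Finset.mem_univ _, ?_⟩
  · split_ifs with hq
    · by_cases hw : wt a μ q = 0
      · rw [hw]
      · rcases h.par hij (ne_of_wt hw) hq with ⟨h1, h2⟩ | ⟨h1, h2⟩ | ⟨h1, _⟩
        · unfold wt
          rw [h1, h2]
          positivity
        · unfold wt
          rw [h1, h2, mul_comm (μ j)]
          positivity
        · exact absurd h1 hμ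
    · exact le_rfl
  · have e : dr a (i, j) = dir a i j := rfl
    rw [if_pos (Or.inl e)]
    unfold wt
    have := h.npos hij
    show 0 < μ i * μ j * ‖a i - a j‖ ^ 2
    positivity

theorem Dep.cls_neg (h : Dep a μ) {i j : ι} (hij : i ≠ j) (hs : μ i * μ j < 0) :
    cls (wt a μ) (dr a) (dir a i j) < 0 := by
  classical
  have hpos := h.npos hij
  have key : 0 < ∑ q : ι × ι, -(if dr a q = dir a i j ∨ dr a q = -dir a i j then wt a μ q
      else 0) := by
    refine Finset.sum_pos' (fun q _ => ?_) ⟨(i, j), Finset.mem_univ _, ?_⟩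
    · split_ifs with hq
      · by_cases hw : wt a μ q = 0
        · rw [hw, neg_zero]
        · rcases h.par hij (ne_of_wt hw) hq with ⟨h1, h2⟩ | ⟨h1, h2⟩ | ⟨_, h1⟩
          · unfold wt
            rw [h1, h2]
            nlinarith [sq_nonneg ‖a i - a j‖]
          · unfold wt
            rw [h1, h2, mul_comm (μ j)]
            nlinarith [sq_nonneg ‖a j - a i‖]
          · unfold wt
            have : μ q.2 = -μ q.1 := by linarith
            rw [this]
            nlinarith [mul_nonneg (sq_nonneg (μ q.1)) (sq_nonneg ‖a q.1 - a q.2‖)]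
      · simp
    · have e : dr a (i, j) = dir a i j := rfl
      rw [if_pos (Or.inl e)]
      unfold wt
      have h2 : 0 < ‖a i - a j‖ ^ 2 := by positivity
      show 0 < -(μ i * μ j * ‖a i - a j‖ ^ 2)
      nlinarith
  rw [Finset.sum_neg_distrib] at key
  unfold cls
  linarith

theorem Dep.fam (h : Dep a μ) {i j : ι} (hij : i ≠ j) (hs : 0 < μ i * μ j) :
    Fam (wt a μ) (dr a) (dir a i j) :=
  ⟨fun _ hp => h.norm_dir (ne_of_wt hp), h.wt_sum, h.norm_dir hij, (h.cls_pos hij hs).ne'⟩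

theorem Dep.inner_lt (h : Dep a μ) : ∃ c : ℝ, 0 ≤ c ∧ c < 1 ∧ ∀ i j k l : ι, i ≠ j → k ≠ l →
    dir a k l ≠ dir a i j → dir a k l ≠ -dir a i j → |(inner ℝ (dir a i j) (dir a k l) : ℝ)| ≤ c := by
  classical
  have h1 : ∀ q : (ι × ι) × (ι × ι), ∃ c : ℝ, 0 ≤ c ∧ c < 1 ∧ (q.1.1 ≠ q.1.2 → q.2.1 ≠ q.2.2 →
      dr a q.2 ≠ dr a q.1 → dr a q.2 ≠ -dr a q.1 → |(inner ℝ (dr a q.1) (dr a q.2) : ℝ)| ≤ c) := by
    intro q
    by_cases hq : q.1.1 ≠ q.1.2 ∧ q.2.1 ≠ q.2.2 ∧ dr a q.2 ≠ dr a q.1 ∧ dr a q.2 ≠ -dr a q.1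
    · refine ⟨|(inner ℝ (dr a q.1) (dr a q.2) : ℝ)|, abs_nonneg _, ?_, fun _ _ _ _ => le_rfl⟩
      have h2 := DiffAux.inner_sq_lt (h.norm_dir hq.1) (h.norm_dir hq.2.1) hq.2.2.1 hq.2.2.2
      have h3 : |(inner ℝ (dr a q.1) (dr a q.2) : ℝ)| ^ 2 < 1 := by
        rw [sq_abs]
        exact h2
      nlinarith [abs_nonneg (inner ℝ (dr a q.1) (dr a q.2) : ℝ)]
    · exact ⟨0, le_rfl, one_pos, fun a1 a2 a3 a4 => absurd ⟨a1, a2, a3, a4⟩ hq⟩
  choose c hc0 hc1 hc using h1
  obtain ⟨f, -, -⟩ := h.supp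
  have hne : (Finset.univ : Finset ((ι × ι) × (ι × ι))).Nonempty :=
    ⟨((f 0, f 0), (f 0, f 0)), Finset.mem_univ _⟩
  refine ⟨Finset.univ.sup' hne c, ?_, ?_, ?_⟩
  · exact (hc0 ((f 0, f 0), (f 0, f 0))).trans (Finset.le_sup' c (Finset.mem_univ _))
  · rw [Finset.sup'_lt_iff]
    exact fun q _ => hc1 q
  · intro i j k l hij hkl h1 h2
    exact (hc ((i, j), (k, l)) hij hkl h1 h2).trans (Finset.le_sup' c (Finset.mem_univ _))

end P23D
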