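import Mathlib
import Pool.Agent.Lib.P23D.Defs

/-!
# Module P23D.Rot : rotation invariance

PROOF.  `rot_int`: if `u = v` trivial.  The reflection `T` in the hyperplane orthogonal to `v - u`
(`Submodule.reflection`, `Submodule.reflection_sub`) is a linear isometry with `T v = u`; it
preserves the volume (`LinearIsometryEquiv.measurePreserving`), and `‖T w‖ = ‖w‖`,
`⟪T w, u⟫ = ⟪T w, T v⟫ = ⟪w, v⟫`.
`rot_ball`: `rot_int` with `F r t = if r ≤ R then φ r * f t else 0` (`integral_indicator`).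
`Lam_int`: `∫ φ(‖w‖) Λ f (w) = ∑ ω p ∫ φ(‖w‖) f(⟪w, u p⟫) = (∑ ω p) ∫ φ(‖w‖) f(⟪w, u₀⟫) = 0`
(terms with `ω p = 0` vanish, the others have `‖u p‖ = 1`; continuous functions are integrable on
balls).
-/

set_option autoImplicit false

open MeasureTheory

namespace P23D

theorem rot_int {n : ℕ} (F : ℝ → ℝ → ℝ) {u v : E n} (hu : ‖u‖ = 1) (hv : ‖v‖ = 1) :
    ∫ w : E n, F ‖w‖ (inner ℝ w u) = ∫ w : E n, F ‖w‖ (inner ℝ w v) := by
  set T : E n ≃ₗᵢ[ℝ] E n := (Submodule.span ℝ {v - u})ᗮ.reflection with hT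
  have hTv : T v = u := Submodule.reflection_sub (by rw [hu, hv])
  have h1 : ∫ w : E n, F ‖T w‖ (inner ℝ (T w) u) = ∫ w : E n, F ‖w‖ (inner ℝ w u) :=
    T.measurePreserving.integral_comp' (f := T.toMeasurableEquiv)
      (fun w : E n => F ‖w‖ (inner ℝ w u))
  rw [← h1]
  refine integral_congr_ae (Filter.Eventually.of_forall fun w => ?_)
  show F ‖T w‖ (inner ℝ (T w) u) = F ‖w‖ (inner ℝ w v)
  rw [T.norm_map, ← hTv, T.inner_map_map]

theorem rot_ball {n : ℕ} (φ f : ℝ → ℝ) (r : ℝ) {u v : E n} (hu : ‖u‖ = 1) (hv : ‖v‖ = 1) :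
    ∫ w in Metric.closedBall (0 : E n) r, φ ‖w‖ * f (inner ℝ w u) =
      ∫ w in Metric.closedBall (0 : E n) r, φ ‖w‖ * f (inner ℝ w v) := by
  classical
  rw [← integral_indicator measurableSet_closedBall, ← integral_indicator measurableSet_closedBall]
  have key : ∀ u : E n, (Metric.closedBall (0 : E n) r).indicator
      (fun w => φ ‖w‖ * f (inner ℝ w u)) =
      fun w => (fun a b : ℝ => if a ≤ r then φ a * f b else 0) ‖w‖ (inner ℝ w u) := by
    intro u
    funext w
    by_cases hw : ‖w‖ ≤ r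
    · rw [Set.indicator_of_mem (by simpa using hw)]
      simp [hw]
    · rw [Set.indicator_of_notMem (by simpa using hw)]
      simp [hw]
  rw [key, key]
  exact rot_int (fun a b : ℝ => if a ≤ r then φ a * f b else 0) hu hv

theorem NN_rot {n : ℕ} (f : ℝ → ℝ) {u v : E n} (hu : ‖u‖ = 1) (hv : ‖v‖ = 1) :
    NN u f = NN v f := by
  have := rot_ball (fun _ => 1) (fun t => f t ^ 2) 1 hu hv
  simpa [NN] using this

theorem Lam_int {P : Type} [Fintype P] {n : ℕ} {ω : P → ℝ} {u : P → E n} {u₀ : E n}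
    (hF : Fam ω u u₀) (φ f : ℝ → ℝ) (hφ : Continuous φ) (hf : Continuous f) (r : ℝ) :
    ∫ w in Metric.closedBall (0 : E n) r, φ ‖w‖ * Lam ω u f w = 0 := by
  have h1 : ∀ w : E n, φ ‖w‖ * Lam ω u f w = ∑ p, ω p * (φ ‖w‖ * f (inner ℝ w (u p))) := by
    intro w
    unfold Lam
    rw [Finset.mul_sum]
    exact Finset.sum_congr rfl fun p _ => by ring
  simp_rw [h1]
  rw [integral_finsetSum]
  · have h2 : ∀ p, ∫ w in Metric.closedBall (0 : E n) r, ω p * (φ ‖w‖ * f (inner ℝ w (u p))) =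
        ω p * ∫ w in Metric.closedBall (0 : E n) r, φ ‖w‖ * f (inner ℝ w u₀) := by
      intro p
      rw [integral_const_mul]
      by_cases hp : ω p = 0
      · rw [hp, zero_mul, zero_mul]
      · rw [rot_ball φ f r (hF.norm p hp) hF.norm0]
    simp_rw [h2]
    rw [← Finset.sum_mul, hF.sum, zero_mul]
  · intro p _
    refine ContinuousOn.integrableOn_compact (isCompact_closedBall _ _) ?_
    have : Continuous fun w : E n => ω p * (φ ‖w‖ * f (inner ℝ w (u p))) := by fun_prop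
    exact this.continuousOn

end P23D
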