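import Mathlib
import Pool.Agent.Lib.P23D.Defs

/-!
# Module P23D.Whit : small differences imply closeness to a polynomial (Whitney)

PROOF.  Induction on `N`, for fixed `θ`, `h₀`.  Note `ε ≥ 0` since the integral of the hypothesis
(for the list of `N` zeros) is nonnegative.
`N = 0`: the hypothesis for `hs = []` is `∫ f² ≤ ε`; `P = 0`, `C = 1`.
`N + 1`: let `δ = h₀`, and for continuous `f` let
`f₁ t = δ⁻¹ ∫_0^δ f (t + h) dh` (`= δ⁻¹ ∫_t^{t+δ} f`), `f₂ = f - f₁ = δ⁻¹ ∫_0^δ (f t - f (t + h)) dh`,
`g t = δ⁻¹ (f (t + δ) - f t)`, so `f₁` has derivative `g` (fundamental theorem of calculus); all three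
are continuous.
(1) For `hs` of length `N` with entries in `[0, h₀]`:
`dl hs f₂ t = δ⁻¹ ∫_0^δ dl (h :: hs) f t dh` (induction on `hs`: `dl hs` commutes with the integral
over a parameter, and `dl hs (fun t => f t - f (t + h)) t = dl (h :: hs) f t`).  By Cauchy-Schwarz
(`(δ⁻¹ ∫_0^δ G)² ≤ δ⁻¹ ∫_0^δ G²`) and Fubini
`∫_{-θ}^{θ} (dl hs f₂)² ≤ δ⁻¹ ∫_0^δ ∫_{-θ}^{θ} (dl (h :: hs) f)² ≤ ε`.
The induction hypothesis gives `P₂` with `∫ (f₂ - P₂)² ≤ C ε`.
(2) `dl hs g t = - δ⁻¹ dl (δ :: hs) f t`, so `∫_{-θ}^{θ} (dl hs g)² ≤ δ⁻² ε` and the induction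
hypothesis gives `P₁`, `∫_{-θ}^{θ} (g - P₁)² ≤ C δ⁻² ε`.  Let `P` be the polynomial with `P' = P₁`,
`P(0) = f₁ 0` (degree `≤ N + 1`).  For `|t| ≤ θ`:
`|f₁ t - P t|² = |∫_0^t (g - P₁)|² ≤ θ ∫_{-θ}^{θ} (g - P₁)²` (Cauchy-Schwarz), so
`∫_{-θ}^{θ} (f₁ - P)² ≤ 2 θ² C δ⁻² ε`.
(3) `f = f₁ + f₂` and `P + P₂` has degree `≤ N + 1`; `(x + y)² ≤ 2 x² + 2 y²`.
-/

set_option autoImplicit false

open MeasureTheory intervalIntegral

namespace P23D

namespace WhitAux

theorem dl_cont (hs : List ℝ) : ∀ f : ℝ → ℝ, Continuous f → Continuous (dl hs f) := by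
  induction hs with
  | nil => intro f hf; exact hf
  | cons h L ih =>
    intro f hf
    have h1 := ih f hf
    show Continuous fun t => dl L f t - dl L f (t + h)
    exact h1.sub (h1.comp (continuous_add_const h))

/-- joint continuity -/
theorem dl_cont2 (hs : List ℝ) : ∀ F : ℝ → ℝ → ℝ, Continuous (Function.uncurry F) →
    Continuous (Function.uncurry fun h t => dl hs (F h) t) := by
  induction hs with
  | nil => intro F hF; exact hF
  | cons z L ih =>
    intro F hF
    have h1 := ih F hF
    show Continuous fun p : ℝ × ℝ => dl L (F p.1) p.2 - dl L (F p.1) (p.2 + z)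
    have h2 : Continuous fun p : ℝ × ℝ => (p.1, p.2 + z) := by fun_prop
    exact h1.sub (h1.comp h2)

theorem dl_sub (hs : List ℝ) : ∀ f g : ℝ → ℝ, ∀ t, dl hs (fun t => f t - g t) t =
    dl hs f t - dl hs g t := by
  induction hs with
  | nil => intro f g t; rfl
  | cons h L ih =>
    intro f g t
    show dl L _ t - dl L _ (t + h) = (dl L f t - dl L f (t + h)) - (dl L g t - dl L g (t + h))
    rw [ih, ih]
    ring

theorem dl_const_mul (hs : List ℝ) (c : ℝ) : ∀ f : ℝ → ℝ, ∀ t, dl hs (fun t => c * f t) t =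
    c * dl hs f t := by
  induction hs with
  | nil => intro f t; rfl
  | cons h L ih =>
    intro f t
    show dl L _ t - dl L _ (t + h) = c * (dl L f t - dl L f (t + h))
    rw [ih, ih]
    ring

theorem dl_shift (hs : List ℝ) (δ : ℝ) : ∀ f : ℝ → ℝ, ∀ t, dl hs (fun t => f (t + δ)) t =
    dl hs f (t + δ) := by
  induction hs with
  | nil => intro f t; rfl
  | cons h L ih =>
    intro f t
    show dl L _ t - dl L _ (t + h) = (dl L f (t + δ) - dl L f (t + δ + h))
    rw [ih, ih, add_right_comm]

theorem dl_int (hs : List ℝ) (δ : ℝ) : ∀ F : ℝ → ℝ → ℝ, Continuous (Function.uncurry F) → ∀ t,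
    dl hs (fun t => ∫ h in (0 : ℝ)..δ, F h t) t = ∫ h in (0 : ℝ)..δ, dl hs (F h) t := by
  induction hs with
  | nil => intro F hF t; rfl
  | cons z L ih =>
    intro F hF t
    show dl L _ t - dl L _ (t + z) = ∫ h in (0 : ℝ)..δ, (dl L (F h) t - dl L (F h) (t + z))
    rw [ih F hF, ih F hF, intervalIntegral.integral_sub]
    · refine Continuous.intervalIntegrable ?_ _ _
      exact (dl_cont2 L F hF).comp (by fun_prop : Continuous fun h : ℝ => (h, t))
    · refine Continuous.intervalIntegrable ?_ _ _
      exact (dl_cont2 L F hF).comp (by fun_prop : Continuous fun h : ℝ => (h, t + z))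

/-- Cauchy-Schwarz on an interval -/
theorem cs {a b : ℝ} (hab : a ≤ b) {g : ℝ → ℝ} (hg : Continuous g) :
    (∫ t in a..b, g t) ^ 2 ≤ (b - a) * ∫ t in a..b, g t ^ 2 := by
  rcases hab.eq_or_lt with rfl | hlt
  · simp
  · set m : ℝ := (∫ t in a..b, g t) / (b - a) with hm
    have hba : 0 < b - a := by linarith
    have h0 : 0 ≤ ∫ t in a..b, (g t - m) ^ 2 :=
      intervalIntegral.integral_nonneg hab fun t _ => sq_nonneg _
    have h1 : ∫ t in a..b, (g t - m) ^ 2 =
        (∫ t in a..b, g t ^ 2) - 2 * m * (∫ t in a..b, g t) + m ^ 2 * (b - a) := by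
      have e1 : ∀ t, (g t - m) ^ 2 = g t ^ 2 - 2 * m * g t + m ^ 2 := fun t => by ring
      simp_rw [e1]
      rw [intervalIntegral.integral_add, intervalIntegral.integral_sub,
        intervalIntegral.integral_const_mul, intervalIntegral.integral_const, smul_eq_mul]
      · ring
      · exact (hg.pow 2).intervalIntegrable _ _
      · exact (continuous_const.mul hg).intervalIntegrable _ _
      · exact ((hg.pow 2).sub (continuous_const.mul hg)).intervalIntegrable _ _
      · exact continuous_const.intervalIntegrable _ _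
    rw [h1] at h0
    have h2 : (∫ t in a..b, g t) = m * (b - a) := by rw [hm]; field_simp
    rw [h2] at h0 ⊢
    nlinarith

theorem exists_antideriv {N : ℕ} (P : Polynomial ℝ) (hP : P.natDegree ≤ N) (c : ℝ) :
    ∃ Q : Polynomial ℝ, Q.natDegree ≤ N + 1 ∧ Q.derivative = P ∧ Q.eval 0 = c := by
  refine ⟨(∑ i ∈ Finset.range (N + 1), Polynomial.C (P.coeff i / (i + 1)) *
    Polynomial.X ^ (i + 1)) + Polynomial.C c, ?_, ?_, ?_⟩
  · refine (Polynomial.natDegree_add_le _ _).trans (max_le ?_ (by simp))
    refine Polynomial.natDegree_sum_le_of_forall_le _ _ fun i hi => ?_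
    refine (Polynomial.natDegree_C_mul_X_pow_le _ _).trans ?_
    have := Finset.mem_range.1 hi
    omega
  · rw [Polynomial.derivative_add, Polynomial.derivative_C, add_zero, Polynomial.derivative_sum]
    conv_rhs => rw [P.as_sum_range_C_mul_X_pow' (Nat.lt_succ_of_le hP)]
    refine Finset.sum_congr rfl fun i _ => ?_
    rw [Polynomial.derivative_C_mul_X_pow]
    simp only [Nat.add_sub_cancel]
    congr 2
    push_cast
    field_simp
  · simp [Polynomial.eval_finsetSum]

end WhitAux

open WhitAux in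
theorem whitney (N : ℕ) (θ h₀ : ℝ) (hθ : 0 < θ) (hh : 0 < h₀) :
    ∃ C > 0, ∀ f : ℝ → ℝ, Continuous f → ∀ ε : ℝ,
      (∀ hs : List ℝ, hs.length = N → (∀ h ∈ hs, 0 ≤ h ∧ h ≤ h₀) →
        ∫ t in (-θ)..θ, dl hs f t ^ 2 ≤ ε) →
      ∃ P : Polynomial ℝ, P.natDegree ≤ N ∧ ∫ t in (-θ)..θ, (f t - P.eval t) ^ 2 ≤ C * ε := by
  have hθ2 : -θ ≤ θ := by linarith
  induction N with
  | zero =>
    refine ⟨1, one_pos, fun f hf ε h => ⟨0, by simp, ?_⟩⟩
    have := h [] rfl (by simp)
    simpa [dl] using this
  | succ N ih =>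
    obtain ⟨C, hC, hC'⟩ := ih
    refine ⟨2 * (2 * θ ^ 2 * C / h₀ ^ 2) + 2 * C, by positivity, fun f hf ε h => ?_⟩
    -- the average and its complement
    have hε : 0 ≤ ε := by
      refine le_trans ?_ (h (List.replicate (N + 1) 0) (by simp) ?_)
      · exact intervalIntegral.integral_nonneg hθ2 fun t _ => sq_nonneg _
      · intro x hx
        rw [List.eq_of_mem_replicate hx]
        exact ⟨le_rfl, hh.le⟩
    set F : ℝ → ℝ := fun t => ∫ s in (0 : ℝ)..t, f s with hFdef
    have hFd : ∀ t, HasDerivAt F (f t) t := fun t => hf.integral_hasStrictDerivAt 0 t |>.hasDerivAt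
    set f₁ : ℝ → ℝ := fun t => h₀⁻¹ * (F (t + h₀) - F t) with hf₁
    set g : ℝ → ℝ := fun t => h₀⁻¹ * (f (t + h₀) - f t) with hg
    have hf₁d : ∀ t, HasDerivAt f₁ (g t) t := by
      intro t
      have h1 : HasDerivAt (fun t => F (t + h₀)) (f (t + h₀)) t := by
        exact (hFd (t + h₀)).comp_add_const t h₀
      exact (h1.sub (hFd t)).const_mul _
    have hf₁c : Continuous f₁ := continuous_iff_continuousAt.2 fun t => (hf₁d t).continuousAt
    have hgc : Continuous g := by
      have : Continuous fun t => f (t + h₀) := hf.comp (continuous_add_const h₀)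
      exact continuous_const.mul (this.sub hf)
    set G : ℝ → ℝ → ℝ := fun h t => f t - f (t + h) with hG
    have hGc : Continuous (Function.uncurry G) := by
      show Continuous fun p : ℝ × ℝ => f p.2 - f (p.2 + p.1)
      fun_prop
    have hf₂ : ∀ t, f t - f₁ t = h₀⁻¹ * ∫ h in (0 : ℝ)..h₀, G h t := by
      intro t
      have e1 : ∫ h in (0 : ℝ)..h₀, G h t = h₀ * f t - ∫ h in (0 : ℝ)..h₀, f (t + h) := by
        simp only [hG]
        rw [intervalIntegral.integral_sub, intervalIntegral.integral_const, smul_eq_mul, sub_zero]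
        · exact continuous_const.intervalIntegrable _ _
        · exact (hf.comp (continuous_const_add t)).intervalIntegrable _ _
      have e2 : ∫ h in (0 : ℝ)..h₀, f (t + h) = F (t + h₀) - F t := by
        rw [intervalIntegral.integral_comp_add_left (fun s => f s) t, add_zero]
        simp only [hFdef]
        rw [intervalIntegral.integral_interval_sub_left]
        · exact hf.intervalIntegrable _ _
        · exact hf.intervalIntegrable _ _
      rw [e1, e2, hf₁]
      field_simp
    have hsq : ∀ x y : ℝ, (x + y) ^ 2 ≤ 2 * x ^ 2 + 2 * y ^ 2 := fun x y => by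
      nlinarith [sq_nonneg (x - y)]
    -- (1)
    obtain ⟨P₂, hP₂, hI₂⟩ := hC' (fun t => f t - f₁ t) (hf.sub hf₁c) ε (by
      intro hs hlen hmem
      have e1 : ∀ t, dl hs (fun t => f t - f₁ t) t =
          h₀⁻¹ * ∫ h in (0 : ℝ)..h₀, dl (h :: hs) f t := by
        intro t
        have : (fun t => f t - f₁ t) = fun t => h₀⁻¹ * ∫ h in (0 : ℝ)..h₀, G h t := funext hf₂
        rw [this, dl_const_mul, dl_int hs h₀ G hGc]
        congr 1
        refine intervalIntegral.integral_congr fun h _ => ?_
        show dl hs (fun t => f t - f (t + h)) t = dl hs f t - dl hs f (t + h)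
        rw [dl_sub, dl_shift]
      have hK : Continuous (Function.uncurry fun h t => dl (h :: hs) f t) := by
        have h1 := dl_cont hs f hf
        show Continuous fun p : ℝ × ℝ => dl hs f p.2 - dl hs f (p.2 + p.1)
        fun_prop
      have e2 : ∀ t, dl hs (fun t => f t - f₁ t) t ^ 2 ≤
          h₀⁻¹ * ∫ h in (0 : ℝ)..h₀, dl (h :: hs) f t ^ 2 := by
        intro t
        rw [e1]
        have h1 := cs hh.le (g := fun h => dl (h :: hs) f t)
          (hK.comp (by fun_prop : Continuous fun h : ℝ => (h, t)))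
        rw [mul_pow]
        calc h₀⁻¹ ^ 2 * (∫ h in (0 : ℝ)..h₀, dl (h :: hs) f t) ^ 2
            ≤ h₀⁻¹ ^ 2 * ((h₀ - 0) * ∫ h in (0 : ℝ)..h₀, dl (h :: hs) f t ^ 2) :=
              mul_le_mul_of_nonneg_left h1 (by positivity)
          _ = h₀⁻¹ * ∫ h in (0 : ℝ)..h₀, dl (h :: hs) f t ^ 2 := by
              field_simp
              ring
      have hK2 : Continuous (Function.uncurry fun h t => dl (h :: hs) f t ^ 2) := by
        show Continuous fun p : ℝ × ℝ => (dl (p.1 :: hs) f p.2) ^ 2
        exact hK.pow 2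
      have hK3 : Continuous fun t => ∫ h in (0 : ℝ)..h₀, dl (h :: hs) f t ^ 2 := by
        refine intervalIntegral.continuous_parametric_intervalIntegral_of_continuous' ?_ _ _
        exact hK2.comp continuous_swap
      calc ∫ t in (-θ)..θ, dl hs (fun t => f t - f₁ t) t ^ 2
          ≤ ∫ t in (-θ)..θ, h₀⁻¹ * ∫ h in (0 : ℝ)..h₀, dl (h :: hs) f t ^ 2 := by
            refine intervalIntegral.integral_mono_on hθ2 ?_ ?_ fun t _ => e2 t
            · exact ((dl_cont hs _ (hf.sub hf₁c)).pow 2).intervalIntegrable _ _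
            · exact (continuous_const.mul hK3).intervalIntegrable _ _
        _ = h₀⁻¹ * ∫ h in (0 : ℝ)..h₀, ∫ t in (-θ)..θ, dl (h :: hs) f t ^ 2 := by
            rw [intervalIntegral.integral_const_mul]
            congr 1
            refine MeasureTheory.intervalIntegral_intervalIntegral_swap ?_
            refine (Continuous.continuousOn ?_).integrableOn_compact
              (isCompact_uIcc.prod isCompact_uIcc) |>.mono_set
              (Set.prod_mono Set.uIoc_subset_uIcc Set.uIoc_subset_uIcc)
            exact hK2.comp continuous_swap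
        _ ≤ h₀⁻¹ * ∫ h in (0 : ℝ)..h₀, ε := by
            refine mul_le_mul_of_nonneg_left ?_ (by positivity)
            refine intervalIntegral.integral_mono_on hh.le ?_ ?_ fun x hx => ?_
            · refine Continuous.intervalIntegrable ?_ _ _
              exact intervalIntegral.continuous_parametric_intervalIntegral_of_continuous' hK2 _ _
            · exact continuous_const.intervalIntegrable _ _
            · refine h (x :: hs) (by simp [hlen]) ?_
              intro y hy
              rcases List.mem_cons.1 hy with rfl | hy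
              · exact hx
              · exact hmem y hy
        _ = ε := by
            rw [intervalIntegral.integral_const, smul_eq_mul]
            field_simp
            ring)
    -- (2)
    obtain ⟨P₁, hP₁, hI₁⟩ := hC' g hgc (ε / h₀ ^ 2) (by
      intro hs hlen hmem
      have e1 : ∀ t, dl hs g t = -h₀⁻¹ * dl (h₀ :: hs) f t := by
        intro t
        show dl hs (fun t => h₀⁻¹ * (f (t + h₀) - f t)) t = -h₀⁻¹ * (dl hs f t - dl hs f (t + h₀))
        rw [dl_const_mul, dl_sub hs (fun t => f (t + h₀)) f, dl_shift]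
        ring
      have h1 := h (h₀ :: hs) (by simp [hlen]) (by
        intro y hy
        rcases List.mem_cons.1 hy with rfl | hy
        · exact ⟨hh.le, le_rfl⟩
        · exact hmem y hy)
      have e2 : ∀ t, dl hs g t ^ 2 = (h₀ ^ 2)⁻¹ * dl (h₀ :: hs) f t ^ 2 := by
        intro t
        rw [e1]
        ring
      simp_rw [e2]
      rw [intervalIntegral.integral_const_mul, div_eq_inv_mul]
      exact mul_le_mul_of_nonneg_left h1 (by positivity))
    obtain ⟨Q, hQ, hQd, hQ0⟩ := exists_antideriv P₁ hP₁ (f₁ 0)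
    have hgP : Continuous fun t => g t - P₁.eval t := hgc.sub P₁.continuous
    have hJ : ∀ t ∈ Set.Icc (-θ) θ, (f₁ t - Q.eval t) ^ 2 ≤
        θ * ∫ s in (-θ)..θ, (g s - P₁.eval s) ^ 2 := by
      intro t ht
      have hd : ∀ s, HasDerivAt (fun s => f₁ s - Q.eval s) (g s - P₁.eval s) s := by
        intro s
        have h1 := Q.hasDerivAt s
        rw [hQd] at h1
        exact (hf₁d s).sub h1
      have h2 : ∫ s in (0 : ℝ)..t, (g s - P₁.eval s) = f₁ t - Q.eval t := by
        rw [intervalIntegral.integral_eq_sub_of_hasDerivAt (fun s _ => hd s)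
          (hgP.intervalIntegrable _ _), hQ0]
        ring
      rw [← h2]
      rcases le_total 0 t with h0 | h0
      · refine (cs h0 hgP).trans ?_
        refine mul_le_mul (by linarith [ht.2]) ?_ ?_ hθ.le
        · refine intervalIntegral.integral_mono_interval (by linarith) h0 ht.2 ?_ ?_
          · exact Filter.Eventually.of_forall fun s => sq_nonneg _
          · exact (hgP.pow 2).intervalIntegrable _ _
        · exact intervalIntegral.integral_nonneg h0 fun s _ => sq_nonneg _
      · rw [intervalIntegral.integral_symm, neg_sq]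
        refine (cs h0 hgP).trans ?_
        refine mul_le_mul (by linarith [ht.1]) ?_ ?_ hθ.le
        · refine intervalIntegral.integral_mono_interval ht.1 h0 hθ.le ?_ ?_
          · exact Filter.Eventually.of_forall fun s => sq_nonneg _
          · exact (hgP.pow 2).intervalIntegrable _ _
        · exact intervalIntegral.integral_nonneg h0 fun s _ => sq_nonneg _
    have hI₃ : ∫ t in (-θ)..θ, (f₁ t - Q.eval t) ^ 2 ≤ 2 * θ ^ 2 * (C * (ε / h₀ ^ 2)) := by
      calc ∫ t in (-θ)..θ, (f₁ t - Q.eval t) ^ 2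
          ≤ ∫ t in (-θ)..θ, (θ * ∫ s in (-θ)..θ, (g s - P₁.eval s) ^ 2) := by
            refine intervalIntegral.integral_mono_on hθ2 ?_ ?_ hJ
            · exact ((hf₁c.sub Q.continuous).pow 2).intervalIntegrable _ _
            · exact continuous_const.intervalIntegrable _ _
        _ = 2 * θ ^ 2 * ∫ s in (-θ)..θ, (g s - P₁.eval s) ^ 2 := by
            rw [intervalIntegral.integral_const, smul_eq_mul]
            ring
        _ ≤ 2 * θ ^ 2 * (C * (ε / h₀ ^ 2)) := mul_le_mul_of_nonneg_left hI₁ (by positivity)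
    refine ⟨Q + P₂, (Polynomial.natDegree_add_le _ _).trans (max_le hQ (by omega)), ?_⟩
    calc ∫ t in (-θ)..θ, (f t - (Q + P₂).eval t) ^ 2
        ≤ ∫ t in (-θ)..θ, (2 * (f₁ t - Q.eval t) ^ 2 + 2 * (f t - f₁ t - P₂.eval t) ^ 2) := by
          refine intervalIntegral.integral_mono_on hθ2 ?_ ?_ fun t _ => ?_
          · exact ((hf.sub (Q + P₂).continuous).pow 2).intervalIntegrable _ _
          · exact ((continuous_const.mul ((hf₁c.sub Q.continuous).pow 2)).add
              (continuous_const.mul (((hf.sub hf₁c).sub P₂.continuous).pow 2))).intervalIntegrable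
                _ _
          · rw [Polynomial.eval_add]
            have := hsq (f₁ t - Q.eval t) (f t - f₁ t - P₂.eval t)
            have e : f t - (Q.eval t + P₂.eval t) =
              f₁ t - Q.eval t + (f t - f₁ t - P₂.eval t) := by ring
            rw [e]
            exact this
      _ = 2 * (∫ t in (-θ)..θ, (f₁ t - Q.eval t) ^ 2) +
            2 * ∫ t in (-θ)..θ, (f t - f₁ t - P₂.eval t) ^ 2 := by
          rw [intervalIntegral.integral_add, intervalIntegral.integral_const_mul,
            intervalIntegral.integral_const_mul]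
          · exact (continuous_const.mul ((hf₁c.sub Q.continuous).pow 2)).intervalIntegrable _ _
          · exact (continuous_const.mul
              (((hf.sub hf₁c).sub P₂.continuous).pow 2)).intervalIntegrable _ _
      _ ≤ 2 * (2 * θ ^ 2 * (C * (ε / h₀ ^ 2))) + 2 * (C * ε) := by linarith
      _ = (2 * (2 * θ ^ 2 * C / h₀ ^ 2) + 2 * C) * ε := by ring

end P23D
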