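import Mathlib
import Pool.Agent.Lib.P23D.PDlem
import Pool.Agent.Lib.P23D.Pairs
import Pool.Agent.Lib.P23D.Emb
import Pool.Agent.Lib.P23D.Gram
import Pool.Agent.Lib.P23D.Rot
import Pool.Agent.Lib.P23D.Diff
import Pool.Agent.Lib.P23D.Whit
import Pool.Agent.Lib.P23d34e.EmbedY

/-!
# Module P23D.CaseA : all sections Euclidean, non-embedding implies the parallelogram law

Model: `Pool/Agent/Lib/P23F/CaseA.lean`.

PROOF.  (1) For every linear `T : E n →ₗ[ℝ] X`: `β(T) := ∑ i, ∑ j, μ i μ j ‖T (a i - a j)‖² ≤ 0`.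
Suppose `β(T) > 0`.  For small `ε > 0` let `p i = ε • T (a i)`,
`R i j = ‖a_ij‖² - ε² ‖T a_ij‖²`; `pd_lemma` with `m = 1`, `c0 = α = 0`, `w = 0`,
`f i j = ε² ‖T a_ij‖²`: `|f| ≤ η` for small `ε`, `C ∑ f² = ε⁴ (..) < ε² β(T) = ∑ μ μ f` for small `ε`.
So `R` is `Good`; it is positive off the diagonal (`Good.off_pos`), `Φ (p i - p j) √(R i j) = ‖a_ij‖` by
`hE` (square: `‖p i - p j‖² + R i j = ‖a_ij‖²`) and `‖p i - p j‖ < ‖a_ij‖` because `R i j > 0`.
`embed_A` gives an embedding, contradicting `hno`.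
(2) Fix `x y : X` and for `ξ ζ : E n` let `T z = ⟪ξ, z⟫ • x + ⟪ζ, z⟫ • y`,
`b(ξ, ζ) = β(T) = ∑_p wt p ‖⟪ξ, dr p⟫ • x + ⟪ζ, dr p⟫ • y‖²` (`a_ij = ‖a_ij‖ • dir`, homogeneity), a
continuous function, `≤ 0` by (1).  `∫_{B n} ∫_{B n} b = 0`: for each `p` with `wt p ≠ 0`
(`‖dr p‖ = 1`) `∫∫ ‖⟪ξ, dr p⟫ • x + ⟪ζ, dr p⟫ • y‖²` is independent of the unit vector `dr p` (`rot_ball`
with `φ = 1` twice: for fixed `ξ` in the variable `ζ`, then in `ξ`), and `∑ wt p = 0`.  So `b = 0` on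
`B n ×ˢ B n` (a continuous function `≤ 0` with integral `0`; it vanishes on the open balls, and
`b(s ξ, s ζ) = s² b(ξ, ζ)` extends this to all `ξ, ζ`).
(3) Suppose the parallelogram law fails.  `flexible_two` (namespace `Pool.Agent.Lib.P23d34e`,
file EmbedY) gives `Flexible 2 X`, i.e. `x, y : X` such that `t ↦ ‖x + t y‖ ^ 2` is not a polynomial
(real power `2 = (2:ℝ≥0∞).toReal`; see how `P23F.case_A` unfolds it).  Let `i₀ ≠ j₀` with
`0 < μ i₀ μ j₀`, `u₀ = dir a i₀ j₀`, `ξ = u₀`.  By (2), for all `ζ`: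
`∑_p F p ⟪ζ, dr p⟫ = 0`, `F p t = wt p * ‖⟪u₀, dr p⟫ • x + t • y‖²`.  `diff_gen` with `u = dr a` gives a
list `z`; for all `hs` of that length and all `w`
`0 = dl hs (fun t => ∑_p if dr p = u₀ then F p t else if dr p = -u₀ then F p (-t) else 0) ⟪w, u₀⟫
   = cls (wt a μ) (dr a) u₀ * dl hs G ⟪w, u₀⟫`, `G t = ‖x + t • y‖²`
(`dr p = -u₀`: `F p (-t) = wt p ‖-x - t y‖²`).  As `cls > 0` (`Dep.cls_pos`) and `⟪w, u₀⟫` takes all
values, `dl hs G = 0` for all such `hs`.  `whitney` with `ε = 0`, `h₀ = 1` and every `θ > 0` gives a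
polynomial `P_θ` of degree `≤ N` with `∫_{-θ}^{θ} (G - P_θ)² ≤ 0`, so `G = P_θ` on `[-θ, θ]`
(continuity); `P_θ` does not depend on `θ ≥ 1` (two polynomials equal on `[-1, 1]`), so `G` is a
polynomial: contradiction.  (Alternative to `whitney`: `frechet` of file `P23d34e/Frechet`.)
-/

set_option autoImplicit false

open MeasureTheory

namespace P23D

namespace CaseAAux

theorem type_nonneg {X : Type*} [NormedAddCommGroup X] [NormedSpace ℝ X] {Φ : X → ℝ → ℝ}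
    (hΦ : P23F.IsType Φ) (x : X) (r : ℝ) : 0 ≤ Φ x r := by
  have h1 := hΦ.add_le x (-x) r (-r)
  have h2 := hΦ.smul (-1) x r
  have h3 := hΦ.zero_right (0 : X)
  rw [neg_one_smul, neg_one_mul, abs_neg, abs_one, one_mul] at h2
  rw [add_neg_cancel, add_neg_cancel, h2, h3, norm_zero] at h1
  linarith

theorem beta_le {X : Type*} [NormedAddCommGroup X] [NormedSpace ℝ X] {Φ : X → ℝ → ℝ}
    (hΦ : P23F.IsType Φ) (hE : ∀ x r, Φ x r ^ 2 = ‖x‖ ^ 2 + r ^ 2) {N n : ℕ} {a : Fin N → E n}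
    {μ : Fin N → ℝ} (hd : Dep a μ)
    (hno : ¬ ∃ P : Fin N → X, ∀ i j, i ≠ j → ‖P i - P j‖ = ‖a i - a j‖) (T : E n →ₗ[ℝ] X) :
    ∑ i, ∑ j, μ i * μ j * ‖T (a i - a j)‖ ^ 2 ≤ 0 := by
  by_contra hcon
  rw [not_le] at hcon
  obtain ⟨β, hβ⟩ : ∃ β, β = ∑ i, ∑ j, μ i * μ j * ‖T (a i - a j)‖ ^ 2 := ⟨_, rfl⟩
  rw [← hβ] at hcon
  obtain ⟨η, hη, C, hC, hpd⟩ := pd_lemma a μ hd 1 one_pos
  obtain ⟨S1, hS1⟩ : ∃ S1, S1 = ∑ i, ∑ j, ‖T (a i - a j)‖ ^ 2 := ⟨_, rfl⟩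
  obtain ⟨S2, hS2⟩ : ∃ S2, S2 = ∑ i, ∑ j, (‖T (a i - a j)‖ ^ 2) ^ 2 := ⟨_, rfl⟩
  have hS10 : 0 ≤ S1 := by
    rw [hS1]
    exact Finset.sum_nonneg fun i _ => Finset.sum_nonneg fun j _ => sq_nonneg _
  have hS20 : 0 ≤ S2 := by
    rw [hS2]
    exact Finset.sum_nonneg fun i _ => Finset.sum_nonneg fun j _ => sq_nonneg _
  have hle1 : ∀ i j, ‖T (a i - a j)‖ ^ 2 ≤ S1 := by
    intro i j
    rw [hS1]
    refine le_trans ?_ (Finset.single_le_sum (f := fun i => ∑ j, ‖T (a i - a j)‖ ^ 2)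
      (fun i _ => Finset.sum_nonneg fun j _ => sq_nonneg _) (Finset.mem_univ i))
    exact Finset.single_le_sum (f := fun j => ‖T (a i - a j)‖ ^ 2) (fun j _ => sq_nonneg _)
      (Finset.mem_univ j)
  have hCS : 0 ≤ C * S2 := mul_nonneg hC.le hS20
  obtain ⟨t, ht0, ht1, ht2⟩ : ∃ t : ℝ, 0 < t ∧ t * S1 ≤ η ∧ t * (C * S2) < β := by
    refine ⟨min (η / (S1 + 1)) (β / (C * S2 + 1)), lt_min (by positivity) (by positivity), ?_, ?_⟩
    · refine (mul_le_mul_of_nonneg_right (min_le_left _ _) hS10).trans ?_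
      rw [div_mul_eq_mul_div, div_le_iff₀ (by positivity)]
      nlinarith
    · refine (mul_le_mul_of_nonneg_right (min_le_right _ _) hCS).trans_lt ?_
      rw [div_mul_eq_mul_div, div_lt_iff₀ (by positivity)]
      nlinarith
  have hpos := hpd 0 0 0 (fun z => by simp) (fun i j => t * ‖T (a i - a j)‖ ^ 2)
    (fun i j => by rw [← neg_sub (a j) (a i), map_neg, norm_neg])
    (fun i j => by
      rw [abs_of_nonneg (mul_nonneg ht0.le (sq_nonneg _))]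
      exact (mul_le_mul_of_nonneg_left (hle1 i j) ht0.le).trans ht1)
    (by
      have e1 : ∑ i, ∑ j, (t * ‖T (a i - a j)‖ ^ 2) ^ 2 = t ^ 2 * S2 := by
        rw [hS2, Finset.mul_sum]
        refine Finset.sum_congr rfl fun i _ => ?_
        rw [Finset.mul_sum]
        refine Finset.sum_congr rfl fun j _ => ?_
        ring
      have e2 : ∑ i, ∑ j, μ i * μ j * (t * ‖T (a i - a j)‖ ^ 2) = t * β := by
        rw [hβ, Finset.mul_sum]
        refine Finset.sum_congr rfl fun i _ => ?_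
        rw [Finset.mul_sum]
        refine Finset.sum_congr rfl fun j _ => ?_
        ring
      rw [e1, e2]
      nlinarith)
  obtain ⟨R, hRdef⟩ : ∃ R : Fin N → Fin N → ℝ, R = fun i j =>
    ‖a i - a j‖ ^ 2 - t * ‖T (a i - a j)‖ ^ 2 := ⟨_, rfl⟩
  have hR : Good R := by
    refine ⟨fun i => ?_, fun i j => ?_, ?_⟩
    · rw [hRdef]
      simp
    · rw [hRdef]
      show ‖a i - a j‖ ^ 2 - t * ‖T (a i - a j)‖ ^ 2 = ‖a j - a i‖ ^ 2 - t * ‖T (a j - a i)‖ ^ 2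
      rw [← neg_sub (a j) (a i), map_neg, norm_neg, norm_neg]
    · rw [hRdef]
      have e : (fun i j => ‖a i - a j‖ ^ 2 - t * ‖T (a i - a j)‖ ^ 2) =
          fun i j => (1 - 0) * ‖a i - a j‖ ^ 2 - 0 * (inner ℝ (0 : E n) (a i - a j) : ℝ) ^ 2 -
            (fun i j => t * ‖T (a i - a j)‖ ^ 2) i j := by
        funext i j
        ring
      rw [e]
      exact hpos
  have hp : ∀ i j, (√t • T (a i) - √t • T (a j)) = √t • T (a i - a j) := by
    intro i j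
    rw [map_sub, smul_sub]
  have hpn : ∀ i j, ‖√t • T (a i) - √t • T (a j)‖ ^ 2 = t * ‖T (a i - a j)‖ ^ 2 := by
    intro i j
    rw [hp, norm_smul, mul_pow, Real.norm_eq_abs, sq_abs, Real.sq_sqrt ht0.le]
  apply hno
  refine embed_A hΦ (fun i => √t • T (a i)) R hR (fun i j => ‖a i - a j‖)
    (fun i j => norm_sub_rev _ _) ?_ ?_
  · intro i j hij
    have h0 := hR.off_pos hij
    refine (sq_eq_sq₀ (type_nonneg hΦ _ _) (norm_nonneg _)).1 ?_
    rw [hE, Real.sq_sqrt h0.le, hpn, hRdef]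
    ring
  · intro i j hij
    have h0 := hR.off_pos hij
    refine lt_of_pow_lt_pow_left₀ 2 (norm_nonneg _) ?_
    rw [hpn]
    rw [hRdef] at h0
    simp only at h0
    linarith

/-- the linear map `z ↦ ⟪ξ, z⟫ x + ⟪ζ, z⟫ y` -/
noncomputable def tmap {X : Type*} [NormedAddCommGroup X] [NormedSpace ℝ X] {n : ℕ} (ξ ζ : E n)
    (x y : X) : E n →ₗ[ℝ] X where
  toFun z := (inner ℝ ξ z : ℝ) • x + (inner ℝ ζ z : ℝ) • y
  map_add' z w := by
    rw [inner_add_right, inner_add_right, add_smul, add_smul]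
    abel
  map_smul' c z := by
    rw [inner_smul_right, inner_smul_right, RingHom.id_apply, smul_add, smul_smul, smul_smul]

/-- the form `b` -/
noncomputable def bb {X : Type*} [NormedAddCommGroup X] [NormedSpace ℝ X] {N n : ℕ}
    (a : Fin N → E n) (μ : Fin N → ℝ) (x y : X) (ξ ζ : E n) : ℝ :=
  ∑ p : Fin N × Fin N, wt a μ p *
    ‖(inner ℝ ξ (dr a p) : ℝ) • x + (inner ℝ ζ (dr a p) : ℝ) • y‖ ^ 2

theorem bb_le {X : Type*} [NormedAddCommGroup X] [NormedSpace ℝ X] {Φ : X → ℝ → ℝ}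
    (hΦ : P23F.IsType Φ) (hE : ∀ x r, Φ x r ^ 2 = ‖x‖ ^ 2 + r ^ 2) {N n : ℕ} {a : Fin N → E n}
    {μ : Fin N → ℝ} (hd : Dep a μ)
    (hno : ¬ ∃ P : Fin N → X, ∀ i j, i ≠ j → ‖P i - P j‖ = ‖a i - a j‖) (x y : X) (ξ ζ : E n) :
    bb a μ x y ξ ζ ≤ 0 := by
  have h1 := beta_le hΦ hE hd hno (tmap ξ ζ x y)
  have h2 : bb a μ x y ξ ζ = ∑ i, ∑ j, μ i * μ j * ‖tmap ξ ζ x y (a i - a j)‖ ^ 2 := by
    unfold bb
    rw [Fintype.sum_prod_type]
    refine Finset.sum_congr rfl fun i _ => Finset.sum_congr rfl fun j _ => ?_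
    have h3 : tmap ξ ζ x y (a i - a j) = ‖a i - a j‖ • tmap ξ ζ x y (dir a i j) := by
      rw [← map_smul, norm_smul_dir]
    rw [h3, norm_smul, mul_pow, norm_norm]
    unfold wt dr
    show μ i * μ j * ‖a i - a j‖ ^ 2 * ‖tmap ξ ζ x y (dir a i j)‖ ^ 2 = _
    ring
  rw [h2]
  exact h1

/-- a continuous nonpositive function with integral zero vanishes -/
theorem zero_of_int {n : ℕ} {f : E n → ℝ} (hf : Continuous f) (h0 : ∀ w, f w ≤ 0)
    (hi : ∫ w in B n, f w = 0) : ∀ w ∈ Metric.ball (0 : E n) 1, f w = 0 := by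
  have hint : IntegrableOn f (B n) := hf.continuousOn.integrableOn_compact (isCompact_closedBall _ _)
  have h1 : ∫ w in B n, -f w = 0 := by rw [integral_neg, hi, neg_zero]
  have h2 : (fun w => -f w) =ᵐ[volume.restrict (B n)] 0 :=
    (setIntegral_eq_zero_iff_of_nonneg_ae
      (Filter.Eventually.of_forall fun w => by simpa using h0 w) hint.neg).1 h1
  have h3 : (fun w => -f w) =ᵐ[volume.restrict (Metric.ball (0 : E n) 1)] 0 :=
    ae_restrict_of_ae_restrict_of_subset Metric.ball_subset_closedBall h2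
  have h4 := Measure.eqOn_open_of_ae_eq h3 Metric.isOpen_ball hf.neg.continuousOn
    continuousOn_const
  intro w hw
  have h5 := h4 hw
  simp only [Pi.zero_apply] at h5
  linarith

theorem bb_zero {X : Type*} [NormedAddCommGroup X] [NormedSpace ℝ X] {Φ : X → ℝ → ℝ}
    (hΦ : P23F.IsType Φ) (hE : ∀ x r, Φ x r ^ 2 = ‖x‖ ^ 2 + r ^ 2) {N n : ℕ} {a : Fin N → E n}
    {μ : Fin N → ℝ} (hd : Dep a μ)
    (hno : ¬ ∃ P : Fin N → X, ∀ i j, i ≠ j → ‖P i - P j‖ = ‖a i - a j‖) (x y : X) (ξ ζ : E n) :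
    bb a μ x y ξ ζ = 0 := by
  obtain ⟨i₀, j₀, hij, hμ⟩ := hd.same
  have hF := hd.fam hij hμ
  obtain ⟨u₀, hu₀⟩ : ∃ u₀, u₀ = dir a i₀ j₀ := ⟨_, rfl⟩
  rw [← hu₀] at hF
  have hn0 : ‖u₀‖ = 1 := hF.norm0
  obtain ⟨Hf, hHf⟩ : ∃ Hf : ℝ → ℝ, Hf = fun s => ∫ ζ in B n,
    ‖s • x + (inner ℝ ζ u₀ : ℝ) • y‖ ^ 2 := ⟨_, rfl⟩
  have hHc : Continuous Hf := by
    rw [hHf]
    refine continuous_parametric_integral_of_continuous (f := fun (s : ℝ) (ζ : E n) =>
      ‖s • x + (inner ℝ ζ u₀ : ℝ) • y‖ ^ 2) ?_ (isCompact_closedBall _ _)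
    unfold Function.uncurry
    fun_prop
  have hbc : ∀ ξ : E n, Continuous fun ζ : E n => bb a μ x y ξ ζ := by
    intro ξ
    unfold bb
    fun_prop
  have hg : ∀ ξ : E n, ∫ ζ in B n, bb a μ x y ξ ζ = Lam (wt a μ) (dr a) Hf ξ := by
    intro ξ
    unfold bb Lam
    rw [integral_finsetSum]
    · refine Finset.sum_congr rfl fun p _ => ?_
      rw [integral_const_mul]
      by_cases hp : wt a μ p = 0
      · rw [hp, zero_mul, zero_mul]
      · have h1 := rot_ball (n := n) (fun _ => 1)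
          (fun t => ‖(inner ℝ ξ (dr a p) : ℝ) • x + t • y‖ ^ 2) 1 (hF.norm p hp) hn0
        simp only [one_mul] at h1
        rw [h1, hHf]
    · intro p _
      refine ContinuousOn.integrableOn_compact (isCompact_closedBall _ _) ?_
      exact Continuous.continuousOn (by fun_prop)
  have hLc : Continuous fun ξ : E n => Lam (wt a μ) (dr a) Hf ξ := by
    unfold Lam
    fun_prop
  have hLle : ∀ ξ : E n, Lam (wt a μ) (dr a) Hf ξ ≤ 0 := by
    intro ξ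
    rw [← hg]
    exact integral_nonpos_of_ae (Filter.Eventually.of_forall fun ζ =>
      bb_le hΦ hE hd hno x y ξ ζ)
  have hLi : ∫ ξ in B n, Lam (wt a μ) (dr a) Hf ξ = 0 := by
    have := Lam_int hF (fun _ => 1) Hf continuous_const hHc 1
    simpa using this
  have hL0 := zero_of_int hLc hLle hLi
  have hb0 : ∀ ξ ∈ Metric.ball (0 : E n) 1, ∀ ζ ∈ Metric.ball (0 : E n) 1,
      bb a μ x y ξ ζ = 0 := by
    intro ξ hξ
    refine zero_of_int (hbc ξ) (bb_le hΦ hE hd hno x y ξ) ?_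
    rw [hg]
    exact hL0 ξ hξ
  -- homogeneity
  obtain ⟨s, hs⟩ : ∃ s : ℝ, s = (‖ξ‖ + ‖ζ‖ + 1)⁻¹ := ⟨_, rfl⟩
  have hs0 : 0 < s := by rw [hs]; positivity
  have hsball : ∀ v : E n, ‖v‖ ≤ ‖ξ‖ + ‖ζ‖ → s • v ∈ Metric.ball (0 : E n) 1 := by
    intro v hv
    rw [mem_ball_zero_iff, norm_smul, Real.norm_eq_abs, abs_of_pos hs0, hs, inv_mul_lt_iff₀
      (by positivity)]
    linarith
  have h1 := hb0 (s • ξ) (hsball ξ (by linarith [norm_nonneg ζ])) (s • ζ)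
    (hsball ζ (by linarith [norm_nonneg ξ]))
  have h2 : bb a μ x y (s • ξ) (s • ζ) = s ^ 2 * bb a μ x y ξ ζ := by
    unfold bb
    rw [Finset.mul_sum]
    refine Finset.sum_congr rfl fun p _ => ?_
    rw [real_inner_smul_left, real_inner_smul_left, mul_smul, mul_smul, ← smul_add, norm_smul,
      mul_pow, Real.norm_eq_abs, sq_abs]
    ring
  rw [h2] at h1
  rcases mul_eq_zero.1 h1 with h3 | h3
  · exact absurd h3 (by positivity)
  · exact h3

theorem dl_replicate (s : ℝ) (G : ℝ → ℝ) (m : ℕ) : ∀ t : ℝ,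
    dl (List.replicate m s) G t = (-1) ^ m * (fwdDiff s)^[m] G t := by
  induction m with
  | zero =>
    intro t
    simp [dl]
  | succ m ih =>
    intro t
    rw [List.replicate_succ, Function.iterate_succ']
    show dl (List.replicate m s) G t - dl (List.replicate m s) G (t + s) =
      (-1) ^ (m + 1) * fwdDiff s ((fwdDiff s)^[m] G) t
    rw [ih, ih, fwdDiff]
    ring

end CaseAAux

open CaseAAux

theorem case_A {X : Type*} [NormedAddCommGroup X] [NormedSpace ℝ X] {Φ : X → ℝ → ℝ}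
    (hΦ : P23F.IsType Φ) (hE : ∀ x r, Φ x r ^ 2 = ‖x‖ ^ 2 + r ^ 2) {N n : ℕ} {a : Fin N → E n}
    {μ : Fin N → ℝ} (hd : Dep a μ)
    (hno : ¬ ∃ P : Fin N → X, ∀ i j, i ≠ j → ‖P i - P j‖ = ‖a i - a j‖) :
    ∀ x y : X, ‖x + y‖ ^ 2 + ‖x - y‖ ^ 2 = 2 * (‖x‖ ^ 2 + ‖y‖ ^ 2) := by
  classical
  by_contra hpar
  push Not at hpar
  obtain ⟨x, y, hxy⟩ : ∃ x y : X, ¬ ∃ P : Polynomial ℝ, ∀ t : ℝ, ‖x + t • y‖ ^ 2 = P.eval t := by
    rcases Pool.Agent.Lib.P23d34e.flexible_two hpar with ⟨h, -⟩ | ⟨-, x, y, h⟩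
    · exact absurd h (by norm_num)
    · refine ⟨x, y, fun ⟨P, hP⟩ => h ⟨P, fun t => ?_⟩⟩
      rw [← hP t, show (2 : ENNReal).toReal = ((2 : ℕ) : ℝ) by norm_num, Real.rpow_natCast]
  obtain ⟨i₀, j₀, hij, hμ⟩ := hd.same
  have hF := hd.fam hij hμ
  have hcls := hd.cls_pos hij hμ
  obtain ⟨u₀, hu₀⟩ : ∃ u₀, u₀ = dir a i₀ j₀ := ⟨_, rfl⟩
  rw [← hu₀] at hF hcls
  have hn0 : ‖u₀‖ = 1 := hF.norm0
  have huu : (inner ℝ u₀ u₀ : ℝ) = 1 := by rw [real_inner_self_eq_norm_sq, hn0, one_pow]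
  obtain ⟨F, hFd⟩ : ∃ F : Fin N × Fin N → ℝ → ℝ, F = fun p t => wt a μ p *
    ‖(inner ℝ u₀ (dr a p) : ℝ) • x + t • y‖ ^ 2 := ⟨_, rfl⟩
  obtain ⟨z, hz⟩ := diff_gen (dr a) u₀ hn0
  have hF1 : ∀ p, F p = 0 ∨ ‖dr a p‖ = 1 := by
    intro p
    by_cases hp : wt a μ p = 0
    · left
      rw [hFd]
      funext t
      simp [hp]
    · exact Or.inr (hF.norm p hp)
  have hsum : (fun w : E n => ∑ p, F p (inner ℝ w (dr a p))) = fun _ => 0 := by
    funext w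
    have := bb_zero hΦ hE hd hno x y u₀ w
    rw [hFd]
    exact this
  have hG : (fun t : ℝ => ∑ p, if dr a p = u₀ then F p t else if dr a p = -u₀ then F p (-t)
      else 0) = fun t : ℝ => cls (wt a μ) (dr a) u₀ * ‖x + t • y‖ ^ 2 := by
    funext t
    unfold cls
    rw [Finset.sum_mul]
    refine Finset.sum_congr rfl fun p _ => ?_
    rw [hFd]
    by_cases h1 : dr a p = u₀
    · simp only [h1, true_or, if_true, huu, one_smul]
    · by_cases h2 : dr a p = -u₀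
      · simp only [h2, or_true, if_true, inner_neg_right, huu]
        have h3 : ¬ (-u₀ = u₀) := fun h => h1 (by rw [h2, h])
        rw [if_neg h3]
        have h4 : (-1 : ℝ) • x + (-t) • y = -(x + t • y) := by
          rw [neg_smul, neg_smul, one_smul, neg_add]
        rw [h4, norm_neg]
      · rw [if_neg h1, if_neg h2, if_neg (by tauto), zero_mul]
  have hdl : ∀ hs : List ℝ, hs.length = z.length → ∀ t : ℝ,
      dl hs (fun t : ℝ => ‖x + t • y‖ ^ 2) t = 0 := by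
    intro hs hlen t
    have h1 := hz F hF1 hs hlen (t • u₀)
    rw [hsum, hG, dl_zero, dl_const_mul, real_inner_smul_left, huu, mul_one] at h1
    rcases mul_eq_zero.1 h1.symm with h2 | h2
    · exact absurd h2 hcls.ne'
    · exact h2
  obtain ⟨P, hP⟩ := Pool.Agent.Lib.P23d34e.frechet
    (G := fun t : ℝ => ‖x + t • y‖ ^ 2) (by fun_prop) (m := z.length) (fun s t => by
      have h1 := hdl (List.replicate z.length s) (by simp) t
      rw [dl_replicate] at h1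
      rcases mul_eq_zero.1 h1 with h2 | h2
      · exact absurd h2 (pow_ne_zero _ (by norm_num))
      · exact h2)
  exact hxy ⟨P, hP⟩

end P23D
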