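import Mathlib
import Pool.Agent.Lib.P23D.Diff
import Pool.Agent.Lib.P23D.Box

/-!
# Module P23D.DiffBound : differences are bounded by `Λ f`

PROOF.  `dl_cont`: `dl L F` is continuous for continuous `F`.
`dl_ball`: for continuous `F` and `r + ∑_{z ∈ L} ‖z‖ ≤ 1`:
`∫_{closedBall 0 r} (dl L F)² ≤ 4 ^ L.length ∫_{B n} F²`: induction on `L` (for all `r`):
`(x - y)² ≤ 2 x² + 2 y²` and
`∫_{closedBall 0 r} (dl L F (w + z))² dw = ∫_{closedBall z r} (dl L F)² ≤ ∫_{closedBall 0 (r + ‖z‖)} (dl L F)²`
(translation invariance, `closedBall z r ⊆ closedBall 0 (r + ‖z‖)`).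
Let `z` be the list of `diff_id`, `N` its length, `r = (1 + θ)/2`,
`h₀ = (1 - r) / (1 + ∑ ‖z_i‖) > 0`, `c = cls ω u u₀ ≠ 0`.  For `hs` with entries in `[0, h₀]` the
steps `h_i • z_i` have total norm `≤ 1 - r`.  By `box_le` (for `θ < r`)
`∫_{-θ}^{θ} (dl hs f)² ≤ C ∫_{closedBall 0 r} (dl hs f ⟪w, u₀⟫)²
 = C c⁻² ∫_{closedBall 0 r} (dl (zipWith hs z) (Lam ω u f))² ≤ C c⁻² 4^N LL ω u f`.
-/

set_option autoImplicit false

open MeasureTheory

namespace P23D

namespace DiffBoundAux

theorem ball_int {n : ℕ} {F : E n → ℝ} (hF : Continuous F) (x : E n) (r : ℝ) :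
    IntegrableOn F (Metric.closedBall x r) :=
  hF.continuousOn.integrableOn_compact (isCompact_closedBall _ _)

theorem dl_ball {n : ℕ} (L : List (E n)) : ∀ (r : ℝ) (F : E n → ℝ), Continuous F →
    r + (L.map fun z => ‖z‖).sum ≤ 1 →
    ∫ w in Metric.closedBall (0 : E n) r, dl L F w ^ 2 ≤ 4 ^ L.length * ∫ w in B n, F w ^ 2 := by
  induction L with
  | nil =>
    intro r F hF hr
    simp only [List.map_nil, List.sum_nil, add_zero] at hr
    simp only [List.length_nil, pow_zero, one_mul]
    show ∫ w in Metric.closedBall (0 : E n) r, F w ^ 2 ≤ _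
    refine setIntegral_mono_set (ball_int (hF.pow 2) _ _) ?_ ?_
    · exact Filter.Eventually.of_forall fun w => sq_nonneg _
    · exact (Metric.closedBall_subset_closedBall hr).eventuallyLE
  | cons z L ih =>
    intro r F hF hr
    simp only [List.map_cons, List.sum_cons] at hr
    have hc : Continuous (dl L F) := dl_cont L F hF
    have hs : Continuous fun w : E n => dl L F (w + z) := hc.comp (by fun_prop)
    have h1 := ih r F hF (by linarith [norm_nonneg z])
    have h2 := ih (r + ‖z‖) F hF (by linarith)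
    have h3 : ∫ w in Metric.closedBall (0 : E n) r, dl L F (w + z) ^ 2 ≤
        ∫ w in Metric.closedBall (0 : E n) (r + ‖z‖), dl L F w ^ 2 := by
      have e1 : ∫ w in Metric.closedBall (0 : E n) r, dl L F (w + z) ^ 2 =
          ∫ w in Metric.closedBall z r, dl L F w ^ 2 := by
        rw [← integral_indicator measurableSet_closedBall,
          ← integral_indicator measurableSet_closedBall]
        refine Eq.trans ?_ (integral_add_right_eq_self
          ((Metric.closedBall z r).indicator fun w => dl L F w ^ 2) z)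
        refine integral_congr_ae (Filter.Eventually.of_forall fun w => ?_)
        show (Metric.closedBall (0 : E n) r).indicator (fun w => dl L F (w + z) ^ 2) w =
          (Metric.closedBall z r).indicator (fun w => dl L F w ^ 2) (w + z)
        by_cases hw : ‖w‖ ≤ r
        · rw [Set.indicator_of_mem (by simpa using hw),
            Set.indicator_of_mem (by rw [mem_closedBall_iff_norm]; simpa using hw)]
        · rw [Set.indicator_of_notMem (by simpa using hw),
            Set.indicator_of_notMem (by rw [mem_closedBall_iff_norm]; simpa using hw)]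
      rw [e1]
      refine setIntegral_mono_set (ball_int (hc.pow 2) _ _) ?_ ?_
      · exact Filter.Eventually.of_forall fun w => sq_nonneg _
      · refine LE.le.eventuallyLE ?_
        intro w hw
        rw [mem_closedBall_iff_norm] at hw
        rw [mem_closedBall_zero_iff]
        calc ‖w‖ = ‖(w - z) + z‖ := by rw [sub_add_cancel]
          _ ≤ ‖w - z‖ + ‖z‖ := norm_add_le _ _
          _ ≤ r + ‖z‖ := by linarith
    calc ∫ w in Metric.closedBall (0 : E n) r, dl (z :: L) F w ^ 2
        ≤ ∫ w in Metric.closedBall (0 : E n) r,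
            (2 * dl L F w ^ 2 + 2 * dl L F (w + z) ^ 2) := by
          refine setIntegral_mono (ball_int ((dl_cont (z :: L) F hF).pow 2) _ _)
            (ball_int ((continuous_const.mul (hc.pow 2)).add
              (continuous_const.mul (hs.pow 2))) _ _) fun w => ?_
          show (dl L F w - dl L F (w + z)) ^ 2 ≤ 2 * dl L F w ^ 2 + 2 * dl L F (w + z) ^ 2
          nlinarith [sq_nonneg (dl L F w + dl L F (w + z))]
      _ = 2 * (∫ w in Metric.closedBall (0 : E n) r, dl L F w ^ 2) +
            2 * ∫ w in Metric.closedBall (0 : E n) r, dl L F (w + z) ^ 2 := by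
          rw [← integral_const_mul, ← integral_const_mul]
          exact integral_add (ball_int (continuous_const.mul (hc.pow 2)) _ _)
            (ball_int (continuous_const.mul (hs.pow 2)) _ _)
      _ ≤ 4 ^ (z :: L).length * ∫ w in B n, F w ^ 2 := by
          rw [List.length_cons, pow_succ]
          linarith

theorem zip_norm {n : ℕ} {h₀ : ℝ} (hs : List ℝ) : ∀ z : List (E n),
    hs.length = z.length → (∀ h ∈ hs, 0 ≤ h ∧ h ≤ h₀) →
    ((List.zipWith (fun (h : ℝ) (v : E n) => h • v) hs z).map fun z => ‖z‖).sum ≤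
      h₀ * (z.map fun z => ‖z‖).sum := by
  induction hs with
  | nil =>
    intro z hz _
    have : z = [] := List.length_eq_zero_iff.1 (by simpa using hz.symm)
    simp [this]
  | cons h L ih =>
    intro z hz hm
    cases z with
    | nil => simp at hz
    | cons v z =>
      simp only [List.zipWith_cons_cons, List.map_cons, List.sum_cons]
      have h1 := ih z (by simpa using hz) (fun x hx => hm x (List.mem_cons_of_mem _ hx))
      have h2 := hm h List.mem_cons_self
      rw [norm_smul, Real.norm_eq_abs, abs_of_nonneg h2.1, mul_add]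
      have h3 := mul_le_mul_of_nonneg_right h2.2 (norm_nonneg v)
      linarith

end DiffBoundAux

open DiffBoundAux

theorem diff_bound {P : Type} [Fintype P] {n : ℕ} {ω : P → ℝ} {u : P → E n} {u₀ : E n}
    (hF : Fam ω u u₀) (θ : ℝ) (hθ0 : 0 < θ) (hθ1 : θ < 1) :
    ∃ N : ℕ, ∃ h₀ > 0, ∃ C > 0, ∀ f : ℝ → ℝ, Continuous f → (∀ t, f (-t) = f t) →
      ∀ hs : List ℝ, hs.length = N → (∀ h ∈ hs, 0 ≤ h ∧ h ≤ h₀) →
        ∫ t in (-θ)..θ, dl hs f t ^ 2 ≤ C * LL ω u f := by
  obtain ⟨z, hz⟩ := diff_id hF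
  set r : ℝ := (1 + θ) / 2 with hr
  obtain ⟨C, hC, hbox⟩ := box_le u₀ hF.norm0 θ r hθ0.le (by rw [hr]; linarith)
  set Z : ℝ := (z.map fun z => ‖z‖).sum with hZ
  have hZ0 : 0 ≤ Z := by
    refine List.sum_nonneg fun x hx => ?_
    obtain ⟨v, _, rfl⟩ := List.mem_map.1 hx
    exact norm_nonneg v
  set c : ℝ := cls ω u u₀ with hc
  have hc0 : c ≠ 0 := hF.ne
  have hc2 : 0 < c ^ 2 := by positivity
  refine ⟨z.length, (1 - r) / (1 + Z), div_pos (by rw [hr]; linarith) (by linarith),
    C * ((c ^ 2)⁻¹ * 4 ^ z.length), by positivity, fun f hf he hs hlen hm => ?_⟩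
  have hlam : Continuous (Lam ω u f) := by
    unfold Lam
    fun_prop
  set Lz := List.zipWith (fun (h : ℝ) (v : E n) => h • v) hs z with hLz
  have h1 : r + (Lz.map fun z => ‖z‖).sum ≤ 1 := by
    have h2 := zip_norm hs z hlen hm
    have h3 : (1 - r) / (1 + Z) * Z ≤ 1 - r := by
      have h4 : 0 ≤ (1 - r) / (1 + Z) := div_nonneg (by rw [hr]; linarith) (by linarith)
      have h5 : (1 - r) / (1 + Z) * (1 + Z) = 1 - r := div_mul_cancel₀ _ (by linarith)
      nlinarith
    linarith
  have h2 := dl_ball Lz r (Lam ω u f) hlam h1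
  have hlen2 : Lz.length = z.length := by
    rw [hLz, List.length_zipWith, hlen, min_self]
  rw [hlen2] at h2
  have h3 : ∀ w : E n, dl Lz (Lam ω u f) w ^ 2 = c ^ 2 * dl hs f (inner ℝ w u₀) ^ 2 := by
    intro w
    rw [hz hs hlen f he w, mul_pow]
  simp_rw [h3] at h2
  rw [integral_const_mul] at h2
  calc ∫ t in (-θ)..θ, dl hs f t ^ 2
      ≤ C * ∫ w in Metric.closedBall (0 : E n) r, dl hs f (inner ℝ w u₀) ^ 2 :=
        hbox (dl hs f) (dl_cont hs f hf)
    _ ≤ C * ((c ^ 2)⁻¹ * (4 ^ z.length * LL ω u f)) := by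
        refine mul_le_mul_of_nonneg_left ?_ hC.le
        rw [inv_mul_eq_div, le_div_iff₀ hc2, mul_comm]
        exact h2
    _ = C * ((c ^ 2)⁻¹ * 4 ^ z.length) * LL ω u f := by ring

end P23D
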