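import Mathlib
import Pool.Agent.Lib.P23D.Box

/-!
# Module P23D.Doubling : the outer part is controlled by `Λ f` and the inner part

PROOF.  Call `p` parallel if `u p = u₀` or `u p = -u₀`.  There is `c₁ ∈ [0, 1)` with
`|⟪u p, u₀⟫| ≤ c₁` for all non-parallel `p` with `ω p ≠ 0` (strict Cauchy-Schwarz for unit vectors,
finitely many `p`).  Choose `s ∈ (0, 1)` with `√(1 - s²) ≤ (1 - c₁) / 2` and
`θ = max s ((1 + c₁) / 2) < 1`.  If `‖w‖ ≤ 1` and `|⟪w, u₀⟫| ≥ s`, write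
`w = ⟪w, u₀⟫ • u₀ + w'`, `‖w'‖² = ‖w‖² - ⟪w, u₀⟫² ≤ 1 - s²`; so for non-parallel `p` with
`ω p ≠ 0`: `|⟪w, u p⟫| ≤ c₁ + √(1 - s²) ≤ θ`.
For such `w` and even `f`, with `c = cls ω u u₀ ≠ 0`,
`c f(⟪w, u₀⟫) = Λ f (w) - ∑_{p not parallel} ω p f(⟪w, u p⟫)`, so with `M = card P`
`c² f(⟪w, u₀⟫)² ≤ (M + 1) (Λ f (w)² + ∑_{p not parallel} (ω p)² f(⟪w, u p⟫)²)`
(`inner_mul_le`/`Finset.sum_sq_le..`, Cauchy-Schwarz), where only values with `|⟪w, u p⟫| ≤ θ` occur.
Integrate over `{w ∈ B n | |⟪w, u₀⟫| ≥ s}` and use `slab_le` for the vectors `u p`; the rest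
`{w ∈ B n | |⟪w, u₀⟫| < s}` of `B n` is covered by `slab_le` for `u₀` and `θ`.
-/

set_option autoImplicit false

open MeasureTheory

namespace P23D

private theorem exists_c1 {P : Type} [Fintype P] {n : ℕ} {ω : P → ℝ} {u : P → E n} {u₀ : E n}
    (hF : Fam ω u u₀) : ∃ c : ℝ, 0 ≤ c ∧ c < 1 ∧ ∀ p, ω p ≠ 0 → ¬ (u p = u₀ ∨ u p = -u₀) →
      |(inner ℝ u₀ (u p) : ℝ)| ≤ c := by
  have h : ∀ᶠ c in nhdsWithin (1 : ℝ) (Set.Iio 1), ∀ p, ω p ≠ 0 → ¬ (u p = u₀ ∨ u p = -u₀) →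
      |(inner ℝ u₀ (u p) : ℝ)| ≤ c := by
    refine Filter.eventually_all.2 fun p => ?_
    by_cases hp : ω p ≠ 0 ∧ ¬ (u p = u₀ ∨ u p = -u₀)
    · have h1 : |(inner ℝ u₀ (u p) : ℝ)| < 1 := by
        have h2 : |(inner ℝ u₀ (u p) : ℝ)| ≤ ‖u₀‖ * ‖u p‖ := abs_real_inner_le_norm _ _
        rw [hF.norm0, hF.norm p hp.1, mul_one] at h2
        refine lt_of_le_of_ne h2 fun h3 => hp.2 ?_
        rcases (abs_eq one_pos.le).1 h3 with h4 | h4
        · left
          exact ((inner_eq_one_iff_of_norm_eq_one hF.norm0 (hF.norm p hp.1)).1 h4).symm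
        · right
          have h5 : (inner ℝ u₀ (-(u p)) : ℝ) = 1 := by
            rw [inner_neg_right, h4, neg_neg]
          have h6 := (inner_eq_one_iff_of_norm_eq_one hF.norm0
            (by rw [norm_neg]; exact hF.norm p hp.1)).1 h5
          rw [h6, neg_neg]
      filter_upwards [Ioo_mem_nhdsLT h1] with c hc _ _
      exact hc.1.le
    · refine Filter.Eventually.of_forall fun c h1 h2 => absurd ⟨h1, h2⟩ hp
  obtain ⟨c, hc, hc2⟩ := (h.and (Ioo_mem_nhdsLT (zero_lt_one' ℝ))).exists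
  exact ⟨c, hc2.1.le, hc2.2, hc⟩

open Classical in
private theorem split_Lam {P : Type} [Fintype P] {n : ℕ} (ω : P → ℝ) (u : P → E n) (u₀ : E n)
    (f : ℝ → ℝ) (hf : ∀ t, f (-t) = f t) (w : E n) :
    cls ω u u₀ * f (inner ℝ w u₀) = Lam ω u f w -
      ∑ p, if u p = u₀ ∨ u p = -u₀ then 0 else ω p * f (inner ℝ w (u p)) := by
  unfold cls Lam
  rw [Finset.sum_mul, ← Finset.sum_sub_distrib]
  refine Finset.sum_congr rfl fun p _ => ?_
  by_cases hp : u p = u₀ ∨ u p = -u₀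
  · rw [if_pos hp, if_pos hp, sub_zero]
    rcases hp with hp | hp
    · rw [hp]
    · rw [hp, inner_neg_right, hf]
  · rw [if_neg hp, if_neg hp, zero_mul, sub_self]

theorem doubling {P : Type} [Fintype P] {n : ℕ} {ω : P → ℝ} {u : P → E n} {u₀ : E n}
    (hF : Fam ω u u₀) :
    ∃ θ : ℝ, 0 < θ ∧ θ < 1 ∧ ∃ C > 0, ∀ f : ℝ → ℝ, Continuous f → (∀ t, f (-t) = f t) →
      NN u₀ f ≤ C * (LL ω u f + ∫ t in (-θ)..θ, f t ^ 2) := by
  classical
  obtain ⟨c, hc0, hc1, hc⟩ := exists_c1 hF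
  set δ : ℝ := (1 - c) / 2 with hδ
  have hδ0 : 0 < δ := by rw [hδ]; linarith
  have hδ1 : δ ≤ 1 / 2 := by rw [hδ]; linarith
  set s : ℝ := 1 - δ ^ 2 / 2 with hs
  have hs0 : 0 < s := by rw [hs]; nlinarith
  have hs1 : s < 1 := by rw [hs]; nlinarith
  set θ : ℝ := max s (c + δ) with hθ
  have hcδ : c + δ < 1 := by rw [hδ]; linarith
  have hθ0 : 0 < θ := lt_max_of_lt_left hs0
  have hθ1 : θ < 1 := max_lt hs1 hcδ
  refine ⟨θ, hθ0, hθ1, ?_⟩
  -- the constants of the slabs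
  have hsl : ∀ p, ∃ C > 0, ∀ f : ℝ → ℝ, Continuous f →
      ∫ w in B n, ω p ^ 2 * ({w | |(inner ℝ w (u p) : ℝ)| ≤ θ} : Set (E n)).indicator
        (fun w => f (inner ℝ w (u p)) ^ 2) w ≤ C * ∫ t in (-θ)..θ, f t ^ 2 := by
    intro p
    by_cases hp : ω p = 0
    · refine ⟨1, one_pos, fun f hf => ?_⟩
      simp only [hp]
      have h7 : 0 ≤ ∫ t in (-θ)..θ, f t ^ 2 :=
        intervalIntegral.integral_nonneg (by linarith) fun t _ => sq_nonneg _
      simpa using h7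
    · obtain ⟨C, hC, h1⟩ := slab_le (u p) (hF.norm p hp) θ hθ0.le
      refine ⟨ω p ^ 2 * C, by positivity, fun f hf => ?_⟩
      rw [integral_const_mul, setIntegral_indicator
        (isClosed_le (by fun_prop) continuous_const).measurableSet, mul_assoc]
      exact mul_le_mul_of_nonneg_left (h1 f hf) (sq_nonneg _)
  choose C hC hCs using hsl
  obtain ⟨C0, hC0, hC0s⟩ := slab_le u₀ hF.norm0 θ hθ0.le
  set k : ℝ := (cls ω u u₀ ^ 2)⁻¹ with hk
  have hk0 : 0 < k := by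
    have := hF.ne
    positivity
  set M : ℝ := (Fintype.card P : ℝ) with hM
  have hM0 : 0 ≤ M := Nat.cast_nonneg _
  refine ⟨2 * k + (C0 + 2 * k * M * ∑ p, C p), ?_, fun f hf he => ?_⟩
  · have h1 : 0 ≤ ∑ p, C p := Finset.sum_nonneg fun p _ => (hC p).le
    positivity
  -- pointwise inequality
  have hpt : ∀ w ∈ B n, f (inner ℝ w u₀) ^ 2 ≤
      ({w | |(inner ℝ w u₀ : ℝ)| ≤ θ} : Set (E n)).indicator (fun w => f (inner ℝ w u₀) ^ 2) w +
      (2 * k * Lam ω u f w ^ 2 + 2 * k * M * ∑ p, ω p ^ 2 *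
        ({w | |(inner ℝ w (u p) : ℝ)| ≤ θ} : Set (E n)).indicator
          (fun w => f (inner ℝ w (u p)) ^ 2) w) := by
    intro w hw
    have hn : ∀ p, 0 ≤ ω p ^ 2 * ({w | |(inner ℝ w (u p) : ℝ)| ≤ θ} : Set (E n)).indicator
          (fun w => f (inner ℝ w (u p)) ^ 2) w := fun p =>
      mul_nonneg (sq_nonneg _) (Set.indicator_nonneg (fun _ _ => sq_nonneg _) _)
    have hn' : 0 ≤ 2 * k * Lam ω u f w ^ 2 + 2 * k * M * ∑ p, ω p ^ 2 *
        ({w | |(inner ℝ w (u p) : ℝ)| ≤ θ} : Set (E n)).indicator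
          (fun w => f (inner ℝ w (u p)) ^ 2) w := by
      have h1 := Finset.sum_nonneg fun p (_ : p ∈ Finset.univ) => hn p
      positivity
    by_cases hws : |(inner ℝ w u₀ : ℝ)| ≤ s
    · have hmem : w ∈ ({w | |(inner ℝ w u₀ : ℝ)| ≤ θ} : Set (E n)) :=
        hws.trans (le_max_left _ _)
      rw [Set.indicator_of_mem hmem]
      linarith
    · push Not at hws
      have hin : 0 ≤ ({w | |(inner ℝ w u₀ : ℝ)| ≤ θ} : Set (E n)).indicator
          (fun w => f (inner ℝ w u₀) ^ 2) w := Set.indicator_nonneg (fun _ _ => sq_nonneg _) _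
      have hw1 : ‖w‖ ≤ 1 := mem_closedBall_zero_iff.1 hw
      -- the orthogonal part
      have hw' : ‖w - (inner ℝ w u₀ : ℝ) • u₀‖ ≤ δ := by
        have h1 : ‖w - (inner ℝ w u₀ : ℝ) • u₀‖ ^ 2 = ‖w‖ ^ 2 - (inner ℝ w u₀ : ℝ) ^ 2 := by
          rw [norm_sub_sq_real, inner_smul_right, norm_smul, hF.norm0, mul_one,
            Real.norm_eq_abs, sq_abs]
          ring
        have h2 : s ^ 2 ≤ (inner ℝ w u₀ : ℝ) ^ 2 := by
          rw [← sq_abs (inner ℝ w u₀ : ℝ)]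
          exact pow_le_pow_left₀ hs0.le hws.le 2
        have h3 : ‖w‖ ^ 2 ≤ 1 := pow_le_one₀ (norm_nonneg _) hw1
        have h4 : 1 - s ^ 2 ≤ δ ^ 2 := by
          rw [hs]
          nlinarith [sq_nonneg (δ ^ 2)]
        exact (pow_le_pow_iff_left₀ (norm_nonneg _) hδ0.le two_ne_zero).1 (by linarith)
      have hle : ∀ p, ω p ≠ 0 → ¬ (u p = u₀ ∨ u p = -u₀) → |(inner ℝ w (u p) : ℝ)| ≤ θ := by
        intro p hp hpp
        have h1 : (inner ℝ w (u p) : ℝ) = (inner ℝ w u₀ : ℝ) * (inner ℝ u₀ (u p) : ℝ) +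
            (inner ℝ (w - (inner ℝ w u₀ : ℝ) • u₀) (u p) : ℝ) := by
          rw [inner_sub_left, inner_smul_left]
          simp
        have h2 : |(inner ℝ w u₀ : ℝ)| ≤ 1 := by
          have := abs_real_inner_le_norm w u₀
          rw [hF.norm0, mul_one] at this
          exact this.trans hw1
        have h3 : |(inner ℝ (w - (inner ℝ w u₀ : ℝ) • u₀) (u p) : ℝ)| ≤ δ := by
          have := abs_real_inner_le_norm (w - (inner ℝ w u₀ : ℝ) • u₀) (u p)
          rw [hF.norm p hp, mul_one] at this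
          exact this.trans hw'
        have h4 : |(inner ℝ w u₀ : ℝ) * (inner ℝ u₀ (u p) : ℝ)| ≤ c := by
          rw [abs_mul]
          have h5 := hc p hp hpp
          have h6 := abs_nonneg (inner ℝ u₀ (u p) : ℝ)
          nlinarith [abs_nonneg (inner ℝ w u₀ : ℝ)]
        rw [h1]
        exact ((abs_add_le _ _).trans (add_le_add h4 h3)).trans (le_max_right _ _)
      have hsq : (cls ω u u₀) ^ 2 * f (inner ℝ w u₀) ^ 2 ≤ 2 * Lam ω u f w ^ 2 +
          2 * (M * ∑ p, ω p ^ 2 * ({w | |(inner ℝ w (u p) : ℝ)| ≤ θ} : Set (E n)).indicator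
            (fun w => f (inner ℝ w (u p)) ^ 2) w) := by
        have h1 := split_Lam ω u u₀ f he w
        have h2 : (∑ p, if u p = u₀ ∨ u p = -u₀ then 0 else ω p * f (inner ℝ w (u p))) ^ 2 ≤
            M * ∑ p, ω p ^ 2 * ({w | |(inner ℝ w (u p) : ℝ)| ≤ θ} : Set (E n)).indicator
            (fun w => f (inner ℝ w (u p)) ^ 2) w := by
          refine (sq_sum_le_card_mul_sum_sq (s := Finset.univ)
            (f := fun p => if u p = u₀ ∨ u p = -u₀ then 0
              else ω p * f (inner ℝ w (u p)))).trans ?_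
          rw [Finset.card_univ]
          refine mul_le_mul_of_nonneg_left (Finset.sum_le_sum fun p _ => ?_) hM0
          by_cases hpp : u p = u₀ ∨ u p = -u₀
          · simp only [if_pos hpp]
            simpa using hn p
          · by_cases hp : ω p = 0
            · simp only [if_neg hpp, hp]
              simp
            · have hmem : w ∈ ({w | |(inner ℝ w (u p) : ℝ)| ≤ θ} : Set (E n)) := hle p hp hpp
              rw [Set.indicator_of_mem hmem]
              simp only [if_neg hpp, mul_pow]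
              exact le_rfl
        have h3 : (cls ω u u₀) ^ 2 * f (inner ℝ w u₀) ^ 2 =
            (cls ω u u₀ * f (inner ℝ w u₀)) ^ 2 := by ring
        rw [h3, h1]
        nlinarith [sq_nonneg (Lam ω u f w + ∑ p, if u p = u₀ ∨ u p = -u₀ then 0
          else ω p * f (inner ℝ w (u p)))]
      have h5 : f (inner ℝ w u₀) ^ 2 = k * ((cls ω u u₀) ^ 2 * f (inner ℝ w u₀) ^ 2) := by
        have := hF.ne
        rw [hk]
        field_simp
      have h6 := mul_le_mul_of_nonneg_left hsq hk0.le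
      rw [← h5] at h6
      nlinarith
  -- integration
  have hcomp : IsCompact (B n) := isCompact_closedBall _ _
  have hLc : Continuous (Lam ω u f) := by
    unfold Lam
    fun_prop
  have i1 : ∀ v : E n, IntegrableOn (fun w => ({w | |(inner ℝ w v : ℝ)| ≤ θ} : Set (E n)).indicator
      (fun w => f (inner ℝ w v) ^ 2) w) (B n) := by
    intro v
    refine IntegrableOn.indicator ?_ (isClosed_le (by fun_prop) continuous_const).measurableSet
    exact ContinuousOn.integrableOn_compact hcomp (by fun_prop)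
  have i2 : IntegrableOn (fun w => 2 * k * Lam ω u f w ^ 2) (B n) :=
    ContinuousOn.integrableOn_compact hcomp (by fun_prop)
  have i3 : IntegrableOn (fun w => ∑ p, ω p ^ 2 *
        ({w | |(inner ℝ w (u p) : ℝ)| ≤ θ} : Set (E n)).indicator
          (fun w => f (inner ℝ w (u p)) ^ 2) w) (B n) :=
    integrable_finsetSum _ fun p _ => (i1 (u p)).const_mul _
  have i23 : IntegrableOn (fun w => 2 * k * Lam ω u f w ^ 2 + 2 * k * M * ∑ p, ω p ^ 2 *
        ({w | |(inner ℝ w (u p) : ℝ)| ≤ θ} : Set (E n)).indicator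
          (fun w => f (inner ℝ w (u p)) ^ 2) w) (B n) := i2.add (i3.const_mul _)
  have i4 : IntegrableOn (fun w => f (inner ℝ w u₀) ^ 2) (B n) :=
    ContinuousOn.integrableOn_compact hcomp (by fun_prop)
  have hint : NN u₀ f ≤ ∫ w in B n,
      (({w | |(inner ℝ w u₀ : ℝ)| ≤ θ} : Set (E n)).indicator (fun w => f (inner ℝ w u₀) ^ 2) w +
      (2 * k * Lam ω u f w ^ 2 + 2 * k * M * ∑ p, ω p ^ 2 *
        ({w | |(inner ℝ w (u p) : ℝ)| ≤ θ} : Set (E n)).indicator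
          (fun w => f (inner ℝ w (u p)) ^ 2) w)) :=
    setIntegral_mono_on i4 ((i1 u₀).add i23)
      Metric.isClosed_closedBall.measurableSet hpt
  have e1 : ∫ w in B n,
      (({w | |(inner ℝ w u₀ : ℝ)| ≤ θ} : Set (E n)).indicator (fun w => f (inner ℝ w u₀) ^ 2) w +
      (2 * k * Lam ω u f w ^ 2 + 2 * k * M * ∑ p, ω p ^ 2 *
        ({w | |(inner ℝ w (u p) : ℝ)| ≤ θ} : Set (E n)).indicator
          (fun w => f (inner ℝ w (u p)) ^ 2) w)) =
      (∫ w in B n ∩ {w | |(inner ℝ w u₀ : ℝ)| ≤ θ}, f (inner ℝ w u₀) ^ 2) +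
      (2 * k * LL ω u f + 2 * k * M * ∑ p, ∫ w in B n, ω p ^ 2 *
        ({w | |(inner ℝ w (u p) : ℝ)| ≤ θ} : Set (E n)).indicator
          (fun w => f (inner ℝ w (u p)) ^ 2) w) := by
    rw [integral_add (i1 u₀) i23, integral_add i2 (i3.const_mul _),
      setIntegral_indicator (isClosed_le (by fun_prop) continuous_const).measurableSet,
      integral_const_mul, integral_const_mul,
      integral_finsetSum _ fun p _ => (i1 (u p)).const_mul _]
    rfl
  have hI : 0 ≤ ∫ t in (-θ)..θ, f t ^ 2 :=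
    intervalIntegral.integral_nonneg (by linarith) fun t _ => sq_nonneg _
  have hL0 : 0 ≤ LL ω u f := integral_nonneg fun w => sq_nonneg _
  have hS : ∑ p, ∫ w in B n, ω p ^ 2 *
        ({w | |(inner ℝ w (u p) : ℝ)| ≤ θ} : Set (E n)).indicator
          (fun w => f (inner ℝ w (u p)) ^ 2) w ≤ (∑ p, C p) * ∫ t in (-θ)..θ, f t ^ 2 := by
    rw [Finset.sum_mul]
    exact Finset.sum_le_sum fun p _ => hCs p f hf
  have hS2 := mul_le_mul_of_nonneg_left hS (by positivity : 0 ≤ 2 * k * M)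
  have h0 := hC0s f hf
  rw [e1] at hint
  have hCp : 0 ≤ ∑ p, C p := Finset.sum_nonneg fun p _ => (hC p).le
  have hx : 0 ≤ 2 * k * ∫ t in (-θ)..θ, f t ^ 2 := by positivity
  have hy : 0 ≤ (C0 + 2 * k * M * ∑ p, C p) * LL ω u f := by positivity
  calc NN u₀ f ≤ C0 * (∫ t in (-θ)..θ, f t ^ 2) +
      (2 * k * LL ω u f + 2 * k * M * ((∑ p, C p) * ∫ t in (-θ)..θ, f t ^ 2)) := by linarith
    _ ≤ (2 * k + (C0 + 2 * k * M * ∑ p, C p)) * (LL ω u f + ∫ t in (-θ)..θ, f t ^ 2) := by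
        nlinarith

end P23D
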