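import Mathlib
import Pool.Agent.Lib.P23D.Defs

/-!
# Module P23D.Homog : homogeneous functions of different degrees

PROOF.  Work with `x : S → ℝ` (finite dimensional) and
`q x = ∫_{closedBall 0 r} (∑_{l ∈ S} x l V l w)² dw`, a continuous function of `x` (it is a quadratic
polynomial in `x` with coefficients `∫ V l V l'`; or `continuous_of_dominated`), with
`q (s x) = s² q x` and `q x ≥ 0`.
`q x = 0` implies `x = 0`: the integrand is continuous and nonnegative, so
`G(w) = ∑ x l V l w = 0` for `‖w‖ < r` (`integral_eq_zero_iff_of_nonneg`, continuity, open balls have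
positive measure).  If `w₁` is given, `‖s w₁‖ < r` for small `s > 0`, and
`0 = G(s w₁) = ∑ x l s^(m l) V l w₁`, a polynomial in `s` with infinitely many zeros, so all its
coefficients vanish; the exponents `m l` are distinct, so `x l V l w₁ = 0` for all `l ∈ S`.  Choose `w₁`
with `V l w₁ ≠ 0`.
So `q > 0` on the compact unit sphere of `S → ℝ`, `q ≥ c' > 0` there, and by homogeneity
`q x ≥ c' ‖x‖²` with the sup norm, `∑ x l² ≤ card S ‖x‖²`.  If `S` is empty take `c = 1`.
-/

set_option autoImplicit false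

open MeasureTheory

namespace P23D

/-- a nonzero combination of homogeneous functions of different degrees does not vanish on a ball -/
theorem homog_ne {n : ℕ} (S : Finset ℕ) (m : ℕ → ℕ) (hm : Set.InjOn m S) (V : ℕ → E n → ℝ)
    (hh : ∀ l ∈ S, ∀ (s : ℝ) (w : E n), V l (s • w) = s ^ m l * V l w)
    (hne : ∀ l ∈ S, ∃ w, V l w ≠ 0) (r : ℝ) (hr : 0 < r) (b : ℕ → ℝ) {l₀ : ℕ} (hl₀ : l₀ ∈ S)
    (hb : b l₀ ≠ 0) : ∃ w ∈ Metric.ball (0 : E n) r, ∑ l ∈ S, b l * V l w ≠ 0 := by
  classical
  by_contra hcon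
  push Not at hcon
  obtain ⟨w₁, hw₁⟩ := hne l₀ hl₀
  let P : Polynomial ℝ := ∑ l ∈ S, Polynomial.C (b l * V l w₁) * Polynomial.X ^ m l
  have hP0 : P = 0 := by
    apply Polynomial.eq_zero_of_infinite_isRoot
    have hpos : 0 < r / (‖w₁‖ + 1) := by positivity
    refine (Set.Ioo_infinite hpos).mono ?_
    intro s hs
    obtain ⟨hs0, hs1⟩ := hs
    have hmem : s • w₁ ∈ Metric.ball (0 : E n) r := by
      rw [Metric.mem_ball, dist_zero_right, norm_smul, Real.norm_eq_abs, abs_of_pos hs0]
      have h1 : s * (‖w₁‖ + 1) < r := by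
        rwa [lt_div_iff₀ (by positivity)] at hs1
      have h2 : s * ‖w₁‖ ≤ s * (‖w₁‖ + 1) := by
        apply mul_le_mul_of_nonneg_left _ hs0.le
        linarith
      linarith
    have h := hcon _ hmem
    show Polynomial.IsRoot P s
    rw [Polynomial.IsRoot.def]
    simp only [P, Polynomial.eval_finset_sum, Polynomial.eval_mul, Polynomial.eval_C,
      Polynomial.eval_pow, Polynomial.eval_X]
    rw [← h]
    refine Finset.sum_congr rfl fun l hl => ?_
    rw [hh l hl]
    ring
  have hcoef : P.coeff (m l₀) = b l₀ * V l₀ w₁ := by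
    simp only [P, Polynomial.finset_sum_coeff, Polynomial.coeff_C_mul_X_pow]
    rw [Finset.sum_eq_single l₀]
    · simp
    · intro l hl hne'
      rw [if_neg]
      intro h
      exact hne' (hm hl hl₀ h.symm)
    · intro h
      exact absurd hl₀ h
  rw [hP0, Polynomial.coeff_zero] at hcoef
  exact mul_ne_zero hb hw₁ hcoef.symm

theorem homog {n : ℕ} (S : Finset ℕ) (m : ℕ → ℕ) (hm : Set.InjOn m S) (V : ℕ → E n → ℝ)
    (hc : ∀ l ∈ S, Continuous (V l))
    (hh : ∀ l ∈ S, ∀ (s : ℝ) (w : E n), V l (s • w) = s ^ m l * V l w)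
    (hne : ∀ l ∈ S, ∃ w, V l w ≠ 0) (r : ℝ) (hr : 0 < r) :
    ∃ c > 0, ∀ b : ℕ → ℝ, c * ∑ l ∈ S, b l ^ 2 ≤
      ∫ w in Metric.closedBall (0 : E n) r, (∑ l ∈ S, b l * V l w) ^ 2 := by
  classical
  rcases S.eq_empty_or_nonempty with rfl | hSne
  · exact ⟨1, one_pos, fun b => by simp⟩
  have hK : IsCompact (Metric.closedBall (0 : E n) r) := isCompact_closedBall _ _
  let Mx : ℕ → ℕ → ℝ := fun l l' => ∫ w in Metric.closedBall (0 : E n) r, V l w * V l' w
  -- the integral as a quadratic form
  have hquad : ∀ b : ℕ → ℝ, ∫ w in Metric.closedBall (0 : E n) r, (∑ l ∈ S, b l * V l w) ^ 2 =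
      ∑ l ∈ S, ∑ l' ∈ S, b l * b l' * Mx l l' := by
    intro b
    have h1 : ∀ w : E n, (∑ l ∈ S, b l * V l w) ^ 2 =
        ∑ l ∈ S, ∑ l' ∈ S, b l * b l' * (V l w * V l' w) := by
      intro w
      rw [sq, Finset.sum_mul_sum]
      refine Finset.sum_congr rfl fun l _ => Finset.sum_congr rfl fun l' _ => ?_
      ring
    simp_rw [h1]
    have hint : ∀ l ∈ S, ∀ l' ∈ S, Integrable (fun w => b l * b l' * (V l w * V l' w))
        (volume.restrict (Metric.closedBall (0 : E n) r)) := by
      intro l hl l' hl'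
      have : Continuous fun w => b l * b l' * (V l w * V l' w) :=
        continuous_const.mul ((hc l hl).mul (hc l' hl'))
      exact this.continuousOn.integrableOn_compact hK
    rw [integral_finset_sum]
    · refine Finset.sum_congr rfl fun l hl => ?_
      rw [integral_finset_sum]
      · refine Finset.sum_congr rfl fun l' hl' => ?_
        rw [integral_const_mul]
      · intro l' hl'
        exact hint l hl l' hl'
    · intro l hl
      exact integrable_finset_sum _ fun l' hl' => hint l hl l' hl'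
  -- extension of a vector indexed by S
  let ex : (S → ℝ) → ℕ → ℝ := fun x l => if h : l ∈ S then x ⟨l, h⟩ else 0
  let q : (S → ℝ) → ℝ := fun x => ∑ l ∈ S, ∑ l' ∈ S, ex x l * ex x l' * Mx l l'
  have hexc : ∀ l, Continuous fun x : S → ℝ => ex x l := by
    intro l
    by_cases h : l ∈ S
    · simp only [ex, h, dif_pos]
      exact continuous_apply _
    · simp only [ex, h, dif_neg, not_false_eq_true]
      exact continuous_const
  have hqc : Continuous q := by
    refine continuous_finset_sum _ fun l _ => continuous_finset_sum _ fun l' _ => ?_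
    exact ((hexc l).mul (hexc l')).mul continuous_const
  have hqpos : ∀ x : S → ℝ, x ≠ 0 → 0 < q x := by
    intro x hx
    have hx' : ∃ l : S, x l ≠ 0 := by
      by_contra h
      push Not at h
      exact hx (funext h)
    obtain ⟨l, hl⟩ := hx'
    have hbl : ex x l ≠ 0 := by
      simp only [ex, l.2, dif_pos]
      exact hl
    obtain ⟨w, hw, hw'⟩ := homog_ne S m hm V hh hne r hr (ex x) l.2 hbl
    have hq : q x = ∫ w in Metric.closedBall (0 : E n) r, (∑ l ∈ S, ex x l * V l w) ^ 2 :=
      (hquad (ex x)).symm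
    rw [hq]
    have hcont : Continuous fun w : E n => (∑ l ∈ S, ex x l * V l w) ^ 2 :=
      (continuous_finset_sum _ fun l hl => continuous_const.mul (hc l hl)).pow 2
    rw [setIntegral_pos_iff_support_of_nonneg_ae]
    · have hopen : IsOpen (Function.support (fun w : E n => (∑ l ∈ S, ex x l * V l w) ^ 2) ∩
          Metric.ball (0 : E n) r) := by
        apply IsOpen.inter _ Metric.isOpen_ball
        have : Function.support (fun w : E n => (∑ l ∈ S, ex x l * V l w) ^ 2) =
            (fun w : E n => (∑ l ∈ S, ex x l * V l w) ^ 2) ⁻¹' {0}ᶜ := rfl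
        rw [this]
        exact isOpen_compl_singleton.preimage hcont
      have hnonempty : (Function.support (fun w : E n => (∑ l ∈ S, ex x l * V l w) ^ 2) ∩
          Metric.ball (0 : E n) r).Nonempty :=
        ⟨w, by
          rw [Function.mem_support]
          exact pow_ne_zero 2 hw', hw⟩
      refine lt_of_lt_of_le (hopen.measure_pos volume hnonempty) (measure_mono ?_)
      exact Set.inter_subset_inter_right _ Metric.ball_subset_closedBall
    · exact Filter.Eventually.of_forall fun w => sq_nonneg _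
    · exact hcont.continuousOn.integrableOn_compact hK
  -- minimum on the sphere
  haveI : Nonempty S := hSne.to_subtype
  have hsph : (Metric.sphere (0 : S → ℝ) 1).Nonempty := NormedSpace.sphere_nonempty.mpr zero_le_one
  obtain ⟨x₀, hx₀, hmin⟩ := (isCompact_sphere (0 : S → ℝ) 1).exists_isMinOn hsph hqc.continuousOn
  have hx₀ne : x₀ ≠ 0 := by
    rintro rfl
    simp at hx₀
  have hc0 : 0 < q x₀ := hqpos x₀ hx₀ne
  have hcard : (0 : ℝ) < S.card := by exact_mod_cast hSne.card_pos
  refine ⟨q x₀ / S.card, div_pos hc0 hcard, fun b => ?_⟩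
  let x : S → ℝ := fun l => b l
  have hexb : ∀ l ∈ S, ex x l = b l := by
    intro l hl
    simp only [ex, hl, dif_pos, x]
  have hqb : ∫ w in Metric.closedBall (0 : E n) r, (∑ l ∈ S, b l * V l w) ^ 2 = q x := by
    rw [hquad b]
    refine Finset.sum_congr rfl fun l hl => Finset.sum_congr rfl fun l' hl' => ?_
    rw [hexb l hl, hexb l' hl']
  have hhom : ∀ (s : ℝ) (y : S → ℝ), q (s • y) = s ^ 2 * q y := by
    intro s y
    simp only [q, Finset.mul_sum]
    refine Finset.sum_congr rfl fun l hl => Finset.sum_congr rfl fun l' hl' => ?_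
    simp only [ex, hl, hl', dif_pos, Pi.smul_apply, smul_eq_mul]
    ring
  have hlow : q x₀ * ‖x‖ ^ 2 ≤ q x := by
    by_cases hx : x = 0
    · have : q x = 0 := by
        rw [hx]
        have := hhom 0 0
        simpa using this
      rw [this, hx]
      simp
    · have hxn : 0 < ‖x‖ := norm_pos_iff.mpr hx
      have h1 : x = ‖x‖ • (‖x‖⁻¹ • x) := by
        rw [smul_smul, mul_inv_cancel₀ hxn.ne', one_smul]
      have h2 : ‖x‖⁻¹ • x ∈ Metric.sphere (0 : S → ℝ) 1 := by
        rw [mem_sphere_zero_iff_norm, norm_smul, norm_inv, norm_norm, inv_mul_cancel₀ hxn.ne']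
      have h3 : q x₀ ≤ q (‖x‖⁻¹ • x) := hmin h2
      calc q x₀ * ‖x‖ ^ 2 = ‖x‖ ^ 2 * q x₀ := by ring
        _ ≤ ‖x‖ ^ 2 * q (‖x‖⁻¹ • x) := by
            apply mul_le_mul_of_nonneg_left h3 (by positivity)
        _ = q (‖x‖ • (‖x‖⁻¹ • x)) := (hhom _ _).symm
        _ = q x := by rw [← h1]
  have hsum : ∑ l ∈ S, b l ^ 2 ≤ S.card * ‖x‖ ^ 2 := by
    calc ∑ l ∈ S, b l ^ 2 ≤ ∑ _l ∈ S, ‖x‖ ^ 2 := by
          refine Finset.sum_le_sum fun l hl => ?_
          have h1 : |b l| ≤ ‖x‖ := by
            have := norm_le_pi_norm x ⟨l, hl⟩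
            simpa [x] using this
          rw [← sq_abs]
          exact pow_le_pow_left₀ (abs_nonneg _) h1 2
      _ = S.card * ‖x‖ ^ 2 := by rw [Finset.sum_const, nsmul_eq_mul]
  rw [hqb]
  calc q x₀ / S.card * ∑ l ∈ S, b l ^ 2 ≤ q x₀ / S.card * (S.card * ‖x‖ ^ 2) := by
        apply mul_le_mul_of_nonneg_left hsum
        positivity
    _ = q x₀ * ‖x‖ ^ 2 := by
        field_simp
    _ ≤ q x := hlow

end P23D
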