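import Mathlib
import Pool.Agent.Lib.P23D.Doubling
import Pool.Agent.Lib.P23D.DiffBound
import Pool.Agent.Lib.P23D.Whit
import Pool.Agent.Lib.P23D.Homog
import Pool.Agent.Lib.P23D.Rot

/-!
# Module P23D.Coer : coercivity modulo killed polynomials

PROOF.  `doubling` gives `θ`, `C₀`; `diff_bound` for `θ` gives `N`, `h₀`, `C₁`; `whitney N θ h₀` gives
`C₂`.  Let `f` be continuous and even, `L = LL ω u f`.  With `ε = C₁ L` we get a polynomial `P` of
degree `≤ N` with `∫_{-θ}^{θ} (f - P)² ≤ C₂ C₁ L`.  The even part of `P` is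
`t ↦ (P(t) + P(-t))/2 = ev N p t` for suitable `p : ℕ → ℝ` (`p l = P.coeff (2 l)`), and as `f` is even
`∫_{-θ}^{θ} (f - ev N p)² ≤ C₂ C₁ L` (`((x + y)/2)² ≤ (x² + y²)/2`, substitution `t ↦ -t`).
Let `b l = p l` if `l ≤ N` and `Killed ω u l`, `b l = 0` otherwise; `InK ω u N b`.
Then `Lam ω u (ev N b) = 0` (`Lam_ev`).
(1) On `closedBall 0 θ`, `Lam ω u (ev N p) = Lam ω u f - Lam ω u (f - ev N p)` and
`∫_{closedBall 0 θ} (Lam ω u (f - ev N p))² ≤ M ∑ (ω p)² ∫_{closedBall 0 θ} (f - ev N p)(⟪w, u p⟫)²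
≤ C ∫_{-θ}^{θ} (f - ev N p)²` (`slab_le`, `closedBall 0 θ ⊆ B n ∩ {|⟪w, u p⟫| ≤ θ}`).  Hence
`∫_{closedBall 0 θ} (Lam ω u (ev N p))² ≤ C L`.
(2) `Lam ω u (ev N p) w = ∑_{l ≤ N} p l ∑_q ω q ⟪w, u q⟫^(2 l)`, where the killed `l` contribute `0`;
`homog` with `S = {l ≤ N | ¬ Killed ω u l}`, `m l = 2 l`, `r = θ` gives
`∑_{l ≤ N} (p l - b l)² ≤ C L`.
(3) So `∫_{-θ}^{θ} (f - ev N b)² ≤ C L` (`|t| ≤ θ ≤ 1`), and `doubling` for `f - ev N b`
(continuous, even, `LL ω u (f - ev N b) = LL ω u f`) gives the claim, `D = N`.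
-/

set_option autoImplicit false

open MeasureTheory

namespace P23D

namespace CoerAux

theorem Lam_ev_eq {P : Type} [Fintype P] {n : ℕ} (ω : P → ℝ) (u : P → E n) (D : ℕ)
    (b : ℕ → ℝ) (w : E n) : Lam ω u (ev D b) w =
      ∑ l ∈ Finset.range (D + 1), b l * ∑ p, ω p * (inner ℝ w (u p) : ℝ) ^ (2 * l) := by
  unfold Lam ev
  simp only [Finset.mul_sum]
  rw [Finset.sum_comm]
  refine Finset.sum_congr rfl fun l _ => Finset.sum_congr rfl fun p _ => ?_
  ring

theorem Lam_sub {P : Type} [Fintype P] {n : ℕ} (ω : P → ℝ) (u : P → E n) (f g : ℝ → ℝ)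
    (w : E n) : Lam ω u (fun t => f t - g t) w = Lam ω u f w - Lam ω u g w := by
  unfold Lam
  rw [← Finset.sum_sub_distrib]
  refine Finset.sum_congr rfl fun p _ => ?_
  ring

theorem Lam_cont {P : Type} [Fintype P] {n : ℕ} (ω : P → ℝ) (u : P → E n) {f : ℝ → ℝ}
    (hf : Continuous f) : Continuous (Lam ω u f) := by
  unfold Lam
  fun_prop

theorem ev_cont (D : ℕ) (b : ℕ → ℝ) : Continuous (ev D b) := by
  unfold ev
  fun_prop

theorem ev_even (D : ℕ) (b : ℕ → ℝ) (t : ℝ) : ev D b (-t) = ev D b t := by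
  unfold ev
  refine Finset.sum_congr rfl fun l _ => ?_
  rw [pow_mul, pow_mul, neg_sq]

theorem sum_two (F : ℕ → ℝ) (n : ℕ) :
    ∑ i ∈ Finset.range (2 * n), F i = ∑ l ∈ Finset.range n, (F (2 * l) + F (2 * l + 1)) := by
  induction n with
  | zero => simp
  | succ n ih =>
    rw [Nat.mul_succ, Finset.sum_range_succ, Finset.sum_range_succ, ih, Finset.sum_range_succ]
    ring

theorem even_part (Q : Polynomial ℝ) (N : ℕ) (hQ : Q.natDegree ≤ N) (t : ℝ) :
    ev N (fun l => Q.coeff (2 * l)) t = (Q.eval t + Q.eval (-t)) / 2 := by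
  rw [Polynomial.eval_eq_sum_range' (n := 2 * (N + 1)) (by omega),
    Polynomial.eval_eq_sum_range' (n := 2 * (N + 1)) (by omega), sum_two, sum_two,
    ← Finset.sum_add_distrib, Finset.sum_div]
  unfold ev
  refine Finset.sum_congr rfl fun l _ => ?_
  have h1 : (-t) ^ (2 * l) = t ^ (2 * l) := by rw [pow_mul, pow_mul, neg_sq]
  have h2 : (-t) ^ (2 * l + 1) = -(t ^ (2 * l + 1)) := by
    rw [pow_succ, h1, pow_succ]
    ring
  rw [h1, h2]
  ring

/-- the even part of a function is close to the even part of a polynomial -/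
theorem even_close (f : ℝ → ℝ) (hf : Continuous f) (he : ∀ t, f (-t) = f t) (θ : ℝ)
    (hθ : 0 ≤ θ) (Q : Polynomial ℝ) (N : ℕ) (hQ : Q.natDegree ≤ N) :
    ∫ t in (-θ)..θ, (f t - ev N (fun l => Q.coeff (2 * l)) t) ^ 2 ≤
      ∫ t in (-θ)..θ, (f t - Q.eval t) ^ 2 := by
  have hQc : Continuous fun t => Q.eval t := Q.continuous
  have hc1 : Continuous fun t => (f t - Q.eval t) ^ 2 := by fun_prop
  have hc2 : Continuous fun t => (f (-t) - Q.eval (-t)) ^ 2 :=
    hc1.comp continuous_neg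
  have h1 : ∫ t in (-θ)..θ, (f (-t) - Q.eval (-t)) ^ 2 =
      ∫ t in (-θ)..θ, (f t - Q.eval t) ^ 2 := by
    have := intervalIntegral.integral_comp_neg (a := -θ) (b := θ)
      (fun t => (f t - Q.eval t) ^ 2)
    rw [this, neg_neg]
  have h2 : ∫ t in (-θ)..θ, (f t - ev N (fun l => Q.coeff (2 * l)) t) ^ 2 ≤
      ∫ t in (-θ)..θ, ((f t - Q.eval t) ^ 2 / 2 + (f (-t) - Q.eval (-t)) ^ 2 / 2) := by
    refine intervalIntegral.integral_mono (by linarith) ?_ ?_ fun t => ?_
    · refine Continuous.intervalIntegrable ?_ _ _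
      have := ev_cont N (fun l => Q.coeff (2 * l))
      fun_prop
    · exact Continuous.intervalIntegrable ((hc1.div_const 2).add (hc2.div_const 2)) _ _
    · show (f t - ev N (fun l => Q.coeff (2 * l)) t) ^ 2 ≤
        (f t - Q.eval t) ^ 2 / 2 + (f (-t) - Q.eval (-t)) ^ 2 / 2
      rw [even_part Q N hQ, he]
      nlinarith [sq_nonneg ((f t - Q.eval t) - (f t - Q.eval (-t)))]
  rw [intervalIntegral.integral_add (Continuous.intervalIntegrable (hc1.div_const 2) _ _)
    (Continuous.intervalIntegrable (hc2.div_const 2) _ _), intervalIntegral.integral_div,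
    intervalIntegral.integral_div, h1] at h2
  linarith

/-- `Λ g` on a small ball is bounded by `g` on an interval -/
theorem Lam_le {P : Type} [Fintype P] {n : ℕ} {ω : P → ℝ} {u : P → E n} {u₀ : E n}
    (hF : Fam ω u u₀) (θ : ℝ) (hθ0 : 0 < θ) (hθ1 : θ < 1) :
    ∃ K > 0, ∀ g : ℝ → ℝ, Continuous g →
      ∫ w in Metric.closedBall (0 : E n) θ, Lam ω u g w ^ 2 ≤ K * ∫ t in (-θ)..θ, g t ^ 2 := by
  have hint : ∀ {F : E n → ℝ}, Continuous F → ∀ r : ℝ,
      IntegrableOn F (Metric.closedBall (0 : E n) r) := fun hF r =>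
    hF.continuousOn.integrableOn_compact (isCompact_closedBall _ _)
  have hsl : ∀ p, ∃ C > 0, ∀ g : ℝ → ℝ, Continuous g →
      ∫ w in Metric.closedBall (0 : E n) θ, (ω p * g (inner ℝ w (u p))) ^ 2 ≤
        C * ∫ t in (-θ)..θ, g t ^ 2 := by
    intro p
    by_cases hp : ω p = 0
    · refine ⟨1, one_pos, fun g hg => ?_⟩
      have h7 : 0 ≤ ∫ t in (-θ)..θ, g t ^ 2 :=
        intervalIntegral.integral_nonneg (by linarith) fun t _ => sq_nonneg _
      simpa [hp] using h7
    · obtain ⟨C, hC, h1⟩ := slab_le (u p) (hF.norm p hp) θ hθ0.le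
      refine ⟨ω p ^ 2 * C, by positivity, fun g hg => ?_⟩
      have h2 : ∀ w : E n, (ω p * g (inner ℝ w (u p))) ^ 2 =
          ω p ^ 2 * g (inner ℝ w (u p)) ^ 2 := fun w => by ring
      simp_rw [h2]
      rw [integral_const_mul, mul_assoc]
      refine mul_le_mul_of_nonneg_left (le_trans ?_ (h1 g hg)) (sq_nonneg _)
      have hgc : Continuous fun w : E n => g (inner ℝ w (u p)) ^ 2 := by fun_prop
      refine setIntegral_mono_set ((hint hgc 1).mono_set Set.inter_subset_left)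
        (Filter.Eventually.of_forall fun w => sq_nonneg _) (LE.le.eventuallyLE ?_)
      intro w hw
      have hw1 : ‖w‖ ≤ θ := mem_closedBall_zero_iff.1 hw
      refine ⟨mem_closedBall_zero_iff.2 (by linarith), ?_⟩
      have h3 := abs_real_inner_le_norm w (u p)
      rw [hF.norm p hp, mul_one] at h3
      exact h3.trans hw1
  choose C hC hCs using hsl
  have hS0 : 0 ≤ ∑ p, C p := Finset.sum_nonneg fun p _ => (hC p).le
  refine ⟨Fintype.card P * (∑ p, C p) + 1, by positivity, fun g hg => ?_⟩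
  have hI : 0 ≤ ∫ t in (-θ)..θ, g t ^ 2 :=
    intervalIntegral.integral_nonneg (by linarith) fun t _ => sq_nonneg _
  have hcp : ∀ p, Continuous fun w : E n => (ω p * g (inner ℝ w (u p))) ^ 2 := fun p => by
    fun_prop
  calc ∫ w in Metric.closedBall (0 : E n) θ, Lam ω u g w ^ 2
      ≤ ∫ w in Metric.closedBall (0 : E n) θ,
          (Fintype.card P : ℝ) * ∑ p, (ω p * g (inner ℝ w (u p))) ^ 2 := by
        refine setIntegral_mono (hint ((Lam_cont ω u hg).pow 2) θ)
          (hint (continuous_const.mul (continuous_finsetSum _ fun p _ => hcp p)) θ) fun w => ?_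
        exact sq_sum_le_card_mul_sum_sq (s := Finset.univ)
          (f := fun p => ω p * g (inner ℝ w (u p)))
    _ = Fintype.card P * ∑ p, ∫ w in Metric.closedBall (0 : E n) θ,
          (ω p * g (inner ℝ w (u p))) ^ 2 := by
        rw [integral_const_mul, integral_finsetSum _ fun p _ => hint (hcp p) θ]
    _ ≤ Fintype.card P * ((∑ p, C p) * ∫ t in (-θ)..θ, g t ^ 2) := by
        refine mul_le_mul_of_nonneg_left ?_ (Nat.cast_nonneg _)
        rw [Finset.sum_mul]
        exact Finset.sum_le_sum fun p _ => hCs p g hg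
    _ ≤ (Fintype.card P * (∑ p, C p) + 1) * ∫ t in (-θ)..θ, g t ^ 2 := by nlinarith

end CoerAux

open CoerAux

theorem Lam_ev {P : Type} [Fintype P] {n : ℕ} {ω : P → ℝ} {u : P → E n} {D : ℕ} {b : ℕ → ℝ}
    (hb : InK ω u D b) (w : E n) : Lam ω u (ev D b) w = 0 := by
  rw [Lam_ev_eq]
  refine Finset.sum_eq_zero fun l _ => ?_
  by_cases h : b l = 0
  · rw [h, zero_mul]
  · rw [(hb l h).2 w, mul_zero]

theorem coer {P : Type} [Fintype P] {n : ℕ} {ω : P → ℝ} {u : P → E n} {u₀ : E n}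
    (hF : Fam ω u u₀) :
    ∃ D : ℕ, ∃ C > 0, ∀ f : ℝ → ℝ, Continuous f → (∀ t, f (-t) = f t) →
      ∃ b : ℕ → ℝ, InK ω u D b ∧ NN u₀ (fun t => f t - ev D b t) ≤ C * LL ω u f := by
  classical
  obtain ⟨θ, hθ0, hθ1, C₀, hC₀, hdoub⟩ := doubling hF
  obtain ⟨N, h₀, hh₀, C₁, hC₁, hdiff⟩ := diff_bound hF θ hθ0 hθ1
  obtain ⟨C₂, hC₂, hwhit⟩ := whitney N θ h₀ hθ0 hh₀
  obtain ⟨K, hK, hKs⟩ := Lam_le hF θ hθ0 hθ1
  set S : Finset ℕ := (Finset.range (N + 1)).filter (fun l => ¬ Killed ω u l) with hS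
  set V : ℕ → E n → ℝ := fun l w => ∑ p, ω p * (inner ℝ w (u p) : ℝ) ^ (2 * l) with hV
  obtain ⟨c, hc, hhom⟩ := homog S (fun l => 2 * l) (fun x _ y _ h => by
      have : 2 * x = 2 * y := h
      omega) V
    (fun l _ => by
      show Continuous fun w : E n => ∑ p, ω p * (inner ℝ w (u p) : ℝ) ^ (2 * l)
      fun_prop)
    (fun l _ s w => by
      show ∑ p, ω p * (inner ℝ (s • w) (u p) : ℝ) ^ (2 * l) =
        s ^ (2 * l) * ∑ p, ω p * (inner ℝ w (u p) : ℝ) ^ (2 * l)
      rw [Finset.mul_sum]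
      refine Finset.sum_congr rfl fun p _ => ?_
      rw [real_inner_smul_left, mul_pow]
      ring)
    (fun l hl => by
      have h1 : ¬ Killed ω u l := (Finset.mem_filter.1 hl).2
      unfold Killed at h1
      push Not at h1
      exact h1) θ hθ0
  have hint : ∀ {F : E n → ℝ}, Continuous F → ∀ r : ℝ,
      IntegrableOn F (Metric.closedBall (0 : E n) r) := fun hF r =>
    hF.continuousOn.integrableOn_compact (isCompact_closedBall _ _)
  set K₃ : ℝ := 2 + 2 * (K * (C₂ * C₁)) with hK₃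
  have hK₃0 : 0 < K₃ := by positivity
  set K₄ : ℝ := 2 * (C₂ * C₁) + 4 * ((N + 1 : ℕ) * (K₃ / c)) with hK₄
  have hK₄0 : 0 < K₄ := by positivity
  refine ⟨N, C₀ * (1 + K₄), by positivity, fun f hf he => ?_⟩
  have hL0 : 0 ≤ LL ω u f := integral_nonneg fun w => sq_nonneg _
  obtain ⟨Q, hQ, hQf⟩ := hwhit f hf (C₁ * LL ω u f) (hdiff f hf he)
  set p : ℕ → ℝ := fun l => Q.coeff (2 * l) with hp
  have hclose : ∫ t in (-θ)..θ, (f t - ev N p t) ^ 2 ≤ C₂ * C₁ * LL ω u f := by
    refine (even_close f hf he θ hθ0.le Q N hQ).trans (hQf.trans (le_of_eq ?_))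
    ring
  set b : ℕ → ℝ := fun l => if l ≤ N ∧ Killed ω u l then p l else 0 with hb
  have hbK : InK ω u N b := by
    intro l hl
    by_contra h
    exact hl (if_neg h)
  -- the part of the polynomial that is not killed
  have hLp : ∀ w, Lam ω u (ev N p) w = ∑ l ∈ S, p l * V l w := by
    intro w
    rw [Lam_ev_eq, hS, Finset.sum_filter]
    refine Finset.sum_congr rfl fun l _ => ?_
    by_cases hk : Killed ω u l
    · rw [hk w, mul_zero, if_neg (not_not.2 hk)]
    · rw [if_pos hk]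
  have hLint : ∫ w in Metric.closedBall (0 : E n) θ, (∑ l ∈ S, p l * V l w) ^ 2 ≤
      K₃ * LL ω u f := by
    have hpc := ev_cont N p
    have hgc : Continuous fun t => f t - ev N p t := hf.sub hpc
    have h1 : ∫ w in Metric.closedBall (0 : E n) θ, (∑ l ∈ S, p l * V l w) ^ 2 ≤
        ∫ w in Metric.closedBall (0 : E n) θ, (2 * Lam ω u f w ^ 2 +
          2 * Lam ω u (fun t => f t - ev N p t) w ^ 2) := by
      refine setIntegral_mono ?_ ?_ fun w => ?_
      · have h2 : (fun w => (∑ l ∈ S, p l * V l w) ^ 2) = fun w => Lam ω u (ev N p) w ^ 2 := by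
          funext w
          rw [hLp]
        rw [h2]
        exact hint ((Lam_cont ω u hpc).pow 2) θ
      · exact hint ((continuous_const.mul ((Lam_cont ω u hf).pow 2)).add
          (continuous_const.mul ((Lam_cont ω u hgc).pow 2))) θ
      · show (∑ l ∈ S, p l * V l w) ^ 2 ≤ 2 * Lam ω u f w ^ 2 +
          2 * Lam ω u (fun t => f t - ev N p t) w ^ 2
        rw [← hLp, Lam_sub]
        nlinarith [sq_nonneg (2 * Lam ω u f w - Lam ω u (ev N p) w)]
    have h3 : ∫ w in Metric.closedBall (0 : E n) θ, (2 * Lam ω u f w ^ 2 +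
          2 * Lam ω u (fun t => f t - ev N p t) w ^ 2) =
        2 * (∫ w in Metric.closedBall (0 : E n) θ, Lam ω u f w ^ 2) +
          2 * ∫ w in Metric.closedBall (0 : E n) θ,
            Lam ω u (fun t => f t - ev N p t) w ^ 2 := by
      rw [← integral_const_mul, ← integral_const_mul]
      exact integral_add (hint (continuous_const.mul ((Lam_cont ω u hf).pow 2)) θ)
        (hint (continuous_const.mul ((Lam_cont ω u hgc).pow 2)) θ)
    have h4 : ∫ w in Metric.closedBall (0 : E n) θ, Lam ω u f w ^ 2 ≤ LL ω u f := by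
      refine setIntegral_mono_set (hint ((Lam_cont ω u hf).pow 2) 1)
        (Filter.Eventually.of_forall fun w => sq_nonneg _) (LE.le.eventuallyLE ?_)
      exact Metric.closedBall_subset_closedBall hθ1.le
    have h5 := hKs (fun t => f t - ev N p t) hgc
    have h6 := mul_le_mul_of_nonneg_left hclose hK.le
    rw [h3] at h1
    have h7 : K * (C₂ * C₁ * LL ω u f) = K * (C₂ * C₁) * LL ω u f := by ring
    rw [hK₃]
    nlinarith
  have hsum : ∑ l ∈ S, p l ^ 2 ≤ K₃ / c * LL ω u f := by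
    have h1 := (hhom p).trans hLint
    rw [div_mul_eq_mul_div, le_div_iff₀ hc]
    linarith
  -- the difference of the polynomials
  have hdif : ∀ t : ℝ, |t| ≤ θ → (ev N p t - ev N b t) ^ 2 ≤
      (N + 1 : ℕ) * (K₃ / c * LL ω u f) := by
    intro t ht
    have h1 : ev N p t - ev N b t = ∑ l ∈ S, p l * t ^ (2 * l) := by
      unfold ev
      rw [← Finset.sum_sub_distrib, hS, Finset.sum_filter]
      refine Finset.sum_congr rfl fun l hl => ?_
      have hlN : l ≤ N := by
        have := Finset.mem_range.1 hl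
        omega
      by_cases hk : Killed ω u l
      · rw [if_neg (not_not.2 hk)]
        simp only [hb, if_pos (And.intro hlN hk)]
        ring
      · rw [if_pos hk]
        simp only [hb, if_neg (fun h : l ≤ N ∧ Killed ω u l => hk h.2)]
        ring
    rw [h1]
    have h2 : (∑ l ∈ S, p l * t ^ (2 * l)) ^ 2 ≤ S.card * ∑ l ∈ S, (p l * t ^ (2 * l)) ^ 2 :=
      sq_sum_le_card_mul_sum_sq
    have h3 : ∑ l ∈ S, (p l * t ^ (2 * l)) ^ 2 ≤ ∑ l ∈ S, p l ^ 2 := by
      refine Finset.sum_le_sum fun l _ => ?_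
      rw [mul_pow]
      have h4 : (t ^ (2 * l)) ^ 2 ≤ 1 := by
        rw [sq_le_one_iff_abs_le_one, abs_pow]
        exact pow_le_one₀ (abs_nonneg _) (by linarith)
      nlinarith [sq_nonneg (p l)]
    have h5 : (S.card : ℝ) ≤ (N + 1 : ℕ) := by
      have := Finset.card_filter_le (Finset.range (N + 1)) (fun l => ¬ Killed ω u l)
      rw [Finset.card_range] at this
      exact_mod_cast this
    have h6 : 0 ≤ ∑ l ∈ S, p l ^ 2 := Finset.sum_nonneg fun l _ => sq_nonneg _
    calc (∑ l ∈ S, p l * t ^ (2 * l)) ^ 2 ≤ S.card * ∑ l ∈ S, (p l * t ^ (2 * l)) ^ 2 := h2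
      _ ≤ S.card * ∑ l ∈ S, p l ^ 2 := mul_le_mul_of_nonneg_left h3 (Nat.cast_nonneg _)
      _ ≤ (N + 1 : ℕ) * ∑ l ∈ S, p l ^ 2 := mul_le_mul_of_nonneg_right h5 h6
      _ ≤ (N + 1 : ℕ) * (K₃ / c * LL ω u f) :=
          mul_le_mul_of_nonneg_left hsum (Nat.cast_nonneg _)
  have hin : ∫ t in (-θ)..θ, (f t - ev N b t) ^ 2 ≤ K₄ * LL ω u f := by
    have hpc := ev_cont N p
    have hbc := ev_cont N b
    have hq : 0 ≤ ((N + 1 : ℕ) : ℝ) * (K₃ / c * LL ω u f) := by positivity
    have h1 : ∫ t in (-θ)..θ, (f t - ev N b t) ^ 2 ≤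
        ∫ t in (-θ)..θ, (2 * (f t - ev N p t) ^ 2 +
          2 * ((N + 1 : ℕ) * (K₃ / c * LL ω u f))) := by
      refine intervalIntegral.integral_mono_on (by linarith) ?_ ?_ fun t ht => ?_
      · exact Continuous.intervalIntegrable (by fun_prop) _ _
      · exact Continuous.intervalIntegrable (by fun_prop) _ _
      · have h2 := hdif t (abs_le.2 ⟨ht.1, ht.2⟩)
        have h3 : (f t - ev N b t) ^ 2 ≤ 2 * (f t - ev N p t) ^ 2 +
            2 * (ev N p t - ev N b t) ^ 2 := by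
          nlinarith [sq_nonneg ((f t - ev N p t) - (ev N p t - ev N b t))]
        linarith
    rw [intervalIntegral.integral_add (Continuous.intervalIntegrable (by fun_prop) _ _)
      (Continuous.intervalIntegrable (by fun_prop) _ _), intervalIntegral.integral_const_mul,
      intervalIntegral.integral_const, smul_eq_mul] at h1
    have h4 : (θ - -θ) * (2 * (((N + 1 : ℕ) : ℝ) * (K₃ / c * LL ω u f))) ≤
        2 * (2 * (((N + 1 : ℕ) : ℝ) * (K₃ / c * LL ω u f))) :=
      mul_le_mul_of_nonneg_right (by linarith) (by linarith)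
    rw [hK₄]
    nlinarith
  refine ⟨b, hbK, ?_⟩
  have hbc := ev_cont N b
  have hfin := hdoub (fun t => f t - ev N b t) (hf.sub hbc) (fun t => by
    show f (-t) - ev N b (-t) = f t - ev N b t
    rw [he, ev_even])
  have hLL : LL ω u (fun t => f t - ev N b t) = LL ω u f := by
    unfold LL
    refine integral_congr_ae (Filter.Eventually.of_forall fun w => ?_)
    show Lam ω u (fun t => f t - ev N b t) w ^ 2 = Lam ω u f w ^ 2
    rw [Lam_sub, Lam_ev hbK, sub_zero]
  rw [hLL] at hfin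
  have h9 := mul_le_mul_of_nonneg_left hin hC₀.le
  calc NN u₀ (fun t => f t - ev N b t)
      ≤ C₀ * (LL ω u f + ∫ t in (-θ)..θ, (f t - ev N b t) ^ 2) := hfin
    _ ≤ C₀ * (1 + K₄) * LL ω u f := by nlinarith

end P23D
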