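import Mathlib
import Pool.Agent.Lib.P23D.PDlem
import Pool.Agent.Lib.P23D.Pairs

/-!
# Module P23D.Extend : from a neighbourhood of zero to `(-1, 1)`

Model: `Pool/Agent/Lib/P23F/Extend.lean`.

PROOF.  Let `S = {ρ ∈ (0, 1) | ∀ y, |y| ≤ ρ → k y = α y²}`, nonempty (`ρ₀`), `ρ₁ = sup S`.  Then
`k y = α y²` for `|y| < ρ₁`.  If `ρ₁ = 1` we are done.  Suppose `ρ₁ < 1`.  By continuity
`k ρ₁ = α ρ₁²` (so `k y = α y²` for `|y| ≤ ρ₁`), `0 ≤ α ρ₁² < 1`, so `0 ≤ α`.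
`Dep.inner_lt` gives `c < 1`, `0 ≤ c`.  Let `m = (1 - α ρ₁²)/2 > 0`; `pd_lemma` with `m` gives `η`, `C`.
By `Dep.same` / `Dep.opp` there are off-diagonal pairs `p₊`, `p₋` with `cls > 0` (`Dep.cls_pos`) and
`cls < 0` (`Dep.cls_neg`), where `cls p = cls (wt a μ) (dr a) (dir a p.1 p.2)`.
Let `ρ' ∈ (ρ₁, 1)` be so close to `ρ₁` that `c ρ' ≤ ρ₁`, `α ρ'² ≤ 1 - m`, and
`ε' := k ρ' - α ρ'²` (which tends to `0`) satisfies `|ε'| d² ≤ η` for all `d = ‖a i - a j‖` and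
`C |ε'| ∑_{i,j} ‖a i - a j‖⁴ < min (cls p₊) (- cls p₋)`; and, because `ρ₁ = sup S < 1` and `k` is even,
such `ρ'` exists with `ε' ≠ 0` (otherwise `k y = α y²` up to a larger radius).
Choose `p = p₊` if `ε' > 0`, `p = p₋` if `ε' < 0`, so `ε' * cls p = |ε'| |cls p| > 0`.
Let `v = dir a p.1 p.2`, `w = ρ' • v`, `s i = ⟪w, a i⟫`.  For `i ≠ j` let
`t = (s i - s j) / ‖a i - a j‖ = ρ' ⟪v, dir a i j⟫`; `|t| ≤ ρ' < 1`.
If `dir a i j = ± v` then `|t| = ρ'`, `k t = α t² + ε'`; otherwise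
`|t| ≤ c ρ' ≤ ρ₁`, `k t = α t²`.  So
`Rk a k s i j = ‖a_ij‖² - α ⟪w, a_ij⟫² - f i j` with `f i j = ε' ‖a_ij‖²` for the pairs with
`dir a i j = ± v` and `0` otherwise (on the diagonal `‖a_ii‖ = 0`, and `f i i = 0` in both cases).
`pd_lemma` with `c0 = 0`, this `w`, `α`
(`α ⟪w, z⟫² ≤ α ρ'² ‖z‖² ≤ (1 - m) ‖z‖²`) applies: `∑ μ μ f = ε' cls p`,
`∑ f² ≤ ε'² ∑ ‖a_ij‖⁴`, so `C ∑ f² < ∑ μ μ f`.  Hence `Rk a k s` is `Pos`, contradicting `hk.bad`.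
-/

set_option autoImplicit false

namespace P23D

open Set Filter Topology

namespace ExtendAux

open Classical in
/-- the perturbation -/
noncomputable def ff {ι : Type} {n : ℕ} (a : ι → E n) (v : E n) (e : ℝ) (i j : ι) : ℝ :=
  if dir a i j = v ∨ dir a i j = -v then e * ‖a i - a j‖ ^ 2 else 0

theorem ff_symm {ι : Type} {n : ℕ} (a : ι → E n) (v : E n) (e : ℝ) (i j : ι) :
    ff a v e i j = ff a v e j i := by
  unfold ff
  rw [dir_swap i j, norm_sub_rev (a j) (a i)]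
  have h : (dir a i j = v ∨ dir a i j = -v) ↔ (-dir a i j = v ∨ -dir a i j = -v) := by
    constructor
    · rintro (h | h)
      · exact Or.inr (by rw [h])
      · exact Or.inl (by rw [h, neg_neg])
    · rintro (h | h)
      · exact Or.inr (by rw [← h, neg_neg])
      · exact Or.inl (neg_injective h)
  by_cases h1 : dir a i j = v ∨ dir a i j = -v
  · rw [if_pos h1, if_pos (h.1 h1)]
  · rw [if_neg h1, if_neg (fun hh => h1 (h.2 hh))]

theorem ff_sum {ι : Type} [Fintype ι] {n : ℕ} (a : ι → E n) (μ : ι → ℝ) (v : E n) (e : ℝ) :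
    ∑ i, ∑ j, μ i * μ j * ff a v e i j = e * cls (wt a μ) (dr a) v := by
  unfold cls
  rw [Fintype.sum_prod_type, Finset.mul_sum]
  refine Finset.sum_congr rfl fun i _ => ?_
  rw [Finset.mul_sum]
  refine Finset.sum_congr rfl fun j _ => ?_
  unfold ff wt dr
  by_cases h : dir a i j = v ∨ dir a i j = -v
  · rw [if_pos h, if_pos h]
    ring
  · rw [if_neg h, if_neg h]
    ring

theorem ff_abs {ι : Type} {n : ℕ} (a : ι → E n) (v : E n) (e : ℝ) (i j : ι) :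
    |ff a v e i j| ≤ |e| * ‖a i - a j‖ ^ 2 := by
  unfold ff
  split_ifs
  · rw [abs_mul, abs_of_nonneg (sq_nonneg ‖a i - a j‖)]
  · rw [abs_zero]
    positivity

theorem ff_sq_sum {ι : Type} [Fintype ι] {n : ℕ} (a : ι → E n) (v : E n) (e : ℝ) :
    ∑ i, ∑ j, ff a v e i j ^ 2 ≤ |e| ^ 2 * ∑ i, ∑ j, ‖a i - a j‖ ^ 4 := by
  rw [Finset.mul_sum]
  refine Finset.sum_le_sum fun i _ => ?_
  rw [Finset.mul_sum]
  refine Finset.sum_le_sum fun j _ => ?_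
  have h := ff_abs a v e i j
  calc ff a v e i j ^ 2 = |ff a v e i j| ^ 2 := (sq_abs _).symm
    _ ≤ (|e| * ‖a i - a j‖ ^ 2) ^ 2 := pow_le_pow_left₀ (abs_nonneg _) h 2
    _ = |e| ^ 2 * ‖a i - a j‖ ^ 4 := by ring

/-- the main step -/
theorem step {ι : Type} [Fintype ι] {n : ℕ} {a : ι → E n} {μ : ι → ℝ} (hd : Dep a μ) {k : ℝ → ℝ}
    (hk : Bad a k) {ρ₁ ρ α c m η C : ℝ} (hα : 0 ≤ α)
    (hin : ∀ y, |y| ≤ ρ₁ → k y = α * y ^ 2)
    (hc : ∀ i j k l : ι, i ≠ j → k ≠ l →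
      dir a k l ≠ dir a i j → dir a k l ≠ -dir a i j →
        |(inner ℝ (dir a i j) (dir a k l) : ℝ)| ≤ c)
    (hpd : ∀ (c0 α : ℝ) (w : E n),
      (∀ z : E n, m * ‖z‖ ^ 2 ≤ (1 - c0) * ‖z‖ ^ 2 - α * (inner ℝ w z : ℝ) ^ 2) →
      ∀ f : ι → ι → ℝ, (∀ i j, f i j = f j i) → (∀ i j, |f i j| ≤ η) →
        C * ∑ i, ∑ j, f i j ^ 2 < ∑ i, ∑ j, μ i * μ j * f i j →
        Pos fun i j =>
          (1 - c0) * ‖a i - a j‖ ^ 2 - α * (inner ℝ w (a i - a j) : ℝ) ^ 2 - f i j)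
    (hC : 0 < C) (hρ0 : 0 ≤ ρ) (hρ : ρ < 1) (hcρ : c * ρ ≤ ρ₁) (hαρ : α * ρ ^ 2 ≤ 1 - m)
    (hη : |k ρ - α * ρ ^ 2| * (∑ i, ∑ j, ‖a i - a j‖ ^ 2) ≤ η)
    {i0 j0 : ι} (hp : i0 ≠ j0)
    (hpos : C * (|k ρ - α * ρ ^ 2| ^ 2 * ∑ i, ∑ j, ‖a i - a j‖ ^ 4) <
      (k ρ - α * ρ ^ 2) * cls (wt a μ) (dr a) (dir a i0 j0)) : False := by
  obtain ⟨e, he⟩ : ∃ e, e = k ρ - α * ρ ^ 2 := ⟨_, rfl⟩
  rw [← he] at hη hpos
  obtain ⟨v, hv⟩ : ∃ v : E n, v = dir a i0 j0 := ⟨_, rfl⟩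
  have hv1 : ‖v‖ = 1 := by rw [hv]; exact hd.norm_dir hp
  obtain ⟨w, hw⟩ : ∃ w : E n, w = ρ • v := ⟨_, rfl⟩
  have hwn : ‖w‖ = ρ := by
    rw [hw, norm_smul, hv1, mul_one, Real.norm_eq_abs, abs_of_nonneg hρ0]
  have hne : ∀ i j, i ≠ j → 0 < ‖a i - a j‖ := fun i j hij => hd.npos hij
  have habs1 : ∀ i j, i ≠ j → |(inner ℝ v (dir a i j) : ℝ)| ≤ 1 := by
    intro i j hij
    have h1 := abs_real_inner_le_norm v (dir a i j)
    rw [hv1, hd.norm_dir hij, mul_one] at h1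
    exact h1
  have hsub : ∀ i j, (inner ℝ w (a i) : ℝ) - inner ℝ w (a j) = inner ℝ w (a i - a j) :=
    fun i j => (inner_sub_right _ _ _).symm
  have hinn : ∀ i j, (inner ℝ w (a i - a j) : ℝ) =
      ‖a i - a j‖ * (ρ * inner ℝ v (dir a i j)) := by
    intro i j
    have h1 : (inner ℝ w (a i - a j) : ℝ) = inner ℝ w (‖a i - a j‖ • dir a i j) := by
      rw [norm_smul_dir]
    rw [h1, real_inner_smul_right, hw, real_inner_smul_left]
  -- value of t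
  have ht : ∀ i j, i ≠ j → ((inner ℝ w (a i) : ℝ) - inner ℝ w (a j)) / ‖a i - a j‖ =
      ρ * inner ℝ v (dir a i j) := by
    intro i j hij
    rw [hsub, hinn, mul_div_assoc, mul_comm, div_mul_cancel₀ _ (hne i j hij).ne']
  have hs : ∀ i j, i ≠ j → |(inner ℝ w (a i) : ℝ) - inner ℝ w (a j)| < ‖a i - a j‖ := by
    intro i j hij
    have h1 : |((inner ℝ w (a i) : ℝ) - inner ℝ w (a j)) / ‖a i - a j‖| < 1 := by
      rw [ht i j hij, abs_mul, abs_of_nonneg hρ0]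
      have h2 := habs1 i j hij
      calc ρ * |(inner ℝ v (dir a i j) : ℝ)| ≤ ρ * 1 := mul_le_mul_of_nonneg_left h2 hρ0
        _ < 1 := by linarith
    rwa [abs_div, abs_of_pos (hne i j hij), div_lt_one (hne i j hij)] at h1
  refine hk.bad (fun i => (inner ℝ w (a i) : ℝ)) hs ?_
  have heq : Rk a k (fun i => (inner ℝ w (a i) : ℝ)) =
      fun i j => (1 - 0) * ‖a i - a j‖ ^ 2 - α * (inner ℝ w (a i - a j) : ℝ) ^ 2 -
        ff a v e i j := by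
    funext i j
    unfold Rk
    by_cases hij : i = j
    · subst hij
      have h1 : ff a v e i i = 0 := by
        unfold ff
        rw [sub_self, norm_zero]
        split_ifs <;> ring
      rw [h1, sub_self (a i), norm_zero, inner_zero_right]
      norm_num
    · have hd0 := hne i j hij
      have htt := ht i j hij
      obtain ⟨t, htd⟩ : ∃ t, t = ((inner ℝ w (a i) : ℝ) - inner ℝ w (a j)) / ‖a i - a j‖ :=
        ⟨_, rfl⟩
      rw [← htd] at htt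
      have hdt : (inner ℝ w (a i - a j) : ℝ) = ‖a i - a j‖ * t := by
        rw [hinn, htt]
      simp only
      rw [← htd, hdt]
      unfold ff
      by_cases hcr : dir a i j = v ∨ dir a i j = -v
      · rw [if_pos hcr]
        have hvv : (inner ℝ v v : ℝ) = 1 := by
          rw [real_inner_self_eq_norm_sq, hv1]
          norm_num
        have h4 : t ^ 2 = ρ ^ 2 ∧ k t = k ρ := by
          rcases hcr with h5 | h5
          · rw [htt, h5, hvv, mul_one]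
            exact ⟨rfl, rfl⟩
          · rw [htt, h5, inner_neg_right, hvv, mul_neg, mul_one]
            exact ⟨neg_sq ρ, hk.even ρ⟩
        have h5 : k t = α * t ^ 2 + e := by
          rw [h4.2, h4.1, he]
          ring
        rw [h5]
        ring
      · rw [if_neg hcr]
        rw [not_or] at hcr
        have h2 : |t| ≤ ρ₁ := by
          rw [htt, abs_mul, abs_of_nonneg hρ0]
          have h3 := hc i0 j0 i j hp hij (by rw [← hv]; exact hcr.1) (by rw [← hv]; exact hcr.2)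
          rw [← hv] at h3
          calc ρ * |(inner ℝ v (dir a i j) : ℝ)| ≤ ρ * c := mul_le_mul_of_nonneg_left h3 hρ0
            _ = c * ρ := mul_comm _ _
            _ ≤ ρ₁ := hcρ
        rw [hin t h2]
        ring
  rw [heq]
  refine hpd 0 α w ?_ (ff a v e) (ff_symm a v e) ?_ ?_
  · intro z
    have h1 : (inner ℝ w z : ℝ) ^ 2 ≤ ρ ^ 2 * ‖z‖ ^ 2 := by
      have h0 := abs_real_inner_le_norm w z
      rw [hwn] at h0
      rw [← sq_abs, ← mul_pow]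
      exact pow_le_pow_left₀ (abs_nonneg _) h0 2
    have h3 : α * (inner ℝ w z : ℝ) ^ 2 ≤ α * (ρ ^ 2 * ‖z‖ ^ 2) :=
      mul_le_mul_of_nonneg_left h1 hα
    have h4 : α * ρ ^ 2 * ‖z‖ ^ 2 ≤ (1 - m) * ‖z‖ ^ 2 :=
      mul_le_mul_of_nonneg_right hαρ (sq_nonneg _)
    nlinarith
  · intro i j
    refine (ff_abs a v e i j).trans (le_trans ?_ hη)
    refine mul_le_mul_of_nonneg_left ?_ (abs_nonneg e)
    have h1 : ‖a i - a j‖ ^ 2 ≤ ∑ j, ‖a i - a j‖ ^ 2 :=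
      Finset.single_le_sum (f := fun j => ‖a i - a j‖ ^ 2) (fun j _ => sq_nonneg _)
        (Finset.mem_univ j)
    refine h1.trans (Finset.single_le_sum (f := fun i => ∑ j, ‖a i - a j‖ ^ 2)
      (fun i _ => Finset.sum_nonneg fun j _ => sq_nonneg _) (Finset.mem_univ i))
  · rw [ff_sum, hv]
    exact (mul_le_mul_of_nonneg_left (ff_sq_sum a _ e) hC.le).trans_lt hpos

theorem extend_aux {ι : Type} [Fintype ι] {n : ℕ} {a : ι → E n} {μ : ι → ℝ} (hd : Dep a μ)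
    {k : ℝ → ℝ} (hk : Bad a k) (ρ₀ α : ℝ) (h0 : 0 < ρ₀) (h1 : ρ₀ < 1)
    (h : ∀ y, |y| ≤ ρ₀ → k y = α * y ^ 2) : ∀ y, |y| < 1 → k y = α * y ^ 2 := by
  by_contra hcon
  rw [not_forall] at hcon
  obtain ⟨y0, hy0⟩ := hcon
  rw [Classical.not_imp] at hy0
  obtain ⟨hy0a, hy0b⟩ := hy0
  obtain ⟨y1, hy1⟩ : ∃ y1, y1 = |y0| := ⟨_, rfl⟩
  have hy1n : 0 ≤ y1 := by rw [hy1]; exact abs_nonneg _
  have hy1l : y1 < 1 := by rw [hy1]; exact hy0a
  have hky1 : k y1 ≠ α * y1 ^ 2 := by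
    rw [hy1, sq_abs]
    rcases abs_choice y0 with h2 | h2
    · rw [h2]
      exact hy0b
    · rw [h2, hk.even]
      exact hy0b
  obtain ⟨S, hS⟩ : ∃ S : Set ℝ, S = {ρ | ρ < 1 ∧ ∀ y, |y| ≤ ρ → k y = α * y ^ 2} := ⟨_, rfl⟩
  have hρS : ρ₀ ∈ S := by
    rw [hS]
    exact ⟨h1, h⟩
  have hub : ∀ ρ ∈ S, ρ ≤ y1 := by
    intro ρ hρ
    rw [hS] at hρ
    by_contra hlt
    exact hky1 (hρ.2 y1 (by rw [abs_of_nonneg hy1n]; exact (not_le.1 hlt).le))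
  have hbdd : BddAbove S := ⟨y1, hub⟩
  obtain ⟨ρ₁, hρ₁⟩ : ∃ ρ₁, ρ₁ = sSup S := ⟨_, rfl⟩
  have hρ1le : ρ₁ ≤ y1 := by
    rw [hρ₁]
    exact csSup_le ⟨ρ₀, hρS⟩ hub
  have hρ1ge : ρ₀ ≤ ρ₁ := by
    rw [hρ₁]
    exact le_csSup hbdd hρS
  have hρ1pos : 0 < ρ₁ := h0.trans_le hρ1ge
  have hρ1lt : ρ₁ < 1 := hρ1le.trans_lt hy1l
  have hlt : ∀ y, |y| < ρ₁ → k y = α * y ^ 2 := by
    intro y hy
    rw [hρ₁] at hy
    obtain ⟨ρ, hρ, hyρ⟩ := exists_lt_of_lt_csSup ⟨ρ₀, hρS⟩ hy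
    rw [hS] at hρ
    exact hρ.2 y hyρ.le
  have hcont1 : ContinuousAt k ρ₁ :=
    hk.cont.continuousAt (Ioo_mem_nhds (by linarith) hρ1lt)
  have hgc : ContinuousAt (fun y => k y - α * y ^ 2) ρ₁ :=
    hcont1.sub (continuousAt_const.mul (continuousAt_id.pow 2))
  have hg0 : k ρ₁ - α * ρ₁ ^ 2 = 0 := by
    have ht1 : Tendsto (fun y => k y - α * y ^ 2) (𝓝[<] ρ₁) (𝓝 (k ρ₁ - α * ρ₁ ^ 2)) :=
      hgc.tendsto.mono_left nhdsWithin_le_nhds
    have ht2 : Tendsto (fun y => k y - α * y ^ 2) (𝓝[<] ρ₁) (𝓝 0) := by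
      refine tendsto_const_nhds.congr' ?_
      filter_upwards [Ioo_mem_nhdsLT hρ1pos] with y hy
      rw [hlt y (by rw [abs_of_pos hy.1]; exact hy.2), sub_self]
    exact tendsto_nhds_unique ht1 ht2
  have hin : ∀ y, |y| ≤ ρ₁ → k y = α * y ^ 2 := by
    intro y hy
    rcases lt_or_eq_of_le hy with h2 | h2
    · exact hlt y h2
    · rcases abs_choice y with h3 | h3
      · rw [h3] at h2
        rw [h2]
        linarith
      · rw [h3] at h2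
        have h4 : y = -ρ₁ := by linarith
        rw [h4, hk.even, neg_sq]
        linarith
  -- frequently nonzero
  have hfreq : ∃ᶠ ρ in 𝓝[>] ρ₁, k ρ - α * ρ ^ 2 ≠ 0 := by
    intro hev
    have hev' : ∀ᶠ ρ in 𝓝[>] ρ₁, k ρ - α * ρ ^ 2 = 0 := by
      filter_upwards [hev] with ρ hρ
      exact not_not.1 hρ
    obtain ⟨r, hr, hsub⟩ := (mem_nhdsGT_iff_exists_Ioo_subset' hρ1lt).1 hev'
    obtain ⟨r', hr'⟩ : ∃ r', r' = min ((ρ₁ + r) / 2) ((ρ₁ + 1) / 2) := ⟨_, rfl⟩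
    have hr0 : ρ₁ < r := hr
    have hr1 : ρ₁ < r' := by
      rw [hr']
      exact lt_min (by linarith) (by linarith)
    have hr2 : r' < r := by
      rw [hr']
      exact (min_le_left _ _).trans_lt (by linarith)
    have hr3 : r' < 1 := by
      rw [hr']
      exact (min_le_right _ _).trans_lt (by linarith)
    have hmem : r' ∈ S := by
      rw [hS]
      refine ⟨hr3, fun y hy => ?_⟩
      by_cases hy2 : |y| ≤ ρ₁
      · exact hin y hy2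
      · have h5 : k |y| - α * |y| ^ 2 = 0 := hsub ⟨not_le.1 hy2, hy.trans_lt hr2⟩
        rw [sq_abs] at h5
        rcases abs_choice y with h3 | h3
        · rw [h3] at h5
          linarith
        · rw [h3, hk.even] at h5
          linarith
    have := le_csSup hbdd hmem
    rw [← hρ₁] at this
    linarith
  -- parameters
  have hk1 : k ρ₁ = α * ρ₁ ^ 2 := by linarith
  have habs : |ρ₁| < 1 := by rw [abs_of_pos hρ1pos]; exact hρ1lt
  have hα : 0 ≤ α := by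
    have h2 := hk.nonneg ρ₁ habs
    rw [hk1] at h2
    by_contra hneg
    have h3 : α * ρ₁ ^ 2 < 0 := mul_neg_of_neg_of_pos (not_le.1 hneg) (pow_pos hρ1pos 2)
    linarith
  have hα1 : α * ρ₁ ^ 2 < 1 := by
    rw [← hk1]
    exact hk.lt_one ρ₁ habs
  obtain ⟨c, hc0, hc1, hc⟩ := hd.inner_lt
  obtain ⟨m, hm⟩ : ∃ m, m = (1 - α * ρ₁ ^ 2) / 2 := ⟨_, rfl⟩
  have hmpos : 0 < m := by
    rw [hm]
    linarith
  obtain ⟨η, hη, C, hC, hpd⟩ := pd_lemma a μ hd m hmpos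
  obtain ⟨i, j, hij, hpos⟩ := hd.same
  obtain ⟨i', j', hij', hneg⟩ := hd.opp
  have hcp := hd.cls_pos hij hpos
  have hcn := hd.cls_neg hij' hneg
  obtain ⟨D, hD⟩ : ∃ D : ℝ, D = ∑ i, ∑ j, ‖a i - a j‖ ^ 2 := ⟨_, rfl⟩
  obtain ⟨E, hE⟩ : ∃ E : ℝ, E = ∑ i, ∑ j, ‖a i - a j‖ ^ 4 := ⟨_, rfl⟩
  obtain ⟨M, hM⟩ : ∃ M : ℝ, M = min (cls (wt a μ) (dr a) (dir a i j)) (-cls (wt a μ) (dr a) (dir a i' j')) := ⟨_, rfl⟩
  have hMpos : 0 < M := by
    rw [hM]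
    exact lt_min hcp (by linarith)
  have e1 : ∀ᶠ ρ in 𝓝 ρ₁, |k ρ - α * ρ ^ 2| * D < η := by
    have hcA : ContinuousAt (fun ρ => |k ρ - α * ρ ^ 2| * D) ρ₁ :=
      hgc.abs.mul continuousAt_const
    refine hcA.eventually_lt continuousAt_const ?_
    rw [hg0, abs_zero, zero_mul]
    exact hη
  have e2 : ∀ᶠ ρ in 𝓝 ρ₁, C * (|k ρ - α * ρ ^ 2| * E) < M := by
    have hcA : ContinuousAt (fun ρ => C * (|k ρ - α * ρ ^ 2| * E)) ρ₁ :=
      continuousAt_const.mul (hgc.abs.mul continuousAt_const)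
    refine hcA.eventually_lt continuousAt_const ?_
    rw [hg0, abs_zero, zero_mul, mul_zero]
    exact hMpos
  have e3 : ∀ᶠ ρ in 𝓝 ρ₁, c * ρ < ρ₁ := by
    have hcA : ContinuousAt (fun ρ => c * ρ) ρ₁ := continuousAt_const.mul continuousAt_id
    refine hcA.eventually_lt continuousAt_const ?_
    nlinarith
  have e4 : ∀ᶠ ρ in 𝓝 ρ₁, α * ρ ^ 2 < 1 - m := by
    have hcA : ContinuousAt (fun ρ => α * ρ ^ 2) ρ₁ :=
      continuousAt_const.mul (continuousAt_id.pow 2)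
    refine hcA.eventually_lt continuousAt_const ?_
    rw [hm]
    linarith
  have e5 : ∀ᶠ ρ in 𝓝 ρ₁, ρ < 1 := eventually_lt_nhds hρ1lt
  have e6 : ∀ᶠ ρ in 𝓝 ρ₁, 0 < ρ := eventually_gt_nhds hρ1pos
  obtain ⟨ρ, hne, ⟨f1, f2, f3⟩, f4, f5, f6⟩ := (hfreq.and_eventually
    (((e1.and (e2.and e3)).and (e4.and (e5.and e6))).filter_mono nhdsWithin_le_nhds)).exists
  have hηρ : |k ρ - α * ρ ^ 2| * (∑ i, ∑ j, ‖a i - a j‖ ^ 2) ≤ η := by
    rw [← hD]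
    exact f1.le
  have hbd : C * (|k ρ - α * ρ ^ 2| ^ 2 * E) < |k ρ - α * ρ ^ 2| * M := by
    have h7 : 0 < |k ρ - α * ρ ^ 2| := abs_pos.2 hne
    have h8 := mul_lt_mul_of_pos_left f2 h7
    have h9 : |k ρ - α * ρ ^ 2| * (C * (|k ρ - α * ρ ^ 2| * E)) =
      C * (|k ρ - α * ρ ^ 2| ^ 2 * E) := by ring
    rw [h9] at h8
    exact h8
  rcases lt_or_gt_of_ne hne with hlt0 | hgt0
  · refine step hd hk hα hin hc hpd hC f6.le f5 f3.le f4.le hηρ hij' ?_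
    rw [← hE]
    refine hbd.trans_le ?_
    rw [abs_of_neg hlt0]
    have h10 : M ≤ -cls (wt a μ) (dr a) (dir a i' j') := by
      rw [hM]
      exact min_le_right _ _
    nlinarith
  · refine step hd hk hα hin hc hpd hC f6.le f5 f3.le f4.le hηρ hij ?_
    rw [← hE]
    refine hbd.trans_le ?_
    rw [abs_of_pos hgt0]
    have h10 : M ≤ cls (wt a μ) (dr a) (dir a i j) := by
      rw [hM]
      exact min_le_left _ _
    nlinarith

end ExtendAux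

theorem extend {ι : Type} [Fintype ι] {n : ℕ} {a : ι → E n} {μ : ι → ℝ} (hd : Dep a μ)
    {k : ℝ → ℝ} (hk : Bad a k) (ρ α : ℝ) (hρ0 : 0 < ρ) (hρ1 : ρ < 1)
    (hα : ∀ y, |y| ≤ ρ → k y = α * y ^ 2) : ∀ y, |y| < 1 → k y = α * y ^ 2 :=
  ExtendAux.extend_aux hd hk ρ α hρ0 hρ1 hα

end P23D
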