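import Mathlib
import Pool.Agent.Lib.P23D.Defs

/-!
# Module P23D.Hilb : spaces with the parallelogram law

In an infinite dimensional inner product space there are `n` orthonormal vectors `e k`, and
`P i = ∑ k, (a i) k • e k` satisfies `‖P i - P j‖ = ‖a i - a j‖`.
-/

set_option autoImplicit false

namespace P23D

theorem exists_orthonormal {X : Type*} [NormedAddCommGroup X] [InnerProductSpace ℝ X]
    (hX : ¬ FiniteDimensional ℝ X) (n : ℕ) : ∃ e : Fin n → X, Orthonormal ℝ e := by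
  let b := Module.Basis.ofVectorSpace ℝ X
  have hinf : Infinite (Module.Basis.ofVectorSpaceIndex ℝ X) := by
    by_contra hc
    rw [not_infinite_iff_finite] at hc
    exact hX (Module.Finite.of_basis b)
  let g : ℕ ↪ Module.Basis.ofVectorSpaceIndex ℝ X := Infinite.natEmbedding _
  have hli : LinearIndependent ℝ (fun k : Fin n => b (g k)) :=
    b.linearIndependent.comp (fun k : Fin n => g k) (by
      intro i j hij
      exact Fin.ext (g.injective hij))
  exact ⟨_, InnerProductSpace.gramSchmidtNormed_orthonormal hli⟩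

theorem hilbert_embed_aux {X : Type*} [NormedAddCommGroup X] [InnerProductSpace ℝ X]
    (hX : ¬ FiniteDimensional ℝ X) {ι : Type} {n : ℕ} (a : ι → E n) :
    ∃ P : ι → X, ∀ i j, ‖P i - P j‖ = ‖a i - a j‖ := by
  obtain ⟨e, he⟩ := exists_orthonormal hX n
  refine ⟨fun i => ∑ k, (a i) k • e k, ?_⟩
  intro i j
  have h0 : (∑ k, (a i) k • e k) - ∑ k, (a j) k • e k = ∑ k, (a i - a j) k • e k := by
    rw [← Finset.sum_sub_distrib]
    refine Finset.sum_congr rfl fun k _ => ?_
    rw [PiLp.sub_apply, sub_smul]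
  have h1 : ‖∑ k, (a i - a j) k • e k‖ ^ 2 = ‖a i - a j‖ ^ 2 := by
    rw [← real_inner_self_eq_norm_sq, he.inner_sum, EuclideanSpace.real_norm_sq_eq]
    refine Finset.sum_congr rfl fun k _ => ?_
    simp [sq]
  show ‖(∑ k, (a i) k • e k) - ∑ k, (a j) k • e k‖ = _
  rw [h0]
  exact (pow_left_inj₀ (norm_nonneg _) (norm_nonneg _) two_ne_zero).1 h1

theorem hilbert_embed {X : Type*} [NormedAddCommGroup X] [NormedSpace ℝ X]
    (hX : ¬ FiniteDimensional ℝ X)
    (hp : ∀ x y : X, ‖x + y‖ ^ 2 + ‖x - y‖ ^ 2 = 2 * (‖x‖ ^ 2 + ‖y‖ ^ 2)) {ι : Type} {n : ℕ}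
    (a : ι → E n) :
    ∃ P : ι → X, ∀ i j, ‖P i - P j‖ = ‖a i - a j‖ := by
  let _ : InnerProductSpace ℝ X := InnerProductSpace.ofNorm (𝕜 := ℝ) (by
    intro x y
    have := hp x y
    nlinarith)
  exact hilbert_embed_aux hX a

end P23D
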