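import Mathlib
import Pool.Agent.Lib.P23D.Pairs
import Pool.Agent.Lib.P23D.Solv

/-!
# Module P23D.Indep : the first order effect of a displacement

PROOF.  Let `i₀ = f 0` with `f` from `Dep.supp`, `η = Pi.single i₀ 1`.  For `l ≥ 2`, with
`d j = ‖a i₀ - a j‖ > 0` (`j ≠ i₀`, `Dep.inj`),
`VV a μ η l w = 2 μ i₀ ∑_{j ≠ i₀} μ j d j^(2 - 2 l) ⟪w, a i₀ - a j⟫^(2 l - 1)`:
only the ordered pairs `(i₀, j)` and `(j, i₀)` have `ee ≠ 0`; both give the same value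
(`wt * ee = μ i₀ μ j d²·(± 1 / d)`, `dr = ± (a i₀ - a j)/d`, the exponent `2 l - 1` is odd).
(1) For every `y : ι → ℝ` with `∑ y j = 0`, `y i₀ = 0` and `y j = 0` whenever `μ j = 0`, there is `w`
with `μ j ⟪w, a i₀ - a j⟫ = y j` for all `j`: `solv` for the vectors `b j = a i₀ - a j` and the
numbers `x j = y j / μ j` (`0` if `μ j = 0`): if `∑ c j • (a i₀ - a j) = 0` let
`e j = c j` for `j ≠ i₀`, `e i₀ = -∑_{j ≠ i₀} c j`; `∑ e = 0`, `∑ e • a = 0`, so `e = t μ` and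
`∑ c j x j = ∑_{j ≠ i₀} t μ j x j = t ∑ y j = 0`.
(2) For such `w`: `VV a μ η l w = 2 μ i₀ ∑_{j ≠ i₀, μ j ≠ 0} g j * y j ^ (2 l - 1)`,
`g j = (|μ j| d j)^(-(2 l - 2)) > 0` (as `μ j * (y j/μ j)^(2l-1) = y j^(2l-1) / μ j^(2l-2)`).
Suppose it is `0` for all `w`.  Let `j₁, j₂, j₃` be three distinct indices `≠ i₀` with `μ ≠ 0`
(`Dep.supp`).  `y = e j₁ - e j₂` gives `g j₁ = g j₂`, similarly `g j₁ = g j₃ = g`.
`y = e j₁ + e j₂ - 2 e j₃` gives `g (2 - 2^(2 l - 1)) = 0`, impossible for `l ≥ 2`.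
-/

set_option autoImplicit false

namespace P23D

namespace IndepAux

theorem sum3 {ι : Type} [Fintype ι] {i j k : ι} (hij : i ≠ j) (hik : i ≠ k) (hjk : j ≠ k)
    (G : ι → ℝ) (hG : ∀ x, x ≠ i → x ≠ j → x ≠ k → G x = 0) : ∑ x, G x = G i + G j + G k := by
  classical
  rw [← Finset.sum_subset (Finset.subset_univ {i, j, k})]
  · rw [Finset.sum_insert (by simp [hij, hik]), Finset.sum_insert (by simp [hjk]),
      Finset.sum_singleton, add_assoc]
  · intro x _ hx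
    simp only [Finset.mem_insert, Finset.mem_singleton, not_or] at hx
    exact hG x hx.1 hx.2.1 hx.2.2

theorem VV_eq {ι : Type} [Fintype ι] [DecidableEq ι] {n : ℕ} (a : ι → E n) (μ : ι → ℝ) (i₀ : ι)
    (l : ℕ) (hl : 2 ≤ l) (w : E n) :
    VV a μ (Pi.single i₀ 1) l w = 2 * μ i₀ * ∑ j, μ j * ‖a i₀ - a j‖ *
      ((inner ℝ w (a i₀ - a j) : ℝ) / ‖a i₀ - a j‖) ^ (2 * l - 1) := by
  set η : ι → ℝ := Pi.single i₀ 1 with hη
  have hodd : Odd (2 * l - 1) := ⟨l - 1, by omega⟩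
  set T : ι → ι → ℝ := fun i j => μ i * μ j * ‖a i - a j‖ *
      ((inner ℝ w (a i - a j) : ℝ) / ‖a i - a j‖) ^ (2 * l - 1) with hT
  have hTs : ∀ i j, T i j = -T j i := by
    intro i j
    simp only [hT]
    have e1 : (inner ℝ w (a j - a i) : ℝ) = -inner ℝ w (a i - a j) := by
      rw [← inner_neg_right, neg_sub]
    rw [e1, norm_sub_rev (a j) (a i), neg_div, hodd.neg_pow]
    ring
  have e1 : VV a μ η l w = ∑ i, ∑ j, (η i - η j) * T i j := by
    unfold VV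
    rw [Fintype.sum_prod_type]
    refine Finset.sum_congr rfl fun i _ => Finset.sum_congr rfl fun j _ => ?_
    simp only [hT, wt, ee, dr, dir]
    rw [real_inner_smul_right]
    by_cases h : ‖a i - a j‖ = 0
    · rw [h]
      simp
    · field_simp
  have e2 : ∑ i, ∑ j, (η i - η j) * T i j = 2 * ∑ i, ∑ j, η i * T i j := by
    have e3 : ∑ i, ∑ j, η j * T i j = -∑ i, ∑ j, η i * T i j := by
      rw [Finset.sum_comm, ← Finset.sum_neg_distrib]
      refine Finset.sum_congr rfl fun i _ => ?_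
      rw [← Finset.sum_neg_distrib]
      refine Finset.sum_congr rfl fun j _ => ?_
      rw [hTs j i]
      ring
    simp_rw [sub_mul, Finset.sum_sub_distrib]
    rw [e3]
    ring
  rw [e1, e2, Finset.sum_eq_single i₀]
  · have e4 : ∀ j, η i₀ * T i₀ j = μ i₀ * (μ j * ‖a i₀ - a j‖ *
        ((inner ℝ w (a i₀ - a j) : ℝ) / ‖a i₀ - a j‖) ^ (2 * l - 1)) := by
      intro j
      simp only [hη, Pi.single_eq_same, hT]
      ring
    simp_rw [e4]
    rw [← Finset.mul_sum]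
    ring
  · intro i _ hi
    simp [hη, hi]
  · simp

theorem exists_w {ι : Type} [Fintype ι] {n : ℕ} {a : ι → E n} {μ : ι → ℝ} (h : Dep a μ)
    (i₀ j₁ j₂ j₃ : ι) (h1 : i₀ ≠ j₁) (h2 : i₀ ≠ j₂) (h3 : i₀ ≠ j₃) (h12 : j₁ ≠ j₂) (h13 : j₁ ≠ j₃)
    (h23 : j₂ ≠ j₃) (m1 : μ j₁ ≠ 0) (m2 : μ j₂ ≠ 0) (m3 : μ j₃ ≠ 0) (s t r : ℝ)
    (hstr : s + t + r = 0) :
    ∃ w : E n, inner ℝ w (a i₀ - a j₁) = s / μ j₁ ∧ inner ℝ w (a i₀ - a j₂) = t / μ j₂ ∧
      inner ℝ w (a i₀ - a j₃) = r / μ j₃ ∧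
      ∀ j, j ≠ j₁ → j ≠ j₂ → j ≠ j₃ → inner ℝ w (a i₀ - a j) = (0 : ℝ) := by
  classical
  set x : ι → ℝ := fun j => if j = j₁ then s / μ j₁ else if j = j₂ then t / μ j₂ else
    if j = j₃ then r / μ j₃ else 0 with hx
  have hx1 : x j₁ = s / μ j₁ := by simp [hx]
  have hx2 : x j₂ = t / μ j₂ := by simp [hx, h12.symm]
  have hx3 : x j₃ = r / μ j₃ := by simp [hx, h13.symm, h23.symm]
  have hx0 : ∀ j, j ≠ j₁ → j ≠ j₂ → j ≠ j₃ → x j = 0 := by
    intro j e1 e2 e3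
    simp [hx, e1, e2, e3]
  obtain ⟨w, hw⟩ := solv (fun j => a i₀ - a j) x (by
    intro c hc
    set e : ι → ℝ := fun j => (if j = i₀ then ∑ k, c k else 0) - c j with he
    obtain ⟨τ, hτ⟩ := h.ker e (by
      simp only [he]
      rw [Finset.sum_sub_distrib]
      simp) (by
      simp only [he, sub_smul]
      rw [Finset.sum_sub_distrib]
      simp only [ite_smul, zero_smul, Finset.sum_ite_eq', Finset.mem_univ, if_true]
      rw [← hc]
      simp only [smul_sub]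
      rw [Finset.sum_sub_distrib, Finset.sum_smul])
    have hcj : ∀ j, j ≠ i₀ → c j = -(τ * μ j) := by
      intro j hj
      have := hτ j
      simp only [he, if_neg hj] at this
      linarith
    rw [sum3 h12 h13 h23 (fun k => c k * x k) (fun j e1 e2 e3 => by rw [hx0 j e1 e2 e3, mul_zero]),
      hx1, hx2, hx3, hcj _ h1.symm, hcj _ h2.symm, hcj _ h3.symm]
    field_simp
    linear_combination (-τ) * hstr)
  refine ⟨w, ?_, ?_, ?_, ?_⟩
  · rw [hw, hx1]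
  · rw [hw, hx2]
  · rw [hw, hx3]
  · intro j e1 e2 e3
    rw [hw, hx0 j e1 e2 e3]

end IndepAux

open IndepAux

theorem exists_eta {ι : Type} [Fintype ι] {n : ℕ} {a : ι → E n} {μ : ι → ℝ} (h : Dep a μ) :
    ∃ η : ι → ℝ, ∀ l : ℕ, 2 ≤ l → ∃ w : E n, VV a μ η l w ≠ 0 := by
  classical
  obtain ⟨f, hf, hne⟩ := h.supp
  have hd : ∀ x y : Fin 4, x ≠ y → f x ≠ f y := fun x y hxy => hf.ne hxy
  refine ⟨Pi.single (f 0) 1, fun l hl => ?_⟩
  by_contra hno
  push Not at hno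
  set g : Fin 4 → ℝ := fun k => ((μ (f k) * ‖a (f 0) - a (f k)‖) ^ (2 * l - 2))⁻¹ with hg
  have heven : Even (2 * l - 2) := ⟨l - 1, by omega⟩
  have hgpos : ∀ k, k ≠ 0 → 0 < g k := by
    intro k hk
    simp only [hg]
    rw [inv_pos]
    exact heven.pow_pos (mul_ne_zero (hne k) (h.npos (hd 0 k hk.symm)).ne')
  have key : ∀ s t r : ℝ, s + t + r = 0 →
      s ^ (2 * l - 1) * g 1 + t ^ (2 * l - 1) * g 2 + r ^ (2 * l - 1) * g 3 = 0 := by
    intro s t r hstr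
    obtain ⟨w, hw1, hw2, hw3, hw0⟩ := exists_w h (f 0) (f 1) (f 2) (f 3) (hd _ _ (by decide))
      (hd _ _ (by decide)) (hd _ _ (by decide)) (hd _ _ (by decide)) (hd _ _ (by decide))
      (hd _ _ (by decide)) (hne 1) (hne 2) (hne 3) s t r hstr
    have h1 := hno w
    have hm : 2 * l - 1 = (2 * l - 2) + 1 := by omega
    rw [VV_eq a μ (f 0) l hl w, sum3 (hd 1 2 (by decide)) (hd 1 3 (by decide)) (hd 2 3 (by decide))
      _ (fun j e1 e2 e3 => by
        rw [hw0 j e1 e2 e3, zero_div, zero_pow (by omega), mul_zero]), hw1, hw2, hw3] at h1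
    have h2 : (2 * μ (f 0)) ≠ 0 := mul_ne_zero two_ne_zero (hne 0)
    have h3 := (mul_eq_zero.1 h1).resolve_left h2
    have key1 : ∀ (k : Fin 4) (x : ℝ), k ≠ 0 → μ (f k) * ‖a (f 0) - a (f k)‖ *
        (x / μ (f k) / ‖a (f 0) - a (f k)‖) ^ (2 * l - 1) = x ^ (2 * l - 1) * g k := by
      intro k x hk
      have hn := (h.npos (hd 0 k hk.symm)).ne'
      have hμ := hne k
      simp only [hg]
      rw [div_div, div_pow, hm, pow_succ (μ (f k) * ‖a (f 0) - a (f k)‖)]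
      field_simp
    rw [key1 1 s (by decide), key1 2 t (by decide), key1 3 r (by decide)] at h3
    exact h3
  have hodd : Odd (2 * l - 1) := ⟨l - 1, by omega⟩
  have hz : (0 : ℝ) ^ (2 * l - 1) = 0 := zero_pow (by omega)
  have k1 := key 1 (-1) 0 (by norm_num)
  have k2 := key 1 0 (-1) (by norm_num)
  have k3 := key 1 1 (-2) (by norm_num)
  rw [one_pow, hodd.neg_pow, one_pow, hz] at k1 k2
  rw [one_pow, hodd.neg_pow] at k3
  have h8 : (8 : ℝ) ≤ 2 ^ (2 * l - 1) := by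
    calc (8 : ℝ) = 2 ^ 3 := by norm_num
      _ ≤ 2 ^ (2 * l - 1) := pow_le_pow_right₀ (by norm_num) (by omega)
  have hg1 := hgpos 1 (by decide)
  have e1 : g 2 = g 1 := by linarith
  have e2 : g 3 = g 1 := by linarith
  rw [e1, e2] at k3
  nlinarith

end P23D
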