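import Mathlib
import Pool.Agent.Lib.P23D.PDlem
import Pool.Agent.Lib.P23D.Pairs

/-!
# Module P23D.NearI : the inequality for displaced points

PROOF.  `pd_lemma` with `m = 1/2` gives `η₀`, `C₀`.  Let `K` bound `|ee a η p|`, `|η p.1 - η p.2|` and
`‖a p.1 - a p.2‖` for all `p` (`K ≥ 1`).  For `‖w‖ ≤ 1/2` and `|τ| ≤ τ₁ := 1/(2 K)`:
`y p := ⟪w, dr a p⟫ + τ ee a η p` has `|y p| ≤ 1` for all `p` (`‖dr a p‖ ≤ 1`).  For `p.1 ≠ p.2`,
`d = ‖a p.1 - a p.2‖`, `d y p = ⟪w, a p.1 - a p.2⟫ + τ (η p.1 - η p.2)`.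
Let `s i = ρ (⟪w, a i⟫ + τ η i)`, so `|s i - s j| = ρ d |y (i, j)| < d` for `i ≠ j`, and
`hk.bad s _ : ¬ Pos (Rk a k s)`.  With `g t = hh k ρ t - b 0 - b 1 t²`
(`hh k ρ t = k (ρ t)` for `|t| ≤ 1`)
`Rk a k s i j = d² (1 - g(y) - b 0 - b 1 y²) = (1 - b 0) d² - b 1 ⟪w, a i - a j⟫² - F i j`,
`F i j = b 1 (2 τ ⟪w, a i - a j⟫ (η i - η j) + τ² (η i - η j)²) + d² g(y (i, j))`
(for `i = j` both sides are `0`).  `F` is symmetric (`g` even), and `|F i j| ≤ η₀` if `ε₁` is small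
(`|g t| ≤ ε` hypothesis plus the terms `b l`, `l ∈ Icc 2 D`, for `|t| ≤ 1`: here directly the
hypothesis `|g t| ≤ ε₁`).  `|b 0|, |b 1| ≤ 1/4` gives the hypothesis of `pd_lemma` (`‖w‖ ≤ 1`).  So
`∑ μ i μ j F i j ≤ C₀ ∑ (F i j)²`.
Left side: `∑ μ i μ j ⟪w, a i - a j⟫ (η i - η j) = 0` and `∑ μ i μ j (η i - η j)² = -2 (∑ μ i η i)²`
(expand, `∑ μ = 0`, `∑ μ • a = 0`), so it equals
`-2 b 1 τ² (∑ μ i η i)² + ∑_p wt p g(y p)`.  Right side:
`(F i j)² ≤ 2 b 1² τ² (2 K² + K²)² + 2 d⁴ g²` (`|τ| ≤ 1`, `‖w‖ ≤ 1`, `b 1² ≤ |b 1|`).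
-/

set_option autoImplicit false

open MeasureTheory

namespace P23D

theorem hh_eq (k : ℝ → ℝ) (ρ t : ℝ) (ht : |t| ≤ 1) : hh k ρ t = k (ρ * t) := by
  have h := abs_le.1 ht
  unfold hh
  rw [min_eq_right h.2, max_eq_right h.1]

namespace NearIAux

theorem bil_sum {ι : Type} [Fintype ι] (μ x η : ι → ℝ) (h : ∑ i, μ i = 0) :
    ∑ i, ∑ j, μ i * μ j * ((x i - x j) * (η i - η j)) =
      -2 * (∑ i, μ i * x i) * ∑ i, μ i * η i := by
  have e : ∀ i j, μ i * μ j * ((x i - x j) * (η i - η j)) =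
      (μ i * x i * η i) * μ j + μ i * (μ j * x j * η j) - (μ i * x i) * (μ j * η j) -
        (μ i * η i) * (μ j * x j) := fun i j => by ring
  simp_rw [e, Finset.sum_sub_distrib, Finset.sum_add_distrib, ← Finset.mul_sum,
    ← Finset.sum_mul, h]
  ring

end NearIAux

open NearIAux

theorem near_ineq {ι : Type} [Fintype ι] {n : ℕ} {a : ι → E n} {μ : ι → ℝ} (hd : Dep a μ)
    (η : ι → ℝ) :
    ∃ ε₁ > 0, ∃ τ₁ > 0, ∃ C > 0, τ₁ ≤ 1 ∧ (∀ p : ι × ι, τ₁ * |ee a η p| ≤ 1 / 2) ∧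
      ∀ k : ℝ → ℝ, Bad a k → ∀ ρ : ℝ, 0 < ρ → ρ < 1 → ∀ b0 b1 : ℝ, |b0| ≤ ε₁ → |b1| ≤ ε₁ →
      (∀ t, |t| ≤ 1 → |hh k ρ t - b0 - b1 * t ^ 2| ≤ ε₁) →
      ∀ w : E n, ‖w‖ ≤ 1 / 2 → ∀ τ : ℝ, |τ| ≤ τ₁ →
        ∑ p : ι × ι, wt a μ p * (hh k ρ (inner ℝ w (dr a p) + τ * ee a η p) - b0 -
            b1 * (inner ℝ w (dr a p) + τ * ee a η p) ^ 2) ≤
          C * (|b1| * τ ^ 2 + ∑ p : ι × ι, ‖a p.1 - a p.2‖ ^ 4 *
            (hh k ρ (inner ℝ w (dr a p) + τ * ee a η p) - b0 -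
              b1 * (inner ℝ w (dr a p) + τ * ee a η p) ^ 2) ^ 2) := by
  obtain ⟨η₀, hη₀, C₀, hC₀, hpd⟩ := pd_lemma a μ hd (1 / 2) (by norm_num)
  set K : ℝ := 1 + ∑ p : ι × ι, (|ee a η p| + |η p.1 - η p.2| + ‖a p.1 - a p.2‖) with hK
  have hKp : ∀ p : ι × ι, |ee a η p| + |η p.1 - η p.2| + ‖a p.1 - a p.2‖ ≤ K := by
    intro p
    have h1 : |ee a η p| + |η p.1 - η p.2| + ‖a p.1 - a p.2‖ ≤
        ∑ p : ι × ι, (|ee a η p| + |η p.1 - η p.2| + ‖a p.1 - a p.2‖) :=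
      Finset.single_le_sum (f := fun p : ι × ι =>
        |ee a η p| + |η p.1 - η p.2| + ‖a p.1 - a p.2‖) (fun p _ => by positivity)
        (Finset.mem_univ p)
    rw [hK]
    linarith
  have hK1 : 1 ≤ K := by
    rw [hK]
    have : 0 ≤ ∑ p : ι × ι, (|ee a η p| + |η p.1 - η p.2| + ‖a p.1 - a p.2‖) :=
      Finset.sum_nonneg fun p _ => by positivity
    linarith
  have hKe : ∀ p : ι × ι, |ee a η p| ≤ K := fun p => by
    have := hKp p
    linarith [abs_nonneg (η p.1 - η p.2), norm_nonneg (a p.1 - a p.2)]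
  have hKη : ∀ i j : ι, |η i - η j| ≤ K := fun i j => by
    have := hKp (i, j)
    simp only at this
    linarith [abs_nonneg (ee a η (i, j)), norm_nonneg (a i - a j)]
  have hKd : ∀ i j : ι, ‖a i - a j‖ ≤ K := fun i j => by
    have := hKp (i, j)
    simp only at this
    linarith [abs_nonneg (ee a η (i, j)), abs_nonneg (η i - η j)]
  set M : ℝ := (∑ i, μ i * η i) ^ 2 with hM
  have hM0 : 0 ≤ M := sq_nonneg _
  set cd : ℝ := (Fintype.card (ι × ι) : ℝ) with hcd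
  have hcd0 : 0 ≤ cd := Nat.cast_nonneg _
  refine ⟨min (1 / 4) (η₀ / (3 * K ^ 2)), by positivity, 1 / (2 * K), by positivity,
    C₀ * (8 * K ^ 4 * cd + 2) + 2 * M + 1, by positivity, ?_, ?_, ?_⟩
  · rw [div_le_one (by positivity)]
    linarith
  · intro p
    rw [div_mul_eq_mul_div, one_mul, div_le_iff₀ (by positivity)]
    linarith [hKe p]
  · intro k hk ρ hρ0 hρ1 b0 b1 hb0 hb1 hg w hw τ hτ
    have hb0' : |b0| ≤ 1 / 4 := hb0.trans (min_le_left _ _)
    have hb1' : |b1| ≤ 1 / 4 := hb1.trans (min_le_left _ _)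
    have hb1'' : |b1| ≤ η₀ / (3 * K ^ 2) := hb1.trans (min_le_right _ _)
    have hτ1 : |τ| ≤ 1 := hτ.trans (by rw [div_le_one (by positivity)]; linarith)
    have hτ2 : τ ^ 2 ≤ |τ| := by
      rw [← sq_abs]
      nlinarith [abs_nonneg τ]
    set g : ℝ → ℝ := fun t => hh k ρ t - b0 - b1 * t ^ 2 with hgdef
    set y : ι × ι → ℝ := fun p => inner ℝ w (dr a p) + τ * ee a η p with hy
    have hw1 : ‖w‖ ≤ 1 := hw.trans (by norm_num)
    have hdr : ∀ p : ι × ι, ‖dr a p‖ ≤ 1 := by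
      intro p
      by_cases h : p.1 = p.2
      · unfold dr dir
        rw [h]
        simp
      · exact (hd.norm_dir h).le
    have hy1 : ∀ p, |y p| ≤ 1 := by
      intro p
      have h1 : |(inner ℝ w (dr a p) : ℝ)| ≤ 1 / 2 := by
        refine (abs_real_inner_le_norm _ _).trans ?_
        calc ‖w‖ * ‖dr a p‖ ≤ 1 / 2 * 1 :=
              mul_le_mul hw (hdr p) (norm_nonneg _) (by norm_num)
          _ = 1 / 2 := by norm_num
      have h2 : |τ * ee a η p| ≤ 1 / 2 := by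
        rw [abs_mul]
        calc |τ| * |ee a η p| ≤ 1 / (2 * K) * K :=
              mul_le_mul hτ (hKe p) (abs_nonneg _) (by positivity)
          _ = 1 / 2 := by field_simp
      exact (abs_add_le _ _).trans (by linarith)
    set s : ι → ℝ := fun i => ρ * (inner ℝ w (a i) + τ * η i) with hs
    have hsy : ∀ i j, (s i - s j) / ‖a i - a j‖ = ρ * y (i, j) := by
      intro i j
      simp only [hs, hy, dr, dir, ee]
      rw [real_inner_smul_right, inner_sub_right]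
      ring
    have hdy : ∀ i j, i ≠ j → ‖a i - a j‖ * y (i, j) =
        inner ℝ w (a i - a j) + τ * (η i - η j) := by
      intro i j hij
      have h1 := (hd.npos hij).ne'
      simp only [hy, dr, dir, ee]
      rw [real_inner_smul_right]
      field_simp
    have hsd : ∀ i j, i ≠ j → |s i - s j| < ‖a i - a j‖ := by
      intro i j hij
      have h1 := hd.npos hij
      have h2 : s i - s j = ‖a i - a j‖ * (ρ * y (i, j)) := by
        rw [← hsy, mul_div_cancel₀ _ h1.ne']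
      rw [h2, abs_mul, abs_of_pos h1, abs_mul, abs_of_pos hρ0]
      have h3 := hy1 (i, j)
      have h4 : ρ * |y (i, j)| < 1 := by nlinarith [abs_nonneg (y (i, j))]
      nlinarith
    set F : ι → ι → ℝ := fun i j => b1 * (2 * τ * inner ℝ w (a i - a j) * (η i - η j) +
      τ ^ 2 * (η i - η j) ^ 2) + ‖a i - a j‖ ^ 2 * g (y (i, j)) with hF
    have hyneg : ∀ i j, y (j, i) = -y (i, j) := by
      intro i j
      simp only [hy, dr, ee]
      rw [dir_swap, inner_neg_right, norm_sub_rev (a j) (a i)]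
      ring
    have hgeven : ∀ t, g (-t) = g t := by
      intro t
      simp only [hgdef]
      have : hh k ρ (-t) = hh k ρ t := by
        unfold hh
        have e : max (-1) (min 1 (-t)) = -max (-1) (min 1 t) := by
          rcases le_total 1 t with h1 | h1
          · rw [min_eq_left h1, min_eq_right (by linarith), max_eq_left (by linarith),
              max_eq_right (by norm_num)]
          · rcases le_total t (-1) with h2 | h2
            · rw [min_eq_right h1, max_eq_left h2, min_eq_left (by linarith),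
                max_eq_right (by norm_num)]
              norm_num
            · rw [min_eq_right h1, max_eq_right h2, min_eq_right (by linarith),
                max_eq_right (by linarith)]
        rw [e, mul_neg, hk.even]
      rw [this, neg_sq]
    have hFs : ∀ i j, F i j = F j i := by
      intro i j
      simp only [hF]
      have e1 : (inner ℝ w (a j - a i) : ℝ) = -inner ℝ w (a i - a j) := by
        rw [← inner_neg_right, neg_sub]
      rw [hyneg i j, hgeven, norm_sub_rev (a j) (a i), e1]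
      ring
    have hin : ∀ i j, |(inner ℝ w (a i - a j) : ℝ)| ≤ K / 2 := by
      intro i j
      refine (abs_real_inner_le_norm _ _).trans ?_
      calc ‖w‖ * ‖a i - a j‖ ≤ 1 / 2 * K :=
            mul_le_mul hw (hKd i j) (norm_nonneg _) (by norm_num)
        _ = K / 2 := by ring
    have hQ : ∀ i j, |2 * τ * inner ℝ w (a i - a j) * (η i - η j) + τ ^ 2 * (η i - η j) ^ 2| ≤
        2 * K ^ 2 * |τ| := by
      intro i j
      have h1 : |2 * τ * inner ℝ w (a i - a j) * (η i - η j)| ≤ K ^ 2 * |τ| := by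
        rw [abs_mul, abs_mul, abs_mul, abs_two]
        calc 2 * |τ| * |(inner ℝ w (a i - a j) : ℝ)| * |η i - η j|
            ≤ 2 * |τ| * (K / 2) * K := by
              refine mul_le_mul ?_ (hKη i j) (abs_nonneg _) (by positivity)
              exact mul_le_mul_of_nonneg_left (hin i j) (by positivity)
          _ = K ^ 2 * |τ| := by ring
      have h2 : |τ ^ 2 * (η i - η j) ^ 2| ≤ K ^ 2 * |τ| := by
        rw [abs_of_nonneg (by positivity)]
        have h3 : (η i - η j) ^ 2 ≤ K ^ 2 := by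
          rw [← sq_abs]
          exact pow_le_pow_left₀ (abs_nonneg _) (hKη i j) 2
        calc τ ^ 2 * (η i - η j) ^ 2 ≤ |τ| * K ^ 2 :=
              mul_le_mul hτ2 h3 (sq_nonneg _) (abs_nonneg _)
          _ = K ^ 2 * |τ| := by ring
      exact (abs_add_le _ _).trans (by linarith)
    have hgb : ∀ p, |g (y p)| ≤ η₀ / (3 * K ^ 2) := fun p =>
      (hg _ (hy1 p)).trans (min_le_right _ _)
    have hFη : ∀ i j, |F i j| ≤ η₀ := by
      intro i j
      have h1 : |b1 * (2 * τ * inner ℝ w (a i - a j) * (η i - η j) +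
          τ ^ 2 * (η i - η j) ^ 2)| ≤ η₀ / (3 * K ^ 2) * (2 * K ^ 2) := by
        rw [abs_mul]
        refine mul_le_mul hb1'' ((hQ i j).trans ?_) (abs_nonneg _) (by positivity)
        nlinarith [sq_nonneg K]
      have h2 : |‖a i - a j‖ ^ 2 * g (y (i, j))| ≤ K ^ 2 * (η₀ / (3 * K ^ 2)) := by
        rw [abs_mul, abs_of_nonneg (by positivity : 0 ≤ ‖a i - a j‖ ^ 2)]
        exact mul_le_mul (pow_le_pow_left₀ (norm_nonneg _) (hKd i j) 2) (hgb _) (abs_nonneg _)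
          (by positivity)
      have h3 : η₀ / (3 * K ^ 2) * (2 * K ^ 2) + K ^ 2 * (η₀ / (3 * K ^ 2)) = η₀ := by
        field_simp
        ring
      exact (abs_add_le _ _).trans (by linarith)
    have hR : (fun i j => (1 - b0) * ‖a i - a j‖ ^ 2 - b1 * (inner ℝ w (a i - a j) : ℝ) ^ 2 -
        F i j) = Rk a k s := by
      funext i j
      unfold Rk
      by_cases hij : i = j
      · subst hij
        simp [hF]
      · rw [hsy, ← hh_eq k ρ _ (hy1 (i, j))]
        have e1 : hh k ρ (y (i, j)) = g (y (i, j)) + b0 + b1 * y (i, j) ^ 2 := by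
          simp only [hgdef]
          ring
        rw [e1]
        simp only [hF]
        have e2 := hdy i j hij
        have e3 : ‖a i - a j‖ ^ 2 * y (i, j) ^ 2 =
            (inner ℝ w (a i - a j) + τ * (η i - η j)) ^ 2 := by rw [← e2]; ring
        linear_combination b1 * e3
    have hnp : ¬ Pos (Rk a k s) := hk.bad s hsd
    have hmain : ∑ i, ∑ j, μ i * μ j * F i j ≤ C₀ * ∑ i, ∑ j, F i j ^ 2 := by
      by_contra hc
      push Not at hc
      apply hnp
      rw [← hR]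
      refine hpd b0 b1 w ?_ F hFs hFη hc
      intro z
      have h1 : (inner ℝ w z : ℝ) ^ 2 ≤ ‖z‖ ^ 2 := by
        have h2 := abs_real_inner_le_norm w z
        rw [← sq_abs]
        refine pow_le_pow_left₀ (abs_nonneg _) (h2.trans ?_) 2
        calc ‖w‖ * ‖z‖ ≤ 1 * ‖z‖ := mul_le_mul_of_nonneg_right hw1 (norm_nonneg _)
          _ = ‖z‖ := one_mul _
      have h3 : b1 * (inner ℝ w z : ℝ) ^ 2 ≤ 1 / 4 * ‖z‖ ^ 2 := by
        calc b1 * (inner ℝ w z : ℝ) ^ 2 ≤ |b1| * (inner ℝ w z : ℝ) ^ 2 :=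
              mul_le_mul_of_nonneg_right (le_abs_self _) (sq_nonneg _)
          _ ≤ 1 / 4 * ‖z‖ ^ 2 := mul_le_mul hb1' h1 (sq_nonneg _) (by norm_num)
      have h4 : b0 * ‖z‖ ^ 2 ≤ 1 / 4 * ‖z‖ ^ 2 :=
        mul_le_mul_of_nonneg_right ((le_abs_self _).trans hb0') (sq_nonneg _)
      linarith
    have hL : ∑ i, ∑ j, μ i * μ j * F i j =
        -2 * b1 * τ ^ 2 * M + ∑ p : ι × ι, wt a μ p * g (y p) := by
      have e1 : ∀ i j, μ i * μ j * F i j = b1 * 2 * τ *
          (μ i * μ j * ((inner ℝ w (a i) - inner ℝ w (a j)) * (η i - η j))) +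
          b1 * τ ^ 2 * (μ i * μ j * ((η i - η j) * (η i - η j))) +
          wt a μ (i, j) * g (y (i, j)) := by
        intro i j
        simp only [hF, wt]
        rw [inner_sub_right]
        ring
      simp_rw [e1, Finset.sum_add_distrib, ← Finset.mul_sum]
      rw [bil_sum μ (fun i => inner ℝ w (a i)) η hd.sum, bil_sum μ η η hd.sum,
        Fintype.sum_prod_type]
      have e2 : ∑ i, μ i * (inner ℝ w (a i) : ℝ) = 0 := by
        have h1 : (inner ℝ w (∑ i, μ i • a i) : ℝ) = 0 := by rw [hd.suma, inner_zero_right]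
        rw [inner_sum] at h1
        rw [← h1]
        exact Finset.sum_congr rfl fun i _ => (real_inner_smul_right _ _ _).symm
      rw [e2, hM]
      ring
    have hF2 : ∀ i j, F i j ^ 2 ≤ 8 * K ^ 4 * (|b1| * τ ^ 2) +
        2 * (‖a i - a j‖ ^ 4 * g (y (i, j)) ^ 2) := by
      intro i j
      set q : ℝ := 2 * τ * inner ℝ w (a i - a j) * (η i - η j) + τ ^ 2 * (η i - η j) ^ 2 with hq
      have h1 : q ^ 2 ≤ 4 * K ^ 4 * τ ^ 2 := by
        have h2 := pow_le_pow_left₀ (abs_nonneg _) (hQ i j) 2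
        rw [sq_abs] at h2
        calc q ^ 2 ≤ (2 * K ^ 2 * |τ|) ^ 2 := h2
          _ = 4 * K ^ 4 * τ ^ 2 := by rw [mul_pow, sq_abs]; ring
      have h3 : b1 ^ 2 ≤ |b1| := by
        rw [← sq_abs]
        nlinarith [abs_nonneg b1]
      have h4 : (b1 * q) ^ 2 ≤ |b1| * (4 * K ^ 4 * τ ^ 2) := by
        rw [mul_pow]
        exact mul_le_mul h3 h1 (sq_nonneg _) (abs_nonneg _)
      have h5 : F i j ^ 2 ≤ 2 * (b1 * q) ^ 2 + 2 * (‖a i - a j‖ ^ 2 * g (y (i, j))) ^ 2 := by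
        have : F i j = b1 * q + ‖a i - a j‖ ^ 2 * g (y (i, j)) := rfl
        rw [this]
        nlinarith [sq_nonneg (b1 * q - ‖a i - a j‖ ^ 2 * g (y (i, j)))]
      have h6 : (‖a i - a j‖ ^ 2 * g (y (i, j))) ^ 2 = ‖a i - a j‖ ^ 4 * g (y (i, j)) ^ 2 := by
        ring
      rw [h6] at h5
      linarith
    have hS : ∑ i, ∑ j, F i j ^ 2 ≤ 8 * K ^ 4 * (|b1| * τ ^ 2) * cd +
        2 * ∑ p : ι × ι, ‖a p.1 - a p.2‖ ^ 4 * g (y p) ^ 2 := by
      calc ∑ i, ∑ j, F i j ^ 2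
          ≤ ∑ i, ∑ j, (8 * K ^ 4 * (|b1| * τ ^ 2) +
              2 * (‖a i - a j‖ ^ 4 * g (y (i, j)) ^ 2)) :=
            Finset.sum_le_sum fun i _ => Finset.sum_le_sum fun j _ => hF2 i j
        _ = 8 * K ^ 4 * (|b1| * τ ^ 2) * cd +
              2 * ∑ p : ι × ι, ‖a p.1 - a p.2‖ ^ 4 * g (y p) ^ 2 := by
            rw [← Fintype.sum_prod_type', Finset.sum_add_distrib, Finset.sum_const,
              Finset.card_univ, nsmul_eq_mul, Finset.mul_sum]
            rw [hcd]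
            ring
    have hb1τ : -2 * b1 * τ ^ 2 * M ≥ -(2 * M * (|b1| * τ ^ 2)) := by
      have h1 : b1 ≤ |b1| := le_abs_self _
      have h2 : 0 ≤ τ ^ 2 * M := by positivity
      nlinarith
    rw [hL] at hmain
    have hG0 : 0 ≤ ∑ p : ι × ι, ‖a p.1 - a p.2‖ ^ 4 * g (y p) ^ 2 :=
      Finset.sum_nonneg fun p _ => by positivity
    have hbt0 : 0 ≤ |b1| * τ ^ 2 := by positivity
    have hfin : C₀ * ∑ i, ∑ j, F i j ^ 2 ≤ C₀ * (8 * K ^ 4 * (|b1| * τ ^ 2) * cd +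
        2 * ∑ p : ι × ι, ‖a p.1 - a p.2‖ ^ 4 * g (y p) ^ 2) :=
      mul_le_mul_of_nonneg_left hS hC₀.le
    show ∑ p : ι × ι, wt a μ p * g (y p) ≤ (C₀ * (8 * K ^ 4 * cd + 2) + 2 * M + 1) *
      (|b1| * τ ^ 2 + ∑ p : ι × ι, ‖a p.1 - a p.2‖ ^ 4 * g (y p) ^ 2)
    set G : ℝ := ∑ p : ι × ι, ‖a p.1 - a p.2‖ ^ 4 * g (y p) ^ 2 with hG
    set T : ℝ := |b1| * τ ^ 2 with hT
    have h1 : ∑ p : ι × ι, wt a μ p * g (y p) ≤ C₀ * (8 * K ^ 4 * T * cd + 2 * G) + 2 * M * T := by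
      linarith
    refine h1.trans ?_
    have h2 : 0 ≤ C₀ * (8 * K ^ 4 * cd) * G := by positivity
    have h3 : 0 ≤ C₀ * 2 * T := by positivity
    have h4 : 0 ≤ M * G := by positivity
    nlinarith

end P23D
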