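import Mathlib
import Pool.Agent.Lib.P23D.Homog
import Pool.Agent.Lib.P23D.Pairs

/-!
# Module P23D.NearW : weights for the displacement argument

Notation: `S = Finset.Icc 2 D`, `β = √(∑ l ∈ S, b l ^ 2)`, `DD b w = ∑ l ∈ S, b l * (2 l) * VV a μ η l w`.

PROOF.
* `shift_le`: substitute `w = w' - t • u` (translation invariance): `∫ ψ(w) κ(⟪w, u⟫ + t) dw =
  ∫ ψ(w' - t u) κ(⟪w', u⟫) dw'`; the difference of the integrals is
  `∫ (ψ(w' - t u) - ψ w') κ(⟪w', u⟫) dw'`, whose integrand vanishes unless `‖w'‖ ≤ 1/2 + |t| ≤ 1`, and is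
  at most `L |t| |κ(⟪w', u⟫)|` there.
* `shift_sq`: the same substitution, `0 ≤ ψ ≤ M`.
* `pow_exp`: for `m : ℕ`, `K` there is `c` with `|(x + h)^m - x^m - m x^(m-1) h| ≤ c h²` for `|x| ≤ 1`,
  `|h| ≤ K` (induction on `m`: `r (m+1) = (x + h) r m + m x^(m-1) h²`).
* `poly_exp`: `∑_p wt p ∑_{l ∈ S} b l (x_p + τ e_p)^(2 l)` with `x_p = ⟪w, dr a p⟫`, `e_p = ee a η p`;
  expand each power; the zeroth order terms vanish because `b l ≠ 0` implies `Killed l`, the first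
  order terms give `τ DD b w`, the rest is at most `C τ² ∑ |b l| ≤ C τ² β` (`|τ| ≤ 1`).
* `weight`: `VV l` is homogeneous of degree `2 l - 1` (injective on `S`), continuous, not zero (`hne`);
  `homog` with `r = 1/4` and coefficients `2 l b l` gives
  `c β² ≤ ∫_{closedBall 0 (1/4)} (DD b w)²`.  Let `φ w = max 0 (1/2 - ‖w‖)` (`≥ 1/4` on
  `closedBall 0 (1/4)`), `C_D` with `|DD b w| ≤ C_D β` for `‖w‖ ≤ 1`, and
  `|DD b w - DD b w'| ≤ C_D β ‖w - w'‖` for `‖w‖, ‖w'‖ ≤ 1`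
  (`|x^m - y^m| ≤ m |x - y|` for `|x|, |y| ≤ 1`).  For `β > 0` let `χ w = DD b w / (C_D β)` and
  `ψ σ w = φ w * (1 + σ χ w) / 2` (`σ = ±1`), zero for `‖w‖ ≥ 1/2`.  Then `0 ≤ ψ ≤ 1`,
  `ψ 1 + ψ (-1) = φ`, `ψ σ` is Lipschitz (if `‖w‖, ‖w'‖ ≤ 1/2` product rule; if `‖w'‖ > 1/2` then
  `|ψ w| ≤ φ w ≤ ‖w - w'‖`), and
  `∫ ψ 1 DD b - ∫ ψ (-1) DD b = ∫ φ χ DD b = (C_D β)⁻¹ ∫ φ (DD b)² ≥ c' β`.
-/

set_option autoImplicit false

open MeasureTheory

namespace P23D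

/-- the first order effect of the displacement on `∑_{2 ≤ l ≤ D} b l t^(2 l)` -/
noncomputable def DD {ι : Type} [Fintype ι] {n : ℕ} (a : ι → E n) (μ η : ι → ℝ) (D : ℕ)
    (b : ℕ → ℝ) (w : E n) : ℝ :=
  ∑ l ∈ Finset.Icc 2 D, b l * (2 * l) * VV a μ η l w

namespace NearWAux

theorem lip_cont {n : ℕ} {ψ : E n → ℝ} {L : ℝ} (hL : ∀ w w', |ψ w - ψ w'| ≤ L * ‖w - w'‖) :
    Continuous ψ := by
  have hL0 : LipschitzWith (Real.toNNReal |L|) ψ := by
    apply LipschitzWith.of_dist_le_mul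
    intro x y
    rw [Real.dist_eq, dist_eq_norm, Real.coe_toNNReal _ (abs_nonneg _)]
    exact (hL x y).trans (mul_le_mul_of_nonneg_right (le_abs_self _) (norm_nonneg _))
  exact hL0.continuous

/-- an integral over the whole space of a continuous function vanishing outside the unit ball -/
theorem int_ball {n : ℕ} {F : E n → ℝ} (hs : ∀ w, 1 < ‖w‖ → F w = 0) :
    ∫ w, F w = ∫ w in B n, F w := by
  rw [← integral_indicator measurableSet_closedBall]
  refine integral_congr_ae (Filter.Eventually.of_forall fun w => ?_)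
  by_cases hw : ‖w‖ ≤ 1
  · rw [Set.indicator_of_mem (by simpa using hw)]
  · rw [Set.indicator_of_notMem (by simpa using hw)]
    exact hs w (not_le.1 hw)

theorem int_able {n : ℕ} {F : E n → ℝ} (hF : Continuous F) (hs : ∀ w, 1 < ‖w‖ → F w = 0) :
    Integrable F := by
  have h1 : IntegrableOn F (B n) := hF.continuousOn.integrableOn_compact (isCompact_closedBall _ _)
  have h2 := (integrable_indicator_iff measurableSet_closedBall).2 h1
  refine h2.congr (Filter.Eventually.of_forall fun w => ?_)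
  by_cases hw : ‖w‖ ≤ 1
  · rw [Set.indicator_of_mem (by simpa using hw)]
  · rw [Set.indicator_of_notMem (by simpa using hw)]
    exact (hs w (not_le.1 hw)).symm

theorem shift_eq {n : ℕ} (u : E n) (hu : ‖u‖ = 1) (ψ : E n → ℝ) (κ : ℝ → ℝ) (t : ℝ) :
    ∫ w, ψ w * κ (inner ℝ w u + t) = ∫ w, ψ (w - t • u) * κ (inner ℝ w u) := by
  rw [← integral_sub_right_eq_self (fun w => ψ w * κ (inner ℝ w u + t)) (t • u)]
  refine integral_congr_ae (Filter.Eventually.of_forall fun w => ?_)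
  simp only
  congr 2
  rw [inner_sub_left, real_inner_smul_left, real_inner_self_eq_norm_sq, hu]
  ring

theorem supp_shift {n : ℕ} {u : E n} (hu : ‖u‖ = 1) {ψ : E n → ℝ}
    (hs : ∀ w, 1 / 2 ≤ ‖w‖ → ψ w = 0) {t : ℝ} (ht : |t| ≤ 1 / 2) (w : E n) (hw : 1 < ‖w‖) :
    ψ (w - t • u) = 0 := by
  apply hs
  have h1 : ‖w‖ ≤ ‖w - t • u‖ + ‖t • u‖ := by
    calc ‖w‖ = ‖(w - t • u) + t • u‖ := by rw [sub_add_cancel]
      _ ≤ _ := norm_add_le _ _
  rw [norm_smul, hu, mul_one, Real.norm_eq_abs] at h1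
  linarith

end NearWAux

open NearWAux

theorem shift_le {n : ℕ} (u : E n) (hu : ‖u‖ = 1) (ψ : E n → ℝ) (L : ℝ)
    (hL : ∀ w w', |ψ w - ψ w'| ≤ L * ‖w - w'‖) (hs : ∀ w, 1 / 2 ≤ ‖w‖ → ψ w = 0)
    (κ : ℝ → ℝ) (hκ : Continuous κ) (t : ℝ) (ht : |t| ≤ 1 / 2) :
    |(∫ w, ψ w * κ (inner ℝ w u + t)) - ∫ w, ψ w * κ (inner ℝ w u)| ≤
      L * |t| * ∫ w in B n, |κ (inner ℝ w u)| := by
  have hψ : Continuous ψ := lip_cont hL
  have hs0 : ∀ w, 1 < ‖w‖ → ψ w = 0 := fun w hw => hs w (by linarith)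
  have hc1 : Continuous fun w : E n => ψ (w - t • u) * κ (inner ℝ w u) := by fun_prop
  have hc2 : Continuous fun w : E n => ψ w * κ (inner ℝ w u) := by fun_prop
  have hi1 : Integrable fun w : E n => ψ (w - t • u) * κ (inner ℝ w u) :=
    int_able hc1 fun w hw => by rw [supp_shift hu hs ht w hw, zero_mul]
  have hi2 : Integrable fun w : E n => ψ w * κ (inner ℝ w u) :=
    int_able hc2 fun w hw => by rw [hs0 w hw, zero_mul]
  rw [shift_eq u hu, ← integral_sub hi1 hi2, int_ball (fun w hw => by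
    rw [supp_shift hu hs ht w hw, hs0 w hw]; ring)]
  refine (abs_integral_le_integral_abs).trans ?_
  rw [← integral_const_mul]
  refine setIntegral_mono_on ?_ ?_ measurableSet_closedBall fun w _ => ?_
  · exact ((hc1.sub hc2).abs).continuousOn.integrableOn_compact (isCompact_closedBall _ _)
  · refine ContinuousOn.integrableOn_compact (isCompact_closedBall _ _)
      (Continuous.continuousOn ?_)
    fun_prop
  · rw [← sub_mul, abs_mul]
    refine mul_le_mul_of_nonneg_right ?_ (abs_nonneg _)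
    refine (hL _ _).trans (le_of_eq ?_)
    rw [sub_sub_cancel_left, norm_neg, norm_smul, hu, mul_one, Real.norm_eq_abs]

theorem shift_sq {n : ℕ} (u : E n) (hu : ‖u‖ = 1) (ψ : E n → ℝ) (hc : Continuous ψ)
    (h1 : ∀ w, ψ w ≤ 1) (hs : ∀ w, 1 / 2 ≤ ‖w‖ → ψ w = 0)
    (κ : ℝ → ℝ) (hκ : Continuous κ) (t : ℝ) (ht : |t| ≤ 1 / 2) :
    ∫ w, ψ w * κ (inner ℝ w u + t) ^ 2 ≤ ∫ w in B n, κ (inner ℝ w u) ^ 2 := by
  have e : ∫ w, ψ w * κ (inner ℝ w u + t) ^ 2 = ∫ w, ψ (w - t • u) * κ (inner ℝ w u) ^ 2 :=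
    shift_eq u hu ψ (fun x => κ x ^ 2) t
  rw [e, int_ball (fun w hw => by rw [supp_shift hu hs ht w hw, zero_mul])]
  refine setIntegral_mono_on ?_ ?_ measurableSet_closedBall fun w _ => ?_
  · refine ContinuousOn.integrableOn_compact (isCompact_closedBall _ _)
      (Continuous.continuousOn ?_)
    fun_prop
  · refine ContinuousOn.integrableOn_compact (isCompact_closedBall _ _)
      (Continuous.continuousOn ?_)
    fun_prop
  · calc ψ (w - t • u) * κ (inner ℝ w u) ^ 2 ≤ 1 * κ (inner ℝ w u) ^ 2 :=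
        mul_le_mul_of_nonneg_right (h1 _) (sq_nonneg _)
      _ = κ (inner ℝ w u) ^ 2 := one_mul _

namespace NearWAux

theorem pow_exp (m : ℕ) (K : ℝ) (hK : 0 ≤ K) : ∃ c : ℝ, 0 ≤ c ∧ ∀ x h : ℝ, |x| ≤ 1 → |h| ≤ K →
    |(x + h) ^ m - x ^ m - m * x ^ (m - 1) * h| ≤ c * h ^ 2 := by
  induction m with
  | zero => exact ⟨0, le_rfl, fun x h _ _ => by simp⟩
  | succ m ih =>
    obtain ⟨c, hc, hc'⟩ := ih
    refine ⟨(1 + K) * c + m, by positivity, fun x h hx hh => ?_⟩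
    have e : (x + h) ^ (m + 1) - x ^ (m + 1) - ((m + 1 : ℕ) : ℝ) * x ^ (m + 1 - 1) * h =
        (x + h) * ((x + h) ^ m - x ^ m - m * x ^ (m - 1) * h) + m * x ^ (m - 1) * h ^ 2 := by
      rcases m with _ | m
      · simp
      · simp only [Nat.add_sub_cancel]
        push_cast
        ring
    rw [e]
    have h1 : |x + h| ≤ 1 + K := (abs_add_le _ _).trans (by linarith)
    have h2 := hc' x h hx hh
    have h3 : |(m : ℝ) * x ^ (m - 1) * h ^ 2| ≤ m * h ^ 2 := by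
      rw [abs_mul, abs_mul, Nat.abs_cast, abs_pow, abs_of_nonneg (sq_nonneg h)]
      have : |x| ^ (m - 1) ≤ 1 := pow_le_one₀ (abs_nonneg _) hx
      have h4 : 0 ≤ (m : ℝ) * h ^ 2 := by positivity
      nlinarith
    refine (abs_add_le _ _).trans ?_
    rw [abs_mul]
    have h5 : |x + h| * |(x + h) ^ m - x ^ m - m * x ^ (m - 1) * h| ≤ (1 + K) * (c * h ^ 2) :=
      mul_le_mul h1 h2 (abs_nonneg _) (by linarith)
    linarith

theorem pow_lip (m : ℕ) (x y : ℝ) (hx : |x| ≤ 1) (hy : |y| ≤ 1) :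
    |x ^ m - y ^ m| ≤ m * |x - y| := by
  induction m with
  | zero => simp
  | succ m ih =>
    have e : x ^ (m + 1) - y ^ (m + 1) = x * (x ^ m - y ^ m) + (x - y) * y ^ m := by ring
    rw [e]
    refine (abs_add_le _ _).trans ?_
    rw [abs_mul, abs_mul, abs_pow]
    have h1 : |x| * |x ^ m - y ^ m| ≤ 1 * (m * |x - y|) :=
      mul_le_mul hx ih (abs_nonneg _) zero_le_one
    have h2 : |x - y| * |y| ^ m ≤ |x - y| * 1 :=
      mul_le_mul_of_nonneg_left (pow_le_one₀ (abs_nonneg _) hy) (abs_nonneg _)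
    push_cast
    linarith

theorem norm_dr_le {ι : Type} [Fintype ι] {n : ℕ} {a : ι → E n} {μ : ι → ℝ} (hd : Dep a μ)
    (p : ι × ι) : ‖dr a p‖ ≤ 1 := by
  by_cases h : p.1 = p.2
  · unfold dr dir
    rw [h]
    simp
  · exact (hd.norm_dir h).le

theorem inner_dr_le {ι : Type} [Fintype ι] {n : ℕ} {a : ι → E n} {μ : ι → ℝ} (hd : Dep a μ)
    (p : ι × ι) (w : E n) : |(inner ℝ w (dr a p) : ℝ)| ≤ ‖w‖ := by
  refine (abs_real_inner_le_norm _ _).trans ?_
  calc ‖w‖ * ‖dr a p‖ ≤ ‖w‖ * 1 := mul_le_mul_of_nonneg_left (norm_dr_le hd p) (norm_nonneg _)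
    _ = ‖w‖ := mul_one _

theorem abs_le_beta (D : ℕ) (b : ℕ → ℝ) {l : ℕ} (hl : l ∈ Finset.Icc 2 D) :
    |b l| ≤ √(∑ l ∈ Finset.Icc 2 D, b l ^ 2) := by
  apply Real.abs_le_sqrt
  exact Finset.single_le_sum (f := fun l => b l ^ 2) (fun l _ => sq_nonneg _) hl

end NearWAux

open NearWAux

theorem poly_exp {ι : Type} [Fintype ι] {n : ℕ} {a : ι → E n} {μ : ι → ℝ} (hd : Dep a μ)
    (η : ι → ℝ) (D : ℕ) :
    ∃ C > 0, ∀ b : ℕ → ℝ, InK (wt a μ) (dr a) D b → ∀ w : E n, ‖w‖ ≤ 1 → ∀ τ : ℝ, |τ| ≤ 1 →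
      |(∑ p : ι × ι, wt a μ p * ∑ l ∈ Finset.Icc 2 D,
          b l * (inner ℝ w (dr a p) + τ * ee a η p) ^ (2 * l)) - τ * DD a μ η D b w| ≤
        C * τ ^ 2 * √(∑ l ∈ Finset.Icc 2 D, b l ^ 2) := by
  set K : ℝ := ∑ p : ι × ι, |ee a η p| with hK
  have hK0 : 0 ≤ K := Finset.sum_nonneg fun p _ => abs_nonneg _
  have hKe : ∀ p, |ee a η p| ≤ K := fun p =>
    Finset.single_le_sum (f := fun p => |ee a η p|) (fun p _ => abs_nonneg _) (Finset.mem_univ p)
  have hex := fun l : ℕ => pow_exp (2 * l) K hK0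
  choose c hc0 hc using hex
  set C : ℝ := ∑ p : ι × ι, ∑ l ∈ Finset.Icc 2 D, |wt a μ p| * (c l * K ^ 2) with hC
  have hC0 : 0 ≤ C := Finset.sum_nonneg fun p _ => Finset.sum_nonneg fun l _ => by
    have := hc0 l
    positivity
  refine ⟨C + 1, by linarith, fun b hb w hw τ hτ => ?_⟩
  set β : ℝ := √(∑ l ∈ Finset.Icc 2 D, b l ^ 2) with hβ
  have hβ0 : 0 ≤ β := Real.sqrt_nonneg _
  -- the zeroth order terms vanish
  have hzero : ∑ p : ι × ι, ∑ l ∈ Finset.Icc 2 D,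
      wt a μ p * (b l * (inner ℝ w (dr a p) : ℝ) ^ (2 * l)) = 0 := by
    rw [Finset.sum_comm]
    refine Finset.sum_eq_zero fun l _ => ?_
    by_cases hbl : b l = 0
    · refine Finset.sum_eq_zero fun p _ => ?_
      rw [hbl]
      ring
    · have h1 := (hb l hbl).2 w
      have h2 : ∑ p : ι × ι, wt a μ p * (b l * (inner ℝ w (dr a p) : ℝ) ^ (2 * l)) =
          b l * ∑ p : ι × ι, wt a μ p * (inner ℝ w (dr a p) : ℝ) ^ (2 * l) := by
        rw [Finset.mul_sum]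
        exact Finset.sum_congr rfl fun p _ => by ring
      rw [h2, h1, mul_zero]
  have hDD : τ * DD a μ η D b w = ∑ p : ι × ι, ∑ l ∈ Finset.Icc 2 D,
      wt a μ p * (b l * ((2 * l : ℕ) * (inner ℝ w (dr a p) : ℝ) ^ (2 * l - 1) *
        (τ * ee a η p))) := by
    unfold DD VV
    rw [Finset.mul_sum, Finset.sum_comm]
    refine Finset.sum_congr rfl fun l _ => ?_
    rw [Finset.mul_sum, Finset.mul_sum]
    refine Finset.sum_congr rfl fun p _ => ?_
    push_cast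
    ring
  have e : (∑ p : ι × ι, wt a μ p * ∑ l ∈ Finset.Icc 2 D,
      b l * (inner ℝ w (dr a p) + τ * ee a η p) ^ (2 * l)) - τ * DD a μ η D b w =
      ∑ p : ι × ι, ∑ l ∈ Finset.Icc 2 D, wt a μ p * (b l *
        ((inner ℝ w (dr a p) + τ * ee a η p) ^ (2 * l) - (inner ℝ w (dr a p) : ℝ) ^ (2 * l) -
          (2 * l : ℕ) * (inner ℝ w (dr a p) : ℝ) ^ (2 * l - 1) * (τ * ee a η p))) := by
    rw [hDD]
    have e1 : ∑ p : ι × ι, ∑ l ∈ Finset.Icc 2 D, wt a μ p * (b l *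
        ((inner ℝ w (dr a p) + τ * ee a η p) ^ (2 * l) - (inner ℝ w (dr a p) : ℝ) ^ (2 * l) -
          (2 * l : ℕ) * (inner ℝ w (dr a p) : ℝ) ^ (2 * l - 1) * (τ * ee a η p))) =
        (∑ p : ι × ι, ∑ l ∈ Finset.Icc 2 D, wt a μ p * (b l *
          (inner ℝ w (dr a p) + τ * ee a η p) ^ (2 * l))) -
        (∑ p : ι × ι, ∑ l ∈ Finset.Icc 2 D,
          wt a μ p * (b l * (inner ℝ w (dr a p) : ℝ) ^ (2 * l))) -
        ∑ p : ι × ι, ∑ l ∈ Finset.Icc 2 D,
          wt a μ p * (b l * ((2 * l : ℕ) * (inner ℝ w (dr a p) : ℝ) ^ (2 * l - 1) *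
            (τ * ee a η p))) := by
      simp_rw [← Finset.sum_sub_distrib]
      refine Finset.sum_congr rfl fun p _ => Finset.sum_congr rfl fun l _ => ?_
      ring
    rw [e1, hzero, sub_zero]
    congr 1
    refine Finset.sum_congr rfl fun p _ => ?_
    rw [Finset.mul_sum]
  rw [e]
  calc |∑ p : ι × ι, ∑ l ∈ Finset.Icc 2 D, wt a μ p * (b l *
        ((inner ℝ w (dr a p) + τ * ee a η p) ^ (2 * l) - (inner ℝ w (dr a p) : ℝ) ^ (2 * l) -
          (2 * l : ℕ) * (inner ℝ w (dr a p) : ℝ) ^ (2 * l - 1) * (τ * ee a η p)))|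
      ≤ ∑ p : ι × ι, ∑ l ∈ Finset.Icc 2 D, |wt a μ p * (b l *
        ((inner ℝ w (dr a p) + τ * ee a η p) ^ (2 * l) - (inner ℝ w (dr a p) : ℝ) ^ (2 * l) -
          (2 * l : ℕ) * (inner ℝ w (dr a p) : ℝ) ^ (2 * l - 1) * (τ * ee a η p)))| := by
        refine (Finset.abs_sum_le_sum_abs _ _).trans (Finset.sum_le_sum fun p _ => ?_)
        exact Finset.abs_sum_le_sum_abs _ _
    _ ≤ ∑ p : ι × ι, ∑ l ∈ Finset.Icc 2 D, |wt a μ p| * (c l * K ^ 2) * (τ ^ 2 * β) := by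
        refine Finset.sum_le_sum fun p _ => Finset.sum_le_sum fun l hl => ?_
        have h1 : |τ * ee a η p| ≤ K := by
          rw [abs_mul]
          calc |τ| * |ee a η p| ≤ 1 * K := mul_le_mul hτ (hKe p) (abs_nonneg _) zero_le_one
            _ = K := one_mul _
        have h2 := hc l (inner ℝ w (dr a p)) (τ * ee a η p) ((inner_dr_le hd p w).trans hw) h1
        have h3 : (τ * ee a η p) ^ 2 ≤ τ ^ 2 * K ^ 2 := by
          rw [mul_pow]
          refine mul_le_mul_of_nonneg_left ?_ (sq_nonneg _)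
          rw [← sq_abs (ee a η p)]
          exact pow_le_pow_left₀ (abs_nonneg _) (hKe p) 2
        have h4 : c l * (τ * ee a η p) ^ 2 ≤ c l * (τ ^ 2 * K ^ 2) :=
          mul_le_mul_of_nonneg_left h3 (hc0 l)
        rw [abs_mul, abs_mul]
        have h5 := abs_le_beta D b hl
        calc |wt a μ p| * (|b l| * |(inner ℝ w (dr a p) + τ * ee a η p) ^ (2 * l) -
            (inner ℝ w (dr a p) : ℝ) ^ (2 * l) -
              (2 * l : ℕ) * (inner ℝ w (dr a p) : ℝ) ^ (2 * l - 1) * (τ * ee a η p)|)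
            ≤ |wt a μ p| * (β * (c l * (τ ^ 2 * K ^ 2))) := by
              refine mul_le_mul_of_nonneg_left ?_ (abs_nonneg _)
              exact mul_le_mul h5 (h2.trans h4) (abs_nonneg _) hβ0
          _ = |wt a μ p| * (c l * K ^ 2) * (τ ^ 2 * β) := by ring
    _ = C * (τ ^ 2 * β) := by
        rw [hC, Finset.sum_mul]
        refine Finset.sum_congr rfl fun p _ => ?_
        rw [Finset.sum_mul]
    _ ≤ (C + 1) * τ ^ 2 * β := by
        have : 0 ≤ τ ^ 2 * β := by positivity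
        nlinarith

namespace NearWAux

theorem VV_cont {ι : Type} [Fintype ι] {n : ℕ} (a : ι → E n) (μ η : ι → ℝ) (l : ℕ) :
    Continuous (VV a μ η l) := by
  unfold VV
  fun_prop

theorem VV_hom {ι : Type} [Fintype ι] {n : ℕ} (a : ι → E n) (μ η : ι → ℝ) (l : ℕ) (s : ℝ)
    (w : E n) : VV a μ η l (s • w) = s ^ (2 * l - 1) * VV a μ η l w := by
  unfold VV
  rw [Finset.mul_sum]
  refine Finset.sum_congr rfl fun p _ => ?_
  rw [real_inner_smul_left, mul_pow]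
  ring

theorem VV_bound {ι : Type} [Fintype ι] {n : ℕ} {a : ι → E n} {μ : ι → ℝ} (hd : Dep a μ)
    (η : ι → ℝ) (l : ℕ) (w : E n) (hw : ‖w‖ ≤ 1) :
    |VV a μ η l w| ≤ ∑ p : ι × ι, |wt a μ p * ee a η p| := by
  unfold VV
  refine (Finset.abs_sum_le_sum_abs _ _).trans (Finset.sum_le_sum fun p _ => ?_)
  rw [abs_mul, abs_pow]
  have h1 : |(inner ℝ w (dr a p) : ℝ)| ^ (2 * l - 1) ≤ 1 :=
    pow_le_one₀ (abs_nonneg _) ((inner_dr_le hd p w).trans hw)
  calc |wt a μ p * ee a η p| * |(inner ℝ w (dr a p) : ℝ)| ^ (2 * l - 1)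
      ≤ |wt a μ p * ee a η p| * 1 := mul_le_mul_of_nonneg_left h1 (abs_nonneg _)
    _ = _ := mul_one _

theorem VV_lip {ι : Type} [Fintype ι] {n : ℕ} {a : ι → E n} {μ : ι → ℝ} (hd : Dep a μ)
    (η : ι → ℝ) (l : ℕ) (w w' : E n) (hw : ‖w‖ ≤ 1) (hw' : ‖w'‖ ≤ 1) :
    |VV a μ η l w - VV a μ η l w'| ≤
      (∑ p : ι × ι, |wt a μ p * ee a η p|) * (2 * l) * ‖w - w'‖ := by
  unfold VV
  rw [← Finset.sum_sub_distrib, Finset.sum_mul, Finset.sum_mul]
  refine (Finset.abs_sum_le_sum_abs _ _).trans (Finset.sum_le_sum fun p _ => ?_)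
  rw [← mul_sub, abs_mul]
  have h1 := pow_lip (2 * l - 1) _ _ ((inner_dr_le hd p w).trans hw)
    ((inner_dr_le hd p w').trans hw')
  have h2 : |(inner ℝ w (dr a p) : ℝ) - inner ℝ w' (dr a p)| ≤ ‖w - w'‖ := by
    rw [← inner_sub_left]
    exact inner_dr_le hd p _
  have h3 : ((2 * l - 1 : ℕ) : ℝ) ≤ 2 * l := by
    have : (2 * l - 1 : ℕ) ≤ 2 * l := Nat.sub_le _ _
    exact_mod_cast this
  rw [mul_assoc]
  refine mul_le_mul_of_nonneg_left (h1.trans ?_) (abs_nonneg _)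
  exact mul_le_mul h3 h2 (abs_nonneg _) (by positivity)

end NearWAux

open NearWAux

theorem weight {ι : Type} [Fintype ι] {n : ℕ} {a : ι → E n} {μ : ι → ℝ} (hd : Dep a μ)
    (η : ι → ℝ) (hη : ∀ l : ℕ, 2 ≤ l → ∃ w : E n, VV a μ η l w ≠ 0) (D : ℕ) :
    ∃ c > 0, ∃ L > 0, ∀ b : ℕ → ℝ, 0 < ∑ l ∈ Finset.Icc 2 D, b l ^ 2 →
      ∃ ψ₁ ψ₂ : E n → ℝ,
        (∀ w w', |ψ₁ w - ψ₁ w'| ≤ L * ‖w - w'‖) ∧ (∀ w w', |ψ₂ w - ψ₂ w'| ≤ L * ‖w - w'‖) ∧
        (∀ w, 0 ≤ ψ₁ w ∧ ψ₁ w ≤ 1) ∧ (∀ w, 0 ≤ ψ₂ w ∧ ψ₂ w ≤ 1) ∧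
        (∀ w, 1 / 2 ≤ ‖w‖ → ψ₁ w = 0) ∧ (∀ w, 1 / 2 ≤ ‖w‖ → ψ₂ w = 0) ∧
        (∀ w, ψ₁ w + ψ₂ w = max 0 (1 / 2 - ‖w‖)) ∧
        c * √(∑ l ∈ Finset.Icc 2 D, b l ^ 2) ≤
          (∫ w, ψ₁ w * DD a μ η D b w) - ∫ w, ψ₂ w * DD a μ η D b w := by
  obtain ⟨c₁, hc₁, hhom⟩ := homog (n := n) (Finset.Icc 2 D) (fun l => 2 * l - 1)
    (by
      intro x hx y hy hxy
      simp only [Finset.coe_Icc, Set.mem_Icc] at hx hy hxy
      omega) (VV a μ η)
    (fun l _ => VV_cont a μ η l) (fun l _ s w => VV_hom a μ η l s w)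
    (fun l hl => hη l (Finset.mem_Icc.1 hl).1) (1 / 4) (by norm_num)
  set W : ℝ := ∑ p : ι × ι, |wt a μ p * ee a η p| with hW
  have hW0 : 0 ≤ W := Finset.sum_nonneg fun p _ => abs_nonneg _
  set CD : ℝ := 1 + ∑ l ∈ Finset.Icc 2 D, (2 * (l : ℝ)) * (W * (2 * l)) with hCD
  have hsum0 : 0 ≤ ∑ l ∈ Finset.Icc 2 D, (2 * (l : ℝ)) * (W * (2 * l)) :=
    Finset.sum_nonneg fun l _ => by positivity
  have hCD0 : 0 < CD := by linarith
  refine ⟨c₁ / (4 * CD), by positivity, 2, by norm_num, fun b hb => ?_⟩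
  set β : ℝ := √(∑ l ∈ Finset.Icc 2 D, b l ^ 2) with hβ
  have hβ0 : 0 < β := Real.sqrt_pos.2 hb
  have hβ2 : β ^ 2 = ∑ l ∈ Finset.Icc 2 D, b l ^ 2 := Real.sq_sqrt hb.le
  have hDc : Continuous (DD a μ η D b) := by
    unfold DD
    refine continuous_finsetSum _ fun l _ => ?_
    exact continuous_const.mul (VV_cont a μ η l)
  have hDb : ∀ w : E n, ‖w‖ ≤ 1 → |DD a μ η D b w| ≤ CD * β := by
    intro w hw
    unfold DD
    refine (Finset.abs_sum_le_sum_abs _ _).trans ?_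
    have h1 : ∀ l ∈ Finset.Icc 2 D, |b l * (2 * l) * VV a μ η l w| ≤
        (2 * (l : ℝ)) * (W * (2 * l)) * β := by
      intro l hl
      have hl2 : (2 : ℝ) ≤ l := by exact_mod_cast (Finset.mem_Icc.1 hl).1
      rw [abs_mul, abs_mul, abs_of_nonneg (by positivity : (0 : ℝ) ≤ 2 * l)]
      have h2 := VV_bound hd η l w hw
      have h3 := abs_le_beta D b hl
      calc |b l| * (2 * l) * |VV a μ η l w| ≤ β * (2 * l) * W := by
            refine mul_le_mul ?_ h2 (abs_nonneg _) (by positivity)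
            exact mul_le_mul_of_nonneg_right h3 (by positivity)
        _ ≤ (2 * (l : ℝ)) * (W * (2 * l)) * β := by
            have : 0 ≤ β * (2 * l) * W := by positivity
            nlinarith
    refine (Finset.sum_le_sum h1).trans ?_
    rw [← Finset.sum_mul]
    nlinarith
  have hDl : ∀ w w' : E n, ‖w‖ ≤ 1 → ‖w'‖ ≤ 1 →
      |DD a μ η D b w - DD a μ η D b w'| ≤ CD * β * ‖w - w'‖ := by
    intro w w' hw hw'
    unfold DD
    rw [← Finset.sum_sub_distrib]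
    refine (Finset.abs_sum_le_sum_abs _ _).trans ?_
    have h1 : ∀ l ∈ Finset.Icc 2 D, |b l * (2 * l) * VV a μ η l w -
        b l * (2 * l) * VV a μ η l w'| ≤ (2 * (l : ℝ)) * (W * (2 * l)) * β * ‖w - w'‖ := by
      intro l hl
      rw [← mul_sub, abs_mul, abs_mul, abs_of_nonneg (by positivity : (0 : ℝ) ≤ 2 * l)]
      have h2 := VV_lip hd η l w w' hw hw'
      have h3 := abs_le_beta D b hl
      calc |b l| * (2 * l) * |VV a μ η l w - VV a μ η l w'|
          ≤ β * (2 * l) * (W * (2 * l) * ‖w - w'‖) := by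
            refine mul_le_mul ?_ h2 (abs_nonneg _) (by positivity)
            exact mul_le_mul_of_nonneg_right h3 (by positivity)
        _ = (2 * (l : ℝ)) * (W * (2 * l)) * β * ‖w - w'‖ := by ring
    refine (Finset.sum_le_sum h1).trans ?_
    rw [← Finset.sum_mul, ← Finset.sum_mul]
    have : 0 ≤ β * ‖w - w'‖ := by positivity
    nlinarith
  -- the weights
  set φ : E n → ℝ := fun w => max 0 (1 / 2 - ‖w‖) with hφ
  have hφ0 : ∀ w, 0 ≤ φ w := fun w => le_max_left _ _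
  have hφ1 : ∀ w, φ w ≤ 1 / 2 := fun w => max_le (by norm_num) (by linarith [norm_nonneg w])
  have hφs : ∀ w, 1 / 2 ≤ ‖w‖ → φ w = 0 := fun w hw => max_eq_left (by linarith)
  have hφl : ∀ w w', |φ w - φ w'| ≤ ‖w - w'‖ := by
    intro w w'
    have h1 := abs_le.1 (abs_norm_sub_norm_le w w')
    simp only [hφ]
    rw [abs_le]
    rcases le_total (1 / 2) ‖w‖ with h2 | h2 <;> rcases le_total (1 / 2) ‖w'‖ with h3 | h3
    · rw [max_eq_left (by linarith), max_eq_left (by linarith)]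
      constructor <;> linarith [norm_nonneg (w - w')]
    · rw [max_eq_left (by linarith), max_eq_right (by linarith)]
      constructor <;> linarith [norm_nonneg (w - w')]
    · rw [max_eq_right (by linarith), max_eq_left (by linarith)]
      constructor <;> linarith [norm_nonneg (w - w')]
    · rw [max_eq_right (by linarith), max_eq_right (by linarith)]
      constructor <;> linarith [norm_nonneg (w - w')]
  have hφc : Continuous φ := by
    simp only [hφ]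
    fun_prop
  set χ : E n → ℝ := fun w => DD a μ η D b w / (CD * β) with hχ
  have hCβ : 0 < CD * β := by positivity
  have hχ1 : ∀ w, ‖w‖ ≤ 1 → |χ w| ≤ 1 := by
    intro w hw
    simp only [hχ]
    rw [abs_div, abs_of_pos hCβ, div_le_one hCβ]
    exact hDb w hw
  have hχl : ∀ w w', ‖w‖ ≤ 1 → ‖w'‖ ≤ 1 → |χ w - χ w'| ≤ ‖w - w'‖ := by
    intro w w' hw hw'
    simp only [hχ]
    rw [← sub_div, abs_div, abs_of_pos hCβ, div_le_iff₀ hCβ, mul_comm ‖w - w'‖]
    exact hDl w w' hw hw'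
  have hχc : Continuous χ := hDc.div_const _
  have hψ0 : ∀ σ : ℝ, |σ| ≤ 1 → ∀ w, 0 ≤ φ w * (1 + σ * χ w) / 2 := by
    intro σ hσ w
    by_cases hw : ‖w‖ ≤ 1
    · have h1 : |σ * χ w| ≤ 1 := by
        rw [abs_mul]
        exact mul_le_one₀ hσ (abs_nonneg _) (hχ1 w hw)
      have h2 := (abs_le.1 h1).1
      have h3 := hφ0 w
      have : 0 ≤ φ w * (1 + σ * χ w) := mul_nonneg h3 (by linarith)
      linarith
    · rw [hφs w (by linarith [not_le.1 hw])]
      simp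
  have hψ1 : ∀ σ : ℝ, |σ| ≤ 1 → ∀ w, φ w * (1 + σ * χ w) / 2 ≤ φ w := by
    intro σ hσ w
    by_cases hw : ‖w‖ ≤ 1
    · have h1 : |σ * χ w| ≤ 1 := by
        rw [abs_mul]
        exact mul_le_one₀ hσ (abs_nonneg _) (hχ1 w hw)
      have h2 := (abs_le.1 h1).2
      have h3 := hφ0 w
      nlinarith
    · rw [hφs w (by linarith [not_le.1 hw])]
      simp
  have hψl : ∀ σ : ℝ, |σ| ≤ 1 → ∀ w w',
      |φ w * (1 + σ * χ w) / 2 - φ w' * (1 + σ * χ w') / 2| ≤ 2 * ‖w - w'‖ := by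
    intro σ hσ w w'
    have hn := norm_nonneg (w - w')
    by_cases hw : ‖w‖ ≤ 1
    · by_cases hw' : ‖w'‖ ≤ 1
      · have e : φ w * (1 + σ * χ w) / 2 - φ w' * (1 + σ * χ w') / 2 =
            ((φ w - φ w') * (1 + σ * χ w) + φ w' * (σ * (χ w - χ w'))) / 2 := by ring
        rw [e, abs_div, abs_two]
        have h1 : |1 + σ * χ w| ≤ 2 := by
          refine (abs_add_le _ _).trans ?_
          rw [abs_one, abs_mul]
          have := mul_le_one₀ hσ (abs_nonneg _) (hχ1 w hw)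
          linarith
        have h2 : |(φ w - φ w') * (1 + σ * χ w)| ≤ ‖w - w'‖ * 2 := by
          rw [abs_mul]
          exact mul_le_mul (hφl w w') h1 (abs_nonneg _) hn
        have h3 : |φ w' * (σ * (χ w - χ w'))| ≤ 1 / 2 * (1 * ‖w - w'‖) := by
          rw [abs_mul, abs_mul, abs_of_nonneg (hφ0 w')]
          refine mul_le_mul (hφ1 w') ?_ (by positivity) (by norm_num)
          exact mul_le_mul hσ (hχl w w' hw hw') (abs_nonneg _) zero_le_one
        have h4 := abs_add_le ((φ w - φ w') * (1 + σ * χ w)) (φ w' * (σ * (χ w - χ w')))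
        linarith
      · have h1 : φ w' = 0 := hφs w' (by linarith [not_le.1 hw'])
        have h2 := hφl w w'
        rw [h1] at h2 ⊢
        simp only [zero_mul, zero_div, sub_zero]
        rw [abs_of_nonneg (hψ0 σ hσ w)]
        rw [sub_zero, abs_of_nonneg (hφ0 w)] at h2
        linarith [hψ1 σ hσ w]
    · have h1 : φ w = 0 := hφs w (by linarith [not_le.1 hw])
      have h2 := hφl w w'
      rw [h1] at h2 ⊢
      simp only [zero_mul, zero_div, zero_sub, abs_neg]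
      rw [abs_of_nonneg (hψ0 σ hσ w')]
      rw [zero_sub, abs_neg, abs_of_nonneg (hφ0 w')] at h2
      linarith [hψ1 σ hσ w']
  have hs1 : |(1 : ℝ)| ≤ 1 := by norm_num
  have hs2 : |(-1 : ℝ)| ≤ 1 := by norm_num
  refine ⟨fun w => φ w * (1 + 1 * χ w) / 2, fun w => φ w * (1 + -1 * χ w) / 2, hψl 1 hs1,
    hψl (-1) hs2, fun w => ⟨hψ0 1 hs1 w, (hψ1 1 hs1 w).trans ((hφ1 w).trans (by norm_num))⟩,
    fun w => ⟨hψ0 (-1) hs2 w, (hψ1 (-1) hs2 w).trans ((hφ1 w).trans (by norm_num))⟩,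
    fun w hw => by show φ w * (1 + 1 * χ w) / 2 = 0; rw [hφs w hw]; ring,
    fun w hw => by show φ w * (1 + -1 * χ w) / 2 = 0; rw [hφs w hw]; ring,
    fun w => by ring, ?_⟩
  have hc1 : ∀ σ : ℝ, Continuous fun w => φ w * (1 + σ * χ w) / 2 * DD a μ η D b w := by
    intro σ
    fun_prop
  have hi1 : ∀ σ : ℝ, Integrable fun w => φ w * (1 + σ * χ w) / 2 * DD a μ η D b w := by
    intro σ
    refine int_able (hc1 σ) fun w hw => ?_
    rw [hφs w (by linarith)]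
    ring
  rw [← integral_sub (hi1 1) (hi1 (-1))]
  have e1 : ∀ w, φ w * (1 + 1 * χ w) / 2 * DD a μ η D b w -
      φ w * (1 + -1 * χ w) / 2 * DD a μ η D b w = (CD * β)⁻¹ * (φ w * DD a μ η D b w ^ 2) := by
    intro w
    simp only [hχ]
    field_simp
    ring
  simp_rw [e1]
  rw [integral_const_mul]
  have hc2 : Continuous fun w => φ w * DD a μ η D b w ^ 2 := hφc.mul (hDc.pow 2)
  have hi2 : Integrable fun w => φ w * DD a μ η D b w ^ 2 :=
    int_able hc2 fun w hw => by rw [hφs w (by linarith)]; ring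
  have h1 : ∫ w in Metric.closedBall (0 : E n) (1 / 4), φ w * DD a μ η D b w ^ 2 ≤
      ∫ w, φ w * DD a μ η D b w ^ 2 :=
    setIntegral_le_integral hi2 (Filter.Eventually.of_forall fun w =>
      mul_nonneg (hφ0 w) (sq_nonneg _))
  have h2 : 1 / 4 * ∫ w in Metric.closedBall (0 : E n) (1 / 4), DD a μ η D b w ^ 2 ≤
      ∫ w in Metric.closedBall (0 : E n) (1 / 4), φ w * DD a μ η D b w ^ 2 := by
    rw [← integral_const_mul]
    refine setIntegral_mono_on ?_ ?_ measurableSet_closedBall fun w hw => ?_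
    · exact (continuous_const.mul (hDc.pow 2)).continuousOn.integrableOn_compact
        (isCompact_closedBall _ _)
    · exact hc2.continuousOn.integrableOn_compact (isCompact_closedBall _ _)
    · refine mul_le_mul_of_nonneg_right ?_ (sq_nonneg _)
      rw [mem_closedBall_zero_iff] at hw
      exact le_max_of_le_right (by linarith)
  have h3 := hhom (fun l => b l * (2 * l))
  have h4 : β ^ 2 ≤ ∑ l ∈ Finset.Icc 2 D, (b l * (2 * l)) ^ 2 := by
    rw [hβ2]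
    refine Finset.sum_le_sum fun l hl => ?_
    have hl2 : (2 : ℝ) ≤ l := by exact_mod_cast (Finset.mem_Icc.1 hl).1
    rw [mul_pow]
    have : (1 : ℝ) ≤ (2 * l) ^ 2 := by nlinarith
    nlinarith [sq_nonneg (b l)]
  have h5 : c₁ * β ^ 2 ≤ ∫ w in Metric.closedBall (0 : E n) (1 / 4), DD a μ η D b w ^ 2 :=
    (mul_le_mul_of_nonneg_left h4 hc₁.le).trans h3
  have h6 : c₁ / (4 * CD) * β = (CD * β)⁻¹ * (1 / 4 * (c₁ * β ^ 2)) := by
    field_simp
  rw [h6]
  refine mul_le_mul_of_nonneg_left ?_ (by positivity)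
  linarith

end P23D
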