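import Mathlib
import Pool.Agent.Lib.P23D.Rot
import Pool.Agent.Lib.P23D.NearI
import Pool.Agent.Lib.P23D.NearW
import Pool.Agent.Lib.P23D.Indep

/-!
# Module P23D.Near2 : no killed terms of degree four or more

Notation: `ω = wt a μ`, `u = dr a`, `x p = ⟪w, dr a p⟫`, `e p = ee a η p`, `S = Finset.Icc 2 D`,
`β = √(∑ l ∈ S, b l ^ 2)`, `f = hh k ρ`, `κ = f - ev D b`, `Q t = ∑_{l ∈ S} b l t^(2 l)`,
`g = f - b 0 - b 1 t² = κ + Q` (`ev_split`, uses `b l = 0` for `l > D`).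

PROOF.  Let `η` be given by `exists_eta`, `near_ineq` gives `ε₁, τ₁, C_I`, `poly_exp` `C_P`, `weight`
gives `c, L`.  Suppose `β > 0`, and let `ψ₁, ψ₂` be the weights, `0 < τ ≤ τ₁`.  Apply `near_ineq` (all
`w` with `‖w‖ ≤ 1/2`) with `τ`, multiplied by `ψ₁ w ≥ 0`, and with `-τ`, multiplied by `ψ₂ w ≥ 0`;
add and integrate over `E n` (`ψ` vanishes for `‖w‖ ≥ 1/2`).
Left side = (polynomial part) + (`κ` part).
* polynomial part: `poly_exp`: at least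
  `τ (∫ ψ₁ DD - ∫ ψ₂ DD) - C_P τ² β ∫ (ψ₁ + ψ₂) ≥ c τ β - C τ² β`.
* `κ` part: `∑_p ω p (∫ ψ₁ κ(x p + τ e p) + ∫ ψ₂ κ(x p - τ e p))`; by `shift_le` (only `p` with
  `ω p ≠ 0`, for which `‖dr a p‖ = 1`; `|τ e p| ≤ 1/2`) it differs from
  `∑_p ω p ∫ (ψ₁ + ψ₂) κ(x p) = ∫ φ(‖w‖) Lam ω u κ = 0` (`Lam_int`, `φ r = max 0 (1/2 - r)`, `r = 1`)
  by at most `C τ ∑_p ∫_{B n} |κ(x p)| ≤ C τ √(NN u₀ κ)` (Cauchy-Schwarz, `NN_rot`), and
  `NN u₀ κ ≤ C₁ ε β²` by hypothesis.  So it is at least `- C τ √ε β`.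
Right side: `|b 1| τ²` part at most `C |b 1| τ²`; `∑_p ‖..‖⁴ ∫ ψ g(x p ± τ e p)²` with
`g² ≤ 2 Q² + 2 κ²`: `Q² ≤ C β²` on `[-1, 1]`, and by `shift_sq` `∫ ψ κ(x p ± τ e p)² ≤ NN u₀ κ ≤ C ε β²`
(`ε ≤ 1`).  So the right side is at most `C (|b 1| τ² + β²)`.
Together: `c τ β ≤ C₂ τ² β + C₃ √ε τ β + C₄ |b 1| τ² + C₄ β²`, for all `0 < τ ≤ τ₁`.
Choose `θ ≤ τ₁` with `(C₂ + C₄) θ ≤ c / 4`, then `ε` with `C₃ √ε ≤ c / 4` and
`C₄ (|b 1| + β) / θ ≤ c / 4` (`|b 1| ≤ ε`, `β ≤ √D ε`), `ε ≤ ε₁`.. .  With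
`τ = θ β / (|b 1| + β) ≤ θ`: `|b 1| τ² ≤ θ τ β` and `β² = τ β (|b 1| + β) / θ`; dividing by `τ β > 0`
gives `c ≤ 3 c / 4`, a contradiction.  So `β = 0`.
-/

set_option autoImplicit false

open MeasureTheory

namespace P23D

theorem ev_split (D : ℕ) (b : ℕ → ℝ) (hb : ∀ l, b l ≠ 0 → l ≤ D) (t : ℝ) :
    ev D b t = b 0 + b 1 * t ^ 2 + ∑ l ∈ Finset.Icc 2 D, b l * t ^ (2 * l) := by
  have h0 : ∀ l, ¬ l ≤ D → b l = 0 := fun l hl => by
    by_contra h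
    exact hl (hb l h)
  have e1 : ev D b t = ∑ l ∈ Finset.range (D + 2), b l * t ^ (2 * l) := by
    unfold ev
    rw [Finset.sum_range_succ _ (D + 1), h0 (D + 1) (by omega), zero_mul, add_zero]
  have e2 : ∑ l ∈ Finset.Icc 2 D, b l * t ^ (2 * l) =
      ∑ l ∈ Finset.Ico 2 (D + 2), b l * t ^ (2 * l) := by
    refine Finset.sum_subset ?_ ?_
    · intro l hl
      rw [Finset.mem_Icc] at hl
      rw [Finset.mem_Ico]
      omega
    · intro l hl hl'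
      rw [Finset.mem_Ico] at hl
      rw [Finset.mem_Icc] at hl'
      rw [h0 l (by omega), zero_mul]
  rw [e1, e2, Finset.range_eq_Ico, Finset.sum_eq_sum_Ico_succ_bot (by omega),
    Finset.sum_eq_sum_Ico_succ_bot (by omega)]
  simp only [mul_zero, pow_zero, mul_one, zero_add]
  ring

namespace Near2Aux

open NearWAux

/-- volume of the unit ball -/
noncomputable def vB (n : ℕ) : ℝ := ∫ _w in B n, (1 : ℝ)

theorem vB_nonneg (n : ℕ) : 0 ≤ vB n := integral_nonneg fun _ => zero_le_one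

theorem int_le_vB {n : ℕ} {G : E n → ℝ} (hG : Continuous G) (hs : ∀ w, 1 < ‖w‖ → G w = 0) (M : ℝ)
    (hM : ∀ w, ‖w‖ ≤ 1 → G w ≤ M) : ∫ w, G w ≤ M * vB n := by
  rw [int_ball hs]
  unfold vB
  rw [← integral_const_mul]
  refine setIntegral_mono_on ?_ ?_ measurableSet_closedBall fun w hw => ?_
  · exact hG.continuousOn.integrableOn_compact (isCompact_closedBall _ _)
  · exact continuousOn_const.integrableOn_compact (isCompact_closedBall _ _)
  · rw [mul_one]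
    exact hM w (by simpa using hw)

theorem cs_ball {n : ℕ} {G : E n → ℝ} (hG : Continuous G) :
    (∫ w in B n, |G w|) ^ 2 ≤ vB n * ∫ w in B n, G w ^ 2 := by
  have hi : ∀ {H : E n → ℝ}, Continuous H → IntegrableOn H (B n) := fun hH =>
    hH.continuousOn.integrableOn_compact (isCompact_closedBall _ _)
  have h0 : ∀ m : ℝ, 0 ≤ ∫ w in B n, (|G w| - m) ^ 2 := fun m =>
    integral_nonneg fun w => sq_nonneg _
  have h1 : ∀ m : ℝ, ∫ w in B n, (|G w| - m) ^ 2 =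
      (∫ w in B n, G w ^ 2) - 2 * m * (∫ w in B n, |G w|) + m ^ 2 * vB n := by
    intro m
    have e1 : ∀ w, (|G w| - m) ^ 2 = G w ^ 2 - 2 * m * |G w| + m ^ 2 * 1 := fun w => by
      rw [← sq_abs (G w)]
      ring
    simp_rw [e1]
    rw [integral_add (hi (by fun_prop)) (hi (by fun_prop)),
      integral_sub (hi (by fun_prop)) (hi (by fun_prop)), integral_const_mul, integral_const_mul]
    rfl
  set I : ℝ := ∫ w in B n, |G w| with hI
  rcases (vB_nonneg n).eq_or_lt with hv | hv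
  · have h2 : I = 0 := by
      by_contra hne
      have h3 := h0 ((∫ w in B n, G w ^ 2) / I)
      have h4 := h0 (((∫ w in B n, G w ^ 2) + 1) / (2 * I))
      rw [h1, ← hv] at h4
      have h5 : 2 * (((∫ w in B n, G w ^ 2) + 1) / (2 * I)) * I = (∫ w in B n, G w ^ 2) + 1 := by
        field_simp
      rw [h5] at h4
      linarith
    rw [h2, ← hv]
    simp
  · have h2 := h0 (I / vB n)
    rw [h1] at h2
    have h3 : (∫ w in B n, G w ^ 2) - 2 * (I / vB n) * I + (I / vB n) ^ 2 * vB n =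
        (∫ w in B n, G w ^ 2) - I ^ 2 / vB n := by
      field_simp
      ring
    rw [h3] at h2
    have h4 : I ^ 2 / vB n ≤ ∫ w in B n, G w ^ 2 := by linarith
    rw [div_le_iff₀ hv] at h4
    linarith

variable {ι : Type} [Fintype ι] {n : ℕ} {a : ι → E n} {μ : ι → ℝ}

/-- displaced argument -/
noncomputable def yy (a : ι → E n) (η : ι → ℝ) (τ : ℝ) (p : ι × ι) (w : E n) : ℝ :=
  inner ℝ w (dr a p) + τ * ee a η p

omit [Fintype ι] in
theorem yy_cont (η : ι → ℝ) (τ : ℝ) (p : ι × ι) : Continuous (yy a η τ p) := by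
  unfold yy
  fun_prop

theorem yy_le (hd : Dep a μ) (η : ι → ℝ) {τ₁ : ℝ} (hτe : ∀ p : ι × ι, τ₁ * |ee a η p| ≤ 1 / 2)
    {τ : ℝ} (hτ : |τ| ≤ τ₁) (p : ι × ι) (w : E n) (hw : ‖w‖ ≤ 1 / 2) : |yy a η τ p w| ≤ 1 := by
  unfold yy
  have h1 := (inner_dr_le hd p w).trans hw
  have h2 : |τ * ee a η p| ≤ 1 / 2 := by
    rw [abs_mul]
    exact (mul_le_mul_of_nonneg_right hτ (abs_nonneg _)).trans (hτe p)
  exact (abs_add_le _ _).trans (by linarith)

/-- the polynomial part -/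
noncomputable def QQ (D : ℕ) (b : ℕ → ℝ) (t : ℝ) : ℝ := ∑ l ∈ Finset.Icc 2 D, b l * t ^ (2 * l)

theorem QQ_cont (D : ℕ) (b : ℕ → ℝ) : Continuous (QQ D b) := by
  unfold QQ
  fun_prop

theorem QQ_le (D : ℕ) (b : ℕ → ℝ) (t : ℝ) (ht : |t| ≤ 1) :
    |QQ D b t| ≤ D * √(∑ l ∈ Finset.Icc 2 D, b l ^ 2) := by
  unfold QQ
  refine (Finset.abs_sum_le_sum_abs _ _).trans ?_
  have h1 : ∀ l ∈ Finset.Icc 2 D, |b l * t ^ (2 * l)| ≤ √(∑ l ∈ Finset.Icc 2 D, b l ^ 2) := by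
    intro l hl
    rw [abs_mul, abs_pow]
    have h2 : |t| ^ (2 * l) ≤ 1 := pow_le_one₀ (abs_nonneg _) ht
    have h3 := abs_le_beta D b hl
    calc |b l| * |t| ^ (2 * l) ≤ |b l| * 1 := mul_le_mul_of_nonneg_left h2 (abs_nonneg _)
      _ ≤ _ := by rw [mul_one]; exact h3
  refine (Finset.sum_le_sum h1).trans ?_
  rw [Finset.sum_const, nsmul_eq_mul]
  refine mul_le_mul_of_nonneg_right ?_ (Real.sqrt_nonneg _)
  have : (Finset.Icc 2 D).card ≤ D := by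
    rw [Nat.card_Icc]
    omega
  exact_mod_cast this

/-- the four one-sided estimates -/
theorem side (hd : Dep a μ) {u₀ : E n} (hF : Fam (wt a μ) (dr a) u₀) (η : ι → ℝ) (D : ℕ)
    (b : ℕ → ℝ) (f : ℝ → ℝ) (hf : Continuous f)
    (hsplit : ∀ t, f t - b 0 - b 1 * t ^ 2 = (f t - ev D b t) + QQ D b t)
    {τ₁ CI : ℝ} (hCI : 0 ≤ CI) (hτe : ∀ p : ι × ι, τ₁ * |ee a η p| ≤ 1 / 2)
    (hI : ∀ w : E n, ‖w‖ ≤ 1 / 2 → ∀ τ : ℝ, |τ| ≤ τ₁ →
      ∑ p : ι × ι, wt a μ p * (f (yy a η τ p w) - b 0 - b 1 * yy a η τ p w ^ 2) ≤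
        CI * (|b 1| * τ ^ 2 + ∑ p : ι × ι, ‖a p.1 - a p.2‖ ^ 4 *
          (f (yy a η τ p w) - b 0 - b 1 * yy a η τ p w ^ 2) ^ 2))
    (ψ : E n → ℝ) (L : ℝ) (hL : ∀ w w', |ψ w - ψ w'| ≤ L * ‖w - w'‖)
    (hψ : ∀ w, 0 ≤ ψ w ∧ ψ w ≤ 1) (hs : ∀ w, 1 / 2 ≤ ‖w‖ → ψ w = 0) (τ : ℝ) (hτ : |τ| ≤ τ₁) :
    (∫ w, ψ w * ∑ p : ι × ι, wt a μ p * QQ D b (yy a η τ p w)) +
      (∫ w, ψ w * ∑ p : ι × ι, wt a μ p * (f (yy a η τ p w) - ev D b (yy a η τ p w))) ≤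
      CI * (|b 1| * τ ^ 2 * vB n + (∑ p : ι × ι, ‖a p.1 - a p.2‖ ^ 4) *
        (2 * NN u₀ (fun t => f t - ev D b t) +
          2 * (D * √(∑ l ∈ Finset.Icc 2 D, b l ^ 2)) ^ 2 * vB n)) := by
  have hψc : Continuous ψ := lip_cont hL
  have hs0 : ∀ w, 1 < ‖w‖ → ψ w = 0 := fun w hw => hs w (by linarith)
  have hyc : ∀ p, Continuous (yy a η τ p) := fun p => yy_cont η τ p
  set κ : ℝ → ℝ := fun t => f t - ev D b t with hκ
  have hevc : Continuous (ev D b) := by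
    unfold ev
    fun_prop
  have hκc : Continuous κ := hf.sub hevc
  have hQc := QQ_cont D b
  set g : ℝ → ℝ := fun t => κ t + QQ D b t with hg
  have hgc : Continuous g := hκc.add hQc
  have hge : ∀ t, f t - b 0 - b 1 * t ^ 2 = g t := hsplit
  simp only [hge] at hI
  set β : ℝ := √(∑ l ∈ Finset.Icc 2 D, b l ^ 2) with hβ
  -- left side
  have cL : Continuous fun w => ∑ p : ι × ι, wt a μ p * QQ D b (yy a η τ p w) := by
    refine continuous_finsetSum _ fun p _ => ?_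
    exact continuous_const.mul (hQc.comp (hyc p))
  have cK : Continuous fun w => ∑ p : ι × ι, wt a μ p * κ (yy a η τ p w) := by
    refine continuous_finsetSum _ fun p _ => ?_
    exact continuous_const.mul (hκc.comp (hyc p))
  have iL : Integrable fun w => ψ w * ∑ p : ι × ι, wt a μ p * QQ D b (yy a η τ p w) :=
    int_able (hψc.mul cL) fun w hw => by rw [hs0 w hw, zero_mul]
  have iK : Integrable fun w => ψ w * ∑ p : ι × ι, wt a μ p * κ (yy a η τ p w) :=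
    int_able (hψc.mul cK) fun w hw => by rw [hs0 w hw, zero_mul]
  rw [← integral_add iL iK]
  -- right side
  have cR : ∀ p, Continuous fun w => ψ w * g (yy a η τ p w) ^ 2 := fun p =>
    hψc.mul ((hgc.comp (hyc p)).pow 2)
  have iR : ∀ p, Integrable fun w => ψ w * g (yy a η τ p w) ^ 2 := fun p =>
    int_able (cR p) fun w hw => by rw [hs0 w hw, zero_mul]
  have iψ : Integrable ψ := int_able hψc hs0
  have iRs : Integrable fun w => ∑ p : ι × ι, ‖a p.1 - a p.2‖ ^ 4 *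
      (ψ w * g (yy a η τ p w) ^ 2) := integrable_finsetSum _ fun p _ => (iR p).const_mul _
  have h1 : ∫ w, (ψ w * (∑ p : ι × ι, wt a μ p * QQ D b (yy a η τ p w)) +
      ψ w * ∑ p : ι × ι, wt a μ p * κ (yy a η τ p w)) ≤
      ∫ w, CI * (|b 1| * τ ^ 2 * ψ w + ∑ p : ι × ι, ‖a p.1 - a p.2‖ ^ 4 *
        (ψ w * g (yy a η τ p w) ^ 2)) := by
    refine integral_mono (iL.add iK) (((iψ.const_mul _).add iRs).const_mul _) fun w => ?_
    show ψ w * (∑ p : ι × ι, wt a μ p * QQ D b (yy a η τ p w)) +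
      ψ w * (∑ p : ι × ι, wt a μ p * κ (yy a η τ p w)) ≤
      CI * (|b 1| * τ ^ 2 * ψ w + ∑ p : ι × ι, ‖a p.1 - a p.2‖ ^ 4 *
        (ψ w * g (yy a η τ p w) ^ 2))
    rcases le_total ‖w‖ (1 / 2) with hw | hw
    · have h2 := mul_le_mul_of_nonneg_left (hI w hw τ hτ) (hψ w).1
      have e1 : ψ w * (∑ p : ι × ι, wt a μ p * QQ D b (yy a η τ p w)) +
          ψ w * (∑ p : ι × ι, wt a μ p * κ (yy a η τ p w)) =
          ψ w * ∑ p : ι × ι, wt a μ p * g (yy a η τ p w) := by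
        rw [← mul_add, ← Finset.sum_add_distrib]
        congr 1
        refine Finset.sum_congr rfl fun p _ => ?_
        simp only [hg]
        ring
      have e2 : CI * (|b 1| * τ ^ 2 * ψ w + ∑ p : ι × ι, ‖a p.1 - a p.2‖ ^ 4 *
          (ψ w * g (yy a η τ p w) ^ 2)) = ψ w * (CI * (|b 1| * τ ^ 2 +
            ∑ p : ι × ι, ‖a p.1 - a p.2‖ ^ 4 * g (yy a η τ p w) ^ 2)) := by
        have e3 : ∑ p : ι × ι, ‖a p.1 - a p.2‖ ^ 4 * (ψ w * g (yy a η τ p w) ^ 2) =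
            ψ w * ∑ p : ι × ι, ‖a p.1 - a p.2‖ ^ 4 * g (yy a η τ p w) ^ 2 := by
          rw [Finset.mul_sum]
          exact Finset.sum_congr rfl fun p _ => by ring
        rw [e3]
        ring
      rw [e1, e2]
      exact h2
    · rw [hs w hw]
      simp
  refine h1.trans ?_
  rw [integral_const_mul]
  refine mul_le_mul_of_nonneg_left ?_ hCI
  rw [integral_add (iψ.const_mul _) iRs, integral_const_mul,
    integral_finsetSum _ (fun p _ => (iR p).const_mul _)]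
  have h2 : ∫ w, ψ w ≤ vB n := by
    have := int_le_vB hψc hs0 1 fun w _ => (hψ w).2
    linarith
  have h3 : |b 1| * τ ^ 2 * ∫ w, ψ w ≤ |b 1| * τ ^ 2 * vB n :=
    mul_le_mul_of_nonneg_left h2 (by positivity)
  have h4 : ∀ p : ι × ι, ∫ w, ‖a p.1 - a p.2‖ ^ 4 * (ψ w * g (yy a η τ p w) ^ 2) ≤
      ‖a p.1 - a p.2‖ ^ 4 * (2 * NN u₀ κ + 2 * (D * β) ^ 2 * vB n) := by
    intro p
    rw [integral_const_mul]
    by_cases hp : p.1 = p.2
    · rw [hp]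
      simp
    · refine mul_le_mul_of_nonneg_left ?_ (by positivity)
      have c1 : Continuous fun w => ψ w * κ (yy a η τ p w) ^ 2 :=
        hψc.mul ((hκc.comp (hyc p)).pow 2)
      have c2 : Continuous fun w => ψ w * QQ D b (yy a η τ p w) ^ 2 :=
        hψc.mul ((hQc.comp (hyc p)).pow 2)
      have i1 : Integrable fun w => ψ w * κ (yy a η τ p w) ^ 2 :=
        int_able c1 fun w hw => by rw [hs0 w hw, zero_mul]
      have i2 : Integrable fun w => ψ w * QQ D b (yy a η τ p w) ^ 2 :=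
        int_able c2 fun w hw => by rw [hs0 w hw, zero_mul]
      have h5 : ∫ w, ψ w * g (yy a η τ p w) ^ 2 ≤
          ∫ w, (2 * (ψ w * κ (yy a η τ p w) ^ 2) + 2 * (ψ w * QQ D b (yy a η τ p w) ^ 2)) := by
        refine integral_mono (iR p) ((i1.const_mul _).add (i2.const_mul _)) fun w => ?_
        simp only [hg]
        have h6 := (hψ w).1
        nlinarith [mul_nonneg h6 (sq_nonneg (κ (yy a η τ p w) - QQ D b (yy a η τ p w)))]
      refine h5.trans ?_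
      rw [integral_add (i1.const_mul _) (i2.const_mul _), integral_const_mul, integral_const_mul]
      have hu := hd.norm_dir hp
      have h7 : ∫ w, ψ w * κ (yy a η τ p w) ^ 2 ≤ NN u₀ κ := by
        have h8 := shift_sq (dr a p) hu ψ hψc (fun w => (hψ w).2) hs κ hκc (τ * ee a η p) (by
          rw [abs_mul]
          exact (mul_le_mul_of_nonneg_right hτ (abs_nonneg _)).trans (hτe p))
        rw [← NN_rot κ hu hF.norm0]
        exact h8
      have h9 : ∫ w, ψ w * QQ D b (yy a η τ p w) ^ 2 ≤ (D * β) ^ 2 * vB n := by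
        refine int_le_vB c2 (fun w hw => by rw [hs0 w hw, zero_mul]) _ fun w _ => ?_
        rcases le_total ‖w‖ (1 / 2) with hw | hw
        · have h10 := QQ_le D b _ (yy_le hd η hτe hτ p w hw)
          have h11 : QQ D b (yy a η τ p w) ^ 2 ≤ (D * β) ^ 2 := by
            rw [← sq_abs]
            exact pow_le_pow_left₀ (abs_nonneg _) h10 2
          calc ψ w * QQ D b (yy a η τ p w) ^ 2 ≤ 1 * (D * β) ^ 2 :=
                mul_le_mul (hψ w).2 h11 (sq_nonneg _) zero_le_one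
            _ = (D * β) ^ 2 := one_mul _
        · rw [hs w hw, zero_mul]
          positivity
      linarith
  have h5 : ∑ p : ι × ι, ∫ w, ‖a p.1 - a p.2‖ ^ 4 * (ψ w * g (yy a η τ p w) ^ 2) ≤
      (∑ p : ι × ι, ‖a p.1 - a p.2‖ ^ 4) * (2 * NN u₀ κ + 2 * (D * β) ^ 2 * vB n) := by
    rw [Finset.sum_mul]
    exact Finset.sum_le_sum fun p _ => h4 p
  linarith

/-- the polynomial part from below -/
theorem sideQ (η : ι → ℝ) (D : ℕ) (b : ℕ → ℝ) {CP β : ℝ} (hCP : 0 ≤ CP * β)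
    (hP : ∀ w : E n, ‖w‖ ≤ 1 → ∀ τ : ℝ, |τ| ≤ 1 →
      |(∑ p : ι × ι, wt a μ p * QQ D b (yy a η τ p w)) - τ * DD a μ η D b w| ≤ CP * τ ^ 2 * β)
    (ψ : E n → ℝ) (L : ℝ) (hL : ∀ w w', |ψ w - ψ w'| ≤ L * ‖w - w'‖)
    (hψ : ∀ w, 0 ≤ ψ w ∧ ψ w ≤ 1) (hs : ∀ w, 1 / 2 ≤ ‖w‖ → ψ w = 0) (τ : ℝ) (hτ : |τ| ≤ 1) :
    τ * (∫ w, ψ w * DD a μ η D b w) - CP * τ ^ 2 * β * vB n ≤
      ∫ w, ψ w * ∑ p : ι × ι, wt a μ p * QQ D b (yy a η τ p w) := by
  have hψc : Continuous ψ := lip_cont hL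
  have hs0 : ∀ w, 1 < ‖w‖ → ψ w = 0 := fun w hw => hs w (by linarith)
  have cL : Continuous fun w => ∑ p : ι × ι, wt a μ p * QQ D b (yy a η τ p w) := by
    refine continuous_finsetSum _ fun p _ => ?_
    exact continuous_const.mul ((QQ_cont D b).comp (yy_cont η τ p))
  have cD : Continuous (DD a μ η D b) := by
    unfold DD
    refine continuous_finsetSum _ fun l _ => ?_
    exact continuous_const.mul (VV_cont a μ η l)
  have iL : Integrable fun w => ψ w * ∑ p : ι × ι, wt a μ p * QQ D b (yy a η τ p w) :=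
    int_able (hψc.mul cL) fun w hw => by rw [hs0 w hw, zero_mul]
  have iD : Integrable fun w => ψ w * DD a μ η D b w :=
    int_able (hψc.mul cD) fun w hw => by rw [hs0 w hw, zero_mul]
  have h1 : ∫ w, (τ * (ψ w * DD a μ η D b w) -
      ψ w * ∑ p : ι × ι, wt a μ p * QQ D b (yy a η τ p w)) ≤ CP * τ ^ 2 * β * vB n := by
    refine int_le_vB ?_ ?_ _ fun w hw => ?_
    · exact (continuous_const.mul (hψc.mul cD)).sub (hψc.mul cL)
    · intro w hw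
      rw [hs0 w hw]
      ring
    · have h2 := (abs_le.1 (hP w hw τ hτ)).1
      have h3 : 0 ≤ CP * τ ^ 2 * β := by
        have : CP * τ ^ 2 * β = CP * β * τ ^ 2 := by ring
        rw [this]
        positivity
      have h4 := hψ w
      nlinarith
  rw [integral_sub (iD.const_mul _) iL, integral_const_mul] at h1
  linarith

/-- the remainder part -/
theorem sideK {u₀ : E n} (hF : Fam (wt a μ) (dr a) u₀) (η : ι → ℝ)
    (κ : ℝ → ℝ) (hκ : Continuous κ) {τ₁ : ℝ} (hτe : ∀ p : ι × ι, τ₁ * |ee a η p| ≤ 1 / 2)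
    (ψ : E n → ℝ) (L : ℝ) (hL : ∀ w w', |ψ w - ψ w'| ≤ L * ‖w - w'‖)
    (hs : ∀ w, 1 / 2 ≤ ‖w‖ → ψ w = 0) (τ : ℝ) (hτ : |τ| ≤ τ₁) :
    |(∫ w, ψ w * ∑ p : ι × ι, wt a μ p * κ (yy a η τ p w)) -
      ∫ w, ψ w * Lam (wt a μ) (dr a) κ w| ≤
      L * |τ| * (∑ p : ι × ι, |wt a μ p| * |ee a η p|) * ∫ w in B n, |κ (inner ℝ w u₀)| := by
  have hψc : Continuous ψ := lip_cont hL
  have hs0 : ∀ w, 1 < ‖w‖ → ψ w = 0 := fun w hw => hs w (by linarith)
  have c1 : ∀ p, Continuous fun w => ψ w * κ (inner ℝ w (dr a p) + τ * ee a η p) := fun p => by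
    fun_prop
  have c2 : ∀ p, Continuous fun w => ψ w * κ (inner ℝ w (dr a p)) := fun p => by fun_prop
  have i1 : ∀ p, Integrable fun w => ψ w * κ (inner ℝ w (dr a p) + τ * ee a η p) := fun p =>
    int_able (c1 p) fun w hw => by rw [hs0 w hw, zero_mul]
  have i2 : ∀ p, Integrable fun w => ψ w * κ (inner ℝ w (dr a p)) := fun p =>
    int_able (c2 p) fun w hw => by rw [hs0 w hw, zero_mul]
  have e1 : ∫ w, ψ w * ∑ p : ι × ι, wt a μ p * κ (yy a η τ p w) =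
      ∑ p : ι × ι, wt a μ p * ∫ w, ψ w * κ (inner ℝ w (dr a p) + τ * ee a η p) := by
    simp_rw [← integral_const_mul]
    rw [← integral_finsetSum _ (fun p _ => (i1 p).const_mul _)]
    refine integral_congr_ae (Filter.Eventually.of_forall fun w => ?_)
    simp only [yy]
    rw [Finset.mul_sum]
    exact Finset.sum_congr rfl fun p _ => by ring
  have e2 : ∫ w, ψ w * Lam (wt a μ) (dr a) κ w =
      ∑ p : ι × ι, wt a μ p * ∫ w, ψ w * κ (inner ℝ w (dr a p)) := by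
    simp_rw [← integral_const_mul]
    rw [← integral_finsetSum _ (fun p _ => (i2 p).const_mul _)]
    refine integral_congr_ae (Filter.Eventually.of_forall fun w => ?_)
    simp only [Lam]
    rw [Finset.mul_sum]
    exact Finset.sum_congr rfl fun p _ => by ring
  rw [e1, e2, ← Finset.sum_sub_distrib]
  have e3 : L * |τ| * (∑ p : ι × ι, |wt a μ p| * |ee a η p|) * ∫ w in B n, |κ (inner ℝ w u₀)| =
      ∑ p : ι × ι, |wt a μ p| * (L * (|τ| * |ee a η p|) * ∫ w in B n, |κ (inner ℝ w u₀)|) := by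
    rw [Finset.mul_sum, Finset.sum_mul]
    exact Finset.sum_congr rfl fun p _ => by ring
  rw [e3]
  refine (Finset.abs_sum_le_sum_abs _ _).trans (Finset.sum_le_sum fun p _ => ?_)
  rw [← mul_sub, abs_mul]
  by_cases hp : wt a μ p = 0
  · rw [hp]
    simp
  · refine mul_le_mul_of_nonneg_left ?_ (abs_nonneg _)
    have hu := hF.norm p hp
    have h1 := shift_le (dr a p) hu ψ L hL hs κ hκ (τ * ee a η p) (by
      rw [abs_mul]
      exact (mul_le_mul_of_nonneg_right hτ (abs_nonneg _)).trans (hτe p))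
    have h2 : ∫ w in B n, |κ (inner ℝ w (dr a p))| = ∫ w in B n, |κ (inner ℝ w u₀)| := by
      have := rot_ball (fun _ => 1) (fun t => |κ t|) 1 hu hF.norm0
      simpa using this
    rw [h2, abs_mul] at h1
    exact h1

theorem arith1 {V CP L W1 C' ε CI S4 D' c β τ P1 P2 Q1 Q2 R1 R2 M1 M2 I₀ N B1 : ℝ}
    (hCI : 0 ≤ CI) (hS4 : 0 ≤ S4) (hLW : 0 ≤ L * τ * W1)
    (s1 : P1 + Q1 ≤ CI * (B1 * τ ^ 2 * V + S4 * (2 * N + 2 * (D' * β) ^ 2 * V)))
    (s2 : P2 + Q2 ≤ CI * (B1 * τ ^ 2 * V + S4 * (2 * N + 2 * (D' * β) ^ 2 * V)))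
    (q1 : τ * M1 - CP * τ ^ 2 * β * V ≤ P1) (q2 : -τ * M2 - CP * τ ^ 2 * β * V ≤ P2)
    (k1 : -(L * τ * W1 * I₀) ≤ Q1 - R1) (k2 : -(L * τ * W1 * I₀) ≤ Q2 - R2) (hR : R1 + R2 = 0)
    (hW : c * β ≤ M1 - M2) (hτ : 0 ≤ τ) (hI : I₀ ≤ √(V * C') * √ε * β) (hN : N ≤ C' * β ^ 2) :
    c * τ * β ≤ 2 * V * CP * τ ^ 2 * β + 2 * L * W1 * √(V * C') * √ε * τ * β +
      2 * CI * V * B1 * τ ^ 2 + 2 * CI * S4 * (2 * C' + 2 * D' ^ 2 * V) * β ^ 2 := by
  have hW' := mul_le_mul_of_nonneg_left hW hτ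
  have hI' := mul_le_mul_of_nonneg_left hI hLW
  have hN' : CI * (B1 * τ ^ 2 * V + S4 * (2 * N + 2 * (D' * β) ^ 2 * V)) ≤
      CI * (B1 * τ ^ 2 * V + S4 * (2 * (C' * β ^ 2) + 2 * (D' * β) ^ 2 * V)) := by
    refine mul_le_mul_of_nonneg_left ?_ hCI
    have := mul_le_mul_of_nonneg_left (show 2 * N + 2 * (D' * β) ^ 2 * V ≤
      2 * (C' * β ^ 2) + 2 * (D' * β) ^ 2 * V by linarith) hS4
    linarith
  have e1 : 2 * V * CP * τ ^ 2 * β = 2 * (CP * τ ^ 2 * β * V) := by ring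
  have e2 : 2 * L * W1 * √(V * C') * √ε * τ * β = 2 * (L * τ * W1 * (√(V * C') * √ε * β)) := by
    ring
  have e3 : 2 * CI * V * B1 * τ ^ 2 + 2 * CI * S4 * (2 * C' + 2 * D' ^ 2 * V) * β ^ 2 =
      2 * (CI * (B1 * τ ^ 2 * V + S4 * (2 * (C' * β ^ 2) + 2 * (D' * β) ^ 2 * V))) := by
    ring
  linarith

theorem arith2 {K1 K2 K3 K4 c β τ θ B1 D' ε sε : ℝ} (hK1 : 0 ≤ K1) (hK3 : 0 ≤ K3)
    (hK4 : 0 ≤ K4) (hτ0 : 0 < τ) (hβ : 0 < β) (hθ0 : 0 < θ) (hc : 0 < c) (hτθ : τ ≤ θ)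
    (hτb : B1 * τ ≤ θ * β) (hτβ : β * θ = τ * (B1 + β)) (hθ2 : (K1 + K3) * θ ≤ c / 4)
    (hε3 : K2 * sε ≤ c / 4) (hβle : B1 + β ≤ (D' + 2) * ε) (hε4 : K4 * ((D' + 2) * ε) ≤ c / 4 * θ)
    (hfin : c * τ * β ≤ K1 * τ ^ 2 * β + K2 * sε * τ * β + K3 * B1 * τ ^ 2 + K4 * β ^ 2) :
    False := by
  have hτβ0 : 0 < τ * β := by positivity
  have t1 : K1 * τ ^ 2 * β ≤ K1 * θ * (τ * β) := by
    have : K1 * τ * (τ * β) ≤ K1 * θ * (τ * β) := by
      refine mul_le_mul_of_nonneg_right ?_ hτβ0.le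
      exact mul_le_mul_of_nonneg_left hτθ hK1
    linarith
  have t2 : K3 * B1 * τ ^ 2 ≤ K3 * θ * (τ * β) := by
    have : K3 * τ * (B1 * τ) ≤ K3 * τ * (θ * β) :=
      mul_le_mul_of_nonneg_left hτb (by positivity)
    linarith
  have t3 : K2 * sε * τ * β ≤ c / 4 * (τ * β) := by
    have := mul_le_mul_of_nonneg_right hε3 hτβ0.le
    linarith
  have t4 : K4 * β ^ 2 * θ ≤ c / 4 * θ * (τ * β) := by
    have h1 : K4 * β ^ 2 * θ = K4 * (B1 + β) * (τ * β) := by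
      have : K4 * β ^ 2 * θ = K4 * β * (β * θ) := by ring
      rw [this, hτβ]
      ring
    rw [h1]
    refine mul_le_mul_of_nonneg_right ?_ hτβ0.le
    exact (mul_le_mul_of_nonneg_left hβle hK4).trans hε4
  have t4' : K4 * β ^ 2 ≤ c / 4 * (τ * β) := by
    have h1 : K4 * β ^ 2 * θ ≤ c / 4 * (τ * β) * θ := by linarith
    exact le_of_mul_le_mul_right h1 hθ0
  have t5 : (K1 + K3) * θ * (τ * β) ≤ c / 4 * (τ * β) :=
    mul_le_mul_of_nonneg_right hθ2 hτβ0.le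
  have t6 : 0 < c * (τ * β) := by positivity
  linarith

end Near2Aux

open Near2Aux NearWAux

theorem near2 {ι : Type} [Fintype ι] {n : ℕ} {a : ι → E n} {μ : ι → ℝ} (hd : Dep a μ)
    {u₀ : E n} (hF : Fam (wt a μ) (dr a) u₀) (D : ℕ) (C : ℝ) :
    ∃ ε > 0, ∀ k : ℝ → ℝ, Bad a k → ∀ ρ : ℝ, 0 < ρ → ρ < 1 → Continuous (hh k ρ) →
      ∀ b : ℕ → ℝ, InK (wt a μ) (dr a) D b → (∀ l, |b l| ≤ ε) →
      (∀ t, |t| ≤ 1 → |hh k ρ t - ev D b t| ≤ ε) →
      NN u₀ (fun t => hh k ρ t - ev D b t) ≤ C * ε * ∑ l ∈ Finset.Icc 2 D, b l ^ 2 →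
      ∀ l, 2 ≤ l → b l = 0 := by
  obtain ⟨η, hη⟩ := exists_eta hd
  obtain ⟨ε₁, hε₁, τ₁, hτ₁, CI, hCI, hτ11, hτe, hI⟩ := near_ineq hd η
  obtain ⟨CP, hCP, hP⟩ := poly_exp hd η D
  obtain ⟨c, hc, L, hL, hW⟩ := weight hd η hη D
  set V : ℝ := vB n with hV
  have hV0 : 0 ≤ V := vB_nonneg n
  set W1 : ℝ := ∑ p : ι × ι, |wt a μ p| * |ee a η p| with hW1
  have hW10 : 0 ≤ W1 := Finset.sum_nonneg fun p _ => by positivity
  set S4 : ℝ := ∑ p : ι × ι, ‖a p.1 - a p.2‖ ^ 4 with hS4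
  have hS40 : 0 ≤ S4 := Finset.sum_nonneg fun p _ => by positivity
  set C' : ℝ := |C| with hC'
  have hC'0 : 0 ≤ C' := abs_nonneg _
  -- the constants of the final inequality
  set K1 : ℝ := 2 * V * CP with hK1
  set K2 : ℝ := 2 * L * W1 * √(V * C') with hK2
  set K3 : ℝ := 2 * CI * V with hK3
  set K4 : ℝ := 2 * CI * S4 * (2 * C' + 2 * (D : ℝ) ^ 2 * V) with hK4
  have hK10 : 0 ≤ K1 := by positivity
  have hK20 : 0 ≤ K2 := by positivity
  have hK30 : 0 ≤ K3 := by positivity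
  have hK40 : 0 ≤ K4 := by positivity
  set θ : ℝ := min τ₁ (c / (4 * (K1 + K3 + 1))) with hθ
  have hθ0 : 0 < θ := by positivity
  have hθ1 : θ ≤ τ₁ := min_le_left _ _
  have hθ2 : (K1 + K3) * θ ≤ c / 4 := by
    have h1 : θ ≤ c / (4 * (K1 + K3 + 1)) := min_le_right _ _
    rw [le_div_iff₀ (by positivity)] at h1
    nlinarith
  set ε : ℝ := min (min 1 (ε₁ / (D + 1))) (min ((c / (4 * (K2 + 1))) ^ 2)
    (c * θ / (4 * (K4 + 1) * (D + 2)))) with hε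
  have hε0 : 0 < ε := by positivity
  have hε1 : ε ≤ 1 := (min_le_left _ _).trans (min_le_left _ _)
  have hε2 : (D + 1) * ε ≤ ε₁ := by
    have h1 : ε ≤ ε₁ / (D + 1) := (min_le_left _ _).trans (min_le_right _ _)
    rw [le_div_iff₀ (by positivity)] at h1
    linarith
  have hε3 : K2 * √ε ≤ c / 4 := by
    have h1 : ε ≤ (c / (4 * (K2 + 1))) ^ 2 := (min_le_right _ _).trans (min_le_left _ _)
    have h2 : √ε ≤ c / (4 * (K2 + 1)) := by
      rw [← Real.sqrt_sq (by positivity : 0 ≤ c / (4 * (K2 + 1)))]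
      exact Real.sqrt_le_sqrt h1
    rw [le_div_iff₀ (by positivity)] at h2
    nlinarith [Real.sqrt_nonneg ε]
  have hε4 : K4 * ((D + 2) * ε) ≤ c / 4 * θ := by
    have h1 : ε ≤ c * θ / (4 * (K4 + 1) * (D + 2)) := (min_le_right _ _).trans (min_le_right _ _)
    rw [le_div_iff₀ (by positivity)] at h1
    have h2 : 0 ≤ (D + 2 : ℝ) * ε := by positivity
    nlinarith
  refine ⟨ε, hε0, fun k hk ρ hρ0 hρ1 hfc b hb hbε hκε hNN l hl => ?_⟩
  set β : ℝ := √(∑ l ∈ Finset.Icc 2 D, b l ^ 2) with hβ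
  have hsum0 : 0 ≤ ∑ l ∈ Finset.Icc 2 D, b l ^ 2 := Finset.sum_nonneg fun l _ => sq_nonneg _
  have hβ0 : 0 ≤ β := Real.sqrt_nonneg _
  have hβ2 : β ^ 2 = ∑ l ∈ Finset.Icc 2 D, b l ^ 2 := Real.sq_sqrt hsum0
  by_contra hbl
  have hlD : l ∈ Finset.Icc 2 D := Finset.mem_Icc.2 ⟨hl, (hb l hbl).1⟩
  have hsum : 0 < ∑ l ∈ Finset.Icc 2 D, b l ^ 2 := by
    have h1 : b l ^ 2 ≤ ∑ l ∈ Finset.Icc 2 D, b l ^ 2 :=
      Finset.single_le_sum (f := fun l => b l ^ 2) (fun l _ => sq_nonneg _) hlD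
    have h2 : 0 < b l ^ 2 := by positivity
    linarith
  have hβp : 0 < β := Real.sqrt_pos.2 hsum
  -- smallness
  have hsplit : ∀ t, hh k ρ t - b 0 - b 1 * t ^ 2 = (hh k ρ t - ev D b t) + QQ D b t := by
    intro t
    rw [ev_split D b (fun l hl => (hb l hl).1) t]
    unfold QQ
    ring
  have hQε : ∀ t, |t| ≤ 1 → |QQ D b t| ≤ D * ε := by
    intro t ht
    unfold QQ
    refine (Finset.abs_sum_le_sum_abs _ _).trans ?_
    have h1 : ∀ l ∈ Finset.Icc 2 D, |b l * t ^ (2 * l)| ≤ ε := by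
      intro l _
      rw [abs_mul, abs_pow]
      have h2 : |t| ^ (2 * l) ≤ 1 := pow_le_one₀ (abs_nonneg _) ht
      calc |b l| * |t| ^ (2 * l) ≤ |b l| * 1 := mul_le_mul_of_nonneg_left h2 (abs_nonneg _)
        _ ≤ ε := by rw [mul_one]; exact hbε l
    refine (Finset.sum_le_sum h1).trans ?_
    rw [Finset.sum_const, nsmul_eq_mul]
    refine mul_le_mul_of_nonneg_right ?_ hε0.le
    have : (Finset.Icc 2 D).card ≤ D := by
      rw [Nat.card_Icc]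
      omega
    exact_mod_cast this
  have hεε₁ : ε ≤ ε₁ := by
    have : (0 : ℝ) ≤ D * ε := by positivity
    linarith
  have hg : ∀ t, |t| ≤ 1 → |hh k ρ t - b 0 - b 1 * t ^ 2| ≤ ε₁ := by
    intro t ht
    rw [hsplit]
    refine (abs_add_le _ _).trans ?_
    have h1 := hκε t ht
    have h2 := hQε t ht
    linarith
  have hI' := hI k hk ρ hρ0 hρ1 (b 0) (b 1) ((hbε 0).trans hεε₁) ((hbε 1).trans hεε₁) hg
  obtain ⟨ψ₁, ψ₂, hL1, hL2, hψ1, hψ2, hs1, hs2, hψs, hWb⟩ := hW b hsum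
  -- the displacement
  set B1 : ℝ := |b 1| with hB1
  have hB10 : 0 ≤ B1 := abs_nonneg _
  set τ : ℝ := θ * β / (B1 + β) with hτ
  have hBβ : 0 < B1 + β := by linarith
  have hτ0 : 0 < τ := by positivity
  have hτθ : τ ≤ θ := by
    rw [hτ, div_le_iff₀ hBβ]
    nlinarith
  have hτb : B1 * τ ≤ θ * β := by
    rw [hτ, mul_div_assoc', div_le_iff₀ hBβ]
    have : 0 ≤ θ * β * β := by positivity
    nlinarith
  have hτβ : β * θ = τ * (B1 + β) := by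
    rw [hτ, div_mul_cancel₀ _ hBβ.ne', mul_comm]
  have hττ₁ : |τ| ≤ τ₁ := by
    rw [abs_of_pos hτ0]
    linarith
  have hττ₁' : |(-τ)| ≤ τ₁ := by rwa [abs_neg]
  set κ : ℝ → ℝ := fun t => hh k ρ t - ev D b t with hκ
  have hκc : Continuous κ := by
    refine hfc.sub ?_
    unfold ev
    fun_prop
  -- one sided estimates
  have hI'' : ∀ w : E n, ‖w‖ ≤ 1 / 2 → ∀ τ : ℝ, |τ| ≤ τ₁ →
      ∑ p : ι × ι, wt a μ p * (hh k ρ (yy a η τ p w) - b 0 - b 1 * yy a η τ p w ^ 2) ≤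
        CI * (|b 1| * τ ^ 2 + ∑ p : ι × ι, ‖a p.1 - a p.2‖ ^ 4 *
          (hh k ρ (yy a η τ p w) - b 0 - b 1 * yy a η τ p w ^ 2) ^ 2) := by
    intro w hw τ hτ
    simp only [yy]
    exact hI' w hw τ hτ
  have s1 := side hd hF η D b (hh k ρ) hfc hsplit hCI.le hτe hI'' ψ₁ L hL1 hψ1 hs1 τ hττ₁
  have s2 := side hd hF η D b (hh k ρ) hfc hsplit hCI.le hτe hI'' ψ₂ L hL2 hψ2 hs2 (-τ) hττ₁'
  have hPb : ∀ w : E n, ‖w‖ ≤ 1 → ∀ τ : ℝ, |τ| ≤ 1 →
      |(∑ p : ι × ι, wt a μ p * QQ D b (yy a η τ p w)) - τ * DD a μ η D b w| ≤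
        CP * τ ^ 2 * β := by
    intro w hw τ hτ
    simp only [yy, QQ]
    exact hP b hb w hw τ hτ
  have q1 := sideQ η D b (by positivity) hPb ψ₁ L hL1 hψ1 hs1 τ (hττ₁.trans hτ11)
  have q2 := sideQ η D b (by positivity) hPb ψ₂ L hL2 hψ2 hs2 (-τ) (hττ₁'.trans hτ11)
  have k1 := sideK hF η κ hκc hτe ψ₁ L hL1 hs1 τ hττ₁
  have k2 := sideK hF η κ hκc hτe ψ₂ L hL2 hs2 (-τ) hττ₁'
  rw [abs_neg] at k2
  rw [abs_of_pos hτ0] at k1 k2
  -- the main terms of the remainder part cancel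
  have hcancel : (∫ w, ψ₁ w * Lam (wt a μ) (dr a) κ w) +
      ∫ w, ψ₂ w * Lam (wt a μ) (dr a) κ w = 0 := by
    have hLc : Continuous (Lam (wt a μ) (dr a) κ) := by
      unfold Lam
      fun_prop
    have i1 : Integrable fun w => ψ₁ w * Lam (wt a μ) (dr a) κ w :=
      int_able ((lip_cont hL1).mul hLc) fun w hw => by rw [hs1 w (by linarith), zero_mul]
    have i2 : Integrable fun w => ψ₂ w * Lam (wt a μ) (dr a) κ w :=
      int_able ((lip_cont hL2).mul hLc) fun w hw => by rw [hs2 w (by linarith), zero_mul]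
    rw [← integral_add i1 i2]
    have e1 : ∀ w, ψ₁ w * Lam (wt a μ) (dr a) κ w + ψ₂ w * Lam (wt a μ) (dr a) κ w =
        max 0 (1 / 2 - ‖w‖) * Lam (wt a μ) (dr a) κ w := fun w => by rw [← add_mul, hψs]
    simp_rw [e1]
    rw [int_ball (fun w hw => by rw [max_eq_left (by linarith), zero_mul])]
    exact Lam_int hF (fun r => max 0 (1 / 2 - r)) κ (by fun_prop) hκc 1
  -- the remainder is small
  set I₀ : ℝ := ∫ w in B n, |κ (inner ℝ w u₀)| with hI₀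
  have hI₀0 : 0 ≤ I₀ := integral_nonneg fun w => abs_nonneg _
  have hNN' : NN u₀ κ ≤ C' * ε * β ^ 2 := by
    rw [hβ2]
    refine hNN.trans ?_
    have h1 : C ≤ C' := le_abs_self _
    rw [mul_assoc, mul_assoc]
    exact mul_le_mul_of_nonneg_right h1 (mul_nonneg hε0.le hsum0)
  have hI₀le : I₀ ≤ √(V * C') * √ε * β := by
    have h1 : I₀ ^ 2 ≤ V * NN u₀ κ := cs_ball (G := fun w => κ (inner ℝ w u₀)) (by fun_prop)
    have h2 : I₀ ^ 2 ≤ (√(V * C') * √ε * β) ^ 2 := by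
      rw [mul_pow, mul_pow, Real.sq_sqrt (by positivity), Real.sq_sqrt hε0.le]
      have h3 := mul_le_mul_of_nonneg_left hNN' hV0
      linarith only [h1, h3]
    exact (abs_le_of_sq_le_sq' h2 (by positivity)).2
  have hNN0 : 0 ≤ NN u₀ κ := integral_nonneg fun w => sq_nonneg _
  -- the final inequality
  have hNN'' : NN u₀ κ ≤ C' * β ^ 2 := by
    refine hNN'.trans ?_
    have h1 : 0 ≤ C' * β ^ 2 := by positivity
    calc C' * ε * β ^ 2 = ε * (C' * β ^ 2) := by ring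
      _ ≤ 1 * (C' * β ^ 2) := mul_le_mul_of_nonneg_right hε1 h1
      _ = C' * β ^ 2 := one_mul _
  rw [neg_sq] at s2 q2
  have hfin : c * τ * β ≤ K1 * τ ^ 2 * β + K2 * √ε * τ * β + K3 * B1 * τ ^ 2 + K4 * β ^ 2 :=
    arith1 hCI.le hS40 (by positivity) s1 s2 q1 q2 (abs_le.1 k1).1 (abs_le.1 k2).1 hcancel hWb
      hτ0.le hI₀le hNN''
  -- contradiction
  have hβle : B1 + β ≤ (D + 2) * ε := by
    have h1 : β ≤ (D + 1) * ε := by
      have h2 : β ^ 2 ≤ ((D + 1) * ε) ^ 2 := by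
        rw [hβ2]
        have h3 : ∀ l ∈ Finset.Icc 2 D, b l ^ 2 ≤ ε ^ 2 := fun l _ => by
          rw [← sq_abs]
          exact pow_le_pow_left₀ (abs_nonneg _) (hbε l) 2
        refine (Finset.sum_le_sum h3).trans ?_
        rw [Finset.sum_const, nsmul_eq_mul, mul_pow]
        refine mul_le_mul_of_nonneg_right ?_ (sq_nonneg _)
        have h4 : ((Finset.Icc 2 D).card : ℝ) ≤ D := by
          have : (Finset.Icc 2 D).card ≤ D := by
            rw [Nat.card_Icc]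
            omega
          exact_mod_cast this
        have h6 : (0 : ℝ) ≤ D := Nat.cast_nonneg _
        nlinarith only [h4, h6]
      exact (abs_le_of_sq_le_sq' h2 (by positivity)).2
    have h7 : B1 ≤ ε := hbε 1
    linarith only [h1, h7]
  exact arith2 hK10 hK30 hK40 hτ0 hβp hθ0 hc hτθ hτb hτβ hθ2 hε3 hβle hε4 hfin

end P23D
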