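import Mathlib
import Pool.Agent.Lib.P23D.Coer
import Pool.Agent.Lib.P23D.Near2

/-!
# Module P23D.Near1 : closeness to a killed polynomial with small error

Notation: `ω = wt a μ`, `u = dr a`, `Λ = Lam ω u`, `f = hh k ρ` (continuous and even),
`f(t) = k(ρ t)` for `|t| ≤ 1`.

PROOF.  `coer hF` gives `D`, `C₁`.  `homog` for the single ridge (`V l w = ⟪w, u₀⟫^(2 l)`,
`m l = 2 l`, `S = range (D + 1)`, `r = 1`) gives `c₂ > 0` with
`c₂ ∑_{l ≤ D} b l² ≤ NN u₀ (ev D b)`.  Let `M = sup_{|t| ≤ 1} |f t| → 0` as `ρ → 0` (`k` is continuous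
at `0`, `k 0 = 0`).  `coer` gives `b` with `InK ω u D b`, `κ = f - ev D b`, `NN u₀ κ ≤ C₁ LL ω u f`.
(1) `LL ω u f ≤ C M²`, `NN u₀ f ≤ C M²`, so `c₂ ∑ b l² ≤ NN u₀ (ev D b) ≤ 2 NN u₀ f + 2 NN u₀ κ ≤ C M²`, so
`|b l| ≤ C M` (all `l`, as `b l = 0` for `l > D`) and `|κ t| ≤ C M` for `|t| ≤ 1`.
(2) Let `w ∈ B n`, `s i = ρ ⟪w, a i⟫`; for `i ≠ j`, `|s i - s j| ≤ ρ ‖a i - a j‖ < ‖a i - a j‖`
(`Dep.inj`), so `hk.bad s _`: `¬ Pos (Rk a k s)`.  With `g t = f t - b 0 - b 1 t²`,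
`Rk a k s i j = (1 - b 0) ‖a i - a j‖² - b 1 ⟪w, a i - a j⟫² - F i j`,
`F i j = ‖a i - a j‖² g(⟪w, dir a i j⟫)` (also for `i = j`, everything is `0`).  For `M` small
`|b 0|, |b 1| ≤ 1/4` and `|F i j| ≤ η`, so `pd_lemma` with `m = 1/2` (contrapositive) gives
`∑ μ i μ j F i j ≤ C ∑ (F i j)²`.  The left side is `Λ g (w) = Λ f (w) = Λ κ (w)`
(`Dep.killed_zero`, `Dep.killed_one`, `Lam_ev`).  So
`Λ κ (w) ≤ C ∑_{i ≠ j} ‖a i - a j‖⁴ g(⟪w, dir a i j⟫)²` for `w ∈ B n`.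
(3) `∫_{B n} Λ κ = 0` (`Lam_int` with `φ = 1`), so `∫_{B n} |Λ κ| = 2 ∫_{B n} (Λ κ)⁺ ≤ C NN u₀ g`
(`NN_rot`).  `LL ω u f = ∫ (Λ κ)² ≤ sup |Λ κ| ∫ |Λ κ| ≤ C M NN u₀ g`.
(4) `g = κ + ∑_{l ∈ Icc 2 D} b l t^(2 l)` (`b 1 = 0` if `D = 0`), so
`NN u₀ g ≤ 2 NN u₀ κ + C ∑_{l ∈ Icc 2 D} b l²`.  Hence `NN u₀ κ ≤ C M (NN u₀ κ + ∑_{Icc 2 D} b l²)`, and for
`C M ≤ 1/2`: `NN u₀ κ ≤ 2 C M ∑_{Icc 2 D} b l²`.
Choose `ρ` with `M` so small that all requirements hold and `C M ≤ ε` for the constants in (1).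
-/

set_option autoImplicit false

open MeasureTheory

namespace P23D

theorem hh_cont {ι : Type} [Fintype ι] {n : ℕ} {a : ι → E n} {k : ℝ → ℝ} (hk : Bad a k) (ρ : ℝ)
    (h0 : 0 < ρ) (h1 : ρ < 1) : Continuous (hh k ρ) := by
  unfold hh
  refine hk.cont.comp_continuous (by fun_prop) fun t => ?_
  have h2 : -1 ≤ max (-1) (min 1 t) := le_max_left _ _
  have h3 : max (-1) (min 1 t) ≤ 1 := max_le (by norm_num) (min_le_left _ _)
  constructor <;> nlinarith

theorem hh_even {ι : Type} [Fintype ι] {n : ℕ} {a : ι → E n} {k : ℝ → ℝ} (hk : Bad a k)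
    (ρ t : ℝ) : hh k ρ (-t) = hh k ρ t := by
  unfold hh
  have e : max (-1) (min 1 (-t)) = -max (-1) (min 1 t) := by
    rcases le_total 1 t with h1 | h1
    · rw [min_eq_left h1, min_eq_right (by linarith), max_eq_left (by linarith),
        max_eq_right (by norm_num)]
    · rcases le_total t (-1) with h2 | h2
      · rw [min_eq_right h1, max_eq_left h2, min_eq_left (by linarith),
          max_eq_right (by norm_num)]
        norm_num
      · rw [min_eq_right h1, max_eq_right h2, min_eq_right (by linarith),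
          max_eq_right (by linarith)]
  rw [e, mul_neg, hk.even]

namespace Near1Aux

open Near2Aux

theorem ball_int {n : ℕ} {F : E n → ℝ} (hF : Continuous F) : IntegrableOn F (B n) :=
  hF.continuousOn.integrableOn_compact (isCompact_closedBall _ _)

theorem int_ball_le {n : ℕ} {F : E n → ℝ} (hF : Continuous F) (M : ℝ)
    (hM : ∀ w, ‖w‖ ≤ 1 → F w ≤ M) : ∫ w in B n, F w ≤ M * vB n := by
  unfold vB
  rw [← integral_const_mul]
  refine setIntegral_mono_on (ball_int hF) (ball_int continuous_const)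
    measurableSet_closedBall fun w hw => ?_
  rw [mul_one]
  exact hM w (by simpa using hw)

theorem inner_unit_le {n : ℕ} {u : E n} (hu : ‖u‖ = 1) {w : E n} (hw : ‖w‖ ≤ 1) :
    |(inner ℝ w u : ℝ)| ≤ 1 := by
  refine (abs_real_inner_le_norm _ _).trans ?_
  rw [hu, mul_one]
  exact hw

/-- the coefficients are bounded by the norm -/
theorem coef {n : ℕ} {u₀ : E n} (hu : ‖u₀‖ = 1) (D : ℕ) : ∃ c > 0, ∀ b : ℕ → ℝ,
    c * ∑ l ∈ Finset.range (D + 1), b l ^ 2 ≤ NN u₀ (ev D b) := by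
  obtain ⟨c, hc, h⟩ := homog (n := n) (Finset.range (D + 1)) (fun l => 2 * l)
    (by
      intro x _ y _ hxy
      simp only at hxy
      omega) (fun l w => (inner ℝ w u₀ : ℝ) ^ (2 * l))
    (fun l _ => by fun_prop) (fun l _ s w => by
      rw [real_inner_smul_left, mul_pow])
    (fun l _ => ⟨u₀, by
      rw [real_inner_self_eq_norm_sq, hu]
      simp⟩) 1 one_pos
  exact ⟨c, hc, fun b => h b⟩

end Near1Aux

open Near1Aux Near2Aux NearWAux

theorem near1 {ι : Type} [Fintype ι] {n : ℕ} {a : ι → E n} {μ : ι → ℝ} (hd : Dep a μ)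
    {u₀ : E n} (hF : Fam (wt a μ) (dr a) u₀) {k : ℝ → ℝ} (hk : Bad a k) :
    ∃ D : ℕ, ∃ C > 0, ∀ ε > 0, ∃ ρ : ℝ, 0 < ρ ∧ ρ < 1 ∧ ∃ b : ℕ → ℝ,
      InK (wt a μ) (dr a) D b ∧ (∀ l, |b l| ≤ ε) ∧
      (∀ t, |t| ≤ 1 → |hh k ρ t - ev D b t| ≤ ε) ∧
      NN u₀ (fun t => hh k ρ t - ev D b t) ≤ C * ε * ∑ l ∈ Finset.Icc 2 D, b l ^ 2 := by
  obtain ⟨D, C₁, hC₁, hcoer⟩ := coer hF
  obtain ⟨c₂, hc₂, hcoef⟩ := coef hF.norm0 D
  obtain ⟨ε₁, hε₁, τ₁, hτ₁, CI, hCI, -, -, hI⟩ := near_ineq hd (fun _ : ι => (0 : ℝ))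
  set V : ℝ := vB n with hV
  have hV0 : 0 ≤ V := vB_nonneg n
  set W : ℝ := ∑ p : ι × ι, |wt a μ p| with hW
  have hW0 : 0 ≤ W := Finset.sum_nonneg fun p _ => abs_nonneg _
  set S4 : ℝ := ∑ p : ι × ι, ‖a p.1 - a p.2‖ ^ 4 with hS4
  have hS40 : 0 ≤ S4 := Finset.sum_nonneg fun p _ => by positivity
  set A : ℝ := √(2 * (1 + C₁ * W ^ 2) * V / c₂) with hA
  have hA0 : 0 ≤ A := Real.sqrt_nonneg _
  have hA2 : c₂ * A ^ 2 = 2 * (1 + C₁ * W ^ 2) * V := by
    rw [hA, Real.sq_sqrt (by positivity)]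
    field_simp
  set A₂ : ℝ := 1 + (D + 1) * A with hA₂
  have hA₂0 : 0 ≤ A₂ := by positivity
  set Z : ℝ := 4 * C₁ * W * CI * S4 with hZ
  have hZ0 : 0 ≤ Z := by positivity
  refine ⟨D, 2 * Z * (D : ℝ) ^ 2 * V + 1, by positivity, fun ε hε => ?_⟩
  set δ : ℝ := min (min (ε / (A + A₂ + 1)) (ε₁ / (1 + 5 * A))) (1 / (2 * Z + 1)) with hδ
  have hδ0 : 0 < δ := by positivity
  have hδ1 : (A + A₂ + 1) * δ ≤ ε := by
    have h1 : δ ≤ ε / (A + A₂ + 1) := (min_le_left _ _).trans (min_le_left _ _)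
    rw [le_div_iff₀ (by positivity)] at h1
    linarith
  have hδ2 : (1 + 5 * A) * δ ≤ ε₁ := by
    have h1 : δ ≤ ε₁ / (1 + 5 * A) := (min_le_left _ _).trans (min_le_right _ _)
    rw [le_div_iff₀ (by positivity)] at h1
    linarith
  have hδ3 : Z * δ ≤ 1 / 2 := by
    have h1 : δ ≤ 1 / (2 * Z + 1) := min_le_right _ _
    rw [le_div_iff₀ (by positivity)] at h1
    nlinarith
  -- the radius
  obtain ⟨r₀, hr0, hr1, hr⟩ : ∃ r₀ : ℝ, 0 < r₀ ∧ r₀ < 1 ∧ ∀ y, |y| ≤ r₀ → |k y| ≤ δ := by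
    have h1 : ContinuousAt k 0 :=
      hk.cont.continuousAt (Ioo_mem_nhds (by norm_num) (by norm_num))
    rw [Metric.continuousAt_iff] at h1
    obtain ⟨r, hr, hr'⟩ := h1 δ hδ0
    refine ⟨min (r / 2) (1 / 2), by positivity, (min_le_right _ _).trans_lt (by norm_num),
      fun y hy => ?_⟩
    have h2 : dist y 0 < r := by
      rw [Real.dist_eq, sub_zero]
      have := hy.trans (min_le_left _ _)
      linarith
    have h3 := hr' h2
    rw [hk.zero, Real.dist_eq, sub_zero] at h3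
    exact h3.le
  set ρ : ℝ := r₀ / 2 with hρ
  have hρ0 : 0 < ρ := by positivity
  have hρ1 : ρ < 1 := by linarith
  have h2ρ : 2 * ρ = r₀ := by rw [hρ]; ring
  set f : ℝ → ℝ := hh k ρ with hf
  have hfc : Continuous f := hh_cont hk ρ hρ0 hρ1
  have hfe : ∀ t, f (-t) = f t := hh_even hk ρ
  have hcl : ∀ t : ℝ, |max (-1) (min 1 t)| ≤ 1 := fun t =>
    abs_le.2 ⟨le_max_left _ _, max_le (by norm_num) (min_le_left _ _)⟩
  have hfδ : ∀ t, |f t| ≤ δ := by
    intro t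
    refine hr _ ?_
    rw [abs_mul, abs_of_pos hρ0]
    nlinarith [hcl t, abs_nonneg (max (-1) (min 1 t))]
  obtain ⟨b, hb, hNN⟩ := hcoer f hfc hfe
  set κ : ℝ → ℝ := fun t => f t - ev D b t with hκ
  have hevc : Continuous (ev D b) := by
    unfold ev
    fun_prop
  have hκc : Continuous κ := hfc.sub hevc
  have hLc : Continuous (Lam (wt a μ) (dr a) f) := by
    unfold Lam
    fun_prop
  -- size of `Λ f`
  have hLδ : ∀ w, |Lam (wt a μ) (dr a) f w| ≤ W * δ := by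
    intro w
    unfold Lam
    refine (Finset.abs_sum_le_sum_abs _ _).trans ?_
    rw [hW, Finset.sum_mul]
    refine Finset.sum_le_sum fun p _ => ?_
    rw [abs_mul]
    exact mul_le_mul_of_nonneg_left (hfδ _) (abs_nonneg _)
  have hLL1 : LL (wt a μ) (dr a) f ≤ (W * δ) ^ 2 * V := by
    refine int_ball_le (F := fun w => Lam (wt a μ) (dr a) f w ^ 2) (hLc.pow 2) _ fun w _ => ?_
    rw [← sq_abs]
    exact pow_le_pow_left₀ (abs_nonneg _) (hLδ w) 2
  have hNNf : NN u₀ f ≤ δ ^ 2 * V := by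
    refine int_ball_le (F := fun w => f (inner ℝ w u₀) ^ 2) (by fun_prop) _ fun w _ => ?_
    rw [← sq_abs]
    exact pow_le_pow_left₀ (abs_nonneg _) (hfδ _) 2
  have hsq2 : ∀ {g h : ℝ → ℝ}, Continuous g → Continuous h →
      NN u₀ (fun t => g t + h t) ≤ 2 * NN u₀ g + 2 * NN u₀ h := by
    intro g h hg hh
    unfold NN
    rw [← integral_const_mul, ← integral_const_mul, ← integral_add (ball_int (by fun_prop))
      (ball_int (by fun_prop))]
    refine setIntegral_mono_on (ball_int (by fun_prop)) (ball_int (by fun_prop))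
      measurableSet_closedBall fun w _ => ?_
    nlinarith [sq_nonneg (g (inner ℝ w u₀) - h (inner ℝ w u₀))]
  have hNNev : NN u₀ (ev D b) ≤ 2 * (1 + C₁ * W ^ 2) * V * δ ^ 2 := by
    have e : ev D b = fun t => f t + (-1) * κ t := by
      funext t
      simp only [hκ]
      ring
    have h1 : NN u₀ (ev D b) ≤ 2 * NN u₀ f + 2 * NN u₀ (fun t => (-1) * κ t) := by
      conv_lhs => rw [e]
      exact hsq2 hfc (by fun_prop)
    have h2 : NN u₀ (fun t => (-1) * κ t) = NN u₀ κ := by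
      unfold NN
      simp
    rw [h2] at h1
    have h3 : C₁ * LL (wt a μ) (dr a) f ≤ C₁ * ((W * δ) ^ 2 * V) :=
      mul_le_mul_of_nonneg_left hLL1 hC₁.le
    nlinarith
  have hbδ : ∀ l, |b l| ≤ A * δ := by
    intro l
    by_cases hl : b l = 0
    · rw [hl, abs_zero]
      positivity
    · have h1 := (hcoef b).trans hNNev
      have h2 : b l ^ 2 ≤ ∑ l ∈ Finset.range (D + 1), b l ^ 2 :=
        Finset.single_le_sum (f := fun l => b l ^ 2) (fun l _ => sq_nonneg _)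
          (Finset.mem_range.2 (Nat.lt_succ_of_le (hb l hl).1))
      have h3 : c₂ * b l ^ 2 ≤ c₂ * (A * δ) ^ 2 := by
        rw [mul_pow, ← mul_assoc, hA2]
        exact (mul_le_mul_of_nonneg_left h2 hc₂.le).trans h1
      have h4 : b l ^ 2 ≤ (A * δ) ^ 2 := le_of_mul_le_mul_left h3 hc₂
      exact abs_le_of_sq_le_sq h4 (by positivity)
  have hκδ : ∀ t, |t| ≤ 1 → |κ t| ≤ A₂ * δ := by
    intro t ht
    have h1 : |ev D b t| ≤ (D + 1) * (A * δ) := by
      unfold ev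
      refine (Finset.abs_sum_le_sum_abs _ _).trans ?_
      have h2 : ∀ l ∈ Finset.range (D + 1), |b l * t ^ (2 * l)| ≤ A * δ := by
        intro l _
        rw [abs_mul, abs_pow]
        have h3 : |t| ^ (2 * l) ≤ 1 := pow_le_one₀ (abs_nonneg _) ht
        calc |b l| * |t| ^ (2 * l) ≤ |b l| * 1 := mul_le_mul_of_nonneg_left h3 (abs_nonneg _)
          _ ≤ A * δ := by rw [mul_one]; exact hbδ l
      refine (Finset.sum_le_sum h2).trans (le_of_eq ?_)
      rw [Finset.sum_const, Finset.card_range, nsmul_eq_mul]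
      push_cast
      ring
    have h4 : |κ t| ≤ |f t| + |ev D b t| := abs_sub _ _
    have h5 := hfδ t
    rw [hA₂]
    linarith
  -- the pointwise inequality
  set g : ℝ → ℝ := fun t => f t - b 0 - b 1 * t ^ 2 with hg
  have hgc : Continuous g := by
    simp only [hg]
    fun_prop
  have hpt : ∀ w : E n, ‖w‖ ≤ 1 → ∑ p : ι × ι, wt a μ p * g (inner ℝ w (dr a p)) ≤
      CI * ∑ p : ι × ι, ‖a p.1 - a p.2‖ ^ 4 * g (inner ℝ w (dr a p)) ^ 2 := by
    intro w hw
    have h0 := hbδ 0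
    have h1 := hbδ 1
    have h2 : 0 ≤ A * δ := by positivity
    have h3 := hI k hk (2 * ρ) (by positivity) (by rw [h2ρ]; exact hr1) (b 0) (4 * b 1)
      (by linarith) (by rw [abs_mul, abs_of_pos (by norm_num : (0 : ℝ) < 4)]; linarith)
      (fun t ht => by
        rw [hh_eq k _ t ht]
        have h4 : |k (2 * ρ * t)| ≤ δ := by
          apply hr
          rw [abs_mul, h2ρ, abs_of_pos hr0]
          nlinarith [abs_nonneg t]
        have h5 : |4 * b 1 * t ^ 2| ≤ 4 * (A * δ) := by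
          rw [abs_mul, abs_mul, abs_of_pos (by norm_num : (0 : ℝ) < 4), abs_pow]
          have h6 : |t| ^ 2 ≤ 1 := pow_le_one₀ (abs_nonneg _) ht
          have h7 := abs_nonneg (b 1)
          nlinarith [sq_nonneg |t|]
        have h8 : |k (2 * ρ * t) - b 0 - 4 * b 1 * t ^ 2| ≤
            |k (2 * ρ * t)| + |b 0| + |4 * b 1 * t ^ 2| :=
          (abs_sub _ _).trans (by linarith [abs_sub (k (2 * ρ * t)) (b 0)])
        linarith) ((1 / 2 : ℝ) • w) (by
        rw [norm_smul, Real.norm_of_nonneg (by norm_num)]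
        linarith) 0 (by rw [abs_zero]; exact hτ₁.le)
    have key : ∀ p : ι × ι, hh k (2 * ρ) (inner ℝ ((1 / 2 : ℝ) • w) (dr a p) +
        0 * ee a (fun _ => 0) p) - b 0 - 4 * b 1 * (inner ℝ ((1 / 2 : ℝ) • w) (dr a p) +
          0 * ee a (fun _ => 0) p) ^ 2 = g (inner ℝ w (dr a p)) := by
      intro p
      have h4 : |(inner ℝ w (dr a p) : ℝ)| ≤ 1 := (inner_dr_le hd p w).trans hw
      have h5 : |1 / 2 * (inner ℝ w (dr a p) : ℝ)| ≤ 1 := by
        rw [abs_mul, abs_of_pos (by norm_num : (0 : ℝ) < 1 / 2)]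
        linarith
      rw [real_inner_smul_left, zero_mul, add_zero, hh_eq k _ _ h5]
      simp only [hg, hf]
      rw [hh_eq k _ _ h4]
      have e1 : 2 * ρ * (1 / 2 * (inner ℝ w (dr a p) : ℝ)) = ρ * inner ℝ w (dr a p) := by ring
      rw [e1]
      ring
    simp only [key] at h3
    have e0 : |4 * b 1| * (0 : ℝ) ^ 2 = 0 := by ring
    rw [e0, zero_add] at h3
    exact h3
  have hLg : ∀ w : E n, ∑ p : ι × ι, wt a μ p * g (inner ℝ w (dr a p)) =
      Lam (wt a μ) (dr a) f w := by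
    intro w
    have h0 := hd.killed_zero w
    have h1 := hd.killed_one w
    simp only [mul_zero, pow_zero, mul_one] at h0 h1
    have e : ∀ p : ι × ι, wt a μ p * g (inner ℝ w (dr a p)) =
        wt a μ p * f (inner ℝ w (dr a p)) - b 0 * wt a μ p -
          b 1 * (wt a μ p * (inner ℝ w (dr a p) : ℝ) ^ 2) := by
      intro p
      simp only [hg]
      ring
    simp_rw [e, Finset.sum_sub_distrib, ← Finset.mul_sum]
    rw [h0, h1]
    unfold Lam
    ring
  -- the `L¹` bound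
  have hgint : ∀ p : ι × ι, ∫ w in B n, ‖a p.1 - a p.2‖ ^ 4 * g (inner ℝ w (dr a p)) ^ 2 =
      ‖a p.1 - a p.2‖ ^ 4 * NN u₀ g := by
    intro p
    rw [integral_const_mul]
    by_cases hp : p.1 = p.2
    · rw [hp]
      simp
    · rw [← NN_rot g (hd.norm_dir hp) hF.norm0]
      rfl
  have hYc : ∀ p : ι × ι, Continuous fun w : E n =>
      ‖a p.1 - a p.2‖ ^ 4 * g (inner ℝ w (dr a p)) ^ 2 := fun p => by fun_prop
  have hL1 : ∫ w in B n, |Lam (wt a μ) (dr a) f w| ≤ 2 * CI * S4 * NN u₀ g := by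
    have h1 : ∫ w in B n, |Lam (wt a μ) (dr a) f w| ≤
        ∫ w in B n, (2 * (CI * ∑ p : ι × ι, ‖a p.1 - a p.2‖ ^ 4 *
          g (inner ℝ w (dr a p)) ^ 2) - Lam (wt a μ) (dr a) f w) := by
      refine setIntegral_mono_on (ball_int hLc.abs) (ball_int ?_) measurableSet_closedBall
        fun w hw => ?_
      · refine Continuous.sub (continuous_const.mul (continuous_const.mul ?_)) hLc
        exact continuous_finsetSum _ fun p _ => hYc p
      · have h2 := hpt w (by simpa using hw)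
        rw [hLg w] at h2
        have h3 : 0 ≤ CI * ∑ p : ι × ι, ‖a p.1 - a p.2‖ ^ 4 * g (inner ℝ w (dr a p)) ^ 2 :=
          mul_nonneg hCI.le (Finset.sum_nonneg fun p _ => by positivity)
        rw [abs_le]
        constructor <;> linarith
    refine h1.trans (le_of_eq ?_)
    have hint1 : IntegrableOn (fun w : E n => 2 * (CI * ∑ p : ι × ι, ‖a p.1 - a p.2‖ ^ 4 *
          g (inner ℝ w (dr a p)) ^ 2)) (B n) := by
      refine ball_int (continuous_const.mul (continuous_const.mul ?_))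
      exact continuous_finsetSum _ fun p _ => hYc p
    rw [integral_sub hint1 (ball_int hLc), integral_const_mul, integral_const_mul,
      integral_finsetSum _ (fun p _ => ball_int (hYc p))]
    simp_rw [hgint]
    rw [← Finset.sum_mul]
    have h4 : ∫ w in B n, Lam (wt a μ) (dr a) f w = 0 := by
      have := Lam_int hF (fun _ => 1) f continuous_const hfc 1
      simpa using this
    rw [h4, ← hS4]
    ring
  have hLL2 : LL (wt a μ) (dr a) f ≤ W * δ * (2 * CI * S4 * NN u₀ g) := by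
    have h1 : LL (wt a μ) (dr a) f ≤ ∫ w in B n, W * δ * |Lam (wt a μ) (dr a) f w| := by
      unfold LL
      refine setIntegral_mono_on (ball_int (hLc.pow 2)) (ball_int (continuous_const.mul hLc.abs))
        measurableSet_closedBall fun w _ => ?_
      rw [← sq_abs, sq]
      exact mul_le_mul_of_nonneg_right (hLδ w) (abs_nonneg _)
    rw [integral_const_mul] at h1
    exact h1.trans (mul_le_mul_of_nonneg_left hL1 (by positivity))
  -- closing
  set β : ℝ := √(∑ l ∈ Finset.Icc 2 D, b l ^ 2) with hβ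
  have hβ2 : β ^ 2 = ∑ l ∈ Finset.Icc 2 D, b l ^ 2 :=
    Real.sq_sqrt (Finset.sum_nonneg fun l _ => sq_nonneg _)
  have hNNQ : NN u₀ (QQ D b) ≤ (D * β) ^ 2 * V := by
    have hQc := QQ_cont D b
    refine int_ball_le (F := fun w => QQ D b (inner ℝ w u₀) ^ 2) (by fun_prop) _ fun w hw => ?_
    rw [← sq_abs]
    exact pow_le_pow_left₀ (abs_nonneg _) (QQ_le D b _ (inner_unit_le hF.norm0 hw)) 2
  have hNNg : NN u₀ g ≤ 2 * NN u₀ κ + 2 * ((D * β) ^ 2 * V) := by
    have e : g = fun t => κ t + QQ D b t := by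
      funext t
      simp only [hg, hκ]
      rw [ev_split D b (fun l hl => (hb l hl).1) t]
      unfold QQ
      ring
    have h1 : NN u₀ g ≤ 2 * NN u₀ κ + 2 * NN u₀ (QQ D b) := by
      conv_lhs => rw [e]
      exact hsq2 hκc (QQ_cont D b)
    linarith
  have hNN0 : 0 ≤ NN u₀ κ := integral_nonneg fun w => sq_nonneg _
  have hfin : NN u₀ κ ≤ 2 * Z * (D : ℝ) ^ 2 * V * δ * β ^ 2 := by
    have h1 : NN u₀ κ ≤ C₁ * (W * δ * (2 * CI * S4 * (2 * NN u₀ κ + 2 * ((D * β) ^ 2 * V)))) := by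
      refine hNN.trans (mul_le_mul_of_nonneg_left (hLL2.trans ?_) hC₁.le)
      refine mul_le_mul_of_nonneg_left ?_ (by positivity)
      exact mul_le_mul_of_nonneg_left hNNg (by positivity)
    have e1 : C₁ * (W * δ * (2 * CI * S4 * (2 * NN u₀ κ + 2 * ((D * β) ^ 2 * V)))) =
        Z * δ * NN u₀ κ + Z * δ * ((D : ℝ) ^ 2 * β ^ 2 * V) := by
      rw [hZ]
      ring
    rw [e1] at h1
    have h2 : Z * δ * NN u₀ κ ≤ 1 / 2 * NN u₀ κ := mul_le_mul_of_nonneg_right hδ3 hNN0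
    nlinarith
  have hAδ : 0 ≤ A * δ := by positivity
  have hA₂δ : 0 ≤ A₂ * δ := by positivity
  refine ⟨ρ, hρ0, hρ1, b, hb, fun l => (hbδ l).trans (by linarith), fun t ht =>
    (hκδ t ht).trans (by linarith), ?_⟩
  rw [← hβ2]
  refine hfin.trans ?_
  have h1 : δ ≤ ε := by linarith
  have h2 : 0 ≤ 2 * Z * (D : ℝ) ^ 2 * V := by positivity
  have h3 : 2 * Z * (D : ℝ) ^ 2 * V * δ ≤ 2 * Z * (D : ℝ) ^ 2 * V * ε :=
    mul_le_mul_of_nonneg_left h1 h2
  have h4 : 2 * Z * (D : ℝ) ^ 2 * V * δ ≤ (2 * Z * (D : ℝ) ^ 2 * V + 1) * ε := by linarith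
  exact mul_le_mul_of_nonneg_right h4 (sq_nonneg _)

end P23D
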