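import Mathlib
import Pool.Agent.Lib.P23D.Near1
import Pool.Agent.Lib.P23D.Near2
import Pool.Agent.Lib.P23D.Extend

/-!
# Module P23D.Near : the section is an ellipse

PROOF.  `Dep.same` and `Dep.fam` give `u₀` with `Fam`.  `near1` gives `D, C`; `near2` for these gives
`ε`; `near1` for this `ε` gives `ρ, b`; so `b l = 0` for `l ≥ 2`, and `NN u₀ κ ≤ 0` for
`κ = hh k ρ - ev D b`, continuous.  So `κ(⟪w, u₀⟫) = 0` for all `w ∈ B n`
(`setIntegral_eq_zero_iff_of_nonneg_ae`, continuity), in particular (`w = t • u₀`) `κ t = 0` for `|t| < 1`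
(and `|t| ≤ 1` by continuity).  So `k(ρ t) = b 0 + b 1 t²` for `|t| ≤ 1`; `t = 0` gives `b 0 = 0`.
Hence `k y = α y²` for `|y| ≤ ρ`, `α = b 1 / ρ²`, and `extend` gives all `|y| < 1`.
-/

set_option autoImplicit false

open MeasureTheory

namespace P23D

/-- a continuous function whose ridge function has norm zero vanishes on `[-1, 1]` -/
theorem zero_of_NN {n : ℕ} {u₀ : E n} (hu : ‖u₀‖ = 1) {κ : ℝ → ℝ} (hκ : Continuous κ)
    (h : NN u₀ κ ≤ 0) (t : ℝ) (ht : |t| ≤ 1) : κ t = 0 := by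
  have hc : Continuous fun w : E n => κ (inner ℝ w u₀) ^ 2 := by fun_prop
  -- interior points
  have h1 : ∀ w : E n, ‖w‖ < 1 → κ (inner ℝ w u₀) = 0 := by
    intro w hw
    by_contra hne
    have h2 : 0 < κ (inner ℝ w u₀) ^ 2 := by positivity
    have h3 : 0 < ∫ w in B n, κ (inner ℝ w u₀) ^ 2 := by
      rw [setIntegral_pos_iff_support_of_nonneg_ae
        (Filter.Eventually.of_forall fun w => sq_nonneg _)
        (hc.continuousOn.integrableOn_compact (isCompact_closedBall _ _))]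
      have h4 : IsOpen ((fun w : E n => κ (inner ℝ w u₀) ^ 2) ⁻¹' {x | x ≠ 0} ∩
          Metric.ball (0 : E n) 1) := (isOpen_ne.preimage hc).inter Metric.isOpen_ball
      refine lt_of_lt_of_le (h4.measure_pos volume ⟨w, h2.ne', by simpa using hw⟩) ?_
      refine measure_mono ?_
      intro x hx
      exact ⟨hx.1, Metric.ball_subset_closedBall hx.2⟩
    exact absurd h (not_le.2 h3)
  have h2 : ∀ s ∈ Set.Ioo (-1 : ℝ) 1, κ s = 0 := by
    intro s hs
    have h3 := h1 (s • u₀) (by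
      rw [norm_smul, hu, mul_one, Real.norm_eq_abs]
      exact abs_lt.2 hs)
    rwa [real_inner_smul_left, real_inner_self_eq_norm_sq, hu, one_pow, mul_one] at h3
  have h3 : Set.EqOn κ (fun _ => 0) (closure (Set.Ioo (-1 : ℝ) 1)) :=
    Set.EqOn.closure h2 hκ continuous_const
  rw [closure_Ioo (by norm_num)] at h3
  exact h3 (abs_le.1 ht)

theorem ellipse {ι : Type} [Fintype ι] {n : ℕ} {a : ι → E n} {μ : ι → ℝ} (hd : Dep a μ)
    {k : ℝ → ℝ} (hk : Bad a k) : ∃ α : ℝ, ∀ y, |y| < 1 → k y = α * y ^ 2 := by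
  obtain ⟨i, j, hij, hs⟩ := hd.same
  have hF := hd.fam hij hs
  obtain ⟨D, C, hC, h1⟩ := near1 hd hF hk
  obtain ⟨ε, hε, h2⟩ := near2 hd hF D C
  obtain ⟨ρ, hρ0, hρ1, b, hb, hbε, hκε, hNN⟩ := h1 ε hε
  have hfc := hh_cont hk ρ hρ0 hρ1
  have hb0 := h2 k hk ρ hρ0 hρ1 hfc b hb hbε hκε hNN
  have hsum : ∑ l ∈ Finset.Icc 2 D, b l ^ 2 = 0 := by
    refine Finset.sum_eq_zero fun l hl => ?_
    rw [hb0 l (Finset.mem_Icc.1 hl).1]
    ring
  rw [hsum, mul_zero] at hNN
  have hev : ∀ t, ev D b t = b 0 + b 1 * t ^ 2 := by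
    intro t
    rw [ev_split D b (fun l hl => (hb l hl).1) t, Finset.sum_eq_zero, add_zero]
    intro l hl
    rw [hb0 l (Finset.mem_Icc.1 hl).1, zero_mul]
  have hκc : Continuous fun t => hh k ρ t - ev D b t := by
    refine hfc.sub ?_
    unfold ev
    fun_prop
  have hz := zero_of_NN hF.norm0 hκc hNN
  have hkt : ∀ t, |t| ≤ 1 → k (ρ * t) = b 0 + b 1 * t ^ 2 := by
    intro t ht
    have h3 := hz t ht
    simp only [hev] at h3
    rw [hh_eq k ρ t ht] at h3
    linarith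
  have hb00 : b 0 = 0 := by
    have h3 := hkt 0 (by simp)
    rw [mul_zero, hk.zero] at h3
    simpa using h3.symm
  refine ⟨b 1 / ρ ^ 2, extend hd hk ρ (b 1 / ρ ^ 2) hρ0 hρ1 fun y hy => ?_⟩
  have h3 := hkt (y / ρ) (by
    rw [abs_div, abs_of_pos hρ0, div_le_one hρ0]
    exact hy)
  rw [mul_div_cancel₀ y hρ0.ne', hb00, zero_add] at h3
  rw [h3]
  ring

end P23D
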