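import Mathlib
import Pool.Agent.Lib.P23D.PDlem

/-!
# Module P23D.Red : reduction to one dependence

PROOF.  Let `R i j = ‖b i - b j‖²`.  For `c` with `∑ c i = 0`: `∑ c i c j R i j = -2 ‖∑ c i • b i‖²` (as
`quad_norm`, for a general inner product space `H`).  If `Pos R`, the first alternative.  Otherwise
there is `μ ≠ 0` with `∑ μ i = 0` and `∑ μ i • b i = 0`.
Let `V = vectorSpan ℝ (Set.range b)`, `n = finrank V`; `hdim : N ≤ n + 2` and `N ≥ 1`.  The linear map
`T : {c : Fin N → ℝ | ∑ c = 0} → V`, `c ↦ ∑ c i • b i` (it is in `V`: `∑ c i • (b i - b o)`) is onto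
(`vectorSpan` is spanned by the differences `b i - b o`), so its kernel has dimension
`N - 1 - n ≤ 1`; it contains `μ ≠ 0`, so every `c` in the kernel is a multiple of `μ`.
Support: at least four elements.  It is not empty.  If it were contained in a set of at most three
indices `{i, j, k}` (distinct; if the support has fewer than three elements add indices, if
`N ≥ 3`; the cases of one or two non-zero entries are also directly impossible because `b` is
injective): `μ i + μ j + μ k = 0` and `μ i • b i + μ j • b j + μ k • b k = 0` with not all zero makes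
`b i, b j, b k` collinear.
Choose a linear isometry `J : V ≃ₗᵢ[ℝ] E n` (`stdOrthonormalBasis ℝ V`, `.repr`) and `a i = J (b i - b o)`
(`o = 0`, `b i - b o ∈ V`).  Then `‖a i - a j‖ = ‖b i - b j‖`, `∑ c i • a i = J (∑ c i • b i)` for
`∑ c = 0`; so `Dep a μ`.
-/

set_option autoImplicit false

namespace P23D

namespace RedAux

theorem supp4 {H : Type*} [NormedAddCommGroup H] [InnerProductSpace ℝ H] {N : ℕ}
    (b : Fin N → H) (hinj : Function.Injective b)
    (hcol : ∀ i j k : Fin N, i ≠ j → i ≠ k → j ≠ k → ¬ Collinear ℝ ({b i, b j, b k} : Set H))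
    (μ : Fin N → ℝ) (hμ0 : μ ≠ 0) (h0 : ∑ i, μ i = 0) (h1 : ∑ i, μ i • b i = 0) :
    ∃ f : Fin 4 → Fin N, Function.Injective f ∧ ∀ k, μ (f k) ≠ 0 := by
  classical
  set s : Finset (Fin N) := Finset.univ.filter fun i => μ i ≠ 0 with hs
  have hmem : ∀ i, i ∈ s ↔ μ i ≠ 0 := fun i => by simp [hs]
  have hs0 : ∑ i ∈ s, μ i = 0 := by
    rw [← h0]
    apply Finset.sum_subset (Finset.subset_univ _)
    intro i _ hi
    by_contra hne
    exact hi ((hmem i).2 hne)
  have hs1 : ∑ i ∈ s, μ i • b i = 0 := by
    rw [← h1]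
    apply Finset.sum_subset (Finset.subset_univ _)
    intro i _ hi
    by_contra hne
    exact hi ((hmem i).2 fun h => hne (by rw [h, zero_smul]))
  have hcard : 4 ≤ s.card := by
    by_contra hlt
    push Not at hlt
    interval_cases hc : s.card
    · rw [Finset.card_eq_zero] at hc
      apply hμ0
      funext i
      by_contra hne
      have : i ∈ s := (hmem i).2 hne
      rw [hc] at this
      simp at this
    · obtain ⟨i, hi⟩ := Finset.card_eq_one.1 hc
      rw [hi, Finset.sum_singleton] at hs0
      exact (hmem i).1 (by rw [hi]; simp) hs0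
    · obtain ⟨i, j, hij, hi⟩ := Finset.card_eq_two.1 hc
      rw [hi, Finset.sum_pair hij] at hs0 hs1
      have hj : μ j ≠ 0 := (hmem j).1 (by rw [hi]; simp)
      have e1 : μ i = -μ j := by linarith
      rw [e1, neg_smul, neg_add_eq_sub, ← smul_sub, smul_eq_zero] at hs1
      rcases hs1 with h | h
      · exact hj h
      · exact hij (hinj (sub_eq_zero.1 h)).symm
    · obtain ⟨i, j, k, hij, hik, hjk, hi⟩ := Finset.card_eq_three.1 hc
      have hi0 : μ i ≠ 0 := (hmem i).1 (by rw [hi]; simp)
      have hnot1 : i ∉ ({j, k} : Finset (Fin N)) := by simp [hij, hik]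
      rw [hi, Finset.sum_insert hnot1, Finset.sum_pair hjk] at hs0 hs1
      apply hcol i j k hij hik hjk
      rw [collinear_iff_of_mem (p₀ := b j) (by simp)]
      refine ⟨b k - b j, ?_⟩
      intro p hp
      simp only [Set.mem_insert_iff, Set.mem_singleton_iff] at hp
      rcases hp with h | h | h
      · refine ⟨-(μ k / μ i), ?_⟩
        rw [h, vadd_eq_add]
        have e1 : μ i • b i = μ i • (-(μ k / μ i) • (b k - b j) + b j) := by
          rw [smul_add, smul_smul, mul_neg, mul_div_cancel₀ _ hi0]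
          have e2 : μ i • b i = -(μ j • b j + μ k • b k) := eq_neg_of_add_eq_zero_left hs1
          have e3 : μ i = -μ j - μ k := by linarith
          rw [e2, e3]
          module
        exact smul_right_injective H hi0 e1
      · exact ⟨0, by rw [h]; simp⟩
      · exact ⟨1, by rw [h]; simp⟩
  obtain ⟨t, ht, htc⟩ := Finset.exists_subset_card_eq hcard
  refine ⟨fun k => t.orderEmbOfFin htc k, (t.orderEmbOfFin htc).injective, fun k => ?_⟩
  exact (hmem _).1 (ht (Finset.orderEmbOfFin_mem t htc k))

end RedAux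

theorem reduction {H : Type*} [NormedAddCommGroup H] [InnerProductSpace ℝ H] {N : ℕ}
    (b : Fin N → H) (hinj : Function.Injective b)
    (hdim : N ≤ Module.finrank ℝ (vectorSpan ℝ (Set.range b)) + 2)
    (hcol : ∀ i j k : Fin N, i ≠ j → i ≠ k → j ≠ k → ¬ Collinear ℝ ({b i, b j, b k} : Set H)) :
    Pos (fun i j => ‖b i - b j‖ ^ 2) ∨
      ∃ (n : ℕ) (a : Fin N → E n) (μ : Fin N → ℝ), Dep a μ ∧
        ∀ i j, ‖a i - a j‖ = ‖b i - b j‖ := by
  classical
  by_cases hP : Pos (fun i j => ‖b i - b j‖ ^ 2)
  · exact Or.inl hP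
  right
  unfold Pos at hP
  push Not at hP
  obtain ⟨μ, h0, hμ, hq⟩ := hP
  rw [quad_norm_gen b μ h0] at hq
  have h1 : ∑ i, μ i • b i = 0 := by
    rw [← norm_eq_zero]
    nlinarith [norm_nonneg (∑ i, μ i • b i)]
  obtain ⟨f4, hf4, hf4'⟩ := RedAux.supp4 b hinj hcol μ hμ h0 h1
  set o : Fin N := f4 0 with ho
  set V := vectorSpan ℝ (Set.range b) with hV
  have hmemV : ∀ i, b i - b o ∈ V := fun i =>
    vsub_mem_vectorSpan ℝ (Set.mem_range_self i) (Set.mem_range_self o)
  haveI : FiniteDimensional ℝ V := finiteDimensional_vectorSpan_range ℝ b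
  let x : Fin N → V := fun i => ⟨b i - b o, hmemV i⟩
  have hx : ∀ i, ((x i : V) : H) = b i - b o := fun i => rfl
  have hxo : x o = 0 := by
    apply Subtype.ext
    rw [hx, sub_self]
    rfl
  let F : (Fin N → ℝ) →ₗ[ℝ] (V × ℝ) :=
    { toFun := fun c => (∑ i, c i • x i, ∑ i, c i)
      map_add' := by
        intro c d
        simp only [Pi.add_apply, add_smul, Finset.sum_add_distrib, Prod.mk_add_mk]
      map_smul' := by
        intro r c
        simp only [Pi.smul_apply, smul_eq_mul, RingHom.id_apply, Prod.smul_mk, Finset.mul_sum,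
          Finset.smul_sum, smul_smul] }
  have hF : ∀ c, F c = (∑ i, c i • x i, ∑ i, c i) := fun c => rfl
  have hsum : ∀ c : Fin N → ℝ, ((∑ i, c i • x i : V) : H) = ∑ i, c i • (b i - b o) := by
    intro c
    rw [Submodule.coe_sum]
    rfl
  have hsurj : Function.Surjective F := by
    rintro ⟨v, r⟩
    have hv : (v : H) ∈ Submodule.span ℝ (Set.range fun i => b i - b o) := by
      have h2 : (v : H) ∈ vectorSpan ℝ (Set.range b) := v.2
      have h3 := vectorSpan_range_eq_span_range_vsub_right ℝ b o
      exact h3 ▸ h2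
    obtain ⟨c, hc⟩ := (Submodule.mem_span_range_iff_exists_fun ℝ).1 hv
    refine ⟨c + (r - ∑ i, c i) • Pi.single o 1, ?_⟩
    have e1 : F c = (v, ∑ i, c i) := by
      rw [hF]
      congr 1
      apply Subtype.ext
      rw [hsum, hc]
    have e2 : F (Pi.single o 1) = (0, 1) := by
      rw [hF]
      congr 1
      · rw [Finset.sum_eq_single o]
        · rw [hxo, smul_zero]
        · intro i _ hi
          rw [Pi.single_eq_of_ne hi, zero_smul]
        · intro h
          exact absurd (Finset.mem_univ o) h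
      · rw [Finset.sum_eq_single o]
        · rw [Pi.single_eq_same]
        · intro i _ hi
          rw [Pi.single_eq_of_ne hi]
        · intro h
          exact absurd (Finset.mem_univ o) h
    rw [map_add, map_smul, e1, e2]
    simp
  have hker : Module.finrank ℝ (LinearMap.ker F) ≤ 1 := by
    have e1 := LinearMap.finrank_range_add_finrank_ker F
    rw [LinearMap.range_eq_top.2 hsurj, finrank_top, Module.finrank_prod, Module.finrank_self,
      Module.finrank_fin_fun] at e1
    omega
  have hFμ : F μ = 0 := by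
    rw [hF, h0]
    have e1 : (∑ i, μ i • x i : V) = 0 := by
      apply Subtype.ext
      rw [hsum]
      simp_rw [smul_sub]
      rw [Finset.sum_sub_distrib, h1, ← Finset.sum_smul, h0, zero_smul, sub_zero]
      rfl
    rw [e1]
    rfl
  have hmul : ∀ c : Fin N → ℝ, F c = 0 → ∃ t : ℝ, ∀ i, c i = t * μ i := by
    intro c hc
    let m : LinearMap.ker F := ⟨μ, hFμ⟩
    have hm : m ≠ 0 := fun h => hμ (congrArg Subtype.val h)
    have hone : Module.finrank ℝ (LinearMap.ker F) = 1 := by
      have : 0 < Module.finrank ℝ (LinearMap.ker F) := Module.finrank_pos_iff_exists_ne_zero.2 ⟨m, hm⟩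
      omega
    obtain ⟨t, ht⟩ := (finrank_eq_one_iff_of_nonzero' m hm).1 hone ⟨c, hc⟩
    refine ⟨t, fun i => ?_⟩
    have := congrFun (congrArg Subtype.val ht) i
    exact this.symm
  let J := (stdOrthonormalBasis ℝ V).repr
  have hJsum : ∀ c : Fin N → ℝ, ∑ i, c i • J (x i) = J (∑ i, c i • x i) := by
    intro c
    rw [map_sum]
    exact Finset.sum_congr rfl fun i _ => (map_smul J (c i) (x i)).symm
  refine ⟨Module.finrank ℝ V, fun i => J (x i), μ, ⟨h0, ?_, ?_, f4, hf4, hf4'⟩, ?_⟩
  · rw [hJsum]
    have e1 : (∑ i, μ i • x i : V) = 0 := congrArg Prod.fst hFμ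
    rw [e1, map_zero]
  · intro c hc0 hc1
    apply hmul
    rw [hJsum] at hc1
    have e1 : (∑ i, c i • x i : V) = 0 := by
      apply J.injective
      rw [hc1, map_zero]
    rw [hF, e1, hc0]
    rfl
  · intro i j
    rw [← map_sub, LinearIsometryEquiv.norm_map]
    show ‖((x i - x j : V) : H)‖ = _
    rw [Submodule.coe_sub, hx, hx, sub_sub_sub_cancel_right]

end P23D
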