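import Mathlib
import Pool.Agent.Lib.P23D.PDlem
import Pool.Agent.Lib.P23D.Pairs
import Pool.Agent.Lib.P23D.Emb

/-!
# Module P23D.Trunc : truncated ellipses

Model: `Pool/Agent/Lib/P23F/Trunc.lean`.

PROOF.  First the flat part: for `r` with `r² ≤ (1 - α) s²`:
`Φ (s • x) r = |s|`.  Indeed for `d > |s|` `hsec` gives `Φ (s • x) √(d² - α s²) = d`, so
`Φ (s • x) r ≤ d` (`mono_right`); let `d ↓ |s|`; and `|s| = ‖s • x‖ ≤ Φ (s • x) r` (`norm_le`).

Let `i₀ ≠ j₀` with `0 < μ i₀ μ j₀` (`Dep.same`), `d₀ = ‖a i₀ - a j₀‖`,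
`w = dir a i₀ j₀`, `s i = ⟪w, a i⟫`; `s i₀ - s j₀ = d₀`.  `pd_lemma` with `m = 1 - α` gives
`η`, `C`.  Let `0 < e ≤ η`, `C (2 e²) < 2 μ i₀ μ j₀ e`, `e < (1 - α) d₀²`.  Let
`f i₀ j₀ = f j₀ i₀ = e`, other entries `0`, `R i j = ‖a_ij‖² - α ⟪w, a_ij⟫² - f i j`.  Hypothesis of
`pd_lemma` with `c0 = 0`: `α ⟪w, z⟫² ≤ α ‖z‖²`.  So `R` is `Pos`, hence `Good`.
* For `i ≠ j`, `{i, j} ≠ {i₀, j₀}`: by `Dep.par` the pair is not parallel to `(i₀, j₀)` (a
  parallel pair would force `μ i₀ + μ j₀ = 0`, but `0 < μ i₀ μ j₀`), so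
  `|s i - s j| < ‖a_ij‖` (strict Cauchy-Schwarz) and `Φ ((s i - s j) • x) √(R i j) = ‖a_ij‖` by `hsec`.
* For `(i₀, j₀)`: `R = (1 - α) d₀² - e < (1-α) d₀²`; the flat part with `s = (1 + t) d₀`,
  `|t| ≤ δ₀` and `|r - √R| ≤ δ₀`, `δ₀` small such that `r² ≤ (1 - α)(1 + t)² d₀²` (continuity), gives
  `Φ (((1+t) d₀) • x) r = (1 + t) d₀`.
Apply `embed_B`.
-/

set_option autoImplicit false

namespace P23D

private theorem trunc_flat {X : Type*} [NormedAddCommGroup X] [NormedSpace ℝ X] {Φ : X → ℝ → ℝ}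
    (hΦ : P23F.IsType Φ) (x : X) (hx : ‖x‖ = 1) (α : ℝ)
    (hsec : ∀ s d : ℝ, |s| < d → Φ (s • x) √(d ^ 2 - α * s ^ 2) = d) (s r : ℝ)
    (hr : r ^ 2 ≤ (1 - α) * s ^ 2) : Φ (s • x) r = |s| := by
  apply le_antisymm
  · refine le_of_forall_gt_imp_ge_of_dense fun d hd => ?_
    rw [← hsec s d hd]
    refine hΦ.mono_right _ ?_
    rw [abs_of_nonneg (Real.sqrt_nonneg _)]
    apply Real.abs_le_sqrt
    have h1 : s ^ 2 ≤ d ^ 2 := by
      rw [← sq_abs s]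
      exact pow_le_pow_left₀ (abs_nonneg s) hd.le 2
    linarith
  · have h1 := hΦ.norm_le (s • x) r
    rw [norm_smul, hx, mul_one, Real.norm_eq_abs] at h1
    exact h1

private theorem trunc_sum {N : ℕ} (i₀ j₀ : Fin N) (hij : i₀ ≠ j₀) (g : Fin N → Fin N → ℝ)
    (hg : g i₀ j₀ = g j₀ i₀) (e : ℝ) :
    ∑ i, ∑ j, g i j * (if (i = i₀ ∧ j = j₀) ∨ (i = j₀ ∧ j = i₀) then e else 0) =
      2 * g i₀ j₀ * e := by
  have h1 : ∀ i j, g i j * (if (i = i₀ ∧ j = j₀) ∨ (i = j₀ ∧ j = i₀) then e else 0) =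
      (if i = i₀ then (if j = j₀ then g i j * e else 0) else 0) +
      (if i = j₀ then (if j = i₀ then g i j * e else 0) else 0) := by
    intro i j
    by_cases h1 : i = i₀
    · by_cases h2 : j = j₀
      · subst h1 h2
        simp [hij]
      · subst h1
        simp [hij, h2]
    · by_cases h3 : i = j₀
      · by_cases h4 : j = i₀
        · subst h3 h4
          simp [h1]
        · subst h3
          simp [h1, h4]
      · simp [h1, h3]
  simp_rw [h1, Finset.sum_add_distrib]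
  simp [← hg]
  ring

theorem trunc {X : Type*} [NormedAddCommGroup X] [NormedSpace ℝ X] {Φ : X → ℝ → ℝ}
    (hΦ : P23F.IsType Φ) (x : X) (hx : ‖x‖ = 1) {N n : ℕ} {a : Fin N → E n} {μ : Fin N → ℝ}
    (hd : Dep a μ) (α : ℝ) (hα0 : 0 ≤ α) (hα1 : α < 1)
    (hsec : ∀ s d : ℝ, |s| < d → Φ (s • x) √(d ^ 2 - α * s ^ 2) = d) :
    ∃ P : Fin N → X, ∀ i j, i ≠ j → ‖P i - P j‖ = ‖a i - a j‖ := by
  have hflat := trunc_flat hΦ x hx α hsec
  obtain ⟨i₀, j₀, hij, hμ⟩ := hd.same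
  have hd0 : 0 < ‖a i₀ - a j₀‖ := hd.npos hij
  obtain ⟨d₀, hd₀⟩ : ∃ d₀, d₀ = ‖a i₀ - a j₀‖ := ⟨_, rfl⟩
  obtain ⟨w, hw⟩ : ∃ w, w = dir a i₀ j₀ := ⟨_, rfl⟩
  have hwn : ‖w‖ = 1 := by
    rw [hw]
    exact hd.norm_dir hij
  have hwd : d₀ • w = a i₀ - a j₀ := by
    rw [hw, hd₀, norm_smul_dir]
  rw [← hd₀] at hd0
  have hadd : ∀ u v : E n, (inner ℝ w (u - v) : ℝ) = inner ℝ w u - inner ℝ w v := fun u v =>
    inner_sub_right w u v
  have hneg : ∀ z : E n, (inner ℝ w (-z) : ℝ) = -inner ℝ w z := fun z => inner_neg_right w z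
  have hip0 : (inner ℝ w (a i₀ - a j₀) : ℝ) = d₀ := by
    rw [← hwd, real_inner_smul_right, real_inner_self_eq_norm_sq, hwn]
    ring
  have hcs : ∀ z : E n, (inner ℝ w z : ℝ) ^ 2 ≤ ‖z‖ ^ 2 := by
    intro z
    have h1 := abs_real_inner_le_norm w z
    rw [hwn, one_mul] at h1
    rw [← sq_abs (inner ℝ w z)]
    exact pow_le_pow_left₀ (abs_nonneg _) h1 2
  obtain ⟨η, hη, C, hC, hpd⟩ := pd_lemma a μ hd (1 - α) (by linarith)
  have hm : 0 < 1 - α := by linarith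
  have hq : 0 < (1 - α) * d₀ ^ 2 := by positivity
  obtain ⟨e, he0, he1, he2, he3⟩ : ∃ e : ℝ, 0 < e ∧ e ≤ η ∧ C * e < μ i₀ * μ j₀ ∧
      e < (1 - α) * d₀ ^ 2 := by
    refine ⟨min η (min (μ i₀ * μ j₀ / (2 * C)) ((1 - α) * d₀ ^ 2 / 2)),
      lt_min hη (lt_min (by positivity) (by positivity)), min_le_left _ _, ?_, ?_⟩
    · have h2 : min η (min (μ i₀ * μ j₀ / (2 * C)) ((1 - α) * d₀ ^ 2 / 2)) ≤
          μ i₀ * μ j₀ / (2 * C) := (min_le_right _ _).trans (min_le_left _ _)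
      have h3 := mul_le_mul_of_nonneg_left h2 hC.le
      have h4 : C * (μ i₀ * μ j₀ / (2 * C)) = μ i₀ * μ j₀ / 2 := by
        field_simp
      linarith
    · have h2 : min η (min (μ i₀ * μ j₀ / (2 * C)) ((1 - α) * d₀ ^ 2 / 2)) ≤
          (1 - α) * d₀ ^ 2 / 2 := (min_le_right _ _).trans (min_le_right _ _)
      linarith
  obtain ⟨f, hf⟩ : ∃ f : Fin N → Fin N → ℝ,
      f = fun i j => if (i = i₀ ∧ j = j₀) ∨ (i = j₀ ∧ j = i₀) then e else 0 := ⟨_, rfl⟩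
  have hfs : ∀ i j, f i j = f j i := by
    intro i j
    rw [hf]
    by_cases h2 : (i = i₀ ∧ j = j₀) ∨ (i = j₀ ∧ j = i₀)
    · have h3 : (j = i₀ ∧ i = j₀) ∨ (j = j₀ ∧ i = i₀) := by tauto
      simp only [h2, h3, if_true]
    · have h3 : ¬ ((j = i₀ ∧ i = j₀) ∨ (j = j₀ ∧ i = i₀)) := by tauto
      simp only [h2, h3, if_false]
  have hf0 : f i₀ j₀ = e := by
    rw [hf]
    simp
  have hfn : ∀ i j, ¬ ((i = i₀ ∧ j = j₀) ∨ (i = j₀ ∧ j = i₀)) → f i j = 0 := by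
    intro i j h2
    rw [hf]
    simp only [h2, if_false]
  have hpos := hpd 0 α w (fun z => by
      have h3 := hcs z
      have h4 := mul_le_mul_of_nonneg_left h3 hα0
      linarith) f hfs
    (fun i j => by
      by_cases h2 : (i = i₀ ∧ j = j₀) ∨ (i = j₀ ∧ j = i₀)
      · have h3 : f i j = e := by
          rw [hf]
          simp only [h2, if_true]
        rw [h3, abs_of_pos he0]
        exact he1
      · rw [hfn i j h2, abs_zero]
        exact hη.le)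
    (by
      have e1 : ∑ i, ∑ j, f i j ^ 2 = 2 * e ^ 2 := by
        have h2 := trunc_sum i₀ j₀ hij (fun _ _ => e) rfl e
        rw [show (2 : ℝ) * e ^ 2 = 2 * e * e by ring, ← h2]
        refine Finset.sum_congr rfl fun i _ => Finset.sum_congr rfl fun j _ => ?_
        rw [hf]
        by_cases h3 : (i = i₀ ∧ j = j₀) ∨ (i = j₀ ∧ j = i₀)
        · simp only [h3, if_true]
          ring
        · simp only [h3, if_false]
          ring
      have e2 : ∑ i, ∑ j, μ i * μ j * f i j = 2 * (μ i₀ * μ j₀) * e := by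
        rw [← trunc_sum i₀ j₀ hij (fun i j => μ i * μ j) (mul_comm _ _) e, hf]
      rw [e1, e2]
      nlinarith)
  obtain ⟨R, hRdef⟩ : ∃ R : Fin N → Fin N → ℝ, R = fun i j =>
    ‖a i - a j‖ ^ 2 - α * (inner ℝ w (a i - a j) : ℝ) ^ 2 - f i j := ⟨_, rfl⟩
  have hRv : ∀ i j, R i j = ‖a i - a j‖ ^ 2 - α * (inner ℝ w (a i - a j) : ℝ) ^ 2 - f i j := by
    intro i j
    rw [hRdef]
  have hR : Good R := by
    refine ⟨fun i => ?_, fun i j => ?_, ?_⟩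
    · have h2 : ¬ ((i = i₀ ∧ i = j₀) ∨ (i = j₀ ∧ i = i₀)) := by
        rintro (⟨h3, h4⟩ | ⟨h3, h4⟩)
        · exact hij (h3.symm.trans h4)
        · exact hij (h4.symm.trans h3)
      rw [hRv, hfn i i h2, sub_self, inner_zero_right, norm_zero]
      ring
    · rw [hRv, hRv, hfs i j, ← neg_sub (a j) (a i), norm_neg, hneg]
      ring
    · rw [hRdef]
      have e1 : (fun i j => ‖a i - a j‖ ^ 2 - α * (inner ℝ w (a i - a j) : ℝ) ^ 2 - f i j) =
          fun i j => (1 - 0) * ‖a i - a j‖ ^ 2 - α * (inner ℝ w (a i - a j) : ℝ) ^ 2 - f i j := by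
        funext i j
        ring
      rw [e1]
      exact hpos
  have hR0 : R i₀ j₀ = (1 - α) * d₀ ^ 2 - e := by
    rw [hRv, hip0, hf0, ← hd₀]
    ring
  have hR0p : 0 < R i₀ j₀ := by
    rw [hR0]
    linarith
  have hlt : ∀ i j, i ≠ j → ¬ ((i = i₀ ∧ j = j₀) ∨ (i = j₀ ∧ j = i₀)) →
      |(inner ℝ w (a i) : ℝ) - inner ℝ w (a j)| < ‖a i - a j‖ := by
    intro i j hne hn
    rw [← hadd]
    apply abs_lt_of_sq_lt_sq _ (norm_nonneg _)
    have hnp : ¬ (dir a i j = dir a i₀ j₀ ∨ dir a i j = -dir a i₀ j₀) := by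
      intro h2
      rcases hd.par hij hne h2 with h6 | h6 | h6
      · exact hn (Or.inl h6)
      · exact hn (Or.inr h6)
      · have h7 : μ j₀ = -μ i₀ := by linarith [h6.1]
        rw [h7] at hμ
        nlinarith [sq_nonneg (μ i₀)]
    push Not at hnp
    have h3 : (inner ℝ (dir a i₀ j₀) (dir a i j) : ℝ) ^ 2 < 1 :=
      DiffAux.inner_sq_lt (hd.norm_dir hij) (hd.norm_dir hne) hnp.1 hnp.2
    rw [← hw] at h3
    have h4 : (inner ℝ w (a i - a j) : ℝ) = ‖a i - a j‖ * inner ℝ w (dir a i j) := by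
      rw [← real_inner_smul_right, norm_smul_dir]
    have h5 : 0 < ‖a i - a j‖ ^ 2 := by
      have := hd.npos hne
      positivity
    rw [h4, mul_pow]
    nlinarith
  -- continuity of the flat part
  obtain ⟨δ₀, hδ₀, hδ⟩ : ∃ δ₀ > 0, ∀ t r : ℝ, |t| ≤ δ₀ → |r - √(R i₀ j₀)| ≤ δ₀ →
      0 < 1 + t ∧ r ^ 2 ≤ (1 - α) * ((1 + t) * d₀) ^ 2 := by
    have hc : Continuous fun p : ℝ × ℝ => (1 - α) * ((1 + p.1) * d₀) ^ 2 - p.2 ^ 2 := by
      fun_prop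
    have h0 : 0 < (fun p : ℝ × ℝ => (1 - α) * ((1 + p.1) * d₀) ^ 2 - p.2 ^ 2)
        (0, √(R i₀ j₀)) := by
      show 0 < (1 - α) * ((1 + 0) * d₀) ^ 2 - √(R i₀ j₀) ^ 2
      rw [Real.sq_sqrt hR0p.le, hR0]
      nlinarith
    have h1 := hc.continuousAt.eventually (lt_mem_nhds h0)
    obtain ⟨ε, hε, hball⟩ := Metric.eventually_nhds_iff.1 h1
    refine ⟨min (1 / 2) (ε / 2), lt_min (by norm_num) (by positivity), fun t r ht hr => ?_⟩
    have ht1 : |t| ≤ 1 / 2 := ht.trans (min_le_left _ _)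
    have ht2 : |t| ≤ ε / 2 := ht.trans (min_le_right _ _)
    have hr2 : |r - √(R i₀ j₀)| ≤ ε / 2 := hr.trans (min_le_right _ _)
    refine ⟨by linarith [neg_abs_le t], ?_⟩
    have h2 := @hball (t, r) (by
      rw [Prod.dist_eq, max_lt_iff]
      constructor
      · show dist t 0 < ε
        rw [Real.dist_eq, sub_zero]
        linarith
      · show dist r (√(R i₀ j₀)) < ε
        rw [Real.dist_eq]
        linarith)
    have h3 : 0 < (1 - α) * ((1 + t) * d₀) ^ 2 - r ^ 2 := h2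
    linarith
  refine embed_B hΦ x (fun i => (inner ℝ w (a i) : ℝ)) R hR (fun i j => ‖a i - a j‖)
    (fun i j => norm_sub_rev _ _) i₀ j₀ hij (by rw [← hd₀]; exact hd0) ?_ ?_
  · intro i j hne hn
    have h2 := hlt i j hne hn
    refine ⟨?_, ?_⟩
    · show Φ (((inner ℝ w (a i) : ℝ) - inner ℝ w (a j)) • x) √(R i j) = ‖a i - a j‖
      rw [hRv, hfn i j hn, sub_zero, hadd]
      exact hsec _ _ h2
    · show ‖((inner ℝ w (a i) : ℝ) - inner ℝ w (a j)) • x‖ < ‖a i - a j‖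
      rw [norm_smul, hx, mul_one, Real.norm_eq_abs]
      exact h2
  · refine ⟨δ₀, hδ₀, fun t r ht hr => ?_⟩
    obtain ⟨h2, h3⟩ := hδ t r ht hr
    show Φ (((1 + t) * ((inner ℝ w (a i₀) : ℝ) - inner ℝ w (a j₀))) • x) r =
      (1 + t) * ‖a i₀ - a j₀‖
    rw [← hadd, hip0, hflat ((1 + t) * d₀) r h3, abs_of_pos (mul_pos h2 hd0), hd₀]

end P23D
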