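import Mathlib
import Pool.Agent.Lib.P23D.Main

/-!
# Module P23D.Final : subsets of Hilbert spaces
-/

set_option autoImplicit false

namespace P23D

theorem final {H : Type*} [NormedAddCommGroup H] [InnerProductSpace ℝ H] (X : Type*)
    [NormedAddCommGroup X] [NormedSpace ℝ X] (hX : ¬ FiniteDimensional ℝ X) (A : Set H)
    (hA : A.Finite) (hdim : A.ncard ≤ Module.finrank ℝ (vectorSpan ℝ A) + 2)
    (hcol : ∀ x ∈ A, ∀ y ∈ A, ∀ z ∈ A, x ≠ y → x ≠ z → y ≠ z → ¬ Collinear ℝ ({x, y, z} : Set H)) :
    ∃ f : A → X, Isometry f := by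
  classical
  have : Fintype A := hA.fintype
  have hcard : Fintype.card A = A.ncard := by
    rw [← Nat.card_coe_set_eq, Nat.card_eq_fintype_card]
  let e : A ≃ Fin A.ncard := (Fintype.equivFin A).trans (finCongr hcard)
  let b : Fin A.ncard → H := fun i => (e.symm i : H)
  have hb : Function.Injective b := fun i j h => e.symm.injective (Subtype.ext h)
  have hr : Set.range b = A := by
    ext x
    constructor
    · rintro ⟨i, rfl⟩
      exact (e.symm i).2
    · intro hx
      exact ⟨e ⟨x, hx⟩, by simp [b]⟩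
  obtain ⟨P, hP⟩ := embeds hX b hb (by rw [hr]; exact hdim) (fun i j k hij hik hjk =>
    hcol _ (e.symm i).2 _ (e.symm j).2 _ (e.symm k).2 (fun h => hij (hb h)) (fun h => hik (hb h))
      (fun h => hjk (hb h)))
  refine ⟨fun x => P (e x), Isometry.of_dist_eq fun x y => ?_⟩
  rw [dist_eq_norm, hP, Subtype.dist_eq, dist_eq_norm]
  simp [b]

end P23D
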